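import Pool.Statements.S06281

set_option autoImplicit false
open Pool Pool.MP_d4e048_an

namespace Pool.Agent.S06281

section Alg
variable {R : Type*} [Ring R]

/-- A ring with a nonzero nonunit and the purely infinite simple property contains a
left invertible element which is not invertible. -/
lemma exists_proper (hnd : ∃ x : R, x ≠ 0 ∧ ¬ IsUnit x)
    (hpi : ∀ x : R, x ≠ 0 → ∃ a b : R, a * x * b = 1) :
    ∃ s t : R, t * s = 1 ∧ s * t ≠ 1 := by
  obtain ⟨x, hx0, hxu⟩ := hnd
  obtain ⟨a, b, hab⟩ := hpi x hx0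
  by_cases h1 : x * b * a = 1
  · by_cases h2 : b * a * x = 1
    · exfalso
      apply hxu
      exact ⟨⟨x, b * a, by rw [← mul_assoc]; exact h1, h2⟩, rfl⟩
    · refine ⟨b, a * x, hab, ?_⟩
      intro h
      exact h2 (by rw [mul_assoc]; exact h)
  · exact ⟨x * b, a, by rw [← mul_assoc]; exact hab, h1⟩

/-- Two nonzero elements have a common right multiplier making both left invertible. -/
lemma exists_common (hpi : ∀ x : R, x ≠ 0 → ∃ a b : R, a * x * b = 1)
    (f f' : R) (hf : f ≠ 0) (hf' : f' ≠ 0) :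
    ∃ v c c' : R, c * f * v = 1 ∧ c' * f' * v = 1 := by
  obtain ⟨a, b, hab⟩ := hpi f hf
  obtain ⟨a', b', hab'⟩ := hpi f' hf'
  by_cases h : f' * b = 0
  · by_cases h' : f * b' = 0
    · refine ⟨b + b', a, a', ?_, ?_⟩
      · rw [mul_add, hab, mul_assoc a f b', h']; simp
      · rw [mul_add, hab', mul_assoc a' f' b, h]; simp
    · obtain ⟨c, x, hcx⟩ := hpi _ h'
      refine ⟨b' * x, c, (c * (f * b')) * a', ?_, ?_⟩
      · rw [← hcx]; noncomm_ring
      · calc c * (f * b') * a' * f' * (b' * x) = c * (f * b') * (a' * f' * b') * x := by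
              noncomm_ring
          _ = 1 := by rw [hab', mul_one, hcx]
  · obtain ⟨c, x, hcx⟩ := hpi _ h
    refine ⟨b * x, (c * (f' * b)) * a, c, ?_, ?_⟩
    · calc c * (f' * b) * a * f * (b * x) = c * (f' * b) * (a * f * b) * x := by
              noncomm_ring
          _ = 1 := by rw [hab, mul_one, hcx]
    · rw [← hcx]; noncomm_ring

end Alg

section Top
variable {R : Type*} [Ring R] [Algebra ℂ R] [TopologicalSpace R] [IsTopologicalRing R]
  [ContinuousSMul ℂ R]

/-- The identity component. -/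
abbrev N (R : Type*) [Ring R] [TopologicalSpace R] [IsTopologicalRing R] : Subgroup Rˣ :=
  Subgroup.connectedComponentOfOne Rˣ

omit [Algebra ℂ R] [ContinuousSMul ℂ R] in
lemma mem_N_iff (u : Rˣ) : u ∈ N R ↔ u ∈ connectedComponent (1 : Rˣ) := Iff.rfl

omit [Algebra ℂ R] [ContinuousSMul ℂ R] in
/-- The identity component is normal. -/
lemma conj_mem (g u : Rˣ) (hu : u ∈ N R) : g * u * g⁻¹ ∈ N R := by
  have hc : Continuous (fun x : Rˣ => g * x * g⁻¹) := by fun_prop
  have h := hc.image_connectedComponent_subset (1 : Rˣ)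
  have h1 : g * u * g⁻¹ ∈ connectedComponent (g * 1 * g⁻¹) := h ⟨u, hu, rfl⟩
  rw [mul_one, mul_inv_cancel] at h1
  exact h1

omit [Algebra ℂ R] [TopologicalSpace R] [IsTopologicalRing R] [ContinuousSMul ℂ R] in
lemma unip_inv (x : R) (hx : x * x = 0) : (1 + x) * (1 - x) = 1 ∧ (1 - x) * (1 + x) = 1 := by
  constructor
  · calc (1 + x) * (1 - x) = 1 - x * x := by noncomm_ring
      _ = 1 := by rw [hx, sub_zero]
  · calc (1 - x) * (1 + x) = 1 - x * x := by noncomm_ring
      _ = 1 := by rw [hx, sub_zero]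

/-- Unipotents lie in the identity component. -/
lemma unip_mem (u : Rˣ) (n : R) (hn : n * n = 0) (hu : (u : R) = 1 + n) : u ∈ N R := by
  have hsq : ∀ c : ℂ, (c • n) * (c • n) = 0 := fun c => by
    rw [smul_mul_smul_comm, hn, smul_zero]
  let path : ℂ → Rˣ := fun c =>
    ⟨1 + c • n, 1 - c • n, (unip_inv _ (hsq c)).1, (unip_inv _ (hsq c)).2⟩
  have hcont : Continuous path := by
    rw [Units.continuous_iff]
    constructor
    · show Continuous (fun c : ℂ => 1 + c • n)
      fun_prop
    · show Continuous (fun c : ℂ => 1 - c • n)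
      fun_prop
  have hpre : IsPreconnected (Set.range path) := isPreconnected_range hcont
  have h0 : (1 : Rˣ) ∈ Set.range path := ⟨0, by ext; simp [path]⟩
  have h1 : u ∈ Set.range path := ⟨1, by ext; simp [path, hu]⟩
  exact hpre.subset_connectedComponent h0 h1

/-- Rotation. -/
lemma rot (E F : R) (hE : E * E = 0) (hF : F * F = 0) (_hEFE : E * F * E = E)
    (hFEF : F * E * F = F) : ∃ g : Rˣ, g ∈ N R ∧ (g : R) = 1 + E - F - F * E - E * F := by
  have hF' : (1 - F) * (1 + F) = 1 := by
    calc (1 - F) * (1 + F) = 1 - F * F := by noncomm_ring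
      _ = 1 := by rw [hF, sub_zero]
  have hF'' : (1 + F) * (1 - F) = 1 := by
    calc (1 + F) * (1 - F) = 1 - F * F := by noncomm_ring
      _ = 1 := by rw [hF, sub_zero]
  have hE' : (1 + E) * (1 - E) = 1 := by
    calc (1 + E) * (1 - E) = 1 - E * E := by noncomm_ring
      _ = 1 := by rw [hE, sub_zero]
  have hE'' : (1 - E) * (1 + E) = 1 := by
    calc (1 - E) * (1 + E) = 1 - E * E := by noncomm_ring
      _ = 1 := by rw [hE, sub_zero]
  let a : Rˣ := ⟨1 - F, 1 + F, hF', hF''⟩
  let b : Rˣ := ⟨1 + E, 1 - E, hE', hE''⟩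
  have ha : a ∈ N R := unip_mem a (-F) (by rw [neg_mul_neg, hF]) (by simp [a, sub_eq_add_neg])
  have hb : b ∈ N R := unip_mem b E hE (by simp [b])
  refine ⟨a * b * a, (N R).mul_mem ((N R).mul_mem ha hb) ha, ?_⟩
  show (1 - F) * (1 + E) * (1 - F) = 1 + E - F - F * E - E * F
  calc (1 - F) * (1 + E) * (1 - F) = 1 + E - F - F - F * E - E * F + F * F + F * E * F := by
        noncomm_ring
    _ = 1 + E - F - F * E - E * F := by rw [hF, hFEF]; abel

lemma rot_conj (E F : R) (hE : E * E = 0) (hF : F * F = 0) (hEFE : E * F * E = E)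
    (hFEF : F * E * F = F) (V W : Rˣ) (hV : (V : R) = 1 - F * E + F * E * V * (F * E))
    (hW : (W : R) = 1 - E * F + E * V * F) :
    ∃ g : Rˣ, g ∈ N R ∧ g * V = W * g := by
  obtain ⟨g, hg, hgv⟩ := rot E F hE hF hEFE hFEF
  refine ⟨g, hg, ?_⟩
  ext
  push_cast
  have hgp : (g : R) * (F * E) = E := by
    rw [hgv]
    calc (1 + E - F - F * E - E * F) * (F * E)
        = F * E + E * F * E - F * F * E - F * E * F * E - E * (F * F) * E := by noncomm_ring
      _ = E := by rw [hF, hEFE, hFEF]; simp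
  have hqg : (E * F) * (g : R) = E := by
    rw [hgv]
    calc (E * F) * (1 + E - F - F * E - E * F)
        = E * F + E * F * E - E * (F * F) - E * (F * F) * E - E * F * E * F := by noncomm_ring
      _ = E := by rw [hF, hEFE]; simp
  have hFg : F * (g : R) = F * E := by
    rw [hgv]
    calc F * (1 + E - F - F * E - E * F)
        = F + F * E - F * F - F * F * E - F * E * F := by noncomm_ring
      _ = F * E := by rw [hF, hFEF]; simp
  calc (g : R) * (V : R) = (g : R) * (1 - F * E + F * E * V * (F * E)) := by rw [← hV]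
    _ = g - g * (F * E) + (g * (F * E)) * V * (F * E) := by noncomm_ring
    _ = g - E + E * V * (F * E) := by rw [hgp]
    _ = g - (E * F) * g + E * V * (F * g) := by rw [hqg, hFg]
    _ = (1 - E * F + E * V * F) * g := by noncomm_ring
    _ = W * g := by rw [← hW]

lemma rot_component (E F : R) (hE : E * E = 0) (hF : F * F = 0) (hEFE : E * F * E = E)
    (hFEF : F * E * F = F) (V W : Rˣ) (hV : (V : R) = 1 - F * E + F * E * V * (F * E))
    (hW : (W : R) = 1 - E * F + E * V * F) :
    W * V⁻¹ ∈ N R := by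
  obtain ⟨g, hg, hgV⟩ := rot_conj E F hE hF hEFE hFEF V W hV hW
  have : W * V⁻¹ = g * (V * g⁻¹ * V⁻¹) := by
    have h : W = g * V * g⁻¹ := by rw [hgV]; group
    rw [h]; group
  rw [this]
  exact (N R).mul_mem hg (conj_mem _ _ ((N R).inv_mem hg))

/-- If `t1*s1=1=t2*s2` and neither is invertible then a product of unipotents takes `s2` to `s1`. -/
lemma transitive (hpi : ∀ x : R, x ≠ 0 → ∃ a b : R, a * x * b = 1)
    (s1 t1 s2 t2 : R) (h1 : t1 * s1 = 1) (h1' : s1 * t1 ≠ 1) (h2 : t2 * s2 = 1)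
    (h2' : s2 * t2 ≠ 1) : ∃ h : Rˣ, h ∈ N R ∧ (h : R) * s2 = s1 := by
  have key : ∀ s t v c : R, t * s = 1 → c * (1 - s * t) * v = 1 →
      ∃ g : Rˣ, g ∈ N R ∧ (g : R) * s = v := by
    intro s t v c hts hc
    -- dual elements
    set T2 : R := c * (1 - s * t) with hT2
    have hT2v : T2 * v = 1 := hc
    have hT2s : T2 * s = 0 := by
      calc c * (1 - s * t) * s = c * (s - s * (t * s)) := by noncomm_ring
        _ = 0 := by rw [hts]; simp
    set T1 : R := t - t * v * T2 with hT1
    have hT1s : T1 * s = 1 := by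
      calc (t - t * v * T2) * s = t * s - t * v * (T2 * s) := by noncomm_ring
        _ = 1 := by rw [hT2s, hts]; simp
    have hT1v : T1 * v = 0 := by
      calc (t - t * v * T2) * v = t * v - t * v * (T2 * v) := by noncomm_ring
        _ = 0 := by rw [hT2v]; simp
    have hE : (v * T1) * (v * T1) = 0 := by
      calc (v * T1) * (v * T1) = v * (T1 * v) * T1 := by noncomm_ring
        _ = 0 := by rw [hT1v]; simp
    have hF : (s * T2) * (s * T2) = 0 := by
      calc (s * T2) * (s * T2) = s * (T2 * s) * T2 := by noncomm_ring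
        _ = 0 := by rw [hT2s]; simp
    have hEFE : (v * T1) * (s * T2) * (v * T1) = v * T1 := by
      calc (v * T1) * (s * T2) * (v * T1) = v * (T1 * s) * (T2 * v) * T1 := by noncomm_ring
        _ = v * T1 := by rw [hT1s, hT2v]; simp
    have hFEF : (s * T2) * (v * T1) * (s * T2) = s * T2 := by
      calc (s * T2) * (v * T1) * (s * T2) = s * (T2 * v) * (T1 * s) * T2 := by noncomm_ring
        _ = s * T2 := by rw [hT1s, hT2v]; simp
    obtain ⟨g, hg, hgv⟩ := rot (v * T1) (s * T2) hE hF hEFE hFEF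
    refine ⟨g, hg, ?_⟩
    rw [hgv]
    calc (1 + v * T1 - s * T2 - s * T2 * (v * T1) - v * T1 * (s * T2)) * s
        = s + v * (T1 * s) - s * (T2 * s) - s * (T2 * v) * (T1 * s) - v * (T1 * s) * (T2 * s) := by
          noncomm_ring
      _ = v := by rw [hT1s, hT2s, hT2v]; simp
  have hf1 : 1 - s1 * t1 ≠ 0 := fun h => h1' (sub_eq_zero.mp h).symm
  have hf2 : 1 - s2 * t2 ≠ 0 := fun h => h2' (sub_eq_zero.mp h).symm
  obtain ⟨v, c, c', hc, hc'⟩ := exists_common hpi _ _ hf1 hf2
  obtain ⟨g1, hg1, hg1s⟩ := key s1 t1 v c h1 hc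
  obtain ⟨g2, hg2, hg2s⟩ := key s2 t2 v c' h2 hc'
  refine ⟨g1⁻¹ * g2, (N R).mul_mem ((N R).inv_mem hg1) hg2, ?_⟩
  rw [Units.val_mul, mul_assoc, hg2s, ← hg1s, ← mul_assoc, Units.inv_mul, one_mul]

omit [Algebra ℂ R] [ContinuousSMul ℂ R] in
/-- A continuous monoid homomorphism maps the identity component into the identity component. -/
lemma map_mem {S : Type*} [Ring S] [TopologicalSpace S] [IsTopologicalRing S]
    (Φ : R →* S) (hΦ : Continuous Φ) (u : Rˣ) (hu : u ∈ N R) : Units.map Φ u ∈ N S := by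
  have hc : Continuous (Units.map Φ) := Continuous.units_map Φ hΦ
  have h := hc.image_connectedComponent_subset (1 : Rˣ)
  have h1 : Units.map Φ u ∈ connectedComponent (Units.map Φ 1) := h ⟨u, hu, rfl⟩
  rw [map_one] at h1
  exact h1

/-- The corner homomorphism. -/
def corner (s t : R) (hts : t * s = 1) : R →* R where
  toFun x := s * x * t + (1 - s * t)
  map_one' := by simp
  map_mul' x y := by
    calc s * (x * y) * t + (1 - s * t)
        = s * x * 1 * y * t + (1 - s * t) := by noncomm_ring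
      _ = s * x * (t * s) * y * t + (s * x * t - s * x * (t * s) * t) +
            (s * y * t - s * (t * s) * y * t) + (1 - s * t - s * t + s * (t * s) * t) := by
          rw [hts]; noncomm_ring
      _ = (s * x * t + (1 - s * t)) * (s * y * t + (1 - s * t)) := by noncomm_ring

lemma core (hpi : ∀ x : R, x ≠ 0 → ∃ a b : R, a * x * b = 1)
    (s t : R) (hts : t * s = 1) (hst : s * t ≠ 1) (a θ : Rˣ)
    (hθ : (θ : R) = s * a * t + (1 - s * t)) (hθN : θ ∈ N R) : a ∈ N R := by
  -- move `a*s` back to `s`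
  have h2 : (t * ((a⁻¹ : Rˣ) : R)) * ((a : R) * s) = 1 := by
    rw [mul_assoc, ← mul_assoc _ (a : R) s, Units.inv_mul, one_mul, hts]
  have h2' : ((a : R) * s) * (t * ((a⁻¹ : Rˣ) : R)) ≠ 1 := by
    intro h
    apply hst
    have : s * t = ((a⁻¹ : Rˣ) : R) * (((a : R) * s) * (t * ((a⁻¹ : Rˣ) : R))) * (a : R) := by
      rw [mul_assoc (a : R) s, ← mul_assoc ((a⁻¹ : Rˣ) : R) (a : R), Units.inv_mul, one_mul,
        ← mul_assoc s t, mul_assoc (s * t), Units.inv_mul, mul_one]
    rw [this, h, mul_one, Units.inv_mul]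
  obtain ⟨h, hh, hhs⟩ := transitive hpi s t ((a : R) * s) (t * ((a⁻¹ : Rˣ) : R)) hts hst h2 h2'
  -- y = h a fixes s
  set y : Rˣ := h * a with hy
  have hys : (y : R) * s = s := by rw [hy, Units.val_mul, mul_assoc, hhs]
  set e : R := s * t with he
  set f : R := 1 - e with hf
  have hee : e * e = e := by
    calc s * t * (s * t) = s * (t * s) * t := by noncomm_ring
      _ = s * t := by rw [hts]; simp
  have hfs : f * s = 0 := by
    calc (1 - s * t) * s = s - s * (t * s) := by noncomm_ring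
      _ = 0 := by rw [hts]; simp
  have htf : t * f = 0 := by
    calc t * (1 - s * t) = t - (t * s) * t := by noncomm_ring
      _ = 0 := by rw [hts]; simp
  have hfe : f * e = 0 := by
    calc f * (s * t) = (f * s) * t := by noncomm_ring
      _ = 0 := by rw [hfs, zero_mul]
  have hef : e * f = 0 := by
    calc (s * t) * f = s * (t * f) := by noncomm_ring
      _ = 0 := by rw [htf, mul_zero]
  have hff : f * f = f := by
    calc f * f = f * (1 - e) := rfl
      _ = f - f * e := by noncomm_ring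
      _ = f := by rw [hfe, sub_zero]
  have hye : (y : R) * e = e := by
    rw [he, ← mul_assoc, hys]
  have hef1 : e + f = 1 := by rw [hf]; abel
  -- unipotent k
  have hn : (-(e * y * f)) * (-(e * y * f)) = 0 := by
    calc (-(e * y * f)) * (-(e * y * f)) = e * y * (f * e) * y * f := by noncomm_ring
      _ = 0 := by rw [hfe]; simp
  have hk1 : (1 + -(e * y * f)) * (1 - -(e * y * f)) = 1 := by
    calc (1 + -(e * y * f)) * (1 - -(e * y * f)) = 1 - (-(e * y * f)) * (-(e * y * f)) := by
          noncomm_ring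
      _ = 1 := by rw [hn, sub_zero]
  have hk2 : (1 - -(e * y * f)) * (1 + -(e * y * f)) = 1 := by
    calc (1 - -(e * y * f)) * (1 + -(e * y * f)) = 1 - (-(e * y * f)) * (-(e * y * f)) := by
          noncomm_ring
      _ = 1 := by rw [hn, sub_zero]
  let k : Rˣ := ⟨1 + -(e * y * f), 1 - -(e * y * f), hk1, hk2⟩
  have hk : k ∈ N R := unip_mem k _ hn rfl
  set y' : Rˣ := y * k with hy'
  have hy'v : (y' : R) = e + f * y * f := by
    have hdec : (y : R) = e + e * y * f + f * y * f := by
      calc (y : R) = (y : R) * (e + f) := by rw [hef1, mul_one]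
        _ = y * e + 1 * (y * f) := by rw [one_mul, mul_add]
        _ = e + (e + f) * (y * f) := by rw [hye, hef1]
        _ = e + e * y * f + f * y * f := by noncomm_ring
    rw [hy', Units.val_mul]
    show (y : R) * (1 + -(e * y * f)) = e + f * y * f
    calc (y : R) * (1 + -(e * y * f)) = (y : R) - (y * e) * y * f := by noncomm_ring
      _ = (y : R) - e * y * f := by rw [hye]
      _ = e + e * y * f + f * y * f - e * y * f := by rw [← hdec]
      _ = e + f * y * f := by abel
  -- the rotation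
  let Φ : R →* R := corner s t hts
  have hΦ : Continuous Φ := by
    show Continuous (fun x : R => s * x * t + (1 - s * t))
    fun_prop
  have hθ' : Units.map Φ a = θ := by
    ext
    rw [Units.coe_map, hθ]
    rfl
  have hy'N : Units.map Φ y' ∈ N R := by
    rw [hy', hy, map_mul, map_mul, hθ']
    exact (N R).mul_mem ((N R).mul_mem (map_mem Φ hΦ h hh) hθN) (map_mem Φ hΦ k hk)
  have hE : (s * f) * (s * f) = 0 := by
    calc (s * f) * (s * f) = s * (f * s) * f := by noncomm_ring
      _ = 0 := by rw [hfs]; simp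
  have hF : (f * t) * (f * t) = 0 := by
    calc (f * t) * (f * t) = f * (t * f) * t := by noncomm_ring
      _ = 0 := by rw [htf]; simp
  have hFE : (f * t) * (s * f) = f := by
    calc (f * t) * (s * f) = f * (t * s) * f := by noncomm_ring
      _ = f := by rw [hts, mul_one, hff]
  have hEFE : (s * f) * (f * t) * (s * f) = s * f := by
    rw [mul_assoc (s * f), hFE, mul_assoc, hff]
  have hFEF : (f * t) * (s * f) * (f * t) = f * t := by
    rw [hFE, ← mul_assoc, hff]
  have hV : (y' : R) = 1 - (f * t) * (s * f) + (f * t) * (s * f) * y' * ((f * t) * (s * f)) := by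
    rw [hFE, hy'v]
    calc e + f * y * f = (1 - f) + (f * e) * f + (f * f) * y * (f * f) := by
          rw [hfe, hff, zero_mul, add_zero]; rw [hf]; abel
      _ = 1 - f + f * (e + f * y * f) * f := by noncomm_ring
  have hW : ((Units.map Φ y' : Rˣ) : R) = 1 - (s * f) * (f * t) + (s * f) * y' * (f * t) := by
    rw [Units.coe_map]
    show s * (y' : R) * t + (1 - s * t) = 1 - (s * f) * (f * t) + (s * f) * y' * (f * t)
    rw [hy'v]
    have h3 : s * e * t + (1 - s * t) = 1 - s * f * t := by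
      rw [hf]; noncomm_ring
    calc s * (e + f * y * f) * t + (1 - s * t)
        = (s * e * t + (1 - s * t)) + s * f * y * f * t := by noncomm_ring
      _ = 1 - s * f * t + s * f * y * f * t := by rw [h3]
      _ = 1 - s * (f * f) * t + (s * (f * e) * f * t + s * (f * f) * y * (f * f) * t) := by
          rw [hff, hfe]; noncomm_ring
      _ = 1 - (s * f) * (f * t) + (s * f) * (e + f * y * f) * (f * t) := by noncomm_ring
  obtain ⟨g, hg, hgV⟩ := rot_conj (s * f) (f * t) hE hF hEFE hFEF y' (Units.map Φ y') hV hW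
  have hy'mem : y' ∈ N R := by
    have : y' = g⁻¹ * (Units.map Φ y') * g := by
      rw [mul_assoc, ← hgV]; group
    rw [this]
    have := conj_mem g⁻¹ _ hy'N
    simpa using this
  have : a = h⁻¹ * y' * k⁻¹ := by rw [hy', hy]; group
  rw [this]
  exact (N R).mul_mem ((N R).mul_mem ((N R).inv_mem hh) hy'mem) ((N R).inv_mem hk)

end Top

section Matrices
variable {A : Type*} [Ring A]

/-- An infinite family of isometries with orthogonal ranges. -/
lemma exists_family (hnd : ∃ x : A, x ≠ 0 ∧ ¬ IsUnit x)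
    (hpi : ∀ x : A, x ≠ 0 → ∃ a b : A, a * x * b = 1) :
    ∃ s t : ℕ → A, ∀ i j, t i * s j = if i = j then 1 else 0 := by
  obtain ⟨s1, t1, h11, hne⟩ := exists_proper hnd hpi
  have hf : 1 - s1 * t1 ≠ 0 := fun h => hne (sub_eq_zero.mp h).symm
  obtain ⟨a, b, hab⟩ := hpi _ hf
  set s2 : A := (1 - s1 * t1) * b with hs2
  set t2 : A := a * (1 - s1 * t1) with ht2
  have hid : (1 - s1 * t1) * (1 - s1 * t1) = 1 - s1 * t1 := by
    calc (1 - s1 * t1) * (1 - s1 * t1) = 1 - s1 * t1 - s1 * t1 + s1 * (t1 * s1) * t1 := by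
          noncomm_ring
      _ = 1 - s1 * t1 := by rw [h11]; simp
  have h22 : t2 * s2 = 1 := by
    calc a * (1 - s1 * t1) * ((1 - s1 * t1) * b)
        = a * ((1 - s1 * t1) * (1 - s1 * t1)) * b := by noncomm_ring
      _ = 1 := by rw [hid, hab]
  have h12 : t1 * s2 = 0 := by
    calc t1 * ((1 - s1 * t1) * b) = (t1 - (t1 * s1) * t1) * b := by noncomm_ring
      _ = 0 := by rw [h11]; simp
  have h21 : t2 * s1 = 0 := by
    calc a * (1 - s1 * t1) * s1 = a * (s1 - s1 * (t1 * s1)) := by noncomm_ring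
      _ = 0 := by rw [h11]; simp
  have hpow : ∀ n : ℕ, t1 ^ n * s1 ^ n = 1 := by
    intro n
    induction n with
    | zero => simp
    | succ n ih =>
      calc t1 ^ (n + 1) * s1 ^ (n + 1) = t1 ^ n * (t1 * s1) * s1 ^ n := by
            rw [pow_succ t1, pow_succ' s1]; noncomm_ring
        _ = 1 := by rw [h11, mul_one, ih]
  refine ⟨fun i => s1 ^ i * s2, fun i => t2 * t1 ^ i, ?_⟩
  intro i j
  rcases lt_trichotomy i j with h | h | h
  · obtain ⟨k, rfl⟩ := Nat.exists_eq_add_of_lt h
    rw [if_neg (by omega)]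
    calc t2 * t1 ^ i * (s1 ^ (i + k + 1) * s2) = t2 * (t1 ^ i * s1 ^ i) * s1 * s1 ^ k * s2 := by
          rw [show i + k + 1 = i + (1 + k) by ring, pow_add, pow_add, pow_one]; noncomm_ring
      _ = 0 := by rw [hpow, mul_one, h21]; simp
  · subst h
    rw [if_pos rfl]
    calc t2 * t1 ^ i * (s1 ^ i * s2) = t2 * (t1 ^ i * s1 ^ i) * s2 := by noncomm_ring
      _ = 1 := by rw [hpow, mul_one, h22]
  · obtain ⟨k, rfl⟩ := Nat.exists_eq_add_of_lt h
    rw [if_neg (by omega)]
    calc t2 * t1 ^ (j + k + 1) * (s1 ^ j * s2) = t2 * t1 ^ k * (t1 * (t1 ^ j * s1 ^ j) * s2) := by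
          rw [show j + k + 1 = k + (1 + j) by ring, pow_add, pow_add, pow_one]; noncomm_ring
      _ = 0 := by rw [hpow, mul_one, h12, mul_zero]

/-- Row of isometries. -/
def rowS (n : ℕ) (s : ℕ → A) : Matrix (Fin 1) (Fin n) A := fun _ j => s j
/-- Column of left inverses. -/
def colT (n : ℕ) (t : ℕ → A) : Matrix (Fin n) (Fin 1) A := fun i _ => t i

lemma colT_mul_rowS (n : ℕ) (s t : ℕ → A) (h : ∀ i j, t i * s j = if i = j then 1 else 0) :
    colT n t * rowS n s = 1 := by
  ext i j
  simp [Matrix.mul_apply, colT, rowS, h, Matrix.one_apply, Fin.ext_iff]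

/-- The (non-unital) corner embedding of matrices, unitalised. -/
def emb (n : ℕ) (s t : ℕ → A) (h : ∀ i j, t i * s j = if i = j then 1 else 0) :
    Matrix (Fin n) (Fin n) A →* A where
  toFun X := (rowS n s * X * colT n t + (1 - rowS n s * colT n t) : Matrix (Fin 1) (Fin 1) A) 0 0
  map_one' := by simp
  map_mul' X Y := by
    have hTS := colT_mul_rowS n s t h
    set S := rowS n s
    set T := colT n t
    have key : S * (X * Y) * T + (1 - S * T) =
        (S * X * T + (1 - S * T)) * (S * Y * T + (1 - S * T)) := by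
      have h1 : S * X * T * (S * Y * T) = S * (X * Y) * T := by
        calc S * X * T * (S * Y * T) = S * X * (T * S) * Y * T := by
              simp only [Matrix.mul_assoc]
          _ = S * (X * Y) * T := by rw [hTS]; simp only [Matrix.mul_one, Matrix.mul_assoc]
      have h2 : S * X * T * (S * T) = S * X * T := by
        calc S * X * T * (S * T) = S * X * (T * S) * T := by
              simp only [Matrix.mul_assoc]
          _ = S * X * T := by rw [hTS, Matrix.mul_one]
      have h3 : S * T * (S * Y * T) = S * Y * T := by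
        calc S * T * (S * Y * T) = S * (T * S) * Y * T := by
              simp only [Matrix.mul_assoc]
          _ = S * Y * T := by rw [hTS, Matrix.mul_one]
      have h4 : S * T * (S * T) = S * T := by
        calc S * T * (S * T) = S * (T * S) * T := by
              simp only [Matrix.mul_assoc]
          _ = S * T := by rw [hTS, Matrix.mul_one]
      simp only [Matrix.add_mul, Matrix.mul_add, Matrix.mul_sub, Matrix.sub_mul,
        Matrix.mul_one, Matrix.one_mul, h1, h2, h3, h4]
      abel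
    rw [key]
    simp [Matrix.mul_apply]

lemma emb_apply (n : ℕ) (s t : ℕ → A) (h : ∀ i j, t i * s j = if i = j then 1 else 0)
    (X : Matrix (Fin n) (Fin n) A) :
    emb n s t h X = (rowS n s * X * colT n t + (1 - rowS n s * colT n t) : Matrix (Fin 1) (Fin 1) A) 0 0 := rfl

lemma emb_diag (m : ℕ) (s t : ℕ → A) (h : ∀ i j, t i * s j = if i = j then 1 else 0) (a : A) :
    emb (m + 1) s t h (Matrix.diagonal (fun i : Fin (m+1) => if i = 0 then a else 1)) =
      s 0 * a * t 0 + (1 - s 0 * t 0) := by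
  rw [emb_apply]
  simp only [Matrix.add_apply, Matrix.sub_apply, Matrix.mul_apply, Matrix.one_apply_eq,
    rowS, colT, Matrix.diagonal_apply]
  rw [Fin.sum_univ_succ, Fin.sum_univ_succ (fun i : Fin (m+1) => s i * t i)]
  have h1 : ∀ i : Fin m, (∑ x : Fin (m+1), s x * (if x = i.succ then
      (if x = 0 then a else 1) else 0)) = s (i.succ : Fin (m+1)) := by
    intro i
    rw [Finset.sum_eq_single i.succ]
    · simp
    · intro b _ hb; simp [hb]
    · simp
  have h2 : (∑ x : Fin (m+1), s x * (if x = (0 : Fin (m+1)) then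
      (if x = 0 then a else 1) else 0)) = s 0 * a := by
    rw [Finset.sum_eq_single (0 : Fin (m+1))]
    · simp
    · intro b _ hb; simp [hb]
    · simp
  rw [h2]
  simp_rw [h1]
  simp only [Fin.val_zero]
  abel

lemma blocks_eq1 {m : ℕ} (S : Matrix (Fin 1) (Fin m) A) (T : Matrix (Fin m) (Fin 1) A)
    (U : Matrix (Fin m) (Fin m) A) (hTS : T * S = 1) :
    (Matrix.fromBlocks U 0 0 1 : Matrix (Fin m ⊕ Fin 1) (Fin m ⊕ Fin 1) A) =
      1 - Matrix.fromBlocks 0 T 0 0 * Matrix.fromBlocks 0 0 S 0 +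
      Matrix.fromBlocks 0 T 0 0 * Matrix.fromBlocks 0 0 S 0 * Matrix.fromBlocks U 0 0 1 *
      (Matrix.fromBlocks 0 T 0 0 * Matrix.fromBlocks 0 0 S 0) := by
  have h1 : (Matrix.fromBlocks 0 T 0 0 * Matrix.fromBlocks 0 0 S 0 :
      Matrix (Fin m ⊕ Fin 1) (Fin m ⊕ Fin 1) A) = Matrix.fromBlocks 1 0 0 0 := by
    rw [Matrix.fromBlocks_multiply]; simp [hTS]
  rw [h1, Matrix.fromBlocks_multiply, Matrix.fromBlocks_multiply, ← Matrix.fromBlocks_one,
    sub_eq_add_neg, Matrix.fromBlocks_neg, Matrix.fromBlocks_add, Matrix.fromBlocks_add]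
  simp

lemma blocks_eq2 {m : ℕ} (S : Matrix (Fin 1) (Fin m) A) (T : Matrix (Fin m) (Fin 1) A)
    (U : Matrix (Fin m) (Fin m) A) :
    (Matrix.fromBlocks 1 0 0 (S * U * T + (1 - S * T)) :
      Matrix (Fin m ⊕ Fin 1) (Fin m ⊕ Fin 1) A) =
      1 - Matrix.fromBlocks 0 0 S 0 * Matrix.fromBlocks 0 T 0 0 +
      Matrix.fromBlocks 0 0 S 0 * Matrix.fromBlocks U 0 0 1 * Matrix.fromBlocks 0 T 0 0 := by
  rw [Matrix.fromBlocks_multiply, Matrix.fromBlocks_multiply, Matrix.fromBlocks_multiply,
    ← Matrix.fromBlocks_one,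
    sub_eq_add_neg (Matrix.fromBlocks 1 0 0 1), Matrix.fromBlocks_neg, Matrix.fromBlocks_add,
    Matrix.fromBlocks_add]
  simp only [Matrix.zero_mul, Matrix.mul_zero, add_zero, neg_zero]
  congr 1
  abel

lemma single_cycle {ι : Type*} [Fintype ι] [DecidableEq ι] (i j : ι) :
    (Matrix.single i j (1 : A)) * Matrix.single j i 1 * Matrix.single i j 1 =
      Matrix.single i j 1 := by
  simp

lemma diag_eq1 {m : ℕ} (a : A) :
    (Matrix.fromBlocks (1 : Matrix (Fin (m+1)) (Fin (m+1)) A) 0 0
      (Matrix.diagonal (fun _ : Fin 1 => a)) :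
        Matrix (Fin (m+1) ⊕ Fin 1) (Fin (m+1) ⊕ Fin 1) A) =
      1 - Matrix.single (Sum.inr 0) (Sum.inl 0) (1 : A) *
          Matrix.single (Sum.inl 0) (Sum.inr 0) (1 : A) +
        Matrix.single (Sum.inr 0) (Sum.inl 0) (1 : A) *
          Matrix.single (Sum.inl 0) (Sum.inr 0) (1 : A) *
        Matrix.fromBlocks (1 : Matrix (Fin (m+1)) (Fin (m+1)) A) 0 0
          (Matrix.diagonal (fun _ : Fin 1 => a)) *
        (Matrix.single (Sum.inr 0) (Sum.inl 0) (1 : A) *
          Matrix.single (Sum.inl 0) (Sum.inr 0) (1 : A)) := by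
  rw [Matrix.single_mul_single_same, mul_one, Matrix.single_mul_mul_single]
  ext i j
  rcases i with i | i <;> rcases j with j | j
  · simp [Matrix.one_apply]
  · simp
  · simp
  · fin_cases i; fin_cases j; simp

lemma diag_eq2 {m : ℕ} (a : A) :
    (Matrix.diagonal (fun i : Fin (m+1) ⊕ Fin 1 => if i = Sum.inl 0 then a else 1) :
        Matrix (Fin (m+1) ⊕ Fin 1) (Fin (m+1) ⊕ Fin 1) A) =
      1 - Matrix.single (Sum.inl 0) (Sum.inr 0) (1 : A) *
          Matrix.single (Sum.inr 0) (Sum.inl 0) (1 : A) +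
        Matrix.single (Sum.inl 0) (Sum.inr 0) (1 : A) *
        Matrix.fromBlocks (1 : Matrix (Fin (m+1)) (Fin (m+1)) A) 0 0
          (Matrix.diagonal (fun _ : Fin 1 => a)) *
        Matrix.single (Sum.inr 0) (Sum.inl 0) (1 : A) := by
  rw [Matrix.single_mul_single_same, mul_one, Matrix.single_mul_mul_single]
  ext i j
  rcases i with i | i <;> rcases j with j | j
  · by_cases hij : i = j
    · subst hij
      by_cases hi : i = 0
      · subst hi; simp
      · have hi' : (0 : Fin (m+1)) ≠ i := fun h => hi h.symm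
        simp [hi, hi']
    · simp only [Matrix.diagonal_apply, Matrix.add_apply, Matrix.sub_apply, Matrix.one_apply,
        Matrix.single_apply, Sum.inl.injEq]
      have : ¬ ((0 : Fin (m+1)) = i ∧ (0 : Fin (m+1)) = j) := by
        rintro ⟨h1, h2⟩; exact hij (h1.symm.trans h2)
      simp [hij, this]
  · simp
  · simp
  · fin_cases i; fin_cases j; simp

end Matrices

/-- For every purely infinite simple complex Banach algebra A, the map [a] ↦ [diag(a,1,…,1)] from invertibles mod identity component to K₁(A) = components of GL_∞(A) is injective and surjective. -/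
theorem result :
  ∀ (A : Type) [NormedRing A] [NormedAlgebra ℂ A] [CompleteSpace A],
    (∃ x : A, x ≠ 0 ∧ ¬ IsUnit x) →
    (∀ x : A, x ≠ 0 → ∃ a b : A, a * x * b = 1) →
    ((∀ (m : ℕ) (a : Aˣ) (U : (Matrix (Fin (m+1)) (Fin (m+1)) A)ˣ),
        (U : Matrix (Fin (m+1)) (Fin (m+1)) A) =
          Matrix.diagonal (fun i : Fin (m+1) => if i = 0 then (a : A) else 1) →
        U ∈ connectedComponent (1 : (Matrix (Fin (m+1)) (Fin (m+1)) A)ˣ) →
        a ∈ connectedComponent (1 : Aˣ)) ∧
    (∀ (n : ℕ) (U : (Matrix (Fin (n+1)) (Fin (n+1)) A)ˣ),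
      ∃ (k : ℕ) (a : Aˣ)
        (V W : (Matrix (Fin (n+1) ⊕ Fin k) (Fin (n+1) ⊕ Fin k) A)ˣ),
        (V : Matrix (Fin (n+1) ⊕ Fin k) (Fin (n+1) ⊕ Fin k) A) =
          Matrix.fromBlocks (U : Matrix (Fin (n+1)) (Fin (n+1)) A) 0 0 1 ∧
        (W : Matrix (Fin (n+1) ⊕ Fin k) (Fin (n+1) ⊕ Fin k) A) =
          Matrix.diagonal (fun i : Fin (n+1) ⊕ Fin k =>
            if i = Sum.inl 0 then (a : A) else 1) ∧
        W ∈ connectedComponent V)) := by
  intro A _ _ _ hnd hpi
  obtain ⟨s, t, hst⟩ := exists_family hnd hpi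
  have hcont : ∀ n : ℕ, Continuous (emb n s t hst) := by
    intro n
    show Continuous (fun X : Matrix (Fin n) (Fin n) A =>
      (rowS n s * X * colT n t + (1 - rowS n s * colT n t) : Matrix (Fin 1) (Fin 1) A) 0 0)
    fun_prop
  refine ⟨?_, ?_⟩
  · intro m a U hU hUc
    have hθN : Units.map (emb (m+1) s t hst) U ∈ N A :=
      map_mem (emb (m+1) s t hst) (hcont (m+1)) U hUc
    have hθ : ((Units.map (emb (m+1) s t hst) U : Aˣ) : A) = s 0 * a * t 0 + (1 - s 0 * t 0) := by
      rw [Units.coe_map]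
      show emb (m+1) s t hst (U : Matrix (Fin (m+1)) (Fin (m+1)) A) = _
      rw [hU, emb_diag]
    have h00 : t 0 * s 0 = 1 := by rw [hst]; simp
    have hne : s 0 * t 0 ≠ 1 := by
      intro h
      have h1 : s 1 = 0 := by
        calc s 1 = (s 0 * t 0) * s 1 := by rw [h, one_mul]
          _ = s 0 * (t 0 * s 1) := by rw [mul_assoc]
          _ = 0 := by rw [hst]; simp
      obtain ⟨x, hx, _⟩ := hnd
      have h11 : t 1 * s 1 = 1 := by rw [hst]; simp
      rw [h1, mul_zero] at h11
      apply hx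
      rw [← one_mul x, ← h11, zero_mul]
    exact core hpi (s 0) (t 0) h00 hne a _ hθ hθN
  · intro n U
    set S : Matrix (Fin 1) (Fin (n+1)) A := rowS (n+1) s with hS
    set T : Matrix (Fin (n+1)) (Fin 1) A := colT (n+1) t with hT
    have hTS : T * S = 1 := colT_mul_rowS (n+1) s t hst
    set a : Aˣ := Units.map (emb (n+1) s t hst) U with ha
    have haval : (a : A) = (S * (U : Matrix (Fin (n+1)) (Fin (n+1)) A) * T +
        (1 - S * T) : Matrix (Fin 1) (Fin 1) A) 0 0 := rfl
    have haval' : (S * (U : Matrix (Fin (n+1)) (Fin (n+1)) A) * T +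
        (1 - S * T) : Matrix (Fin 1) (Fin 1) A) = Matrix.diagonal (fun _ => (a : A)) := by
      ext i j
      fin_cases i; fin_cases j
      simp only [Fin.zero_eta, Matrix.diagonal_apply_eq]
      exact haval.symm
    let R := Matrix (Fin (n+1) ⊕ Fin 1) (Fin (n+1) ⊕ Fin 1) A
    -- the three units
    let V : Rˣ :=
      ⟨Matrix.fromBlocks (U : Matrix (Fin (n+1)) (Fin (n+1)) A) 0 0 1,
        Matrix.fromBlocks ((U⁻¹ : (Matrix (Fin (n+1)) (Fin (n+1)) A)ˣ) :
          Matrix (Fin (n+1)) (Fin (n+1)) A) 0 0 1,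
        by rw [Matrix.fromBlocks_multiply]; simp,
        by rw [Matrix.fromBlocks_multiply]; simp⟩
    let W' : Rˣ :=
      ⟨Matrix.fromBlocks (1 : Matrix (Fin (n+1)) (Fin (n+1)) A) 0 0
          (Matrix.diagonal (fun _ : Fin 1 => (a : A))),
        Matrix.fromBlocks (1 : Matrix (Fin (n+1)) (Fin (n+1)) A) 0 0
          (Matrix.diagonal (fun _ : Fin 1 => ((a⁻¹ : Aˣ) : A))),
        by rw [Matrix.fromBlocks_multiply]; simp,
        by rw [Matrix.fromBlocks_multiply]; simp⟩
    let W : Rˣ :=
      ⟨Matrix.diagonal (fun i : Fin (n+1) ⊕ Fin 1 => if i = Sum.inl 0 then (a : A) else 1),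
        Matrix.diagonal (fun i : Fin (n+1) ⊕ Fin 1 =>
          if i = Sum.inl 0 then ((a⁻¹ : Aˣ) : A) else 1),
        by
          rw [Matrix.diagonal_mul_diagonal, ← Matrix.diagonal_one]
          congr 1; funext i; split_ifs <;> simp,
        by
          rw [Matrix.diagonal_mul_diagonal, ← Matrix.diagonal_one]
          congr 1; funext i; split_ifs <;> simp⟩
    refine ⟨1, a, V, W, rfl, rfl, ?_⟩
    have h1 : W' * V⁻¹ ∈ N R := by
      refine rot_component (R := R) (Matrix.fromBlocks 0 0 S 0) (Matrix.fromBlocks 0 T 0 0)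
        ?_ ?_ ?_ ?_ V W' ?_ ?_
      · rw [Matrix.fromBlocks_multiply]; simp
      · rw [Matrix.fromBlocks_multiply]; simp
      · rw [Matrix.fromBlocks_multiply, Matrix.fromBlocks_multiply]
        simp [Matrix.mul_assoc, hTS]
      · rw [Matrix.fromBlocks_multiply, Matrix.fromBlocks_multiply]
        simp [hTS]
      · exact blocks_eq1 S T U hTS
      · have h5 := blocks_eq2 S T (U : Matrix (Fin (n+1)) (Fin (n+1)) A)
        rw [haval'] at h5
        exact h5
    have h2 : W * W'⁻¹ ∈ N R := by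
      refine rot_component (R := R) (Matrix.single (Sum.inl 0) (Sum.inr 0) (1 : A))
        (Matrix.single (Sum.inr 0) (Sum.inl 0) (1 : A)) ?_ ?_ ?_ ?_ W' W ?_ ?_
      · exact Matrix.single_mul_single_of_ne _ _ _ _ (by simp) _
      · exact Matrix.single_mul_single_of_ne _ _ _ _ (by simp) _
      · exact single_cycle _ _
      · exact single_cycle _ _
      · exact diag_eq1 (a : A)
      · exact diag_eq2 (a : A)
    have h3 : W * V⁻¹ ∈ N R := by
      have : W * V⁻¹ = (W * W'⁻¹) * (W' * V⁻¹) := by group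
      rw [this]
      exact (N R).mul_mem h2 h1
    -- right translation by V
    have hc : Continuous (fun x : Rˣ => x * V) := by fun_prop
    have h := hc.image_connectedComponent_subset (1 : Rˣ)
    have h4 : W * V⁻¹ * V ∈ connectedComponent (1 * V) := h ⟨W * V⁻¹, h3, rfl⟩
    rw [one_mul, inv_mul_cancel_right] at h4
    exact h4

end Pool.Agent.S06281
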