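import Pool.Statements.S00047
import Pool.Agent.Helper50.AS.Grp
import Pool.Agent.Helper50.AS.Big
import Pool.Agent.Helper94.AS.Sylow

set_option autoImplicit false
open Pool Pool.MP_179273_ag

namespace Pool.Agent.S00047

/-- For every prime p, algebraically closed k of char p, and extension G of (Z/p)^n by Z/p, some f over F_p gives an irreducible curve W^p-W=f whose automorphism group has a Sylow p-subgroup isomorphic to G, with the kernel mapped onto the Artin-Schreier group. -/
theorem result :
    ∀ (p : ℕ) [Fact p.Prime] (k : Type) [Field k] [IsAlgClosed k] [CharP k p]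
      (n : ℕ) (G : Type) [Group G] (N : Subgroup G) [N.Normal],
      Nonempty (N ≃* Multiplicative (ZMod p)) →
      Nonempty (G ⧸ N ≃* Multiplicative (Fin n → ZMod p)) →
      ∃ f : Polynomial (ZMod p),
        Irreducible ((Polynomial.X ^ p - Polynomial.X - Polynomial.C
          (algebraMap (Polynomial k) (RatFunc k)
            (Polynomial.map (ZMod.castHom (dvd_refl p) k) f)) : Polynomial (RatFunc k))) ∧
        ∃ P : Sylow p
            (AdjoinRoot ((Polynomial.X ^ p - Polynomial.X - Polynomial.C
              (algebraMap (Polynomial k) (RatFunc k)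
                (Polynomial.map (ZMod.castHom (dvd_refl p) k) f)) : Polynomial (RatFunc k)))
              ≃ₐ[k]
             AdjoinRoot ((Polynomial.X ^ p - Polynomial.X - Polynomial.C
              (algebraMap (Polynomial k) (RatFunc k)
                (Polynomial.map (ZMod.castHom (dvd_refl p) k) f)) : Polynomial (RatFunc k)))),
          ∃ e : G ≃* (P : Subgroup
              (AdjoinRoot ((Polynomial.X ^ p - Polynomial.X - Polynomial.C
                (algebraMap (Polynomial k) (RatFunc k)
                  (Polynomial.map (ZMod.castHom (dvd_refl p) k) f)) : Polynomial (RatFunc k)))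
                ≃ₐ[k]
               AdjoinRoot ((Polynomial.X ^ p - Polynomial.X - Polynomial.C
                (algebraMap (Polynomial k) (RatFunc k)
                  (Polynomial.map (ZMod.castHom (dvd_refl p) k) f)) : Polynomial (RatFunc k))))),
            ∀ g : G, g ∈ N ↔
              ∀ r : RatFunc k,
                (e g).1 (AdjoinRoot.of ((Polynomial.X ^ p - Polynomial.X - Polynomial.C
                  (algebraMap (Polynomial k) (RatFunc k)
                    (Polynomial.map (ZMod.castHom (dvd_refl p) k) f)) : Polynomial (RatFunc k))) r)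
                = AdjoinRoot.of ((Polynomial.X ^ p - Polynomial.X - Polynomial.C
                  (algebraMap (Polynomial k) (RatFunc k)
                    (Polynomial.map (ZMod.castHom (dvd_refl p) k) f)) : Polynomial (RatFunc k))) r := by
  intro p _ k _ _ _ n G _ N _ h1 h2
  classical
  obtain ⟨E, hN⟩ := Pool.Agent.Helper50.AS.exists_ext p n G N h1 h2
  have hfin : Finite G := by
    obtain ⟨e1⟩ := h1
    obtain ⟨e2⟩ := h2
    have : Finite N := Finite.of_equiv _ e1.symm.toEquiv
    have : Finite (G ⧸ N) := Finite.of_equiv _ e2.symm.toEquiv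
    exact Finite.of_equiv _ (Subgroup.groupEquivQuotientProdSubgroup (s := N)).symm
  obtain ⟨ι, φ, hι, hF, hφz⟩ := E.exists_frob k
  set c := ZMod.castHom (dvd_refl p) k with hc
  have hιm : ∀ g h, ι (E.π (g * h)) = ι (E.π g) + ι (E.π h) := by
    intro g h
    rw [E.hπ, map_add]
  have hι0 : ∀ g, ι (E.π g) = 0 ↔ E.π g = 0 := fun g => map_eq_zero_iff ι hι
  obtain ⟨P, hP, hPz⟩ := Pool.Agent.Helper50.AS.exists_cocycle (k := k) (G := G)
    (c : ZMod p →+ k) (fun g => ι (E.π g)) hιm E.ζ
    (fun x y hx hy => E.hζ x y ((hι0 x).1 hx) ((hι0 y).1 hy))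
    (fun g z hz => by
      rw [mul_assoc, E.hcent z g ((hι0 z).1 hz), inv_mul_cancel_left])
  obtain ⟨f₀, P', hP', hP'z, hP'f⟩ := Pool.Agent.Helper50.AS.exists_descent p
    (fun g => ι (E.π g)) hιm φ hF (fun z hz => hφz z ((hι0 z).1 hz)) P hP
    (fun z hz => ⟨E.ζ z, hPz z hz⟩)
  obtain ⟨f₁, Q, hQ, hQz, hQf, hdeg, hbig, hst⟩ := Pool.Agent.Helper50.AS.exists_big p
    (fun g => ι (E.π g)) hιm (fun g => ⟨φ g, hF g⟩) f₀ P' hP' hP'f
  have hQN : ∀ z, ι (E.π z) = 0 → Q z = Polynomial.C (c (E.ζ z)) := by
    intro z hz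
    rw [hQz z hz, hP'z z hz, hPz z hz]
    rfl
  refine ⟨f₁, Pool.Agent.Helper94.AS.sylow_of_data p k G N (f₁.map c) hdeg hbig
    (fun g => ι (E.π g)) Q hιm (fun g => ?_) hQ hQf ?_ ?_ hst⟩
  · rw [← hN g]; exact hι0 g
  · obtain ⟨z, hz, hz1⟩ := E.hζs
    refine ⟨z, (hN z).1 hz, ?_⟩
    rw [hQN z ((hι0 z).2 hz), hz1, map_one, Polynomial.C_1]
  · intro z hzN hz
    have hz0 := (hN z).2 hzN
    rw [hQN z ((hι0 z).2 hz0), Polynomial.C_eq_zero] at hz
    have h3 : E.ζ z = 0 := (map_eq_zero_iff c c.injective).1 hz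
    exact E.hinj z hz0 h3

end Pool.Agent.S00047
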