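import Pool.Statements.S00651
import Pool.Agent.Helper52.Inv.MainQ
import Pool.Agent.Helper68.InvPINK
import Pool.Agent.Helper89.InvFROZEN

set_option autoImplicit false
open Pool Pool.MP_0873fe_al

namespace Pool.Agent.S00651

/-- For odd prime p, every pro-p group with a continuous automorphism of order 2 whose fixed points commute satisfies some nontrivial identity from a free pro-p group on finitely many generators. -/
theorem result :
  ∀ (p : ℕ), p.Prime → 2 < p →
  ∀ (G : Type) [Group G] [TopologicalSpace G] [IsTopologicalGroup G] [CompactSpace G]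
    [T2Space G] [TotallyDisconnectedSpace G],
  (∀ U : Subgroup G, IsOpen (U : Set G) → U.Normal → ∃ k : ℕ, U.index = p ^ k) →
  ∀ φ : G ≃* G, Continuous φ → (∀ x, φ (φ x) = x) → (∃ x, φ x ≠ x) →
  (∀ a b : G, φ a = a → φ b = b → a * b = b * a) →
  ∃ (n : ℕ) (W : Subgroup (FreeGroup (Fin n)) → FreeGroup (Fin n)),
    (∀ N M : Subgroup (FreeGroup (Fin n)), N.Normal → M.Normal →
      (∃ k : ℕ, N.index = p ^ k) → (∃ k : ℕ, M.index = p ^ k) → N ≤ M →
      W N * (W M)⁻¹ ∈ M) ∧
    (∃ N : Subgroup (FreeGroup (Fin n)), N.Normal ∧ (∃ k : ℕ, N.index = p ^ k) ∧ W N ∉ N) ∧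
    (∀ (g : Fin n → G) (U : Subgroup G), IsOpen (U : Set G) → U.Normal →
      FreeGroup.lift g (W (U.comap (FreeGroup.lift g))) ∈ U) := by
  intro p hp h2
  have pink : Pool.Agent.Helper52.Inv.PinkStatement :=
    fun r hr I K hI g h hg hh m S hS α hrel =>
      Pool.Agent.Helper68.Inv.pink r hr I K hI g h hg hh m S hS α hrel
  exact Pool.Agent.Helper89.Inv.frozen_of_finite p hp h2
    (Pool.Agent.Helper52.Inv.finiteStatement pink p hp h2)

end Pool.Agent.S00651
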