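import Pool.Statements.S01005
import Pool.Agent.Helper88.EL.Assemble

set_option autoImplicit false
open Pool Pool.MP_287ff4_al

namespace Pool.Agent.S01005

/-- Every 2x2 matrix of determinant 1 over the integer Laurent polynomials Z[x,1/x] is a product of elementary matrices (identity plus one off-diagonal entry) and their inverses. -/
theorem result :
    ∀ M : Matrix.SpecialLinearGroup (Fin 2) (LaurentPolynomial ℤ),
      M ∈ Subgroup.closure
        {g : Matrix.SpecialLinearGroup (Fin 2) (LaurentPolynomial ℤ) |
          ∃ i j : Fin 2, ∃ c : LaurentPolynomial ℤ, i ≠ j ∧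
            (g : Matrix (Fin 2) (Fin 2) (LaurentPolynomial ℤ)) = Matrix.transvection i j c} :=
  Pool.Agent.Helper88.EL.main

end Pool.Agent.S01005
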