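import Pool.Statements.S01871
import Pool.Agent.Helper39.Rot.Assembly
import Pool.Agent.Helper73.RotI
import Pool.Agent.Helper4.RotY
import Pool.Agent.Helper5.RotC
import Pool.Agent.Helper40.RotB

set_option autoImplicit false
open Pool Pool.MP_707bda_al

namespace Pool.Agent.S01871

open Pool.Agent.Helper39.Rot in
/-- products of permutations as compositions -/
theorem foldr_comp (l : List (Equiv.Perm ℝ)) (x : ℝ) :
    ((l.map (fun g : Equiv.Perm ℝ => (g : ℝ → ℝ))).foldr (fun f g => f ∘ g) id) x = l.prod x := by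
  induction l generalizing x with
  | nil => simp
  | cons a l ih =>
    simp only [List.map_cons, List.foldr_cons, List.prod_cons, Function.comp_apply,
      Equiv.Perm.mul_apply]
    rw [ih]

/-- Every irrational rotation is distorted among analytic circle diffeomorphisms: some finite inverse-closed set of analytic lifts writes the rotation by nα, up to integer shift, as a word of length at most εn, for every ε>0 and some n≥1. -/
theorem result :
    ∀ α : ℝ, Irrational α →
      ∃ S : Finset (ℝ → ℝ),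
        (∀ F ∈ S, (∀ x : ℝ, AnalyticAt ℝ F x) ∧ (∀ x : ℝ, 0 < deriv F x) ∧
            (∀ x : ℝ, F (x + 1) = F x + 1) ∧
            ∃ G ∈ S, ∃ m : ℤ, ∀ x : ℝ, G (F x) = x + (m : ℝ)) ∧
        ∀ ε : ℝ, 0 < ε →
          ∃ n : ℕ, 0 < n ∧
            ∃ w : List (ℝ → ℝ), (∀ F ∈ w, F ∈ S) ∧ (w.length : ℝ) ≤ ε * (n : ℝ) ∧
              ∃ k : ℤ, ∀ x : ℝ,
                (w.foldr (fun f g => f ∘ g) id) x = x + (n : ℝ) * α + (k : ℝ) := by
  intro α _
  classical
  have hcl : Pool.Agent.Helper39.Rot.Closing := Pool.Agent.Helper40.RotB.closing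
  have hY : Pool.Agent.Helper39.Rot.YhatSpec := Pool.Agent.Helper39.Rot.Yhat_spec
  have hC : Pool.Agent.Helper39.Rot.InfComp := Pool.Agent.Helper5.RotC.inf_comp
  have hI : Pool.Agent.Helper39.Rot.InverseAnalytic := Pool.Agent.Helper73.RotI.inverse_analytic
  choose f hf1 hf2 hf3 using fun i => Pool.Agent.Helper39.Rot.exists_f hcl α hY hC hI i
  let SP : Finset (Equiv.Perm ℝ) := (Finset.range 8).image f ∪ (Finset.range 8).image (fun i => (f i)⁻¹) ∪
    {Pool.Agent.Helper39.Rot.T (1 / 3), (Pool.Agent.Helper39.Rot.T (1 / 3))⁻¹}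
  have hSPinv : ∀ x ∈ SP, x⁻¹ ∈ SP := by
    intro x hx
    simp only [SP, Finset.mem_union, Finset.mem_image, Finset.mem_range, Finset.mem_insert,
      Finset.mem_singleton] at hx ⊢
    rcases hx with (⟨i, hi, rfl⟩ | ⟨i, hi, rfl⟩) | (rfl | rfl)
    · left; right; exact ⟨i, hi, rfl⟩
    · left; left; exact ⟨i, hi, (inv_inv _).symm⟩
    · right; right; rfl
    · right; left; exact inv_inv _
  have hTprop : ∀ s : ℝ, (∀ x : ℝ, AnalyticAt ℝ (Pool.Agent.Helper39.Rot.T s) x) ∧
      (∀ x : ℝ, 0 < deriv (Pool.Agent.Helper39.Rot.T s) x) ∧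
      (∀ x : ℝ, Pool.Agent.Helper39.Rot.T s (x + 1) = Pool.Agent.Helper39.Rot.T s x + 1) := by
    intro s
    have h0 : (Pool.Agent.Helper39.Rot.T s : ℝ → ℝ) = fun x => x + s := rfl
    refine ⟨fun x => ?_, fun x => ?_, fun x => ?_⟩
    · rw [h0]; exact analyticAt_id.add analyticAt_const
    · rw [h0]; simp
    · simp only [Pool.Agent.Helper39.Rot.T_apply]; ring
  have hprop : ∀ g ∈ SP, (∀ x : ℝ, AnalyticAt ℝ (g : ℝ → ℝ) x) ∧ (∀ x : ℝ, 0 < deriv (g : ℝ → ℝ) x) ∧
      (∀ x : ℝ, g (x + 1) = g x + 1) := by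
    intro g hg
    simp only [SP, Finset.mem_union, Finset.mem_image, Finset.mem_range, Finset.mem_insert,
      Finset.mem_singleton] at hg
    rcases hg with (⟨i, hi, rfl⟩ | ⟨i, hi, rfl⟩) | (rfl | rfl)
    · exact hf1 i
    · exact hf2 i
    · exact hTprop _
    · rw [Pool.Agent.Helper39.Rot.T_inv]; exact hTprop _
  refine ⟨SP.image (fun g : Equiv.Perm ℝ => (g : ℝ → ℝ)), ?_, ?_⟩
  · intro F hF
    obtain ⟨g, hg, rfl⟩ := Finset.mem_image.1 hF
    obtain ⟨h1, h2, h3⟩ := hprop g hg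
    refine ⟨h1, h2, h3, (g⁻¹ : Equiv.Perm ℝ), Finset.mem_image_of_mem _ (hSPinv g hg), 0, fun x => ?_⟩
    simp
  · intro ε hε
    obtain ⟨n, L, p, hn, hL, l, hl1, hl2, hl3⟩ := Pool.Agent.Helper39.Rot.final_word hcl α f (SP : Set (Equiv.Perm ℝ))
      (fun x hx => hSPinv x hx)
      (fun i hi => by
        simp only [SP, Finset.coe_union, Set.mem_union, Finset.mem_coe, Finset.mem_image, Finset.mem_range]
        left; left; exact ⟨i, hi, rfl⟩)
      (by simp [SP])
      (fun i _ K => hf3 i K) ε hε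
    refine ⟨n, hn, l.map (fun g : Equiv.Perm ℝ => (g : ℝ → ℝ)), ?_, ?_, -p, fun x => ?_⟩
    · intro F hF
      obtain ⟨g, hg, rfl⟩ := List.mem_map.1 hF
      exact Finset.mem_image_of_mem _ (hl1 g hg)
    · rw [List.length_map]
      exact le_trans (by exact_mod_cast hl2) hL
    · rw [foldr_comp, hl3, Pool.Agent.Helper39.Rot.T_apply]
      push_cast; ring

end Pool.Agent.S01871
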