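import Pool.Statements.S02219

set_option autoImplicit false
open Pool Pool.MP_8bc403_al

/-!
Answer to the question of Riley and Sale (does finiteness of palindromic width depend on the finite
generating set): yes, it does.  Let `G` be generated by `a, b` and put `X = {a, b, a*b}`.  The word
`(ab)⁻¹ a b` represents the identity, its reverse represents `b a (ab)⁻¹ = [b, a]`.  Hence the set of
all `m` with `(1, m)` among the pairs `(w, reverse w)` is a normal subgroup with abelian quotient, and
each of its members is represented by the palindrome `w ++ reverse w`.  So the width for `X` is at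
most `3`.  For `Y = {a, b}` we take for `G` the even subgroup of the free product of three groups of
order two (a free group of rank two), acting on reduced words over `Fin 3`; the number of left turns
minus the number of right turns is a quasimorphism which is bounded by `3` on `Y`-palindromes and
unbounded on `G`, hence the width for `Y` is infinite.
-/

namespace Pool.Agent.S02219

/-! ### Part 1: every two-generated group has finite palindromic width for `{a, b, a*b}`. -/

section general

variable {G : Type} [Group G]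

/-- letters of the alphabet `X` and inverses. -/
def Let (X : Set G) (w : List G) : Prop := ∀ x ∈ w, x ∈ X ∨ x⁻¹ ∈ X

/-- The submonoid-like relation: pairs `(w.prod, w.reverse.prod)`. -/
def Pr (X : Set G) (g h : G) : Prop := ∃ w : List G, Let X w ∧ w.prod = g ∧ w.reverse.prod = h

lemma Pr.mul {X : Set G} {g h g' h' : G} (H : Pr X g h) (H' : Pr X g' h') :
    Pr X (g * g') (h' * h) := by
  obtain ⟨w, hw, rfl, rfl⟩ := H
  obtain ⟨w', hw', rfl, rfl⟩ := H'
  refine ⟨w ++ w', ?_, by simp, by simp⟩
  intro x hx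
  rcases List.mem_append.1 hx with h | h
  · exact hw x h
  · exact hw' x h

lemma Pr.inv {X : Set G} {g h : G} (H : Pr X g h) : Pr X g⁻¹ h⁻¹ := by
  obtain ⟨w, hw, rfl, rfl⟩ := H
  refine ⟨(w.map (fun x => x⁻¹)).reverse, ?_, ?_, ?_⟩
  · intro x hx
    simp only [List.mem_reverse, List.mem_map] at hx
    obtain ⟨y, hy, rfl⟩ := hx
    rcases hw y hy with h | h
    · right; simpa using h
    · left; exact h
  · rw [List.prod_inv_reverse]
  · rw [List.reverse_reverse, List.prod_inv_reverse, List.map_reverse, List.reverse_reverse]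

lemma Pr.one {X : Set G} : Pr X (1 : G) 1 := ⟨[], by intro x hx; simp at hx, by simp, by simp⟩

lemma Pr.letter {X : Set G} {x : G} (hx : x ∈ X) : Pr X x x :=
  ⟨[x], by intro y hy; simp at hy; subst hy; exact Or.inl hx, by simp, by simp⟩

set_option linter.unusedVariables false in
/-- The set of `m` with `(1, m)` in the relation; all of these are palindromes. -/
def MM (X : Set G) (hX : Subgroup.closure X = ⊤) : Subgroup G where
  carrier := {m | Pr X 1 m}
  mul_mem' := by
    intro a b ha hb
    have := Pr.mul hb ha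
    simpa using this
  one_mem' := Pr.one
  inv_mem' := by
    intro a ha
    have := Pr.inv ha
    simpa using this

lemma exists_pr {X : Set G} (hX : Subgroup.closure X = ⊤) (h : G) : ∃ g, Pr X g h := by
  have hh : h ∈ Subgroup.closure X := by rw [hX]; trivial
  induction hh using Subgroup.closure_induction with
  | mem x hx => exact ⟨x, Pr.letter hx⟩
  | one => exact ⟨1, Pr.one⟩
  | mul x y _ _ ihx ihy =>
    obtain ⟨g, hg⟩ := ihx
    obtain ⟨g', hg'⟩ := ihy
    exact ⟨g' * g, hg'.mul hg⟩
  | inv x _ ih =>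
    obtain ⟨g, hg⟩ := ih
    exact ⟨g⁻¹, hg.inv⟩

lemma MM_normal {X : Set G} (hX : Subgroup.closure X = ⊤) : (MM X hX).Normal := by
  constructor
  intro m hm h
  obtain ⟨g, hg⟩ := exists_pr hX h⁻¹
  -- (g, h⁻¹) (1, m) (g⁻¹, h) = (1, h m h⁻¹)
  have h1 := (hg.mul (show Pr X 1 m from hm)).mul hg.inv
  have h2 : Pr X 1 (h * m * h⁻¹) := by
    have : g * 1 * g⁻¹ = 1 := by group
    rw [this] at h1
    have h3 : h⁻¹⁻¹ * (m * h⁻¹) = h * m * h⁻¹ := by group
    rw [h3] at h1
    exact h1
  exact h2

/-- A palindromic word. -/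
def IsPal (X : Set G) (p : G) : Prop := ∃ w : List G, Let X w ∧ w.reverse = w ∧ w.prod = p

lemma isPal_of_mem_MM {X : Set G} (hX : Subgroup.closure X = ⊤) {m : G} (hm : m ∈ MM X hX) :
    IsPal X m := by
  obtain ⟨w, hw, h1, h2⟩ := (show Pr X 1 m from hm)
  refine ⟨w ++ w.reverse, ?_, by simp, by rw [List.prod_append, h1, h2, one_mul]⟩
  intro x hx
  rcases List.mem_append.1 hx with h | h
  · exact hw x h
  · exact hw x (List.mem_reverse.1 h)

lemma isPal_zpow {X : Set G} {x : G} (hx : x ∈ X) (i : ℤ) : IsPal X (x ^ i) := by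
  rcases Int.eq_nat_or_neg i with ⟨n, rfl | rfl⟩
  · refine ⟨List.replicate n x, ?_, by simp, by simp⟩
    intro y hy
    rw [List.eq_of_mem_replicate hy]; exact Or.inl hx
  · refine ⟨List.replicate n x⁻¹, ?_, by simp, by simp⟩
    intro y hy
    rw [List.eq_of_mem_replicate hy]; right; simpa using hx

lemma comm_mem_MM {X : Set G} (hX : Subgroup.closure X = ⊤) {a b : G} (ha : a ∈ X) (hb : b ∈ X)
    (hab : a * b ∈ X) : b * a * (a * b)⁻¹ ∈ MM X hX := by
  have h := ((Pr.letter hab).inv.mul (Pr.letter ha)).mul (Pr.letter hb)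
  have h1 : (a * b)⁻¹ * a * b = 1 := by group
  rw [h1] at h
  show Pr X 1 _
  have h2 : b * (a * (a * b)⁻¹) = b * a * (a * b)⁻¹ := by group
  rwa [h2] at h

theorem width_three (a b : G) (hab : Subgroup.closure ({a, b} : Set G) = ⊤) (g : G) :
    ∃ p q r : G, IsPal ({a, b, a * b} : Set G) p ∧ IsPal ({a, b, a * b} : Set G) q ∧
      IsPal ({a, b, a * b} : Set G) r ∧ p * q * r = g := by
  set X : Set G := {a, b, a * b} with hXdef
  have hX : Subgroup.closure X = ⊤ := by
    rw [eq_top_iff, ← hab]
    apply Subgroup.closure_mono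
    intro x hx
    simp only [Set.mem_insert_iff, Set.mem_singleton_iff] at hx
    rcases hx with rfl | rfl <;> simp [hXdef]
  have := MM_normal hX
  have hcomm : b * a * (a * b)⁻¹ ∈ MM X hX :=
    comm_mem_MM hX (by simp [hXdef]) (by simp [hXdef]) (by simp [hXdef])
  -- quotient
  let π := QuotientGroup.mk' (MM X hX)
  have hc : π a * π b = π b * π a := by
    have h1 : π (b * a * (a * b)⁻¹) = 1 := (QuotientGroup.eq_one_iff _).2 hcomm
    rw [map_mul, map_inv, map_mul, map_mul, mul_inv_eq_one] at h1
    exact h1.symm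
  have hgen : ∀ g : G, ∃ i j : ℤ, π g = π a ^ i * π b ^ j := by
    intro g
    have hg : g ∈ Subgroup.closure ({a, b} : Set G) := by rw [hab]; trivial
    have hcz : Commute (π a) (π b) := hc
    induction hg using Subgroup.closure_induction with
    | mem x hx =>
      simp only [Set.mem_insert_iff, Set.mem_singleton_iff] at hx
      rcases hx with rfl | rfl
      · exact ⟨1, 0, by simp⟩
      · exact ⟨0, 1, by simp⟩
    | one => exact ⟨0, 0, by simp⟩
    | mul x y _ _ ihx ihy =>
      obtain ⟨i, j, h1⟩ := ihx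
      obtain ⟨i', j', h2⟩ := ihy
      refine ⟨i + i', j + j', ?_⟩
      rw [map_mul, h1, h2, zpow_add, zpow_add]
      have h3 : π b ^ j * π a ^ i' = π a ^ i' * π b ^ j := ((hcz.zpow_zpow i' j).eq).symm
      calc π a ^ i * π b ^ j * (π a ^ i' * π b ^ j')
          = π a ^ i * (π b ^ j * π a ^ i') * π b ^ j' := by group
        _ = π a ^ i * (π a ^ i' * π b ^ j) * π b ^ j' := by rw [h3]
        _ = π a ^ i * π a ^ i' * (π b ^ j * π b ^ j') := by group
    | inv x _ ih =>
      obtain ⟨i, j, h1⟩ := ih
      refine ⟨-i, -j, ?_⟩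
      rw [map_inv, h1, mul_inv_rev, ← zpow_neg, ← zpow_neg]
      exact ((hcz.zpow_zpow (-i) (-j)).eq).symm
  obtain ⟨i, j, hij⟩ := hgen g
  have hm : (a ^ i * b ^ j)⁻¹ * g ∈ MM X hX := by
    apply QuotientGroup.eq.1
    show π (a ^ i * b ^ j) = π g
    rw [map_mul, map_zpow, map_zpow, hij]
  exact ⟨a ^ i, b ^ j, (a ^ i * b ^ j)⁻¹ * g, isPal_zpow (by simp [hXdef]) i,
    isPal_zpow (by simp [hXdef]) j, isPal_of_mem_MM hX hm, by group⟩

end general

/-! ### Part 2: a two-generated group with infinite palindromic width. -/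

/-- reduced words. -/
def Red : List (Fin 3) → Prop
  | [] => True
  | [_] => True
  | a :: b :: l => a ≠ b ∧ Red (b :: l)

def e (a b : Fin 3) : ℤ := if b = a + 1 then 1 else if a = b + 1 then -1 else 0

def f : List (Fin 3) → ℤ
  | a :: b :: l => e a b + f (b :: l)
  | _ => 0

lemma e_neg (a b : Fin 3) : e a b = - e b a := by revert a b; decide

lemma e_abs (a b : Fin 3) : |e a b| ≤ 1 := by revert a b; decide

@[simp] lemma f_nil : f [] = 0 := rfl
@[simp] lemma f_single (a : Fin 3) : f [a] = 0 := rfl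
@[simp] lemma f_cons_cons (a b : Fin 3) (l : List (Fin 3)) :
    f (a :: b :: l) = e a b + f (b :: l) := rfl

lemma f_mid (u : List (Fin 3)) (a b : Fin 3) (v : List (Fin 3)) :
    f (u ++ a :: b :: v) = f (u ++ [a]) + e a b + f (b :: v) := by
  induction u with
  | nil => simp
  | cons x u ih =>
    cases u with
    | nil => simp; ring
    | cons y u => simp only [List.cons_append, f_cons_cons] at ih ⊢; rw [ih]; ring

lemma f_append (u v : List (Fin 3)) : |f (u ++ v) - f u - f v| ≤ 1 := by
  rcases List.eq_nil_or_concat u with rfl | ⟨u, a, rfl⟩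
  · simp
  · cases v with
    | nil => simp
    | cons b v =>
      have : (u ++ [a]) ++ b :: v = u ++ a :: b :: v := by simp
      rw [List.concat_eq_append, this, f_mid]
      have h : f (u ++ [a]) + e a b + f (b :: v) - f (u ++ [a]) - f (b :: v) = e a b := by ring
      rw [h]; exact e_abs a b

lemma f_reverse (u : List (Fin 3)) : f u.reverse = - f u := by
  induction u with
  | nil => simp
  | cons a u ih =>
    cases u with
    | nil => simp
    | cons b u =>
      have : (a :: b :: u).reverse = u.reverse ++ b :: a :: [] := by simp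
      rw [this, f_mid]
      have h2 : (b :: u).reverse = u.reverse ++ [b] := by simp
      rw [h2] at ih
      rw [ih, f_cons_cons, e_neg b a]
      simp

lemma red_cons {a b : Fin 3} {l : List (Fin 3)} : Red (a :: b :: l) ↔ a ≠ b ∧ Red (b :: l) :=
  Iff.rfl

lemma Red.tail {a : Fin 3} {l : List (Fin 3)} (h : Red (a :: l)) : Red l := by
  cases l with
  | nil => trivial
  | cons b l => exact h.2

lemma Red.right {u v : List (Fin 3)} (h : Red (u ++ v)) : Red v := by
  induction u with
  | nil => exact h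
  | cons a u ih => exact ih h.tail

lemma Red.left {u v : List (Fin 3)} (h : Red (u ++ v)) : Red u := by
  induction u with
  | nil => trivial
  | cons a u ih =>
    cases u with
    | nil => trivial
    | cons b u => exact ⟨h.1, ih h.2⟩

lemma red_mid {u : List (Fin 3)} {a b : Fin 3} {v : List (Fin 3)} :
    Red (u ++ a :: b :: v) ↔ Red (u ++ [a]) ∧ a ≠ b ∧ Red (b :: v) := by
  induction u with
  | nil => simp [Red]
  | cons x u ih =>
    cases u with
    | nil => simp [Red]
    | cons y u =>
      simp only [List.cons_append, red_cons] at ih ⊢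
      rw [ih]; tauto

lemma Red.reverse {u : List (Fin 3)} (h : Red u) : Red u.reverse := by
  induction u with
  | nil => trivial
  | cons a u ih =>
    cases u with
    | nil => trivial
    | cons b u =>
      have h1 : (a :: b :: u).reverse = u.reverse ++ b :: a :: [] := by simp
      rw [h1, red_mid]
      refine ⟨?_, fun hh => h.1 hh.symm, trivial⟩
      have h2 : (b :: u).reverse = u.reverse ++ [b] := by simp
      rw [← h2]; exact ih h.2

def act (j : Fin 3) : List (Fin 3) → List (Fin 3)
  | [] => [j]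
  | x :: xs => if x = j then xs else j :: x :: xs

lemma act_red {j : Fin 3} {l : List (Fin 3)} (h : Red l) : Red (act j l) := by
  cases l with
  | nil => trivial
  | cons x xs =>
    by_cases hx : x = j
    · simpa [act, hx] using h.tail
    · simpa [act, hx] using (show Red (j :: x :: xs) from ⟨fun hh => hx hh.symm, h⟩)

lemma act_act {j : Fin 3} {l : List (Fin 3)} (h : Red l) : act j (act j l) = l := by
  cases l with
  | nil => simp [act]
  | cons x xs =>
    by_cases hx : x = j
    · subst hx
      simp only [act, if_true]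
      cases xs with
      | nil => rfl
      | cons y ys =>
        have : y ≠ x := fun hh => h.1 hh.symm
        simp [act, this]
    · simp [act, hx]

abbrev R := {l : List (Fin 3) // Red l}

def s (j : Fin 3) : Equiv.Perm R where
  toFun w := ⟨act j w.1, act_red w.2⟩
  invFun w := ⟨act j w.1, act_red w.2⟩
  left_inv w := Subtype.ext (act_act w.2)
  right_inv w := Subtype.ext (act_act w.2)

lemma s_mul_self (j : Fin 3) : s j * s j = 1 := by
  ext w : 1
  exact Subtype.ext (act_act w.2)

lemma s_inv (j : Fin 3) : (s j)⁻¹ = s j := by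
  rw [inv_eq_iff_mul_eq_one]; exact s_mul_self j

def P (L : List (Fin 3)) : Equiv.Perm R := (L.map s).prod

@[simp] lemma P_nil : P [] = 1 := rfl
lemma P_cons (j : Fin 3) (L : List (Fin 3)) : P (j :: L) = s j * P L := by simp [P]
lemma P_append (L M : List (Fin 3)) : P (L ++ M) = P L * P M := by simp [P]

lemma P_inv (L : List (Fin 3)) : (P L)⁻¹ = P L.reverse := by
  induction L with
  | nil => simp
  | cons j L ih => rw [P_cons, mul_inv_rev, ih, List.reverse_cons, P_append, s_inv]; simp [P]

lemma P_apply (u : List (Fin 3)) (w : R) (h : Red (u ++ w.1)) : (P u w) = ⟨u ++ w.1, h⟩ := by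
  induction u with
  | nil => rfl
  | cons j u ih =>
    rw [P_cons, Equiv.Perm.mul_apply, ih h.tail]
    apply Subtype.ext
    show act j (u ++ w.1) = j :: (u ++ w.1)
    have h' : Red (j :: (u ++ w.1)) := h
    revert h'
    generalize u ++ w.1 = t
    intro h'
    cases t with
    | nil => rfl
    | cons x t =>
      have : x ≠ j := fun hh => h'.1 hh.symm
      simp [act, this]

lemma exists_red (L : List (Fin 3)) : ∃ u, Red u ∧ P L = P u := by
  induction L with
  | nil => exact ⟨[], trivial, rfl⟩
  | cons j L ih =>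
    obtain ⟨u, hu, h⟩ := ih
    cases u with
    | nil => exact ⟨[j], trivial, by rw [P_cons, h, P_cons]⟩
    | cons x u =>
      by_cases hx : j = x
      · subst hx
        refine ⟨u, hu.tail, ?_⟩
        rw [P_cons, h, P_cons, ← mul_assoc, s_mul_self, one_mul]
      · exact ⟨j :: x :: u, ⟨hx, hu⟩, by rw [P_cons, h, ← P_cons]⟩

lemma cancel (u : List (Fin 3)) : ∀ (w : R), Red u →
    ∃ u' c w' : List (Fin 3), u = u' ++ c ∧ w.1 = c.reverse ++ w' ∧ (P u w).1 = u' ++ w' := by
  induction u using List.reverseRecOn with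
  | nil => intro w _; exact ⟨[], [], w.1, rfl, rfl, rfl⟩
  | append_singleton u x ih =>
    intro w hu
    obtain ⟨w, hw⟩ := w
    cases w with
    | nil =>
      refine ⟨u ++ [x], [], [], by simp, by simp, ?_⟩
      rw [P_apply (u ++ [x]) ⟨[], hw⟩ (by simpa using hu)]
    | cons y w =>
      by_cases hy : y = x
      · subst hy
        obtain ⟨u', c, w', h1, h2, h3⟩ := ih ⟨w, hw.tail⟩ hu.left
        refine ⟨u', c ++ [y], w', by rw [h1]; simp, ?_, ?_⟩
        · simp only [List.reverse_append, List.reverse_cons, List.reverse_nil, List.nil_append,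
            List.cons_append, List.cons.injEq, true_and]
          exact h2
        · rw [P_append, Equiv.Perm.mul_apply]
          have : P [y] ⟨y :: w, hw⟩ = ⟨w, hw.tail⟩ := by
            rw [P_cons, P_nil, mul_one]
            apply Subtype.ext
            show act y (y :: w) = w
            simp [act]
          rw [this]; exact h3
      · refine ⟨u ++ [x], [], y :: w, by simp, by simp, ?_⟩
        have hred : Red ((u ++ [x]) ++ (y :: w)) := by
          have : (u ++ [x]) ++ (y :: w) = u ++ x :: y :: w := by simp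
          rw [this, red_mid]
          exact ⟨hu, fun hh => hy hh.symm, hw⟩
        rw [P_apply (u ++ [x]) ⟨y :: w, hw⟩ hred]

def F (g : Equiv.Perm R) : ℤ := f (g ⟨[], trivial⟩).1

lemma F_P {u : List (Fin 3)} (hu : Red u) : F (P u) = f u := by
  unfold F
  rw [P_apply u ⟨[], trivial⟩ (by simpa using hu)]
  simp

lemma F_mul (L M : List (Fin 3)) : |F (P L * P M) - F (P L) - F (P M)| ≤ 3 := by
  obtain ⟨u, hu, h1⟩ := exists_red L
  obtain ⟨w, hw, h2⟩ := exists_red M
  rw [h1, h2, F_P hu, F_P hw]
  have h3 : P w ⟨[], trivial⟩ = ⟨w, hw⟩ := by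
    rw [P_apply w ⟨[], trivial⟩ (by simpa using hw)]
    apply Subtype.ext; simp
  obtain ⟨u', c, w', e1, e2, e3⟩ := cancel u ⟨w, hw⟩ hu
  have h4 : F (P u * P w) = f (u' ++ w') := by
    unfold F
    rw [Equiv.Perm.mul_apply, h3, e3]
  simp only at e2
  rw [h4, e1, e2]
  have k1 := f_append u' c
  have k2 := f_append c.reverse w'
  have k3 := f_append u' w'
  have k4 := f_reverse c
  rw [abs_le] at *
  omega

lemma F_inv (L : List (Fin 3)) : F (P L)⁻¹ = - F (P L) := by
  obtain ⟨u, hu, h1⟩ := exists_red L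
  rw [h1, P_inv, F_P hu, F_P hu.reverse, f_reverse]


def aa : Equiv.Perm R := s 1 * s 0
def bb : Equiv.Perm R := s 2 * s 0

/-- The group: generated by `aa` and `bb` (free of rank two). -/
abbrev GG : Type := Subgroup.closure ({aa, bb} : Set (Equiv.Perm R))

def a' : GG := ⟨aa, Subgroup.subset_closure (by simp)⟩
def b' : GG := ⟨bb, Subgroup.subset_closure (by simp)⟩

lemma closure_ab : Subgroup.closure ({a', b'} : Set GG) = ⊤ := by
  have h := Subgroup.closure_closure_coe_preimage (k := ({aa, bb} : Set (Equiv.Perm R)))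
  rw [← h]
  congr 1
  ext x
  simp only [Set.mem_insert_iff, Set.mem_singleton_iff, Set.mem_preimage]
  constructor
  · rintro (rfl | rfl)
    · left; rfl
    · right; rfl
  · rintro (h | h)
    · left; exact Subtype.ext h
    · right; exact Subtype.ext h

lemma exists_P (g : GG) : ∃ L, (g : Equiv.Perm R) = P L := by
  obtain ⟨g, hg⟩ := g
  show ∃ L, g = P L
  induction hg using Subgroup.closure_induction with
  | mem x hx =>
    simp only [Set.mem_insert_iff, Set.mem_singleton_iff] at hx
    rcases hx with rfl | rfl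
    · exact ⟨[1, 0], by simp [P, aa]⟩
    · exact ⟨[2, 0], by simp [P, bb]⟩
  | one => exact ⟨[], rfl⟩
  | mul x y _ _ ihx ihy =>
    obtain ⟨L, rfl⟩ := ihx
    obtain ⟨M, rfl⟩ := ihy
    exact ⟨L ++ M, (P_append L M).symm⟩
  | inv x _ ih =>
    obtain ⟨L, rfl⟩ := ih
    exact ⟨L.reverse, P_inv L⟩

lemma conj_letter (x : GG) (hx : x ∈ ({a', b'} : Set GG) ∨ x⁻¹ ∈ ({a', b'} : Set GG)) :
    s 0 * (x : Equiv.Perm R) * s 0 = (x : Equiv.Perm R)⁻¹ := by
  have ha : s 0 * aa * s 0 = aa⁻¹ := by
    unfold aa
    rw [mul_inv_rev, s_inv, s_inv, mul_assoc (s 0), mul_assoc (s 1), s_mul_self, mul_one]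
  have hb : s 0 * bb * s 0 = bb⁻¹ := by
    unfold bb
    rw [mul_inv_rev, s_inv, s_inv, mul_assoc (s 0), mul_assoc (s 2), s_mul_self, mul_one]
  have hi : ∀ y : Equiv.Perm R, s 0 * y * s 0 = y⁻¹ → s 0 * y⁻¹ * s 0 = y⁻¹⁻¹ := by
    intro y hy
    rw [← hy, mul_inv_rev, mul_inv_rev, s_inv]
    rw [mul_assoc (s 0) y (s 0), ← mul_assoc (s 0) (s 0), s_mul_self, one_mul, mul_assoc,
      s_mul_self, mul_one]
    have : s 0 * y * s 0 = y⁻¹ := hy
    have h2 : y = s 0 * y⁻¹ * s 0 := by
      rw [← this]
      rw [mul_assoc (s 0) y (s 0), ← mul_assoc (s 0) (s 0), s_mul_self, one_mul, mul_assoc,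
        s_mul_self, mul_one]
    rw [mul_assoc] at h2
    exact h2
  rcases hx with hx | hx
  · simp only [Set.mem_insert_iff, Set.mem_singleton_iff] at hx
    rcases hx with rfl | rfl
    · exact ha
    · exact hb
  · simp only [Set.mem_insert_iff, Set.mem_singleton_iff] at hx
    have hx' : x = (x⁻¹)⁻¹ := (inv_inv x).symm
    rcases hx with hx | hx
    · rw [hx] at hx'
      rw [hx']
      exact hi aa ha
    · rw [hx] at hx'
      rw [hx']
      exact hi bb hb

lemma conj_word (w : List GG) (hw : Let ({a', b'} : Set GG) w) :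
    s 0 * ((w.prod : GG) : Equiv.Perm R) * s 0 = (((w.reverse.prod : GG) : Equiv.Perm R))⁻¹ := by
  induction w with
  | nil => simp [s_mul_self]
  | cons x w ih =>
    have h1 := conj_letter x (hw x (by simp))
    have h2 := ih (fun y hy => hw y (by simp [hy]))
    rw [List.prod_cons, List.reverse_cons, List.prod_append, List.prod_singleton]
    rw [Subgroup.coe_mul, Subgroup.coe_mul, mul_inv_rev, ← h1, ← h2]
    have : s 0 * (x : Equiv.Perm R) * s 0 * (s 0 * ((w.prod : GG) : Equiv.Perm R) * s 0)
        = s 0 * (x : Equiv.Perm R) * (s 0 * s 0) * ((w.prod : GG) : Equiv.Perm R) * s 0 := by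
      group
    rw [this, s_mul_self]
    group

lemma F_s0 : F (s 0) = 0 := by
  have h : F (P [0]) = f [0] := F_P trivial
  have : P [0] = s 0 := by simp [P]
  rw [this] at h
  exact h

lemma F_pal (p : GG) (hp : IsPal ({a', b'} : Set GG) p) : |F (p : Equiv.Perm R)| ≤ 3 := by
  obtain ⟨w, hw, hrev, hprod⟩ := hp
  have h1 := conj_word w hw
  rw [hrev, hprod] at h1
  -- (p s0)⁻¹ = p s0
  have h2 : ((p : Equiv.Perm R) * s 0)⁻¹ = (p : Equiv.Perm R) * s 0 := by
    rw [mul_inv_rev, s_inv, ← h1, ← mul_assoc, ← mul_assoc, s_mul_self, one_mul]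
  obtain ⟨L, hL⟩ := exists_P p
  have h3 : (p : Equiv.Perm R) * s 0 = P (L ++ [0]) := by rw [P_append, ← hL]; simp [P]
  have h4 : F (P (L ++ [0])) = 0 := by
    have := F_inv (L ++ [0])
    rw [← h3, h2] at this
    rw [← h3]
    omega
  have h5 : P (L ++ [0]) * P [0] = (p : Equiv.Perm R) := by
    rw [← h3]
    have : P [0] = s 0 := by simp [P]
    rw [this, mul_assoc, s_mul_self, mul_one]
  have h6 := F_mul (L ++ [0]) [0]
  rw [h5, h4] at h6
  have h7 : F (P [0]) = 0 := F_P trivial
  rw [h7] at h6
  simpa using h6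

lemma F_prod (ps : List GG) (hps : ∀ p ∈ ps, IsPal ({a', b'} : Set GG) p) :
    |F ((ps.prod : GG) : Equiv.Perm R)| ≤ 6 * ps.length := by
  induction ps with
  | nil =>
    have : F (1 : Equiv.Perm R) = 0 := rfl
    simp [this]
  | cons p ps ih =>
    have h1 := F_pal p (hps p (by simp))
    have h2 := ih (fun q hq => hps q (by simp [hq]))
    rw [List.prod_cons, Subgroup.coe_mul]
    obtain ⟨L, hL⟩ := exists_P p
    obtain ⟨M, hM⟩ := exists_P ps.prod
    have h3 := F_mul L M
    rw [← hL, ← hM] at h3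
    have h4 : ((p :: ps).length : ℤ) = ps.length + 1 := by simp
    rw [h4]
    rw [abs_le] at *
    omega

/-- The long word `(012012)^n`. -/
def W : ℕ → List (Fin 3)
  | 0 => []
  | n + 1 => 0 :: 1 :: 2 :: 0 :: 1 :: 2 :: W n

lemma W_red (n : ℕ) : Red (W n) := by
  induction n with
  | zero => trivial
  | succ n ih =>
    have h : Red (2 :: W n) := by
      cases n with
      | zero => trivial
      | succ n => exact ⟨by decide, ih⟩
    exact ⟨by decide, by decide, by decide, by decide, by decide, h⟩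

lemma W_f (n : ℕ) : f (W (n + 1)) = 6 * n + 5 := by
  induction n with
  | zero => decide
  | succ n ih =>
    have h : f (W (n + 1 + 1)) = e 0 1 + (e 1 2 + (e 2 0 + (e 0 1 + (e 1 2 + (e 2 0 + f (W (n + 1))))))) := rfl
    rw [h, ih]
    have h01 : e 0 1 = 1 := by decide
    have h12 : e 1 2 = 1 := by decide
    have h20 : e 2 0 = 1 := by decide
    rw [h01, h12, h20]
    push_cast; ring

lemma W_mem (n : ℕ) : P (W n) = (((a'⁻¹ * b' * a' * b'⁻¹) ^ n : GG) : Equiv.Perm R) := by
  have h : P [0, 1, 2, 0, 1, 2] = ((a'⁻¹ * b' * a' * b'⁻¹ : GG) : Equiv.Perm R) := by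
    show P [0, 1, 2, 0, 1, 2] = aa⁻¹ * bb * aa * bb⁻¹
    unfold aa bb
    rw [mul_inv_rev, mul_inv_rev, s_inv, s_inv, s_inv]
    simp only [P, List.map_cons, List.map_nil, List.prod_cons, List.prod_nil]
    have : s 0 * s 1 * (s 2 * s 0) * (s 1 * s 0) * (s 0 * s 2)
      = s 0 * s 1 * (s 2 * s 0) * s 1 * (s 0 * s 0) * s 2 := by group
    rw [this, s_mul_self]
    group
  induction n with
  | zero => rfl
  | succ n ih =>
    have h1 : W (n + 1) = [0, 1, 2, 0, 1, 2] ++ W n := rfl
    rw [h1, P_append, h, ih, pow_succ']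
    rfl

theorem no_bound (N : ℕ) : ∃ g : GG, ∀ ps : List GG, ps.length ≤ N →
    (∀ p ∈ ps, IsPal ({a', b'} : Set GG) p) → ps.prod ≠ g := by
  refine ⟨(a'⁻¹ * b' * a' * b'⁻¹) ^ (N + 1), ?_⟩
  intro ps hlen hps hprod
  have h1 := F_prod ps hps
  rw [hprod, ← W_mem, F_P (W_red _), W_f, abs_le] at h1
  omega



/-- There is a group with finite generating sets X and Y such that every element is a product of boundedly many palindromes over X, but no such bound exists for palindromes over Y. -/
theorem result :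
    ∃ (G : Type) (_ : Group G) (X Y : Finset G),
      Subgroup.closure (X : Set G) = ⊤ ∧ Subgroup.closure (Y : Set G) = ⊤ ∧
      (∃ N : ℕ, ∀ g : G, ∃ ps : List G, ps.length ≤ N ∧ ps.prod = g ∧
        ∀ p ∈ ps, ∃ w : List G, (∀ x ∈ w, x ∈ X ∨ x⁻¹ ∈ X) ∧ w.reverse = w ∧ w.prod = p) ∧
      ¬ (∃ N : ℕ, ∀ g : G, ∃ ps : List G, ps.length ≤ N ∧ ps.prod = g ∧
        ∀ p ∈ ps, ∃ w : List G, (∀ x ∈ w, x ∈ Y ∨ x⁻¹ ∈ Y) ∧ w.reverse = w ∧ w.prod = p) := by
  classical
  have hX : ((({a', b', a' * b'} : Finset GG) : Finset GG) : Set GG) = {a', b', a' * b'} := by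
    simp
  have hY : ((({a', b'} : Finset GG) : Finset GG) : Set GG) = {a', b'} := by simp
  refine ⟨GG, inferInstance, {a', b', a' * b'}, {a', b'}, ?_, ?_, ?_, ?_⟩
  · rw [hX, eq_top_iff, ← closure_ab]
    apply Subgroup.closure_mono
    intro x hx
    simp only [Set.mem_insert_iff, Set.mem_singleton_iff] at hx
    rcases hx with rfl | rfl <;> simp
  · rw [hY]; exact closure_ab
  · refine ⟨3, fun g => ?_⟩
    obtain ⟨p, q, r, hp, hq, hr, h⟩ := width_three a' b' closure_ab g
    refine ⟨[p, q, r], by simp, by simp [← h, mul_assoc], ?_⟩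
    have key : ∀ z : GG, IsPal ({a', b', a' * b'} : Set GG) z → ∃ w : List GG,
        (∀ x ∈ w, x ∈ ({a', b', a' * b'} : Finset GG) ∨ x⁻¹ ∈ ({a', b', a' * b'} : Finset GG)) ∧
          w.reverse = w ∧ w.prod = z := by
      rintro z ⟨w, hw, h1, h2⟩
      refine ⟨w, fun x hx => ?_, h1, h2⟩
      have := hw x hx
      rw [← hX] at this
      simpa only [Finset.mem_coe] using this
    intro z hz
    simp only [List.mem_cons, List.not_mem_nil, or_false] at hz
    rcases hz with rfl | rfl | rfl
    · exact key _ hp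
    · exact key _ hq
    · exact key _ hr
  · rintro ⟨N, hN⟩
    obtain ⟨g, hg⟩ := no_bound N
    obtain ⟨ps, h1, h2, h3⟩ := hN g
    refine hg ps h1 (fun p hp => ?_) h2
    obtain ⟨w, hw, h4, h5⟩ := h3 p hp
    refine ⟨w, fun x hx => ?_, h4, h5⟩
    have := hw x hx
    rw [← hY]
    simpa only [Finset.mem_coe] using this

end Pool.Agent.S02219
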