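import Pool.Statements.S02344

set_option autoImplicit false
open Pool Pool.MP_94dfa5_al

/-!
A counterexample.  Let `G` be the direct sum of cyclic groups generated by `v` (order `2`), `rₙ`
(order `2^(n+1)`) and `sₙ` (order `2`), and let `t` be the involutive automorphism of `G` which fixes
`v` and all `rₙ` and maps `sₙ` to `sₙ + v + 2^n rₙ`.

* `G` is stable: finite groups are stable, and every finite subset of `G` is fixed pointwise by a
  retraction of `G` onto a finite subgroup.
* `G ⋊ ⟨t⟩` is not stable.  Killing `t` forces `v = 2^n rₙ` for all `n`, which is consistent (map `v`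
  to `1/2` and `rₙ` to `1/2^(n+1)` in the Pruefer group), so there are almost homomorphisms into
  permutations for which `t` acts as the identity and `v` without fixed points.  But for a true
  homomorphism `ρ` to a symmetric group of degree `k` and `n` large, `ρ(rₙ)^(2^n) = 1`, hence `ρ(v)` is
  the commutator of `ρ(sₙ)` and `ρ(t)` and moves at most twice as many points as `ρ(t)`.
-/

namespace Pool.Agent.S02344.Aux

/-- defect-type distance -/
def Stab (K : Type) [Group K] : Prop :=
  ∀ (S : Finset K) (ε : ℝ), 0 < ε → ∃ (T : Finset K) (δ : ℝ), 0 < δ ∧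
    ∀ (n : ℕ) (f : K → Equiv.Perm (Fin n)),
      (∀ g ∈ T, ∀ h ∈ T,
        ((Finset.univ.filter (fun i : Fin n => f (g * h) i ≠ (f g * f h) i)).card : ℝ)
          / (n : ℝ) < δ) →
      ∃ ρ : K →* Equiv.Perm (Fin n), ∀ g ∈ S,
        ((Finset.univ.filter (fun i : Fin n => f g i ≠ ρ g i)).card : ℝ) / (n : ℝ) < ε

/-- Finite groups are stable, with the same `δ` for all elements. -/
lemma finite_stab (K : Type) [Group K] [Finite K] (ε : ℝ) (hε : 0 < ε) :
    ∃ δ : ℝ, 0 < δ ∧ ∀ (n : ℕ) (f : K → Equiv.Perm (Fin n)),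
      (∀ g h : K,
        ((Finset.univ.filter (fun i : Fin n => f (g * h) i ≠ (f g * f h) i)).card : ℝ)
          / (n : ℝ) < δ) →
      ∃ ρ : K →* Equiv.Perm (Fin n), ∀ g : K,
        ((Finset.univ.filter (fun i : Fin n => f g i ≠ ρ g i)).card : ℝ) / (n : ℝ) < ε := by
  classical
  have := Fintype.ofFinite K
  set c : ℝ := (1 + (Fintype.card K : ℝ)) * ((Fintype.card K : ℝ) * (Fintype.card K : ℝ)) with hc
  have hcard : (0 : ℝ) < (Fintype.card K : ℝ) := by exact_mod_cast Fintype.card_pos
  have hcpos : 0 < c := by positivity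
  refine ⟨ε / c, by positivity, ?_⟩
  intro n f hf
  set A : Finset (Fin n) := Finset.univ.filter (fun i => ∀ g h : K, f (g * h) i = f g (f h i))
    with hA
  set B : Finset (Fin n) := Finset.univ.filter (fun i => i ∈ A ∧ ∀ g : K, f g i ∈ A) with hB
  have memA : ∀ i, i ∈ A ↔ ∀ g h : K, f (g * h) i = f g (f h i) := by intro i; simp [hA]
  have memB : ∀ i, i ∈ B ↔ i ∈ A ∧ ∀ g : K, f g i ∈ A := by intro i; simp [hB]
  have B_inv : ∀ i ∈ B, ∀ g : K, f g i ∈ B := by
    intro i hi g
    rw [memB] at hi ⊢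
    refine ⟨hi.2 g, fun k => ?_⟩
    rw [← (memA i).1 hi.1 k g]
    exact hi.2 _
  have f_one : ∀ i ∈ B, f 1 i = i := by
    intro i hi
    have h1 := (memA i).1 ((memB i).1 hi).1 1 1
    rw [one_mul] at h1
    exact (f 1).injective h1.symm
  -- action
  let act : MulAction K (Fin n) :=
    { smul := fun g i => if i ∈ B then f g i else i
      one_smul := by
        intro i
        show (if i ∈ B then f 1 i else i) = i
        split_ifs with h
        · exact f_one i h
        · rfl
      mul_smul := by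
        intro g h i
        show (if i ∈ B then f (g * h) i else i) =
          (if (if i ∈ B then f h i else i) ∈ B then f g (if i ∈ B then f h i else i)
            else (if i ∈ B then f h i else i))
        by_cases hi : i ∈ B
        · simp only [hi, if_true, B_inv i hi h]
          exact (memA i).1 ((memB i).1 hi).1 g h
        · simp [hi] }
  let ρ : K →* Equiv.Perm (Fin n) := @MulAction.toPermHom K (Fin n) _ act
  refine ⟨ρ, fun g => ?_⟩
  have hρ : ∀ i ∈ B, ρ g i = f g i := by
    intro i hi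
    show (if i ∈ B then f g i else i) = f g i
    simp [hi]
  have hsub : (Finset.univ.filter (fun i : Fin n => f g i ≠ ρ g i)) ⊆ Bᶜ := by
    intro i hi
    simp only [Finset.mem_filter, Finset.mem_univ, true_and] at hi
    rw [Finset.mem_compl]
    intro h
    exact hi (hρ i h).symm
  have hAc : (Aᶜ.card : ℝ) / n < (Fintype.card K : ℝ) * (Fintype.card K : ℝ) * (ε / c) := by
    have h1 : Aᶜ ⊆ (Finset.univ : Finset (K × K)).biUnion
        (fun p => Finset.univ.filter (fun i : Fin n => f (p.1 * p.2) i ≠ (f p.1 * f p.2) i)) := by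
      intro i hi
      rw [Finset.mem_compl, memA] at hi
      push Not at hi
      obtain ⟨g, h, hgh⟩ := hi
      simp only [Finset.mem_biUnion, Finset.mem_filter, Finset.mem_univ, true_and]
      exact ⟨(g, h), hgh⟩
    have h2 : (Aᶜ.card : ℝ) ≤ ∑ p : K × K,
        ((Finset.univ.filter (fun i : Fin n => f (p.1 * p.2) i ≠ (f p.1 * f p.2) i)).card : ℝ) := by
      exact_mod_cast (Finset.card_le_card h1).trans Finset.card_biUnion_le
    calc (Aᶜ.card : ℝ) / n ≤ (∑ p : K × K,
        ((Finset.univ.filter (fun i : Fin n => f (p.1 * p.2) i ≠ (f p.1 * f p.2) i)).card : ℝ)) / n :=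
          div_le_div_of_nonneg_right h2 (Nat.cast_nonneg n)
      _ = ∑ p : K × K,
        ((Finset.univ.filter (fun i : Fin n => f (p.1 * p.2) i ≠ (f p.1 * f p.2) i)).card : ℝ) / n := by
          rw [Finset.sum_div]
      _ < ∑ _p : K × K, (ε / c) := by
          apply Finset.sum_lt_sum_of_nonempty Finset.univ_nonempty
          intro p _
          exact hf p.1 p.2
      _ = (Fintype.card K : ℝ) * (Fintype.card K : ℝ) * (ε / c) := by
          rw [Finset.sum_const, Finset.card_univ, Fintype.card_prod, nsmul_eq_mul]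
          push_cast; ring
  have hBc : (Bᶜ.card : ℝ) ≤ (1 + (Fintype.card K : ℝ)) * (Aᶜ.card : ℝ) := by
    have h1 : Bᶜ ⊆ Aᶜ ∪ (Finset.univ : Finset K).biUnion
        (fun g => Aᶜ.image (fun i => (f g)⁻¹ i)) := by
      intro i hi
      rw [Finset.mem_compl, memB] at hi
      by_cases hiA : i ∈ A
      · have : ¬ ∀ g : K, f g i ∈ A := fun h => hi ⟨hiA, h⟩
        push Not at this
        obtain ⟨g, hg⟩ := this
        apply Finset.mem_union_right
        simp only [Finset.mem_biUnion, Finset.mem_univ, true_and, Finset.mem_image]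
        exact ⟨g, f g i, Finset.mem_compl.2 hg, by simp⟩
      · exact Finset.mem_union_left _ (Finset.mem_compl.2 hiA)
    have h2 : Bᶜ.card ≤ Aᶜ.card + ∑ _g : K, Aᶜ.card := by
      refine (Finset.card_le_card h1).trans ((Finset.card_union_le _ _).trans ?_)
      apply Nat.add_le_add_left
      refine Finset.card_biUnion_le.trans ?_
      apply Finset.sum_le_sum
      intro g _
      exact Finset.card_image_le
    rw [Finset.sum_const, Finset.card_univ, smul_eq_mul] at h2
    have h3 : (Bᶜ.card : ℝ) ≤ (Aᶜ.card : ℝ) + (Fintype.card K : ℝ) * (Aᶜ.card : ℝ) := by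
      exact_mod_cast h2
    linarith
  calc ((Finset.univ.filter (fun i : Fin n => f g i ≠ ρ g i)).card : ℝ) / (n : ℝ)
      ≤ (Bᶜ.card : ℝ) / n := by
        apply div_le_div_of_nonneg_right _ (Nat.cast_nonneg n)
        exact_mod_cast Finset.card_le_card hsub
    _ ≤ ((1 + (Fintype.card K : ℝ)) * (Aᶜ.card : ℝ)) / n :=
        div_le_div_of_nonneg_right hBc (Nat.cast_nonneg n)
    _ = (1 + (Fintype.card K : ℝ)) * ((Aᶜ.card : ℝ) / n) := by ring
    _ < (1 + (Fintype.card K : ℝ)) * ((Fintype.card K : ℝ) * (Fintype.card K : ℝ) * (ε / c)) := by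
        apply mul_lt_mul_of_pos_left hAc (by positivity)
    _ = ε := by rw [hc]; field_simp

/-- A group all of whose finite subsets are fixed by an endomorphism factoring through a finite
group is stable. -/
lemma stab_of_retract (G : Type) [Group G]
    (h : ∀ S : Finset G, ∃ (K : Type) (_ : Group K) (_ : Finite K) (ι : K →* G) (π : G →* K),
      ∀ g ∈ S, ι (π g) = g) : Stab G := by
  classical
  intro S ε hε
  obtain ⟨K, _, _, ι, π, hS⟩ := h S
  have := Fintype.ofFinite K
  obtain ⟨δ, hδ, hK⟩ := finite_stab K ε hε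
  refine ⟨Finset.univ.image ι, δ, hδ, ?_⟩
  intro n f hf
  obtain ⟨ρ, hρ⟩ := hK n (fun k => f (ι k)) (by
    intro g h
    have := hf (ι g) (Finset.mem_image_of_mem _ (Finset.mem_univ g)) (ι h)
      (Finset.mem_image_of_mem _ (Finset.mem_univ h))
    simpa only [map_mul] using this)
  refine ⟨ρ.comp π, fun g hg => ?_⟩
  have := hρ (π g)
  rw [hS g hg] at this
  exact this

/-- the homomorphism `ZMod (2^(n+1)) → ZMod (2^(m+1))` with `1 ↦ 2^(m-n)` (for `n ≤ m`, else `0`). -/
noncomputable def d (n m : ℕ) : ZMod (2 ^ (n + 1)) →+ ZMod (2 ^ (m + 1)) :=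
  if h : n ≤ m then
    ZMod.lift (2 ^ (n + 1)) ⟨zmultiplesHom (ZMod (2 ^ (m + 1))) ((2 ^ (m - n) : ℕ) : ZMod (2 ^ (m + 1))), by
      rw [zmultiplesHom_apply, natCast_zsmul, nsmul_eq_mul, ← Nat.cast_mul, ← pow_add,
        show n + 1 + (m - n) = m + 1 by omega, ZMod.natCast_self]⟩
  else 0

lemma d_one {n m : ℕ} (h : n ≤ m) : d n m 1 = ((2 ^ (m - n) : ℕ) : ZMod (2 ^ (m + 1))) := by
  unfold d
  rw [dif_pos h]
  have := ZMod.lift_coe (2 ^ (n + 1)) (⟨zmultiplesHom (ZMod (2 ^ (m + 1))) ((2 ^ (m - n) : ℕ) : ZMod (2 ^ (m + 1))), by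
      rw [zmultiplesHom_apply, natCast_zsmul, nsmul_eq_mul, ← Nat.cast_mul, ← pow_add,
        show n + 1 + (m - n) = m + 1 by omega, ZMod.natCast_self]⟩ : {f : ℤ →+ ZMod (2 ^ (m + 1)) // f (2 ^ (n + 1) : ℕ) = 0}) 1
  rw [Int.cast_one] at this
  rw [this]
  simp

/-- the summands -/
abbrev B (n : ℕ) : Type := ZMod (2 ^ (n + 1)) × ZMod (2 ^ (0 + 1))

/-- The additive group `A = Z/2 v ⊕ ⨁ₙ (Z/2^(n+1) rₙ ⊕ Z/2 sₙ)`. -/
abbrev A : Type := ZMod (2 ^ (0 + 1)) × Π₀ n : ℕ, (ZMod (2 ^ (n + 1)) × ZMod (2 ^ (0 + 1)))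

/-- first coordinate: sum of the `s`-coordinates -/
noncomputable def sg : (Π₀ n : ℕ, (ZMod (2 ^ (n + 1)) × ZMod (2 ^ (0 + 1)))) →+ ZMod (2 ^ (0 + 1)) :=
  DFinsupp.sumAddHom (fun n => (AddMonoidHom.snd (ZMod (2 ^ (n + 1))) (ZMod (2 ^ (0 + 1)))))

/-- second coordinate: `sₙ ↦ 2^n rₙ` -/
noncomputable def rg : (Π₀ n : ℕ, (ZMod (2 ^ (n + 1)) × ZMod (2 ^ (0 + 1)))) →+
    (Π₀ n : ℕ, (ZMod (2 ^ (n + 1)) × ZMod (2 ^ (0 + 1)))) :=
  DFinsupp.mapRange.addMonoidHom (fun n =>
    (AddMonoidHom.inl (ZMod (2 ^ (n + 1))) (ZMod (2 ^ (0 + 1)))).comp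
      ((d 0 n).comp (AddMonoidHom.snd (ZMod (2 ^ (n + 1))) (ZMod (2 ^ (0 + 1))))))

noncomputable def th : A →+ A :=
  AddMonoidHom.prod (sg.comp (AddMonoidHom.snd _ _)) (rg.comp (AddMonoidHom.snd _ _))

lemma th_apply (x : A) : th x = (sg x.2, rg x.2) := rfl

lemma two_mul_zmod (x : ZMod (2 ^ (0 + 1))) : x + x = 0 := by
  revert x; decide

lemma two_sg (x) : sg x + sg x = 0 := by
  exact two_mul_zmod _

lemma two_rg (x) : rg x + rg x = 0 := by
  rw [← map_add]
  ext n : 1
  show ((d 0 n) ((x + x) n).2, (0 : ZMod (2 ^ (0 + 1)))) = 0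
  rw [DFinsupp.add_apply, Prod.snd_add, two_mul_zmod, map_zero]
  rfl

lemma sg_rg (x) : sg (rg x) = 0 := by
  have : sg.comp rg = 0 := by
    apply DFinsupp.addHom_ext
    intro n y
    show sg (rg (DFinsupp.single n y)) = 0
    unfold rg sg
    rw [DFinsupp.mapRange.addMonoidHom_apply, DFinsupp.mapRange_single, DFinsupp.sumAddHom_single]
    rfl
  exact DFunLike.congr_fun this x

lemma rg_rg (x) : rg (rg x) = 0 := by
  ext n : 1
  show ((d 0 n) (0 : ZMod (2 ^ (0 + 1))), (0 : ZMod (2 ^ (0 + 1)))) = 0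
  rw [map_zero]; rfl

lemma th_th (x : A) : th (th x) = 0 := by
  rw [th_apply, th_apply, sg_rg, rg_rg]; rfl

lemma two_th (x : A) : th x + th x = 0 := by
  rw [th_apply]
  exact Prod.ext (two_sg _) (two_rg _)

noncomputable def tauA : A ≃+ A where
  toFun x := x + th x
  invFun x := x + th x
  left_inv x := by
    show (x + th x) + th (x + th x) = x
    rw [map_add, th_th, add_zero, add_assoc, two_th, add_zero]
  right_inv x := by
    show (x + th x) + th (x + th x) = x
    rw [map_add, th_th, add_zero, add_assoc, two_th, add_zero]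
  map_add' x y := by
    show (x + y) + th (x + y) = (x + th x) + (y + th y)
    rw [map_add]; abel

lemma tauA_tauA (x : A) : tauA (tauA x) = x := tauA.left_inv x

abbrev G : Type := Multiplicative A

noncomputable def tau : MulAut G := AddEquiv.toMultiplicative tauA

lemma tau_sq : tau ^ 2 = 1 := by
  ext x : 1
  rw [pow_two]
  exact tauA_tauA (Multiplicative.toAdd x)

abbrev H : Type := Subgroup.zpowers tau

instance : Finite H := by
  have h : IsOfFinOrder tau := isOfFinOrder_iff_pow_eq_one.2 ⟨2, by norm_num, tau_sq⟩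
  exact h.finite_zpowers

noncomputable abbrev phi : H →* MulAut G := (Subgroup.zpowers tau).subtype

abbrev Gam : Type := SemidirectProduct G H phi

/-- restriction to a finite subsum -/
noncomputable def restr (N : ℕ) : A →+ (ZMod (2 ^ (0 + 1)) × ((n : Fin N) → (ZMod (2 ^ ((n : ℕ) + 1)) × ZMod (2 ^ (0 + 1))))) :=
  AddMonoidHom.prodMap (AddMonoidHom.id _)
    (AddMonoidHom.pi (fun n : Fin N => DFinsupp.evalAddMonoidHom (n : ℕ)))

noncomputable def ext (N : ℕ) : (ZMod (2 ^ (0 + 1)) × ((n : Fin N) → (ZMod (2 ^ ((n : ℕ) + 1)) × ZMod (2 ^ (0 + 1))))) →+ A :=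
  AddMonoidHom.prodMap (AddMonoidHom.id _)
    (∑ n : Fin N, (DFinsupp.singleAddHom (fun n : ℕ => (ZMod (2 ^ (n + 1)) × ZMod (2 ^ (0 + 1)))) (n : ℕ)).comp
      (Pi.evalAddMonoidHom (fun n : Fin N => (ZMod (2 ^ ((n : ℕ) + 1)) × ZMod (2 ^ (0 + 1)))) n))

lemma ext_restr (N : ℕ) (x : A) (hx : ∀ n, N ≤ n → x.2 n = 0) : ext N (restr N x) = x := by
  obtain ⟨v, x⟩ := x
  apply Prod.ext
  · rfl
  · show (∑ n : Fin N, (DFinsupp.singleAddHom (fun n : ℕ => (ZMod (2 ^ (n + 1)) × ZMod (2 ^ (0 + 1)))) (n : ℕ)).comp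
      (Pi.evalAddMonoidHom (fun n : Fin N => (ZMod (2 ^ ((n : ℕ) + 1)) × ZMod (2 ^ (0 + 1)))) n))
        (fun n : Fin N => x n) = x
    rw [AddMonoidHom.finsetSum_apply]
    ext m : 1
    rw [DFinsupp.finsetSum_apply]
    by_cases hm : m < N
    · rw [Finset.sum_eq_single (⟨m, hm⟩ : Fin N)]
      · simp
      · intro b _ hb
        have : (b : ℕ) ≠ m := fun h => hb (Fin.ext h)
        simp [DFinsupp.single_apply, this]
      · intro h; exact absurd (Finset.mem_univ _) h
    · push Not at hm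
      have h0 := hx m hm
      simp only at h0
      rw [h0]
      apply Finset.sum_eq_zero
      intro b _
      have : (b : ℕ) ≠ m := by omega
      simp [DFinsupp.single_apply, this]

lemma exists_bound (S : Finset G) : ∃ N : ℕ, ∀ g ∈ S, ∀ n, N ≤ n → (Multiplicative.toAdd g).2 n = 0 := by
  classical
  refine ⟨(S.sup (fun g => (Multiplicative.toAdd g).2.support.sup id)) + 1, ?_⟩
  intro g hg n hn
  by_contra hne
  have h1 : n ∈ (Multiplicative.toAdd g).2.support := by
    rw [DFinsupp.mem_support_toFun]; exact hne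
  have h2 : n ≤ (Multiplicative.toAdd g).2.support.sup id := Finset.le_sup (f := id) h1
  have h3 : (Multiplicative.toAdd g).2.support.sup id ≤ _ :=
    Finset.le_sup (f := fun g : G => (Multiplicative.toAdd g).2.support.sup id) hg
  omega


lemma finite_sum_group (N : ℕ) : Finite (ZMod (2 ^ (0 + 1)) ×
    ((n : Fin N) → (ZMod (2 ^ ((n : ℕ) + 1)) × ZMod (2 ^ (0 + 1))))) := by
  have h : ∀ n : ℕ, Finite (ZMod (2 ^ (n + 1))) := fun n => by
    have : NeZero (2 ^ (n + 1)) := ⟨by positivity⟩
    infer_instance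
  have := h 0
  have h2 : ∀ n : Fin N, Finite (ZMod (2 ^ ((n : ℕ) + 1)) × ZMod (2 ^ (0 + 1))) := fun n => by
    have := h n
    infer_instance
  infer_instance

lemma countable_G : Countable G := by
  have h : ∀ n : ℕ, Countable (ZMod (2 ^ (n + 1))) := fun n => by
    have : NeZero (2 ^ (n + 1)) := ⟨by positivity⟩
    infer_instance
  have h0 := h 0
  have h1 : Countable A := inferInstance
  exact h1

lemma stab_G : Stab G := by
  apply stab_of_retract
  intro S
  obtain ⟨N, hN⟩ := exists_bound S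
  refine ⟨Multiplicative (ZMod (2 ^ (0 + 1)) ×
    ((n : Fin N) → (ZMod (2 ^ ((n : ℕ) + 1)) × ZMod (2 ^ (0 + 1))))), inferInstance,
    finite_sum_group N, AddMonoidHom.toMultiplicative (ext N),
    AddMonoidHom.toMultiplicative (restr N), ?_⟩
  intro g hg
  exact ext_restr N (Multiplicative.toAdd g) (hN g hg)

/-- the characters -/
noncomputable def chi (m : ℕ) : A →+ ZMod (2 ^ (m + 1)) :=
  AddMonoidHom.coprod (d 0 m) (DFinsupp.sumAddHom (fun n => (d n m).comp (AddMonoidHom.fst _ _)))

lemma zmod2_cases (y : ZMod (2 ^ (0 + 1))) : y = 0 ∨ y = 1 := by revert y; decide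

lemma d_d {n m : ℕ} (h : n ≤ m) (y : ZMod (2 ^ (0 + 1))) : d n m (d 0 n y) = d 0 m y := by
  rcases zmod2_cases y with rfl | rfl
  · simp
  · rw [d_one (Nat.zero_le n), d_one (Nat.zero_le m)]
    have : ((2 ^ (n - 0) : ℕ) : ZMod (2 ^ (n + 1))) = (2 ^ n : ℕ) • (1 : ZMod (2 ^ (n + 1))) := by
      simp
    rw [this, map_nsmul, d_one h, nsmul_eq_mul, ← Nat.cast_mul, ← pow_add]
    congr 2
    omega

lemma d_two {m : ℕ} (y : ZMod (2 ^ (0 + 1))) : d 0 m y + d 0 m y = 0 := by
  rw [← map_add, two_mul_zmod, map_zero]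

lemma chi_th (m : ℕ) (x : A) (hx : ∀ n, m ≤ n → x.2 n = 0) : chi m (th x) = 0 := by
  classical
  obtain ⟨v, x⟩ := x
  rw [th_apply]
  simp only
  simp only at hx
  have key : ∀ n y, n ≤ m → chi m (sg (DFinsupp.single n y), rg (DFinsupp.single n y)) = 0 := by
    intro n y hn
    unfold chi sg rg
    rw [DFinsupp.mapRange.addMonoidHom_apply, DFinsupp.mapRange_single, DFinsupp.sumAddHom_single,
      AddMonoidHom.coprod_apply, DFinsupp.sumAddHom_single]
    show d 0 m y.2 + d n m (d 0 n y.2) = 0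
    rw [d_d hn, d_two]
  have hxs : x = ∑ n ∈ x.support, DFinsupp.single n (x n) := by
    conv_lhs => rw [← DFinsupp.sum_single (f := x)]
    rfl
  have h1 : (sg x, rg x) = ∑ n ∈ x.support, ((sg (DFinsupp.single n (x n)),
      rg (DFinsupp.single n (x n))) : A) := by
    apply Prod.ext
    · rw [Prod.fst_sum]
      conv_lhs => rw [hxs]
      simp only [map_sum]
    · rw [Prod.snd_sum]
      conv_lhs => rw [hxs]
      simp only [map_sum]
  rw [h1, map_sum]
  apply Finset.sum_eq_zero
  intro n hn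
  apply key
  by_contra hlt
  push Not at hlt
  rw [DFinsupp.mem_support_toFun] at hn
  exact hn (hx n hlt.le)

lemma H_cases (h : H) : phi h = 1 ∨ phi h = tau := by
  obtain ⟨h, hh⟩ := h
  obtain ⟨k, hk⟩ := Subgroup.mem_zpowers_iff.1 hh
  show h = 1 ∨ h = tau
  rcases Int.even_or_odd' k with ⟨j, rfl | rfl⟩
  · left
    rw [← hk, zpow_mul]
    have : tau ^ (2 : ℤ) = 1 := by exact_mod_cast tau_sq
    rw [this, one_zpow]
  · right
    rw [← hk, zpow_add, zpow_mul]
    have : tau ^ (2 : ℤ) = 1 := by exact_mod_cast tau_sq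
    rw [this, one_zpow, one_mul, zpow_one]

lemma chi_phi (m : ℕ) (h : H) (g : G) (hg : ∀ n, m ≤ n → (Multiplicative.toAdd g).2 n = 0) :
    chi m (Multiplicative.toAdd (phi h g)) = chi m (Multiplicative.toAdd g) := by
  rcases H_cases h with h | h
  · rw [h]; rfl
  · rw [h]
    show chi m (Multiplicative.toAdd g + th (Multiplicative.toAdd g)) = _
    rw [map_add, chi_th m _ hg, add_zero]

def vA : A := (1, 0)
def rA (n : ℕ) : A := (0, DFinsupp.single n (1, 0))
def sA (n : ℕ) : A := (0, DFinsupp.single n (0, 1))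

lemma tau_sA (n : ℕ) : tauA (sA n) = sA n + vA + (2 ^ n) • rA n := by
  show sA n + th (sA n) = _
  rw [add_assoc]
  congr 1
  rw [th_apply]
  unfold sg rg sA vA rA
  simp only
  rw [DFinsupp.mapRange.addMonoidHom_apply, DFinsupp.mapRange_single, DFinsupp.sumAddHom_single]
  apply Prod.ext
  · simp
  · show (DFinsupp.single n ((d 0 n 1, 0) : B n) : Π₀ n, B n) =
      0 + (2 ^ n) • (DFinsupp.single n ((1, 0) : B n) : Π₀ n, B n)
    refine Eq.trans ?_ (zero_add ((2 ^ n) • (DFinsupp.single n ((1, 0) : B n) : Π₀ n, B n))).symm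
    rw [← DFinsupp.single_smul, d_one (Nat.zero_le n)]
    congr 1
    apply Prod.ext
    · simp
    · simp

lemma rA_order (n : ℕ) : (2 ^ (n + 1)) • rA n = 0 := by
  unfold rA
  apply Prod.ext
  · simp
  · show (2 ^ (n + 1)) • (DFinsupp.single n ((1, 0) : B n) : Π₀ n, B n) = 0
    rw [← DFinsupp.single_smul, DFinsupp.single_eq_zero]
    apply Prod.ext
    · show (2 ^ (n + 1)) • (1 : ZMod (2 ^ (n + 1))) = 0
      rw [nsmul_eq_mul, mul_one, ZMod.natCast_self]
    · simp

noncomputable def T0 : Gam := SemidirectProduct.inr ⟨tau, Subgroup.mem_zpowers tau⟩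
noncomputable def V : Gam := SemidirectProduct.inl (Multiplicative.ofAdd vA)

/-- In a permutation group of degree `k`, a permutation whose order divides a large power of two
already dies at the previous power. -/
lemma perm_pow (k : ℕ) (σ : Equiv.Perm (Fin k)) (h : σ ^ (2 ^ (k.factorial + 1)) = 1) :
    σ ^ (2 ^ k.factorial) = 1 := by
  have h1 : orderOf σ ∣ 2 ^ (k.factorial + 1) := orderOf_dvd_of_pow_eq_one h
  obtain ⟨j, hj, h2⟩ := (Nat.dvd_prime_pow Nat.prime_two).1 h1
  have h3 : orderOf σ ∣ k.factorial := by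
    have := orderOf_dvd_card (x := σ)
    rwa [Fintype.card_perm, Fintype.card_fin] at this
  have h4 : 2 ^ j ≤ k.factorial := by
    rw [← h2]; exact Nat.le_of_dvd (Nat.factorial_pos k) h3
  have h5 : j ≤ k.factorial := (Nat.lt_two_pow_self.trans_le h4).le
  apply orderOf_dvd_iff_pow_eq_one.1
  rw [h2]
  exact pow_dvd_pow 2 h5

lemma rho_V (k : ℕ) (ρ : Gam →* Equiv.Perm (Fin k)) :
    ∃ u : Equiv.Perm (Fin k), ρ V = u⁻¹ * ρ T0 * u * (ρ T0)⁻¹ := by
  set n := k.factorial with hn
  refine ⟨ρ (SemidirectProduct.inl (Multiplicative.ofAdd (sA n))), ?_⟩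
  have h1 : (T0 * SemidirectProduct.inl (Multiplicative.ofAdd (sA n)) * T0⁻¹ : Gam) =
      SemidirectProduct.inl (Multiplicative.ofAdd (sA n)) * V *
        (SemidirectProduct.inl (Multiplicative.ofAdd (rA n))) ^ (2 ^ n) := by
    have := SemidirectProduct.inl_aut (φ := phi) (⟨tau, Subgroup.mem_zpowers tau⟩ : H)
      (Multiplicative.ofAdd (sA n))
    have h2 : phi (⟨tau, Subgroup.mem_zpowers tau⟩ : H) (Multiplicative.ofAdd (sA n)) =
        Multiplicative.ofAdd (sA n) * Multiplicative.ofAdd vA *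
          (Multiplicative.ofAdd (rA n)) ^ (2 ^ n) := by
      show Multiplicative.ofAdd (tauA (sA n)) = _
      rw [tau_sA]; rfl
    rw [h2, map_mul, map_mul, map_pow, map_inv] at this
    unfold T0 V
    exact this.symm
  have h2 := congrArg ρ h1
  simp only [map_mul, map_pow, map_inv] at h2
  have h3 : (ρ (SemidirectProduct.inl (Multiplicative.ofAdd (rA n)))) ^ (2 ^ n) = 1 := by
    apply perm_pow
    rw [← map_pow, ← map_pow, ← ofAdd_nsmul, ← hn, rA_order]
    simp
  rw [h3, mul_one] at h2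
  rw [mul_assoc, mul_assoc, ← mul_assoc (ρ T0), h2, inv_mul_cancel_left]

lemma not_stab : ¬ Stab Gam := by
  classical
  intro hstab
  obtain ⟨T, δ, hδ, h⟩ := hstab {T0, V} (1 / 4) (by norm_num)
  obtain ⟨m, hm⟩ := exists_bound (T.image (fun γ => γ.left))
  set k : ℕ := 2 ^ (m + 1) with hk
  have hkpos : 0 < k := by positivity
  have : NeZero k := ⟨hkpos.ne'⟩
  let e : ZMod k ≃ Fin k := Fintype.equivFinOfCardEq (ZMod.card k)
  let f : Gam → Equiv.Perm (Fin k) := fun γ =>
    (e.symm.trans (Equiv.addLeft (chi m (Multiplicative.toAdd γ.left)))).trans e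
  have hfmul : ∀ γ ∈ T, ∀ γ' ∈ T, f (γ * γ') = f γ * f γ' := by
    intro γ _ γ' hγ'
    have h1 : chi m (Multiplicative.toAdd (γ * γ').left) =
        chi m (Multiplicative.toAdd γ.left) + chi m (Multiplicative.toAdd γ'.left) := by
      rw [SemidirectProduct.mul_left, toAdd_mul, map_add]
      congr 1
      exact chi_phi m _ _ (hm _ (Finset.mem_image_of_mem _ hγ'))
    ext i : 1
    show e (chi m (Multiplicative.toAdd (γ * γ').left) + e.symm i) =
      e (chi m (Multiplicative.toAdd γ.left) + e.symm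
        (e (chi m (Multiplicative.toAdd γ'.left) + e.symm i)))
    rw [h1, Equiv.symm_apply_apply, add_assoc]
  obtain ⟨ρ, hρ⟩ := h k f (by
    intro g hg h hh
    have : (Finset.univ.filter (fun i : Fin k => f (g * h) i ≠ (f g * f h) i)) = ∅ := by
      apply Finset.filter_eq_empty_iff.2
      intro i _
      rw [hfmul g hg h hh]
      simp
    rw [this]
    simpa using hδ)
  have hT := hρ T0 (by simp)
  have hV := hρ V (by simp)
  have hfT : f T0 = 1 := by
    ext i : 1
    show e (chi m 0 + e.symm i) = i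
    rw [map_zero, zero_add, Equiv.apply_symm_apply]
  have hfV : ∀ i, f V i ≠ i := by
    intro i hi
    have h1 : e (chi m vA + e.symm i) = i := hi
    have h2 : chi m vA + e.symm i = e.symm i := by
      rw [Equiv.eq_symm_apply]
      exact h1
    have h3 : chi m vA = 0 := by
      have := add_eq_right.1 h2
      exact this
    have h4 : chi m vA = ((2 ^ m : ℕ) : ZMod (2 ^ (m + 1))) := by
      unfold chi vA
      rw [AddMonoidHom.coprod_apply, map_zero, add_zero, d_one (Nat.zero_le m)]
      simp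
    rw [h4, ZMod.natCast_eq_zero_iff] at h3
    have := Nat.le_of_dvd (by positivity) h3
    rw [pow_succ] at this
    have h5 : 0 < 2 ^ m := by positivity
    omega
  obtain ⟨u, hu⟩ := rho_V k ρ
  set D : Finset (Fin k) := Finset.univ.filter (fun i => f T0 i ≠ ρ T0 i) with hD
  set E : Finset (Fin k) := Finset.univ.filter (fun i => f V i ≠ ρ V i) with hE
  have hDm : ∀ i, i ∉ D → ρ T0 i = i := by
    intro i hi
    simp only [hD, Finset.mem_filter, Finset.mem_univ, true_and, not_not] at hi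
    rw [← hi, hfT]; rfl
  have hcov : (Finset.univ : Finset (Fin k)) ⊆ E ∪ (D.image (ρ T0) ∪ D.image (fun i => ρ T0 (u⁻¹ i))) := by
    intro i _
    by_contra hi
    simp only [Finset.mem_union, not_or] at hi
    obtain ⟨h1, h2, h3⟩ := hi
    have hEi : f V i = ρ V i := by
      by_contra hne
      exact h1 (by simp [hE, hne])
    -- ρ V i = i
    have ha : (ρ T0)⁻¹ i ∉ D := by
      intro hmem
      exact h2 (Finset.mem_image.2 ⟨_, hmem, by simp⟩)
    have ha' : (ρ T0)⁻¹ i = i := by
      have := hDm _ ha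
      have h9 : ρ T0 ((ρ T0)⁻¹ i) = i := (ρ T0).apply_symm_apply i
      rw [h9] at this
      exact this.symm
    have hb : u i ∉ D := by
      intro hmem
      apply h3
      refine Finset.mem_image.2 ⟨_, hmem, ?_⟩
      show ρ T0 (u⁻¹ (u i)) = i
      have h9 : u⁻¹ (u i) = i := u.symm_apply_apply i
      rw [h9]
      rw [Equiv.Perm.inv_eq_iff_eq] at ha'
      exact ha'.symm
    have hb' := hDm _ hb
    apply hfV i
    rw [hEi, hu]
    show u⁻¹ (ρ T0 (u ((ρ T0)⁻¹ i))) = i
    rw [ha', hb']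
    exact u.symm_apply_apply i
  have hcard : k ≤ E.card + (D.card + D.card) := by
    have h1 := Finset.card_le_card hcov
    rw [Finset.card_univ, Fintype.card_fin] at h1
    refine h1.trans ((Finset.card_union_le _ _).trans ?_)
    apply Nat.add_le_add_left
    refine (Finset.card_union_le _ _).trans ?_
    exact Nat.add_le_add Finset.card_image_le Finset.card_image_le
  have hkR : (0 : ℝ) < k := by exact_mod_cast hkpos
  rw [div_lt_iff₀ hkR] at hT hV
  have h6 : (k : ℝ) ≤ E.card + (D.card + D.card) := by exact_mod_cast hcard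
  linarith

end Pool.Agent.S02344.Aux


namespace Pool.Agent.S02344

/-- The negation of the preceding statement: If a countable group G is stable in permutations (almost-homomorphisms to finite symmetric groups, in normalized Hamming distance, are close to true homomorphisms), then so is every semidirect product of G by a finite group H. -/
theorem result :
    ¬ (∀ (P : ∀ (K : Type) [Group K], Prop),
      (∀ (K : Type) [Group K], P K ↔
        ∀ (S : Finset K) (ε : ℝ), 0 < ε → ∃ (T : Finset K) (δ : ℝ), 0 < δ ∧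
          ∀ (n : ℕ) (f : K → Equiv.Perm (Fin n)),
            (∀ g ∈ T, ∀ h ∈ T,
              ((Finset.univ.filter (fun i : Fin n => f (g * h) i ≠ (f g * f h) i)).card : ℝ)
                / (n : ℝ) < δ) →
            ∃ ρ : K →* Equiv.Perm (Fin n), ∀ g ∈ S,
              ((Finset.univ.filter (fun i : Fin n => f g i ≠ ρ g i)).card : ℝ) / (n : ℝ) < ε) →
      ∀ (G : Type) [Group G] [Countable G], P G →
        ∀ (H : Type) [Group H] [Finite H] (φ : H →* MulAut G),
          P (SemidirectProduct G H φ)) := by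
  intro hall
  have := Aux.countable_G
  exact Aux.not_stab (hall (fun K _ => Aux.Stab K) (fun K _ => Iff.rfl) Aux.G Aux.stab_G
    Aux.H Aux.phi)

end Pool.Agent.S02344
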