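import Pool.Statements.S02409
import Pool.Agent.Helper58.Quad.Count
import Pool.Agent.Helper58.Quad.SymLower2
import Pool.Agent.Helper58.Quad.ExtLower2

set_option autoImplicit false
open Pool Pool.MP_97e6ed_al

namespace Pool.Agent.S02409

/-- For all n and s≥1, the minimal (generic) degree-s dimension of E/(f,g) for quadrics f,g in the n-generator exterior algebra, and of C[x]/(x_i², l₁², l₂²) for linear l₁,l₂, both equal the number of ±1 paths of length n+2 from 0 to n+2−2s staying in [0, n+2−2s]. -/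
theorem result :
    ∀ n s : ℕ, 1 ≤ s →
      ∃ a : ℕ,
        a = {c : Fin (n + 2) → Bool |
              (∀ k : Fin (n + 3),
                0 ≤ (∑ i ∈ Finset.univ.filter (fun i : Fin (n + 2) => i.val < k.val),
                      (if c i then (1 : ℤ) else -1)) ∧
                (∑ i ∈ Finset.univ.filter (fun i : Fin (n + 2) => i.val < k.val),
                      (if c i then (1 : ℤ) else -1)) ≤ (n : ℤ) + 2 - 2 * (s : ℤ)) ∧
              (∑ i : Fin (n + 2), (if c i then (1 : ℤ) else -1)) = (n : ℤ) + 2 - 2 * (s : ℤ)}.ncard ∧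
        (∀ f ∈ LinearMap.range (ExteriorAlgebra.ι ℂ : (Fin n → ℂ) →ₗ[ℂ] ExteriorAlgebra ℂ (Fin n → ℂ)) ^ 2,
          ∀ g ∈ LinearMap.range (ExteriorAlgebra.ι ℂ : (Fin n → ℂ) →ₗ[ℂ] ExteriorAlgebra ℂ (Fin n → ℂ)) ^ 2,
            a ≤ Module.finrank ℂ
              (↥(LinearMap.range (ExteriorAlgebra.ι ℂ : (Fin n → ℂ) →ₗ[ℂ] ExteriorAlgebra ℂ (Fin n → ℂ)) ^ s) ⧸
                Submodule.comap (LinearMap.range (ExteriorAlgebra.ι ℂ : (Fin n → ℂ) →ₗ[ℂ] ExteriorAlgebra ℂ (Fin n → ℂ)) ^ s).subtype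
                  (Submodule.span ℂ {x : ExteriorAlgebra ℂ (Fin n → ℂ) |
                    ∃ u v : ExteriorAlgebra ℂ (Fin n → ℂ), x = u * f * v ∨ x = u * g * v}))) ∧
        (∃ f ∈ LinearMap.range (ExteriorAlgebra.ι ℂ : (Fin n → ℂ) →ₗ[ℂ] ExteriorAlgebra ℂ (Fin n → ℂ)) ^ 2,
          ∃ g ∈ LinearMap.range (ExteriorAlgebra.ι ℂ : (Fin n → ℂ) →ₗ[ℂ] ExteriorAlgebra ℂ (Fin n → ℂ)) ^ 2,
            Module.finrank ℂ
              (↥(LinearMap.range (ExteriorAlgebra.ι ℂ : (Fin n → ℂ) →ₗ[ℂ] ExteriorAlgebra ℂ (Fin n → ℂ)) ^ s) ⧸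
                Submodule.comap (LinearMap.range (ExteriorAlgebra.ι ℂ : (Fin n → ℂ) →ₗ[ℂ] ExteriorAlgebra ℂ (Fin n → ℂ)) ^ s).subtype
                  (Submodule.span ℂ {x : ExteriorAlgebra ℂ (Fin n → ℂ) |
                    ∃ u v : ExteriorAlgebra ℂ (Fin n → ℂ), x = u * f * v ∨ x = u * g * v})) = a) ∧
        (∀ l₁ ∈ MvPolynomial.homogeneousSubmodule (Fin n) ℂ 1,
          ∀ l₂ ∈ MvPolynomial.homogeneousSubmodule (Fin n) ℂ 1,
            a ≤ Module.finrank ℂ
              (↥(MvPolynomial.homogeneousSubmodule (Fin n) ℂ s) ⧸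
                Submodule.comap (MvPolynomial.homogeneousSubmodule (Fin n) ℂ s).subtype
                  (Submodule.restrictScalars ℂ
                    (Ideal.span (Set.range (fun i : Fin n => (MvPolynomial.X i : MvPolynomial (Fin n) ℂ) ^ 2)
                      ∪ {l₁ ^ 2, l₂ ^ 2}))))) ∧
        (∃ l₁ ∈ MvPolynomial.homogeneousSubmodule (Fin n) ℂ 1,
          ∃ l₂ ∈ MvPolynomial.homogeneousSubmodule (Fin n) ℂ 1,
            Module.finrank ℂ
              (↥(MvPolynomial.homogeneousSubmodule (Fin n) ℂ s) ⧸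
                Submodule.comap (MvPolynomial.homogeneousSubmodule (Fin n) ℂ s).subtype
                  (Submodule.restrictScalars ℂ
                    (Ideal.span (Set.range (fun i : Fin n => (MvPolynomial.X i : MvPolynomial (Fin n) ℂ) ^ 2)
                      ∪ {l₁ ^ 2, l₂ ^ 2})))) = a) := by
  intro n s _
  have hcount := Pool.Agent.Helper58.Quad.count n s
  refine ⟨_, rfl, ?_, ?_, ?_, ?_⟩
  · intro f hf g hg
    rw [hcount]
    exact Pool.Agent.Helper58.Quad.ext_lower n s hf hg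
  · obtain ⟨f, hf, g, hg, h⟩ := Pool.Agent.Helper58.Quad.ext_upper n s
    refine ⟨f, hf, g, hg, ?_⟩
    rw [hcount]
    exact le_antisymm h (Pool.Agent.Helper58.Quad.ext_lower n s hf hg)
  · intro l₁ h₁ l₂ h₂
    rw [hcount]
    exact Pool.Agent.Helper58.Quad.sym_lower n s h₁ h₂
  · obtain ⟨l₁, h₁, l₂, h₂, h⟩ := Pool.Agent.Helper58.Quad.sym_upper n s
    refine ⟨l₁, h₁, l₂, h₂, ?_⟩
    rw [hcount]
    exact le_antisymm h (Pool.Agent.Helper58.Quad.sym_lower n s h₁ h₂)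

end Pool.Agent.S02409
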