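import Pool.Statements.S02646
import Pool.Agent.Helper98.AAD.L6
import Pool.Agent.Helper98.AAD.Main
-- import your own Pool.Agent.* helpers here

set_option autoImplicit false
open Pool Pool.MP_aade38_al

namespace Pool.Agent.S02646

/-- The negation of the preceding statement: Every amalgamated free product of two groups over a common subgroup, embedded as a proper subgroup in each factor, has a maximal subgroup (a proper subgroup contained in no other proper subgroup). -/
theorem result :
    ¬ (∀ (G : Bool → Type) [∀ i, Group (G i)] (H : Type) [Group H]
      (φ : ∀ i, H →* G i),
      (∀ i, Function.Injective (φ i)) →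
      (∀ i, ¬ Function.Surjective (φ i)) →
      ∃ M : Subgroup (Monoid.PushoutI φ), IsCoatom M) := by
  obtain ⟨G, hG, hc, q, β, Γ, E, h⟩ := Pool.Agent.Helper98.AAD.exists_finS
  exact h.negation

end Pool.Agent.S02646
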