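import Pool.Statements.S02979
import Pool.Agent.Helper59.TE.Final

set_option autoImplicit false
open Pool Pool.MP_c34bd5_al

namespace Pool.Agent.S02979

/-- It is decidable, given r and two words in x_i^±1 with indices below r, whether the words have equal translation length under every free, isometric action of F_r with discrete orbits on an ℝ-tree. -/
theorem result :
    ComputablePred (fun x : ℕ × List (ℕ × Bool) × List (ℕ × Bool) =>
      (∀ p ∈ x.2.1, p.1 < x.1) ∧ (∀ p ∈ x.2.2, p.1 < x.1) ∧
      ∀ (T : Type) [MetricSpace T] [MulAction (FreeGroup (Fin x.1)) T],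
        (∀ a b : T, ∃ γ : ℝ → T, γ 0 = a ∧ γ (dist a b) = b ∧
            ∀ s ∈ Set.Icc (0 : ℝ) (dist a b), ∀ t ∈ Set.Icc (0 : ℝ) (dist a b),
              dist (γ s) (γ t) = |s - t|) →
        (∀ a b c d : T, dist a b + dist c d ≤
            max (dist a c + dist b d) (dist a d + dist b c)) →
        (∀ g : FreeGroup (Fin x.1), Isometry (fun p : T => g • p)) →
        (∀ (g : FreeGroup (Fin x.1)) (p : T), g • p = p → g = 1) →
        (∀ p : T, ∃ ε : ℝ, 0 < ε ∧ ∀ g : FreeGroup (Fin x.1), g ≠ 1 → ε ≤ dist p (g • p)) →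
        (⨅ p : T, dist p ((FreeGroup.mk (x.2.1.filterMap (fun q : ℕ × Bool =>
            if h : q.1 < x.1 then some ((⟨q.1, h⟩ : Fin x.1), q.2) else none))) • p))
          = (⨅ p : T, dist p ((FreeGroup.mk (x.2.2.filterMap (fun q : ℕ × Bool =>
            if h : q.1 < x.1 then some ((⟨q.1, h⟩ : Fin x.1), q.2) else none))) • p))) := by
  refine ComputablePred.of_eq Pool.Agent.Helper59.TE.comp_main (fun x => ?_)
  refine and_congr_right (fun hu => and_congr_right (fun hv => ?_))
  exact Pool.Agent.Helper59.TE.main_equiv x.1 x.2.1 x.2.2 hu hv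

end Pool.Agent.S02979
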