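import Pool.Statements.S04071
import Pool.Agent.Helper30.FFinal

set_option autoImplicit false
open Filter Topology
open Pool Pool.MP_2434ae_an

namespace Pool.Agent.S04071

open Pool.Agent.Helper30.Fuchs Real

theorem iteratedDeriv_sub_const' (f : ℂ → ℂ) (a : ℂ) (k : ℕ) (hk : 1 ≤ k) :
    iteratedDeriv k (fun z => f z - a) 0 = iteratedDeriv k f 0 := by
  obtain ⟨m, rfl⟩ : ∃ m, k = m + 1 := ⟨k - 1, by omega⟩
  rw [iteratedDeriv_succ', iteratedDeriv_succ']
  congr 1
  funext z
  exact deriv_sub_const (f := f) a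

theorem Pp_sub_le (f : ℂ → ℂ) (hf : Differentiable ℂ f) (a : ℂ) (r : ℝ) :
    Pp (fun z => f z - a) r ≤ Pp f r + (log⁺ ‖a‖ + Real.log 2) := by
  have h1 : Pp f r + (log⁺ ‖a‖ + Real.log 2) =
      circleAverage (fun z => log⁺ ‖f z‖ + (log⁺ ‖a‖ + Real.log 2)) 0 r := by
    rw [Pp, circleAverage_fun_add]
    · congr 1
      exact (circleAverage_const _ _ _).symm
    · exact ((cont_posLog_norm f hf).comp (continuous_circleMap 0 r)).intervalIntegrable _ _
    · exact circleIntegrable_const _ _ _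
  rw [h1, Pp]
  apply circleAverage_mono
  · exact ((cont_posLog_norm _ (hf.sub_const a)).comp (continuous_circleMap 0 r)).intervalIntegrable _ _
  · exact (((cont_posLog_norm f hf).add continuous_const).comp (continuous_circleMap 0 r)).intervalIntegrable _ _
  · intro z _
    have := posLog_norm_add_le (f z) (-a)
    rw [norm_neg, ← sub_eq_add_neg] at this
    linarith

/-- A nonconstant entire function of order at most σ, whose nonzero-coefficient exponents have maximal density at most D with σD<1/2, has no finite value a with deficiency m(r,1/(f-a))/T(r,f) tending to 1. -/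
theorem result :
    ∀ f : ℂ → ℂ, Differentiable ℂ f → (∃ z w : ℂ, f z ≠ f w) →
      ∀ σ D : ℝ, 0 ≤ σ → 0 ≤ D → σ * D < 1 / 2 →
        (∃ R : ℝ, ∀ z : ℂ, R ≤ ‖z‖ → ‖f z‖ ≤ Real.exp (‖z‖ ^ σ)) →
        (∃ ξ₀ : ℝ, ξ₀ < 1 ∧ ∀ ξ : ℝ, ξ₀ < ξ → ξ < 1 → ∃ R : ℝ, ∀ r : ℝ, R ≤ r →
          ((Set.ncard {k : ℕ | ξ * r < (k : ℝ) ∧ (k : ℝ) ≤ r ∧ iteratedDeriv k f 0 ≠ 0} : ℕ) : ℝ)
            ≤ D * (1 - ξ) * r) →
        ∀ a : ℂ, ¬ Tendsto
          (fun r : ℝ =>
            (∫ θ in (0 : ℝ)..(2 * Real.pi),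
                max (0 : ℝ) (Real.log (‖f (circleMap 0 r θ) - a‖⁻¹))) /
            (∫ θ in (0 : ℝ)..(2 * Real.pi),
                max (0 : ℝ) (Real.log ‖f (circleMap 0 r θ)‖)))
          atTop (𝓝 (1 : ℝ)) := by
  intro f hf hnc σ D hσ hD hσD hgrow hdens a hlim
  set g : ℂ → ℂ := fun z => f z - a with hg_def
  have hg : Differentiable ℂ g := hf.sub_const a
  have hne : ∃ w, g w ≠ 0 := by
    obtain ⟨z, w, hzw⟩ := hnc
    by_contra hcon
    push Not at hcon
    have h1 := hcon z
    have h2 := hcon w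
    simp only [hg_def, sub_eq_zero] at h1 h2
    exact hzw (h1.trans h2.symm)
  set c₁ : ℝ := log⁺ ‖a‖ + Real.log 2 with hc₁
  have hc₁0 : 0 ≤ c₁ := add_nonneg posLog_nonneg (Real.log_nonneg one_le_two)
  have hPg : ∀ r, Pp g r ≤ Pp f r + c₁ := fun r => Pp_sub_le f hf a r
  have hPf : ∀ r, Pp f r ≤ Pp g r + c₁ := by
    intro r
    have := Pp_sub_le g hg (-a) r
    rw [norm_neg] at this
    have h2 : (fun z => g z - -a) = f := by
      funext z
      simp [hg_def]
    rw [h2] at this
    exact this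
  -- the ratio
  have hlim2 : Tendsto (fun r => Am g r / Pp f r) atTop (𝓝 1) := by
    refine hlim.congr fun r => ?_
    rw [Am, Pp, circleAverage_def, circleAverage_def, smul_eq_mul, smul_eq_mul,
      mul_div_mul_left _ _ (by positivity)]
    rfl
  -- Pp g tends to infinity
  have hP : Tendsto (Pp g) atTop atTop := by
    by_contra hcon
    have hb : ∃ B, ∀ r, 0 < r → Pp g r ≤ B := by
      by_contra hnb
      push Not at hnb
      apply hcon
      rw [tendsto_atTop]
      intro B
      obtain ⟨r, hr0, hr⟩ := hnb B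
      filter_upwards [eventually_ge_atTop r] with t ht
      exact hr.le.trans (Pp_mono g hg hr0 ht)
    obtain ⟨B, hB⟩ := hb
    have hB0 : 0 ≤ B := (Pp_nonneg g 1).trans (hB 1 one_pos)
    set M : ℝ := B + 2 * (B + c₁) with hM
    have hM0 : 0 ≤ M := by positivity
    have hev : ∀ᶠ r in atTop, Am g r ≤ 2 * (B + c₁) := by
      filter_upwards [hlim2.eventually (gt_mem_nhds (show (1:ℝ) < 2 by norm_num)),
        hlim2.eventually (lt_mem_nhds (show (0:ℝ) < 1 by norm_num)), eventually_gt_atTop 0] with r h1 h2 h3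
      have h4 : 0 < Pp f r := by
        rcases (Pp_nonneg f r).eq_or_lt with h | h
        · rw [← h, div_zero] at h2
          exact absurd h2 (lt_irrefl _)
        · exact h
      rw [div_lt_iff₀ h4] at h1
      have := hPf r
      have := hB r h3
      linarith
    obtain ⟨r₁, hr₁⟩ := eventually_atTop.1 hev
    -- g is bounded
    have hgb : ∀ z, ‖g z‖ ≤ Real.exp (5 * M) := by
      intro z
      obtain ⟨R, hR1, _, hRz⟩ := zero_free g hg hne (max (max r₁ 1) (2 * ‖z‖)) (max (max r₁ 1) (2 * ‖z‖) + 1)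
        (by linarith)
      have hR2 : 2 * ‖z‖ ≤ R := (le_max_right _ _).trans hR1.le
      have hR3 : r₁ ≤ R := ((le_max_left _ _).trans (le_max_left _ _)).trans hR1.le
      have hR4 : 1 ≤ R := ((le_max_right _ _).trans (le_max_left _ _)).trans hR1.le
      have hR0 : 0 < R := by linarith
      obtain ⟨R', hRR, H, hH, hle, heq⟩ := harmonic_majorant g hg R hR0 hRz
      obtain ⟨f1, f2, _⟩ := maj_facts g hg R R' hR0 hRR hRz H hH hle heq
      have hA := hr₁ R hR3
      have hA0 := Am_nonneg g R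
      have hPB := hB R hR0
      have hP0 := Pp_nonneg g R
      have hzR : ‖z‖ ≤ R := by linarith [norm_nonneg z]
      refine (hle z hzR).trans (Real.exp_le_exp.2 ?_)
      have hs := hasSum_tc H R' hH z (by linarith)
      have h1 := split_sum _ _ hs {0} (2 * M) (by positivity) (by
        intro k hk
        have hk1 : 1 ≤ k := by
          rw [Finset.mem_singleton] at hk
          omega
        have h2 := tc_bound H R' R hR0 hRR hH k hk1
        rw [f2] at h2
        rw [norm_mul, norm_pow]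
        have h3 : ‖z‖ ^ k ≤ R ^ k * (1 / 2) ^ k := by
          rw [← mul_pow]
          apply pow_le_pow_left₀ (norm_nonneg _)
          linarith
        calc ‖tc H k‖ * ‖z‖ ^ k ≤ ‖tc H k‖ * (R ^ k * (1 / 2) ^ k) := by gcongr
          _ = ‖tc H k‖ * R ^ k * (1 / 2) ^ k := by ring
          _ ≤ (2 * M) * (1 / 2) ^ k := mul_le_mul_of_nonneg_right (by linarith) (by positivity))
      rw [Finset.sum_singleton, pow_zero, mul_one, tc_zero] at h1
      have h2 : (H z).re - (H 0).re ≤ ‖H z - H 0‖ := by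
        rw [← Complex.sub_re]; exact Complex.re_le_norm _
      linarith
    obtain ⟨z, w, hzw⟩ := hnc
    apply hzw
    have hbd : Bornology.IsBounded (Set.range g) := by
      rw [isBounded_iff_forall_norm_le]
      exact ⟨Real.exp (5 * M), by rintro _ ⟨z, rfl⟩; exact hgb z⟩
    have h3 := hg.apply_eq_apply_of_bounded hbd z w
    simp only [hg_def] at h3
    exact sub_left_inj.1 h3
  have hPf0 : ∀ᶠ r in atTop, 0 < Pp f r := by
    filter_upwards [hP.eventually (eventually_gt_atTop c₁)] with r hr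
    have := hPg r
    linarith
  -- closeness
  have hA : ∀ η : ℝ, 0 < η → ∃ r₁, ∀ r, r₁ ≤ r → |Am g r - Pp g r| ≤ η * Pp g r := by
    intro η hη
    have hev : ∀ᶠ r in atTop, |Am g r - Pp g r| ≤ η * Pp g r := by
      filter_upwards [hlim2.eventually (Metric.ball_mem_nhds (1:ℝ) (show 0 < η / 4 by positivity)), hPf0,
        hP.eventually (eventually_ge_atTop (2 * c₁ * (1 + η) / η))] with r h1 h2 h3
      rw [Real.dist_eq] at h1
      have h4 : |Am g r - Pp f r| ≤ η / 4 * Pp f r := by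
        have h5 : Am g r - Pp f r = (Am g r / Pp f r - 1) * Pp f r := by
          field_simp
        rw [h5, abs_mul, abs_of_pos h2]
        exact mul_le_mul_of_nonneg_right h1.le h2.le
      have h6 : |Pp f r - Pp g r| ≤ c₁ := by
        rw [abs_le]
        constructor
        · linarith [hPg r]
        · linarith [hPf r]
      have h7 : |Am g r - Pp g r| ≤ |Am g r - Pp f r| + |Pp f r - Pp g r| := abs_sub_le _ _ _
      have h8 : 2 * c₁ * (1 + η) ≤ Pp g r * η := (div_le_iff₀ hη).1 h3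
      have h9 := hPf r
      have h10 : η / 4 * Pp f r ≤ η / 4 * (Pp g r + c₁) := by gcongr
      nlinarith
    exact eventually_atTop.1 hev
  -- growth
  obtain ⟨R, hR⟩ := hgrow
  have hK : ∀ r, max R 1 ≤ r → Pp g r ≤ (1 + c₁) * r ^ σ := by
    intro r hr
    have hr1 : 1 ≤ r := (le_max_right _ _).trans hr
    have hr0 : 0 < r := by linarith
    have h1 : Pp f r ≤ r ^ σ := by
      apply Pp_le f hf r _ hr0 (by positivity)
      intro z hz
      have := hR z (by rw [hz]; exact (le_max_left _ _).trans hr)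
      rwa [hz] at this
    have h2 : 1 ≤ r ^ σ := Real.one_le_rpow hr1 hσ
    have := hPg r
    nlinarith
  obtain ⟨ξ₀, hξ₀, hdens⟩ := hdens
  refine no_deficiency g hg hne hP hA σ (1 + c₁) (max R 1) hσ hK {k | iteratedDeriv k f 0 ≠ 0} D hD hσD
    ξ₀ hξ₀ ?_ ?_
  · intro ξ h1 h2
    obtain ⟨R₁, hR₁⟩ := hdens ξ h1 h2
    refine ⟨R₁, fun r hr F hF => ?_⟩
    refine le_trans ?_ (hR₁ r hr)
    have hsub : (F : Set ℕ) ⊆ {k : ℕ | ξ * r < (k : ℝ) ∧ (k : ℝ) ≤ r ∧ iteratedDeriv k f 0 ≠ 0} := by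
      intro k hk
      obtain ⟨q1, q2, q3⟩ := hF k hk
      exact ⟨q2, q3, q1⟩
    have hfin : {k : ℕ | ξ * r < (k : ℝ) ∧ (k : ℝ) ≤ r ∧ iteratedDeriv k f 0 ≠ 0}.Finite := by
      apply (Set.finite_Iic ⌊r⌋₊).subset
      intro k hk
      exact Nat.le_floor hk.2.1
    have h3 := Set.ncard_le_ncard hsub hfin
    rw [Set.ncard_coe_finset] at h3
    exact_mod_cast h3
  · intro k hk
    rw [Set.mem_insert_iff, not_or] at hk
    have hk1 : 1 ≤ k := Nat.one_le_iff_ne_zero.2 hk.1
    have hk2 : iteratedDeriv k f 0 = 0 := by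
      by_contra h
      exact hk.2 h
    rw [tc, iteratedDeriv_sub_const' f a k hk1, hk2, mul_zero]

end Pool.Agent.S04071
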