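import Pool.Statements.S04172
import Pool.Agent.Helper30.HMain
import Pool.Agent.Helper30.HAsplund

set_option autoImplicit false
open Pool Pool.MP_2b27bc_an

namespace Pool.Agent.S04172


/-- A continuous seminorm is bounded by a multiple of the norm. -/
theorem bound_of_continuous {X : Type} [NormedAddCommGroup X] [NormedSpace ℝ X] (N : X → ℝ)
    (hc : Continuous N) (hhom : ∀ (c : ℝ) (x : X), N (c • x) = |c| * N x) :
    ∃ C : ℝ, 0 ≤ C ∧ ∀ x, N x ≤ C * ‖x‖ := by
  have h0 : N 0 = 0 := by simpa using hhom 0 0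
  have h1 : ∀ᶠ x in nhds (0 : X), N x < 1 := by
    have := hc.tendsto 0
    rw [h0] at this
    exact this.eventually (gt_mem_nhds one_pos)
  obtain ⟨δ, hδ, hball⟩ := Metric.eventually_nhds_iff.1 h1
  refine ⟨2 / δ, by positivity, fun x => ?_⟩
  rcases eq_or_ne x 0 with hx | hx
  · simp [hx, h0]
  · have hpos : 0 < ‖x‖ := norm_pos_iff.2 hx
    have h2 := @hball ((δ / (2 * ‖x‖)) • x) (by
      rw [dist_zero_right, norm_smul, Real.norm_eq_abs, abs_of_pos (by positivity)]
      have : δ / (2 * ‖x‖) * ‖x‖ = δ / 2 := by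
        field_simp
      rw [this]
      linarith)
    rw [hhom, abs_of_pos (by positivity)] at h2
    have h3 : N x < 2 * ‖x‖ / δ := by
      rw [lt_div_iff₀ hδ]
      have h4 : δ / (2 * ‖x‖) * N x * (2 * ‖x‖) < 1 * (2 * ‖x‖) := by
        apply mul_lt_mul_of_pos_right h2; positivity
      have h5 : δ / (2 * ‖x‖) * N x * (2 * ‖x‖) = N x * δ := by
        field_simp
      linarith
    have h6 : 2 * ‖x‖ / δ = 2 / δ * ‖x‖ := by ring
    linarith

/-- The negation of the preceding statement: Every real Banach space in which each closed separable subspace has separable dual (an Asplund space) admits a continuous norm, not necessarily equivalent, that is Fréchet differentiable at every nonzero point. -/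
theorem result :
    ¬ (∀ (X : Type) [NormedAddCommGroup X] [NormedSpace ℝ X] [CompleteSpace X],
      (∀ Y : Submodule ℝ X, IsClosed (Y : Set X) →
          TopologicalSpace.SeparableSpace Y →
          TopologicalSpace.SeparableSpace (Y →L[ℝ] ℝ)) →
      ∃ N : X → ℝ, Continuous N ∧
        (∀ x : X, N x = 0 → x = 0) ∧
        (∀ (c : ℝ) (x : X), N (c • x) = |c| * N x) ∧
        (∀ x y : X, N (x + y) ≤ N x + N y) ∧
        (∀ x : X, x ≠ 0 → DifferentiableAt ℝ N x)) := by
  intro H
  letI : TopologicalSpace Pool.Agent.Helper30.Haydon.Tr := ⊥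
  haveI : DiscreteTopology Pool.Agent.Helper30.Haydon.Tr := ⟨rfl⟩
  obtain ⟨N, hc, hdef, hhom, hsub, hdiff⟩ := H
    (Pool.Agent.Helper30.Haydon.XX Pool.Agent.Helper30.Haydon.Tr) (by
      intro Y _ hY
      exact Pool.Agent.Helper30.Haydon.asplund_of
        (fun s => Pool.Agent.Helper30.Haydon.dl (T := Pool.Agent.Helper30.Haydon.Tr) s)
        (fun φ => Pool.Agent.Helper30.Haydon.mem_WW φ)
        (fun x => Pool.Agent.Helper30.Haydon.countable_support x) Y hY)
  obtain ⟨C, hC0, hC⟩ := bound_of_continuous N hc hhom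
  exact Pool.Agent.Helper30.Haydon.SN.false ⟨hsub, hhom, hC, hC0⟩ hdef hdiff

end Pool.Agent.S04172
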