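import Pool.Statements.S04200
import Pool.Agent.Helper39.NS.Seq

set_option autoImplicit false
open MeasureTheory
open Pool Pool.MP_2d1ae5_an

namespace Pool.Agent.S04200

/-- The negation of the preceding statement: For each increasing sequence of times in (-1,0) tending to 0, each M and each delta>0, one constant C bounds ∣v∣ near the space-time origin for every smooth finite-energy Navier-Stokes solution whose L3 norms on B(0,delta) at those times have supremum M. -/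
theorem result :
    ¬ (∀ t : ℕ → ℝ, (∀ n, t n ∈ Set.Ioo (-1 : ℝ) 0) → Monotone t →
    Filter.Tendsto t Filter.atTop (nhds 0) →
  ∀ M δ : ℝ, 0 < δ → ∃ C : ℝ,
    ∀ (v : ℝ → EuclideanSpace ℝ (Fin 3) → EuclideanSpace ℝ (Fin 3))
      (p : ℝ → EuclideanSpace ℝ (Fin 3) → ℝ),
    ContDiffOn ℝ (⊤ : ℕ∞) (Function.uncurry v) (Set.Ioo (-1 : ℝ) 0 ×ˢ Set.univ) →
    ContDiffOn ℝ (⊤ : ℕ∞) (Function.uncurry p) (Set.Ioo (-1 : ℝ) 0 ×ˢ Set.univ) →
    (∀ s ∈ Set.Ioo (-1 : ℝ) 0, ∀ x : EuclideanSpace ℝ (Fin 3),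
      deriv (fun τ => v τ x) s + fderiv ℝ (v s) x (v s x)
        - ∑ i : Fin 3, fderiv ℝ (fun y => fderiv ℝ (v s) y (EuclideanSpace.basisFun (Fin 3) ℝ i)) x
            (EuclideanSpace.basisFun (Fin 3) ℝ i)
        + gradient (p s) x = 0) →
    (∀ s ∈ Set.Ioo (-1 : ℝ) 0, ∀ x : EuclideanSpace ℝ (Fin 3),
      LinearMap.trace ℝ (EuclideanSpace ℝ (Fin 3)) (fderiv ℝ (v s) x).toLinearMap = 0) →
    (∃ K : ℝ, ∀ s ∈ Set.Ioo (-1 : ℝ) 0, ∫⁻ x, ‖v s x‖ₑ ^ 2 ≤ ENNReal.ofReal K) →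
    (∫⁻ s in Set.Ioo (-1 : ℝ) 0, ∫⁻ x, ‖fderiv ℝ (v s) x‖ₑ ^ 2) < ⊤ →
    (⨆ n, eLpNorm (v (t n)) 3
        (volume.restrict (Metric.ball (0 : EuclideanSpace ℝ (Fin 3)) δ))) = ENNReal.ofReal M →
    ∃ r > 0, ∀ (s : ℝ) (x : EuclideanSpace ℝ (Fin 3)),
      s ∈ Set.Ioo (-r) 0 → ‖x‖ < r → ‖v s x‖ ≤ C) := by
  intro H
  obtain ⟨C, hC⟩ := H (fun k => (Pool.Agent.Helper39.NS.tm k : ℝ))
    (fun n => (Pool.Agent.Helper39.NS.tm n).2)
    Pool.Agent.Helper39.NS.tm_mono Pool.Agent.Helper39.NS.tm_tendsto 1 1 one_pos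
  obtain ⟨k, hk⟩ := exists_nat_ge C
  have hsol := (Pool.Agent.Helper39.NS.theStep k (Pool.Agent.Helper39.NS.tm k)).sol
  refine Pool.Agent.Helper39.NS.not_bounded k hk ?_
  exact hC _ _ hsol.smooth_v hsol.smooth_p hsol.eqn hsol.incomp hsol.energy hsol.dissip
    (Pool.Agent.Helper39.NS.iSup_eq k)

end Pool.Agent.S04200
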