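import Pool.Statements.S04585
import Pool.Agent.Helper72.D1Main

set_option autoImplicit false
open MeasureTheory Filter Topology
open Pool Pool.MP_4a5259_an

namespace Pool.Agent.S04585

/-- Some reflexive infinite-dimensional real Banach space X has this property: every L^1-bounded sequence of strongly measurable f_n:[0,1]→X that tends scalarly to 0 in measure has a subsequence tending scalarly to 0 almost everywhere. -/
theorem result :
    ∃ (X : Type) (_ : NormedAddCommGroup X) (_ : NormedSpace ℝ X) (_ : CompleteSpace X),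
      Function.Surjective (NormedSpace.inclusionInDoubleDual ℝ X) ∧
      ¬ FiniteDimensional ℝ X ∧
      ∀ f : ℕ → ℝ → X,
        (∀ n, StronglyMeasurable (f n)) →
        (∃ C : NNReal, ∀ n, eLpNorm (f n) 1 (volume.restrict (Set.Icc (0 : ℝ) 1)) ≤ (C : ENNReal)) →
        (∀ φ : StrongDual ℝ X,
          TendstoInMeasure (volume.restrict (Set.Icc (0 : ℝ) 1))
            (fun n t => φ (f n t)) atTop (fun _ => (0 : ℝ))) →
        ∃ g : ℕ → ℕ, StrictMono g ∧
          ∀ φ : StrongDual ℝ X,
            ∀ᵐ t ∂(volume.restrict (Set.Icc (0 : ℝ) 1)),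
              Tendsto (fun k => φ (f (g k) t)) atTop (𝓝 0) := by
  refine ⟨StrongDual ℝ Helper72.Tsirelson.TT, inferInstance, inferInstance, inferInstance,
    Helper72.Tsirelson.reflexive_dual Helper72.Tsirelson.reflexive_TT,
    Helper72.Tsirelson.not_finiteDimensional_dual, ?_⟩
  intro f hf hbd hmeas
  obtain ⟨C, hC⟩ := hbd
  obtain ⟨g, hg, hgP⟩ := Helper72.D1.D1_dual_Tsirelson (volume.restrict (Set.Icc (0 : ℝ) 1)) f hf
    (C : ENNReal) ENNReal.coe_ne_top
    (fun n => by
      have := hC n
      rwa [eLpNorm_one_eq_lintegral_enorm] at this)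
    (fun y => hmeas (NormedSpace.inclusionInDoubleDual ℝ _ y))
  refine ⟨g, hg, ?_⟩
  intro φ
  obtain ⟨y, rfl⟩ := Helper72.Tsirelson.reflexive_TT φ
  exact hgP y

end Pool.Agent.S04585
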