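import Pool.Statements.S05156

set_option autoImplicit false
open Pool Pool.MP_7d5b5f_an

namespace Pool.Agent.S05156

/-- The negation of the preceding statement: For each p>1 there is C, independent of dimension d and coordinate k, so the discrete Riesz transform with kernel Γ((d+1)/2)π^{-(d+1)/2} x_k/∣x∣^{d+1} on ℤ^d is bounded on ℓ^p with norm at most C (tested on finitely supported f). -/
theorem result :
    ¬ (∀ p : ℝ, 1 < p → ∃ C : ℝ, 0 < C ∧
      ∀ (d : ℕ) (k : Fin d) (S T : Finset (Fin d → ℤ)) (f : (Fin d → ℤ) → ℝ),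
        ∑ n ∈ T, |∑ m ∈ S,
            ((Real.Gamma (((d : ℝ) + 1) / 2) / Real.pi ^ (((d : ℝ) + 1) / 2)) *
              (((n k - m k : ℤ) : ℝ) /
                (Real.sqrt (∑ i, (((n i - m i : ℤ) : ℝ)) ^ 2)) ^ (d + 1))) * f m| ^ p
          ≤ C ^ p * ∑ m ∈ S, |f m| ^ p) := by
  intro h
  obtain ⟨C, hC, hb⟩ := h 2 (by norm_num)
  -- choose `N` with `π ^ (N+1) / N ! < 1 / C`
  have hlim := FloorSemiring.tendsto_pow_div_factorial_atTop (Real.pi)
  have hlim' : Filter.Tendsto (fun n : ℕ => Real.pi * (Real.pi ^ n / (n.factorial : ℝ)))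
      Filter.atTop (nhds (Real.pi * 0)) := hlim.const_mul _
  rw [mul_zero] at hlim'
  have hev := hlim'.eventually (gt_mem_nhds (show (0 : ℝ) < 1 / C by positivity))
  obtain ⟨N, hN⟩ := hev.exists
  have hpi : 0 < Real.pi := Real.pi_pos
  have hfac : (0 : ℝ) < (N.factorial : ℝ) := by exact_mod_cast N.factorial_pos
  -- dimension `d = 2 N + 1`
  let d : ℕ := 2 * N + 1
  have hd : d = 2 * N + 1 := rfl
  have hhalf : (((d : ℕ) : ℝ) + 1) / 2 = (N : ℝ) + 1 := by
    rw [hd]; push_cast; ring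
  let k : Fin d := ⟨0, by omega⟩
  let e : Fin d → ℤ := Pi.single k 1
  have key := hb d k {0} {e} (fun _ => 1)
  have hsum : ∑ i, (((e i - (0 : Fin d → ℤ) i : ℤ) : ℝ)) ^ 2 = 1 := by
    have : ∀ i, (((e i - (0 : Fin d → ℤ) i : ℤ) : ℝ)) ^ 2 = if i = k then 1 else 0 := by
      intro i
      by_cases hi : i = k
      · subst hi
        simp [e]
      · simp [e, hi]
    rw [Finset.sum_congr rfl (fun i _ => this i)]
    simp
  have hek : ((e k - (0 : Fin d → ℤ) k : ℤ) : ℝ) = 1 := by simp [e]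
  rw [Finset.sum_singleton, Finset.sum_singleton, Finset.sum_singleton, hsum, hek, hhalf,
    Real.Gamma_nat_eq_factorial, Real.sqrt_one, one_pow, div_one, mul_one, mul_one, abs_one,
    Real.one_rpow, mul_one] at key
  have hpow : Real.pi ^ ((N : ℝ) + 1) = Real.pi ^ (N + 1) := by
    rw [← Real.rpow_natCast]; push_cast; rfl
  rw [hpow] at key
  have hc0 : 0 < (N.factorial : ℝ) / Real.pi ^ (N + 1) := by positivity
  rw [abs_of_pos hc0] at key
  have hle : (N.factorial : ℝ) / Real.pi ^ (N + 1) ≤ C :=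
    (Real.rpow_le_rpow_iff hc0.le hC.le (by norm_num : (0 : ℝ) < 2)).1 key
  -- contradiction
  have h1 : Real.pi ^ (N + 1) / (N.factorial : ℝ) < 1 / C := by
    have : Real.pi * (Real.pi ^ N / (N.factorial : ℝ)) = Real.pi ^ (N + 1) / (N.factorial : ℝ) := by
      rw [pow_succ]; ring
    rw [← this]; exact hN
  rw [div_lt_div_iff₀ hfac hC] at h1
  rw [div_le_iff₀ (by positivity)] at hle
  linarith

end Pool.Agent.S05156
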