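import Pool.Statements.S05691
import Pool.Agent.Helper76.Ball12

set_option autoImplicit false
open MeasureTheory
open Pool Pool.MP_a59212_an

namespace Pool.Agent.S05691

/-- For n ≥ 1, every closed Aut(B)-invariant subspace Y of C(closed ball) with Y∩C₀(B) neither 0 nor C₀(B) equals Y∩C₀(B) plus one of: 0, constants, ball algebra, its conjugates, continuous pluriharmonic, or continuous M-harmonic functions. -/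
theorem result :
  ∀ n : ℕ, 0 < n →
  ∀ Y : Submodule ℂ C({z : Fin n → ℂ // ∑ i, ‖z i‖ ^ 2 ≤ 1}, ℂ),
  IsClosed (Y : Set C({z : Fin n → ℂ // ∑ i, ‖z i‖ ^ 2 ≤ 1}, ℂ)) →
  (∀ φ : (Fin n → ℂ) → (Fin n → ℂ),
      ContinuousOn φ {z : Fin n → ℂ | ∑ i, ‖z i‖ ^ 2 ≤ 1} →
      (∀ z : Fin n → ℂ, ∑ i, ‖z i‖ ^ 2 ≤ 1 → ∑ i, ‖φ z i‖ ^ 2 ≤ 1) →
      DifferentiableOn ℂ φ {z : Fin n → ℂ | ∑ i, ‖z i‖ ^ 2 < 1} →
      (∀ z : Fin n → ℂ, ∑ i, ‖z i‖ ^ 2 < 1 → ∑ i, ‖φ z i‖ ^ 2 < 1) →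
      (∃ ψ : (Fin n → ℂ) → (Fin n → ℂ),
          DifferentiableOn ℂ ψ {z : Fin n → ℂ | ∑ i, ‖z i‖ ^ 2 < 1} ∧
          ∀ z : Fin n → ℂ, ∑ i, ‖z i‖ ^ 2 < 1 →
            ∑ i, ‖ψ z i‖ ^ 2 < 1 ∧ φ (ψ z) = z ∧ ψ (φ z) = z) →
      ∀ f ∈ Y, ∀ g : C({z : Fin n → ℂ // ∑ i, ‖z i‖ ^ 2 ≤ 1}, ℂ),
        (∀ x : {z : Fin n → ℂ // ∑ i, ‖z i‖ ^ 2 ≤ 1},
          ∀ hx : ∑ i, ‖φ x.1 i‖ ^ 2 ≤ 1, g x = f ⟨φ x.1, hx⟩) → g ∈ Y) →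
  (∃ f ∈ Y, f ≠ 0 ∧
      ∀ x : {z : Fin n → ℂ // ∑ i, ‖z i‖ ^ 2 ≤ 1}, ∑ i, ‖x.1 i‖ ^ 2 = 1 → f x = 0) →
  (∃ f : C({z : Fin n → ℂ // ∑ i, ‖z i‖ ^ 2 ≤ 1}, ℂ),
      (∀ x : {z : Fin n → ℂ // ∑ i, ‖z i‖ ^ 2 ≤ 1}, ∑ i, ‖x.1 i‖ ^ 2 = 1 → f x = 0) ∧
      f ∉ Y) →
  ∃ P : C({z : Fin n → ℂ // ∑ i, ‖z i‖ ^ 2 ≤ 1}, ℂ) → Prop,
    (P = (fun h : C({z : Fin n → ℂ // ∑ i, ‖z i‖ ^ 2 ≤ 1}, ℂ) => h = 0) ∨
     P = (fun h : C({z : Fin n → ℂ // ∑ i, ‖z i‖ ^ 2 ≤ 1}, ℂ) =>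
            ∃ c : ℂ, ∀ x : {z : Fin n → ℂ // ∑ i, ‖z i‖ ^ 2 ≤ 1}, h x = c) ∨
     P = (fun h : C({z : Fin n → ℂ // ∑ i, ‖z i‖ ^ 2 ≤ 1}, ℂ) =>
            ∃ F : (Fin n → ℂ) → ℂ,
              DifferentiableOn ℂ F {z : Fin n → ℂ | ∑ i, ‖z i‖ ^ 2 < 1} ∧
              ∀ x : {z : Fin n → ℂ // ∑ i, ‖z i‖ ^ 2 ≤ 1},
                ∑ i, ‖x.1 i‖ ^ 2 < 1 → h x = F x.1) ∨
     P = (fun h : C({z : Fin n → ℂ // ∑ i, ‖z i‖ ^ 2 ≤ 1}, ℂ) =>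
            ∃ F : (Fin n → ℂ) → ℂ,
              DifferentiableOn ℂ F {z : Fin n → ℂ | ∑ i, ‖z i‖ ^ 2 < 1} ∧
              ∀ x : {z : Fin n → ℂ // ∑ i, ‖z i‖ ^ 2 ≤ 1},
                ∑ i, ‖x.1 i‖ ^ 2 < 1 → h x = starRingEnd ℂ (F x.1)) ∨
     P = (fun h : C({z : Fin n → ℂ // ∑ i, ‖z i‖ ^ 2 ≤ 1}, ℂ) =>
            ∃ F G : (Fin n → ℂ) → ℂ,
              DifferentiableOn ℂ F {z : Fin n → ℂ | ∑ i, ‖z i‖ ^ 2 < 1} ∧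
              DifferentiableOn ℂ G {z : Fin n → ℂ | ∑ i, ‖z i‖ ^ 2 < 1} ∧
              ∀ x : {z : Fin n → ℂ // ∑ i, ‖z i‖ ^ 2 ≤ 1},
                ∑ i, ‖x.1 i‖ ^ 2 < 1 → h x = F x.1 + starRingEnd ℂ (G x.1)) ∨
     P = (fun h : C({z : Fin n → ℂ // ∑ i, ‖z i‖ ^ 2 ≤ 1}, ℂ) =>
            ∀ F : (Fin n → ℂ) → ℂ,
              (∀ x : {z : Fin n → ℂ // ∑ i, ‖z i‖ ^ 2 ≤ 1}, F x.1 = h x) →
              ∀ ψ : (Fin n → ℂ) → (Fin n → ℂ),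
                DifferentiableOn ℂ ψ {z : Fin n → ℂ | ∑ i, ‖z i‖ ^ 2 < 1} →
                (∀ z : Fin n → ℂ, ∑ i, ‖z i‖ ^ 2 < 1 → ∑ i, ‖ψ z i‖ ^ 2 < 1) →
                (∃ χ : (Fin n → ℂ) → (Fin n → ℂ),
                    DifferentiableOn ℂ χ {z : Fin n → ℂ | ∑ i, ‖z i‖ ^ 2 < 1} ∧
                    ∀ z : Fin n → ℂ, ∑ i, ‖z i‖ ^ 2 < 1 →
                      ∑ i, ‖χ z i‖ ^ 2 < 1 ∧ ψ (χ z) = z ∧ χ (ψ z) = z) →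
                ∀ r : ℝ, 0 < r → r < 1 →
                  ∫ z in {z : Fin n → ℂ | ∑ i, ‖z i‖ ^ 2 < r ^ 2}, F (ψ z) =
                    (volume {z : Fin n → ℂ | ∑ i, ‖z i‖ ^ 2 < r ^ 2}).toReal • F (ψ 0))) ∧
    (∀ h : C({z : Fin n → ℂ // ∑ i, ‖z i‖ ^ 2 ≤ 1}, ℂ), P h → h ∈ Y) ∧
    ∀ f ∈ Y, ∃ g h : C({z : Fin n → ℂ // ∑ i, ‖z i‖ ^ 2 ≤ 1}, ℂ),
      g ∈ Y ∧
      (∀ x : {z : Fin n → ℂ // ∑ i, ‖z i‖ ^ 2 ≤ 1}, ∑ i, ‖x.1 i‖ ^ 2 = 1 → g x = 0) ∧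
      P h ∧ f = g + h := by
  intro n hn Y hYc hYinv _ _
  have : NeZero n := ⟨hn.ne'⟩
  have hY : Ball.InvY Y := by
    refine ⟨hYc, ?_, ?_⟩
    · rintro a ha f ⟨g, hg, hgf⟩
      refine ⟨g.comp (Ball.TC a ha), ?_, fun z => hgf _⟩
      refine hYinv (Ball.mob a.1) ?_ ?_ ?_ ?_ ⟨Ball.mob a.1, ?_, ?_⟩ g hg _ ?_
      · intro z hz
        have hz' : Ball.nsq z ≤ 1 := hz
        exact (Ball.hasFDerivAt_mob (Ball.ip_ne_one hz' ha)).continuousAt.continuousWithinAt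
      · intro z hz
        exact Ball.mob_mem a.2 hz
      · exact Ball.diffOn_mob ha
      · intro z hz
        exact Ball.mob_mem_open ha hz
      · exact Ball.diffOn_mob ha
      · intro z hz
        have hz' : Ball.nsq z < 1 := hz
        exact ⟨Ball.mob_mem_open ha hz', Ball.mob_mob ha (Ball.ip_ne_one hz'.le ha),
          Ball.mob_mob ha (Ball.ip_ne_one hz'.le ha)⟩
      · intro x hx
        rfl
    · rintro U f ⟨g, hg, hgf⟩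
      refine ⟨g.comp (Ball.actC U), ?_, fun z => hgf _⟩
      have hd : ∀ V : Ball.UG n, Differentiable ℂ (Ball.mv V.1) := fun V =>
        (LinearMap.toContinuousLinearMap (Matrix.toLin' V.1)).differentiable
      have hn : ∀ (V : Ball.UG n) (z : Fin n → ℂ), ∑ i, ‖Ball.mv V.1 z i‖ ^ 2 = ∑ i, ‖z i‖ ^ 2 :=
        fun V z => Ball.nsq_mv V z
      refine hYinv (Ball.mv U.1) (hd U).continuous.continuousOn ?_ (hd U).differentiableOn ?_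
        ⟨Ball.mv U⁻¹.1, (hd U⁻¹).differentiableOn, ?_⟩ g hg _ ?_
      · intro z hz
        rw [hn]; exact hz
      · intro z hz
        rw [hn]; exact hz
      · intro z hz
        refine ⟨by rw [hn]; exact hz, ?_, ?_⟩
        · show U.1.mulVec (U⁻¹.1.mulVec z) = z
          rw [Matrix.mulVec_mulVec]
          have e : U.1 * U⁻¹.1 = 1 := congrArg Subtype.val (mul_inv_cancel U)
          rw [e, Matrix.one_mulVec]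
        · show U⁻¹.1.mulVec (U.1.mulVec z) = z
          rw [Matrix.mulVec_mulVec]
          have e : U⁻¹.1 * U.1 = 1 := congrArg Subtype.val (inv_mul_cancel U)
          rw [e, Matrix.one_mulVec]
      · intro x hx
        rfl
  -- the decomposition
  have hdec : (∀ h : C({z : Fin n → ℂ // ∑ i, ‖z i‖ ^ 2 ≤ 1}, ℂ), h ∈ Y → Ball.Pc h ∈ Y) →
      ∀ f ∈ Y, ∃ g h : C({z : Fin n → ℂ // ∑ i, ‖z i‖ ^ 2 ≤ 1}, ℂ), g ∈ Y ∧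
        (∀ x : {z : Fin n → ℂ // ∑ i, ‖z i‖ ^ 2 ≤ 1}, ∑ i, ‖x.1 i‖ ^ 2 = 1 → g x = 0) ∧
        h = Ball.Pc f ∧ f = g + h := by
    intro hP f hf
    refine ⟨f - Ball.Pc f, Ball.Pc f, Y.sub_mem hf (hP f hf), fun x hx => ?_, rfl, ?_⟩
    · rw [ContinuousMap.sub_apply, Ball.Pc_sphere f hx, sub_self]
    · rw [sub_add_cancel]
  rcases Ball.classify hY with h | h | h | h | h | h
  · refine ⟨_, Or.inl rfl, fun k hk => ?_, fun f hf => ?_⟩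
    · have hk' : k = 0 := hk
      rw [hk']; exact Y.zero_mem
    · obtain ⟨g, k, hg, hg0, hk, hfk⟩ := hdec (fun k hk => by rw [h k hk]; exact Y.zero_mem) f hf
      exact ⟨g, k, hg, hg0, by rw [hk, h f hf], hfk⟩
  · refine ⟨_, Or.inr (Or.inl rfl), fun k hk => ?_, fun f hf => ?_⟩
    · obtain ⟨c, hc⟩ := hk
      have : k = c • 1 := by
        ext z
        rw [hc z]
        simp
      rw [this]
      exact Y.smul_mem c h.1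
    · obtain ⟨g, k, hg, hg0, hk, hfk⟩ := hdec (fun k hk => by
        obtain ⟨c, hc⟩ := h.2 k hk
        have : Ball.Pc k = c • 1 := by
          ext z
          rw [hc z]
          simp
        rw [this]
        exact Y.smul_mem c h.1) f hf
      exact ⟨g, k, hg, hg0, by rw [hk]; exact h.2 f hf, hfk⟩
  · refine ⟨_, Or.inr (Or.inr (Or.inl rfl)), fun k hk => h.1 k hk, fun f hf => ?_⟩
    obtain ⟨g, k, hg, hg0, hk, hfk⟩ := hdec (fun k hk => h.1 _ (h.2 k hk)) f hf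
    exact ⟨g, k, hg, hg0, by rw [hk]; exact h.2 f hf, hfk⟩
  · have hconv : ∀ k : C({z : Fin n → ℂ // ∑ i, ‖z i‖ ^ 2 ≤ 1}, ℂ), Ball.holo (star k) ↔
        ∃ F : (Fin n → ℂ) → ℂ, DifferentiableOn ℂ F {z : Fin n → ℂ | ∑ i, ‖z i‖ ^ 2 < 1} ∧
          ∀ x : {z : Fin n → ℂ // ∑ i, ‖z i‖ ^ 2 ≤ 1},
            ∑ i, ‖x.1 i‖ ^ 2 < 1 → k x = starRingEnd ℂ (F x.1) := by
      intro k
      constructor
      · rintro ⟨F, hF, hFk⟩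
        refine ⟨F, hF, fun x hx => ?_⟩
        have e : starRingEnd ℂ (k x) = F x.1 := hFk x hx
        rw [← e, Complex.conj_conj]
      · rintro ⟨F, hF, hFk⟩
        refine ⟨F, hF, fun x hx => ?_⟩
        show starRingEnd ℂ (k x) = F x.1
        rw [hFk x hx, Complex.conj_conj]
    refine ⟨_, Or.inr (Or.inr (Or.inr (Or.inl rfl))), fun k hk => h.1 k ((hconv k).2 hk),
      fun f hf => ?_⟩
    obtain ⟨g, k, hg, hg0, hk, hfk⟩ := hdec (fun k hk => h.1 _ (h.2 k hk)) f hf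
    exact ⟨g, k, hg, hg0, by rw [hk]; exact (hconv _).1 (h.2 f hf), hfk⟩
  · refine ⟨_, Or.inr (Or.inr (Or.inr (Or.inr (Or.inl rfl)))), fun k hk => h.1 k hk,
      fun f hf => ?_⟩
    obtain ⟨g, k, hg, hg0, hk, hfk⟩ := hdec (fun k hk => h.1 _ (h.2 k hk)) f hf
    exact ⟨g, k, hg, hg0, by rw [hk]; exact h.2 f hf, hfk⟩
  · refine ⟨_, Or.inr (Or.inr (Or.inr (Or.inr (Or.inr rfl)))), fun k hk => ?_, fun f hf => ?_⟩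
    · have := Ball.eq_Pc_of_mvp k hk
      rw [this]
      exact h k
    · obtain ⟨g, k, hg, hg0, hk, hfk⟩ := hdec (fun k _ => h k) f hf
      refine ⟨g, k, hg, hg0, ?_, hfk⟩
      rw [hk]
      intro F hF ψ h1 h2 h3 r hr0 hr1
      exact Ball.Pc_mvp f F hF ψ h1 h2 h3 r hr0 hr1

end Pool.Agent.S05691
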