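import Pool.Statements.S06207

set_option autoImplicit false
open Pool Pool.MP_ced77a_an

namespace Pool.Agent.S06207

open Filter Topology Set

variable {X : Type*} [NormedAddCommGroup X] [NormedSpace ℂ X]

/-- Banach-Alaoglu: approximate eigenvectors of the adjoint which do not tend weakly to zero
give an eigenvector. -/
lemma compact_eigen (T : X →L[ℂ] X) (h : ℕ → (X →L[ℂ] ℂ)) (lam : ℕ → ℂ) (K δ : ℝ) (w : X)
    (hδ : 0 < δ) (hK : ∀ n, ‖h n‖ ≤ K) (hw : ∀ n, δ ≤ ‖h n w‖)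
    (hlim : ∀ y, Tendsto (fun n => h n (T y) - lam n * h n y) atTop (𝓝 0)) :
    ∃ (c : ℂ) (φ : X →L[ℂ] ℂ), φ.comp T = c • φ ∧ φ ≠ 0 := by
  let U : Ultrafilter ℕ := hyperfilter ℕ
  have hU : (U : Filter ℕ) ≤ atTop := by
    rw [← Nat.cofinite_eq_atTop]; exact hyperfilter_le_cofinite
  have hcomp := WeakDual.isCompact_closedBall (𝕜 := ℂ) (E := X) (0 : StrongDual ℂ X) K
  let g : ℕ → WeakDual ℂ X := fun n => StrongDual.toWeakDual (h n)
  have hmem : ∀ n, g n ∈ (WeakDual.toStrongDual ⁻¹' Metric.closedBall (0 : StrongDual ℂ X) K) := by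
    intro n
    simp only [Set.mem_preimage, mem_closedBall_zero_iff]
    exact hK n
  have hle : ((U.map g : Ultrafilter (WeakDual ℂ X)) : Filter (WeakDual ℂ X)) ≤
      𝓟 (WeakDual.toStrongDual ⁻¹' Metric.closedBall (0 : StrongDual ℂ X) K) := by
    rw [le_principal_iff, Ultrafilter.mem_coe, Ultrafilter.mem_map]
    exact Filter.univ_mem' hmem
  obtain ⟨φ, hφ, hφlim⟩ := hcomp.ultrafilter_le_nhds _ hle
  have hev : ∀ y : X, Tendsto (fun n => h n y) U (𝓝 (φ y)) := by
    intro y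
    have h1 : Tendsto (fun ψ : WeakDual ℂ X => ψ y) (𝓝 φ) (𝓝 (φ y)) :=
      (WeakDual.eval_continuous y).tendsto φ
    have h2 : Tendsto g U (𝓝 φ) := hφlim
    exact h1.comp h2
  have hφw : δ ≤ ‖φ w‖ := by
    have h1 : Tendsto (fun n => ‖h n w‖) U (𝓝 ‖φ w‖) := (hev w).norm
    exact ge_of_tendsto h1 (Eventually.of_forall hw)
  have hφw0 : φ w ≠ 0 := by
    intro h0
    rw [h0, norm_zero] at hφw
    linarith
  -- convergence of the eigenvalues
  have hlamlim : Tendsto lam U (𝓝 (φ (T w) / φ w)) := by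
    have h1 : Tendsto (fun n => (h n (T w) - (h n (T w) - lam n * h n w)) / h n w) U
        (𝓝 ((φ (T w) - 0) / φ w)) :=
      ((hev (T w)).sub ((hlim w).mono_left hU)).div (hev w) hφw0
    rw [sub_zero] at h1
    refine h1.congr ?_
    intro n
    have hne : h n w ≠ 0 := by
      intro h0
      have := hw n
      rw [h0, norm_zero] at this
      linarith
    field_simp
    ring
  refine ⟨φ (T w) / φ w, WeakDual.toStrongDual φ, ?_, ?_⟩
  · ext y
    have h1 : Tendsto (fun n => h n (T y) - lam n * h n y) U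
        (𝓝 (φ (T y) - (φ (T w) / φ w) * φ y)) :=
      (hev (T y)).sub (hlamlim.mul (hev y))
    have h2 : Tendsto (fun n => h n (T y) - lam n * h n y) U (𝓝 0) := (hlim y).mono_left hU
    have h3 := tendsto_nhds_unique h1 h2
    have h4 : φ (T y) = (φ (T w) / φ w) * φ y := sub_eq_zero.mp h3
    simpa using h4
  · intro h0
    apply hφw0
    have : (WeakDual.toStrongDual φ) w = (0 : X →L[ℂ] ℂ) w := by rw [h0]
    simpa using this

/-- If the real part of a functional is bounded by `M` on a ball then so is its modulus. -/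
lemma norm_le_of_re_le (f : X →L[ℂ] ℂ) (r M : ℝ)
    (h : ∀ y, ‖y‖ ≤ r → (f y).re ≤ M) (y : X) (hy : ‖y‖ ≤ r) : ‖f y‖ ≤ M := by
  by_cases h0 : f y = 0
  · have := h 0 (by rw [norm_zero]; exact le_trans (norm_nonneg _) hy)
    simp only [map_zero, Complex.zero_re] at this
    rw [h0, norm_zero]; exact this
  · have hn : ‖f y‖ ≠ 0 := norm_ne_zero_iff.mpr h0
    let u : ℂ := (starRingEnd ℂ) (f y) / (‖f y‖ : ℂ)
    have hu : ‖u‖ = 1 := by
      simp only [u, norm_div, RCLike.norm_conj, Complex.norm_real, norm_norm]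
      exact div_self hn
    have h1 := h (u • y) (by rw [norm_smul, hu, one_mul]; exact hy)
    have h2 : f (u • y) = (‖f y‖ : ℂ) := by
      rw [map_smul, smul_eq_mul]
      show (starRingEnd ℂ) (f y) / (‖f y‖ : ℂ) * f y = (‖f y‖ : ℂ)
      have h3 : (starRingEnd ℂ) (f y) * f y = (‖f y‖ : ℂ) ^ 2 := by
        rw [mul_comm, Complex.mul_conj, Complex.normSq_eq_norm_sq]; push_cast; ring
      have hn' : (‖f y‖ : ℂ) ≠ 0 := by exact_mod_cast hn
      rw [div_mul_eq_mul_div, h3]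
      field_simp
    rw [h2, Complex.ofReal_re] at h1
    exact h1

/-- A real sequence all of whose tails are summable with uniform control decays geometrically. -/
lemma geom_decay (b : ℕ → ℝ) (M : ℝ) (hM : 1 ≤ M)
    (h : ∀ m n, ∑ k ∈ Finset.range n, b (m + k) ≤ M * b m) (m : ℕ) :
    b m ≤ M * (1 - 1 / M) ^ m * b 0 := by
  have hM0 : 0 < M := by linarith
  have hθ : 0 ≤ 1 - 1 / M := by
    rw [sub_nonneg, div_le_one hM0]; exact hM
  have hstep : ∀ m n, ∑ k ∈ Finset.range n, b (m + 1 + k) ≤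
      (1 - 1 / M) * ∑ k ∈ Finset.range (n + 1), b (m + k) := by
    intro m n
    have h1 : ∑ k ∈ Finset.range (n + 1), b (m + k) =
        ∑ k ∈ Finset.range n, b (m + 1 + k) + b m := by
      rw [Finset.sum_range_succ']
      congr 1
      apply Finset.sum_congr rfl
      intro k _
      congr 1
      ring
    have h2 := h m (n + 1)
    have h3 : (1 / M) * ∑ k ∈ Finset.range (n + 1), b (m + k) ≤ b m := by
      rw [div_mul_eq_mul_div, one_mul, div_le_iff₀ hM0, mul_comm]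
      exact h2
    linarith
  have hind : ∀ m n, ∑ k ∈ Finset.range n, b (m + k) ≤
      (1 - 1 / M) ^ m * ∑ k ∈ Finset.range (n + m), b (0 + k) := by
    intro m
    induction m with
    | zero => intro n; simp
    | succ m ih =>
      intro n
      calc ∑ k ∈ Finset.range n, b (m + 1 + k) ≤
          (1 - 1 / M) * ∑ k ∈ Finset.range (n + 1), b (m + k) := hstep m n
        _ ≤ (1 - 1 / M) * ((1 - 1 / M) ^ m * ∑ k ∈ Finset.range (n + 1 + m), b (0 + k)) :=
            mul_le_mul_of_nonneg_left (ih (n + 1)) hθ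
        _ = (1 - 1 / M) ^ (m + 1) * ∑ k ∈ Finset.range (n + (m + 1)), b (0 + k) := by
            rw [show n + 1 + m = n + (m + 1) by ring, pow_succ]; ring
  calc b m = ∑ k ∈ Finset.range 1, b (m + k) := by simp
    _ ≤ (1 - 1 / M) ^ m * ∑ k ∈ Finset.range (1 + m), b (0 + k) := hind m 1
    _ ≤ (1 - 1 / M) ^ m * (M * b 0) := mul_le_mul_of_nonneg_left (h 0 _) (pow_nonneg hθ m)
    _ = M * (1 - 1 / M) ^ m * b 0 := by ring

lemma norm_pow_le_pow_norm_cl (T : X →L[ℂ] X) (k : ℕ) : ‖T ^ k‖ ≤ ‖T‖ ^ k := by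
  induction k with
  | zero =>
    rw [pow_zero, pow_zero]
    exact ContinuousLinearMap.norm_id_le
  | succ k ih =>
    rw [pow_succ, pow_succ]
    calc ‖T ^ k * T‖ ≤ ‖T ^ k‖ * ‖T‖ := norm_mul_le _ _
      _ ≤ ‖T‖ ^ k * ‖T‖ := mul_le_mul_of_nonneg_right ih (norm_nonneg T)

section Cone

variable (T : X →L[ℂ] X) (C : Set X) (x0 : X)

/-- The cone of functionals whose real part is nonnegative on `C`. -/
def InP (f : X →L[ℂ] ℂ) : Prop := ∀ c ∈ C, 0 ≤ (f c).re

/-- Uniform summability of `q^k f(T^k x0)` over the cone. -/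
def B (q M : ℝ) : Prop :=
  ∀ f : X →L[ℂ] ℂ, InP C f → ∀ n : ℕ,
    ∑ k ∈ Finset.range n, q ^ k * (f ((T ^ k) x0)).re ≤ M * (f x0).re

variable {T C x0}

lemma InP.comp {f : X →L[ℂ] ℂ} (hf : InP C f) (hTC : ∀ y ∈ C, T y ∈ C) :
    InP C (f.comp T) := fun c hc => hf _ (hTC c hc)

lemma pow_mem (hTC : ∀ y ∈ C, T y ∈ C) (k : ℕ) : ∀ y ∈ C, (T ^ k) y ∈ C := by
  induction k with
  | zero => intro y hy; simpa using hy
  | succ k ih =>
    intro y hy
    rw [pow_succ']
    exact hTC _ (ih y hy)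

lemma InP.comp_pow {f : X →L[ℂ] ℂ} (hf : InP C f) (hTC : ∀ y ∈ C, T y ∈ C) (k : ℕ) :
    InP C (f.comp (T ^ k)) := fun c hc => hf _ (pow_mem hTC k c hc)

lemma InP.norm_le {f : X →L[ℂ] ℂ} (hf : InP C f) {r : ℝ} (hr : 0 < r)
    (hball : ∀ y, ‖y‖ ≤ r → x0 - y ∈ C) : ‖f‖ ≤ (f x0).re / r := by
  apply ContinuousLinearMap.opNorm_bound_of_ball_bound hr
  intro z hz
  rw [mem_closedBall_zero_iff] at hz
  refine norm_le_of_re_le f r _ ?_ z hz
  intro y hy
  have := hf _ (hball y hy)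
  rw [map_sub, Complex.sub_re] at this
  linarith

lemma B.mono {q q' M : ℝ} (hB : B T C x0 q M) (hTC : ∀ y ∈ C, T y ∈ C) (hx0 : x0 ∈ C)
    (hq : 0 ≤ q') (hqq : q' ≤ q) : B T C x0 q' M := by
  intro f hf n
  refine le_trans ?_ (hB f hf n)
  apply Finset.sum_le_sum
  intro k _
  exact mul_le_mul_of_nonneg_right (pow_le_pow_left₀ hq hqq k) (hf _ (pow_mem hTC k _ hx0))

lemma B.weaken {q M M' : ℝ} (hB : B T C x0 q M) (hx0 : x0 ∈ C) (hMM : M ≤ M') :
    B T C x0 q M' := by
  intro f hf n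
  exact le_trans (hB f hf n) (mul_le_mul_of_nonneg_right hMM (hf _ hx0))

lemma B.decay {q M : ℝ} (hB : B T C x0 q M) (hTC : ∀ y ∈ C, T y ∈ C)
    (hq : 0 ≤ q) (hM : 1 ≤ M) {f : X →L[ℂ] ℂ} (hf : InP C f) (m : ℕ) :
    q ^ m * (f ((T ^ m) x0)).re ≤ M * (1 - 1 / M) ^ m * (f x0).re := by
  have := geom_decay (fun k => q ^ k * (f ((T ^ k) x0)).re) M hM ?_ m
  · simpa using this
  · intro m n
    have h1 := hB _ (hf.comp_pow hTC m) n
    have h2 := mul_le_mul_of_nonneg_left h1 (pow_nonneg hq m)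
    rw [Finset.mul_sum] at h2
    calc ∑ k ∈ Finset.range n, q ^ (m + k) * (f ((T ^ (m + k)) x0)).re
        = ∑ k ∈ Finset.range n, q ^ m * (q ^ k * ((f.comp (T ^ m)) ((T ^ k) x0)).re) := by
          apply Finset.sum_congr rfl
          intro k _
          rw [pow_add, pow_add]
          simp only [ContinuousLinearMap.comp_apply, mul_apply_eq_comp]
          ring
      _ ≤ q ^ m * (M * ((f.comp (T ^ m)) x0).re) := h2
      _ = M * (q ^ m * (f ((T ^ m) x0)).re) := by
          simp only [ContinuousLinearMap.comp_apply]; ring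

lemma B.open {q M : ℝ} (hB : B T C x0 q M) (hTC : ∀ y ∈ C, T y ∈ C) (hx0 : x0 ∈ C)
    (hq : 0 < q) (hM : 1 ≤ M) : ∃ q' M', q < q' ∧ B T C x0 q' M' := by
  have hM0 : 0 < M := by linarith
  set ρ : ℝ := (1 + 1 / (2 * M)) * (1 - 1 / M) with hρ
  have hinv : 1 / M ≤ 1 := by rw [div_le_one hM0]; exact hM
  have hinv0 : 0 < 1 / M := by positivity
  have h2 : 1 / (2 * M) = (1 / M) / 2 := by field_simp
  have hρ0 : 0 ≤ ρ := by
    rw [hρ]; apply mul_nonneg
    · positivity
    · linarith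
  have hρ1 : ρ < 1 := by
    rw [hρ, h2]; nlinarith
  refine ⟨q * (1 + 1 / (2 * M)), M / (1 - ρ), ?_, ?_⟩
  · have : 0 < 1 / (2 * M) := by positivity
    nlinarith
  · intro f hf n
    have hfx : 0 ≤ (f x0).re := hf _ hx0
    have hgeo : (1 - ρ) * ∑ k ∈ Finset.range n, ρ ^ k ≤ 1 := by
      have := geom_sum_mul_neg ρ n
      have h3 := pow_nonneg hρ0 n
      nlinarith
    have h1 : ∑ k ∈ Finset.range n, (q * (1 + 1 / (2 * M))) ^ k * (f ((T ^ k) x0)).re ≤
        ∑ k ∈ Finset.range n, ρ ^ k * (M * (f x0).re) := by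
      apply Finset.sum_le_sum
      intro k _
      have h4 := hB.decay hTC hq.le hM hf k
      have h5 : 0 ≤ (1 + 1 / (2 * M)) ^ k := by positivity
      calc (q * (1 + 1 / (2 * M))) ^ k * (f ((T ^ k) x0)).re
          = (1 + 1 / (2 * M)) ^ k * (q ^ k * (f ((T ^ k) x0)).re) := by rw [mul_pow]; ring
        _ ≤ (1 + 1 / (2 * M)) ^ k * (M * (1 - 1 / M) ^ k * (f x0).re) :=
            mul_le_mul_of_nonneg_left h4 h5
        _ = ρ ^ k * (M * (f x0).re) := by rw [hρ, mul_pow]; ring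
    rw [← Finset.sum_mul] at h1
    refine le_trans h1 ?_
    have h1ρ : 0 < 1 - ρ := by linarith
    have h6 : ∑ k ∈ Finset.range n, ρ ^ k ≤ 1 / (1 - ρ) := by
      rw [le_div_iff₀ h1ρ, mul_comm]; exact hgeo
    calc (∑ k ∈ Finset.range n, ρ ^ k) * (M * (f x0).re)
        ≤ (1 / (1 - ρ)) * (M * (f x0).re) :=
          mul_le_mul_of_nonneg_right h6 (mul_nonneg hM0.le hfx)
      _ = M / (1 - ρ) * (f x0).re := by ring

lemma step {q M r R : ℝ} (hB : B T C x0 q M) (hTC : ∀ y ∈ C, T y ∈ C) (hx0 : x0 ∈ C)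
    (hr : 0 < r) (hball : ∀ y, ‖y‖ ≤ r → x0 - y ∈ C)
    (hq : 0 < q) (hM : 1 ≤ M) {f : X →L[ℂ] ℂ} (hf : InP C f) (hf1 : (f x0).re = 1) (n : ℕ)
    (hR : 0 < R) (hRn : R ≤ ∑ k ∈ Finset.range n, q ^ k * (f ((T ^ k) x0)).re) :
    ∃ h : X →L[ℂ] ℂ, InP C h ∧ (h x0).re = 1 ∧
      ∀ y, ‖h (T y) - ((q⁻¹ : ℝ) : ℂ) * h y‖ ≤ 2 / (r * q * R) * ‖y‖ := by
  have hM0 : 0 < M := by linarith
  have hinv : 1 / M ≤ 1 := by rw [div_le_one hM0]; exact hM
  have hinv0 : 0 < 1 / M := by positivity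
  -- choose n'
  have hlim : Tendsto (fun m : ℕ => M * (1 - 1 / M) ^ m * 1) atTop (𝓝 (M * 0 * 1)) := by
    apply Tendsto.mul_const
    apply Tendsto.const_mul
    exact tendsto_pow_atTop_nhds_zero_of_lt_one (by linarith) (by linarith)
  rw [mul_zero, zero_mul] at hlim
  have hev := (hlim.eventually (gt_mem_nhds (show (0:ℝ) < 1 by norm_num))).and
    (eventually_ge_atTop n)
  obtain ⟨n', hn'1, hn'n⟩ := hev.exists
  have hsmall : q ^ n' * (f ((T ^ n') x0)).re ≤ 1 := by
    have := hB.decay hTC hq.le hM hf n'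
    rw [hf1] at this
    linarith
  let g : X →L[ℂ] ℂ := ∑ k ∈ Finset.range n', ((q ^ k : ℝ) : ℂ) • f.comp (T ^ k)
  have hgy : ∀ y, g y = ∑ k ∈ Finset.range n', ((q ^ k : ℝ) : ℂ) * f ((T ^ k) y) := by
    intro y
    simp only [g, sum_apply, smul_apply,
      ContinuousLinearMap.comp_apply, smul_eq_mul]
  have hgre : ∀ y, (g y).re = ∑ k ∈ Finset.range n', q ^ k * (f ((T ^ k) y)).re := by
    intro y
    rw [hgy, Complex.re_sum]
    apply Finset.sum_congr rfl
    intro k _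
    rw [Complex.re_ofReal_mul]
  have hgP : InP C g := by
    intro c hc
    rw [hgre]
    apply Finset.sum_nonneg
    intro k _
    exact mul_nonneg (pow_nonneg hq.le k) (hf _ (pow_mem hTC k c hc))
  set N : ℝ := (g x0).re with hN
  have hNR : R ≤ N := by
    rw [hN, hgre]
    refine le_trans hRn ?_
    apply Finset.sum_le_sum_of_subset_of_nonneg
    · intro k hk
      rw [Finset.mem_range] at hk ⊢
      omega
    · intro k _ _
      exact mul_nonneg (pow_nonneg hq.le k) (hf _ (pow_mem hTC k _ hx0))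
  have hN0 : 0 < N := lt_of_lt_of_le hR hNR
  have hshift : ∀ y, g (T y) - ((q⁻¹ : ℝ) : ℂ) * g y =
      ((q⁻¹ : ℝ) : ℂ) * (((q ^ n' : ℝ) : ℂ) * f ((T ^ n') y) - f y) := by
    intro y
    have hqc : (q : ℂ) ≠ 0 := by exact_mod_cast hq.ne'
    have h1 : (q : ℂ) * g (T y) = ∑ k ∈ Finset.range n',
        ((q ^ (k + 1) : ℝ) : ℂ) * f ((T ^ (k + 1)) y) := by
      rw [hgy, Finset.mul_sum]
      apply Finset.sum_congr rfl
      intro k _
      have : (T ^ (k + 1)) y = (T ^ k) (T y) := by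
        rw [pow_succ]; rfl
      rw [this]
      push_cast
      ring
    have h2 : g y + ((q ^ n' : ℝ) : ℂ) * f ((T ^ n') y) =
        ∑ k ∈ Finset.range n', ((q ^ (k + 1) : ℝ) : ℂ) * f ((T ^ (k + 1)) y) + f y := by
      rw [hgy, ← Finset.sum_range_succ (fun k => ((q ^ k : ℝ) : ℂ) * f ((T ^ k) y)) n',
        Finset.sum_range_succ']
      simp
    have h3 : (q : ℂ) * g (T y) = g y + ((q ^ n' : ℝ) : ℂ) * f ((T ^ n') y) - f y := by
      rw [h1]; rw [h2]; ring
    have h4 : g (T y) = ((q⁻¹ : ℝ) : ℂ) * ((q : ℂ) * g (T y)) := by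
      push_cast
      rw [← mul_assoc, inv_mul_cancel₀ hqc, one_mul]
    rw [h4, h3]
    ring
  have hb1 : ‖f‖ ≤ 1 / r := by
    have := hf.norm_le hr hball
    rwa [hf1] at this
  have hb2 : q ^ n' * ‖f.comp (T ^ n')‖ ≤ 1 / r := by
    have h1 := (hf.comp_pow hTC n').norm_le hr hball
    have h2 := mul_le_mul_of_nonneg_left h1 (pow_nonneg hq.le n')
    refine le_trans h2 ?_
    rw [ContinuousLinearMap.comp_apply, ← mul_div_assoc]
    exact div_le_div_of_nonneg_right hsmall hr.le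
  refine ⟨((N⁻¹ : ℝ) : ℂ) • g, ?_, ?_, ?_⟩
  · intro c hc
    rw [smul_apply, smul_eq_mul, Complex.re_ofReal_mul]
    exact mul_nonneg (inv_nonneg.mpr hN0.le) (hgP c hc)
  · rw [smul_apply, smul_eq_mul, Complex.re_ofReal_mul]
    exact inv_mul_cancel₀ hN0.ne'
  · intro y
    simp only [smul_apply, smul_eq_mul]
    have h1 : ((N⁻¹ : ℝ) : ℂ) * g (T y) - ((q⁻¹ : ℝ) : ℂ) * (((N⁻¹ : ℝ) : ℂ) * g y) =
        ((N⁻¹ : ℝ) : ℂ) * (((q⁻¹ : ℝ) : ℂ) *
          (((q ^ n' : ℝ) : ℂ) * f ((T ^ n') y) - f y)) := by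
      rw [← hshift]; ring
    rw [h1, norm_mul, norm_mul, Complex.norm_real, Complex.norm_real, Real.norm_of_nonneg
      (inv_nonneg.mpr hN0.le), Real.norm_of_nonneg (inv_nonneg.mpr hq.le)]
    have h2 : ‖((q ^ n' : ℝ) : ℂ) * f ((T ^ n') y) - f y‖ ≤ 2 / r * ‖y‖ := by
      refine le_trans (norm_sub_le _ _) ?_
      rw [norm_mul, Complex.norm_real, Real.norm_of_nonneg (pow_nonneg hq.le n')]
      have h3 : ‖f ((T ^ n') y)‖ ≤ ‖f.comp (T ^ n')‖ * ‖y‖ :=
        (f.comp (T ^ n')).le_opNorm y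
      have h4 : ‖f y‖ ≤ ‖f‖ * ‖y‖ := f.le_opNorm y
      have h5 : q ^ n' * ‖f ((T ^ n') y)‖ ≤ 1 / r * ‖y‖ := by
        calc q ^ n' * ‖f ((T ^ n') y)‖ ≤ q ^ n' * (‖f.comp (T ^ n')‖ * ‖y‖) :=
              mul_le_mul_of_nonneg_left h3 (pow_nonneg hq.le n')
          _ = (q ^ n' * ‖f.comp (T ^ n')‖) * ‖y‖ := by ring
          _ ≤ 1 / r * ‖y‖ := mul_le_mul_of_nonneg_right hb2 (norm_nonneg y)
      have h6 : ‖f y‖ ≤ 1 / r * ‖y‖ :=
        le_trans h4 (mul_le_mul_of_nonneg_right hb1 (norm_nonneg y))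
      calc q ^ n' * ‖f ((T ^ n') y)‖ + ‖f y‖ ≤ 1 / r * ‖y‖ + 1 / r * ‖y‖ := add_le_add h5 h6
        _ = 2 / r * ‖y‖ := by ring
    have hinvN : N⁻¹ ≤ R⁻¹ := inv_anti₀ hR hNR
    calc N⁻¹ * (q⁻¹ * ‖((q ^ n' : ℝ) : ℂ) * f ((T ^ n') y) - f y‖)
        ≤ R⁻¹ * (q⁻¹ * (2 / r * ‖y‖)) := by
          apply mul_le_mul hinvN _ (by positivity) (by positivity)
          exact mul_le_mul_of_nonneg_left h2 (by positivity)
      _ = 2 / (r * q * R) * ‖y‖ := by
          field_simp

/-- Elementary Krein-Rutman theorem for the adjoint. -/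
lemma krein_rutman {r : ℝ} (hTC : ∀ y ∈ C, T y ∈ C)
    (hr : 0 < r) (hball : ∀ y, ‖y‖ ≤ r → x0 - y ∈ C)
    {f : X →L[ℂ] ℂ} (hf : InP C f) (hf0 : f ≠ 0) :
    ∃ (c : ℂ) (φ : X →L[ℂ] ℂ), φ.comp T = c • φ ∧ φ ≠ 0 := by
  have hx0 : x0 ∈ C := by
    have := hball 0 (by rw [norm_zero]; exact hr.le)
    simpa using this
  have hnorm1 : ∀ g : X →L[ℂ] ℂ, InP C g → g ≠ 0 →
      ∃ g' : X →L[ℂ] ℂ, InP C g' ∧ (g' x0).re = 1 ∧ ∀ y, (g y).re = (g x0).re * (g' y).re := by
    intro g hg hg0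
    have h1 := hg.norm_le hr hball
    have h2 : 0 < ‖g‖ := norm_pos_iff.mpr hg0
    have h3 : 0 < (g x0).re := by
      by_contra hcon
      have : (g x0).re / r ≤ 0 := div_nonpos_of_nonpos_of_nonneg (not_lt.mp hcon) hr.le
      linarith
    refine ⟨(((g x0).re⁻¹ : ℝ) : ℂ) • g, ?_, ?_, ?_⟩
    · intro c hc
      rw [smul_apply, smul_eq_mul, Complex.re_ofReal_mul]
      exact mul_nonneg (inv_nonneg.mpr h3.le) (hg c hc)
    · rw [smul_apply, smul_eq_mul, Complex.re_ofReal_mul]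
      exact inv_mul_cancel₀ h3.ne'
    · intro y
      rw [smul_apply, smul_eq_mul, Complex.re_ofReal_mul, ← mul_assoc,
        mul_inv_cancel₀ h3.ne', one_mul]
  -- approximate eigenvectors
  have happrox : ∀ ε : ℝ, 0 < ε → ∃ (h : X →L[ℂ] ℂ) (lam : ℂ), InP C h ∧ (h x0).re = 1 ∧
      ∀ y, ‖h (T y) - lam * h y‖ ≤ ε * ‖y‖ := by
    intro ε hε
    obtain ⟨f1, hf1P, hf11, -⟩ := hnorm1 f hf hf0
    by_cases hall : ∀ q : ℝ, 0 < q → ∃ M, B T C x0 q M
    · -- case of infinite radius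
      set q : ℝ := 2 / (r * ε) with hq
      have hq0 : 0 < q := by positivity
      obtain ⟨M, hM⟩ := hall q hq0
      obtain ⟨h, hP, h1, hh⟩ := step (hM.weaken hx0 (le_max_left M 1)) hTC hx0 hr hball hq0
        (le_max_right M 1) hf1P hf11 1 (R := 1) one_pos (by simp [hf11])
      refine ⟨h, _, hP, h1, fun y => le_trans (hh y) ?_⟩
      apply mul_le_mul_of_nonneg_right _ (norm_nonneg y)
      rw [hq]
      apply le_of_eq
      field_simp
    · push Not at hall
      obtain ⟨q1, hq10, hq1⟩ := hall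
      -- small q are good
      have hsmallq : ∃ q0 > 0, ∃ M, B T C x0 q0 M := by
        refine ⟨1 / (2 * (‖T‖ + 1)), by positivity, 2 * (‖x0‖ / r), ?_⟩
        intro g hg n
        have hgn := hg.norm_le hr hball
        have hgx : 0 ≤ (g x0).re := hg _ hx0
        have h1 : ∀ k, (1 / (2 * (‖T‖ + 1))) ^ k * (g ((T ^ k) x0)).re ≤
            (1 / 2 : ℝ) ^ k * (‖x0‖ / r * (g x0).re) := by
          intro k
          have h2 : (g ((T ^ k) x0)).re ≤ ‖g‖ * (‖T‖ ^ k * ‖x0‖) := by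
            calc (g ((T ^ k) x0)).re ≤ ‖g ((T ^ k) x0)‖ := Complex.re_le_norm _
              _ ≤ ‖g‖ * ‖(T ^ k) x0‖ := g.le_opNorm _
              _ ≤ ‖g‖ * (‖T ^ k‖ * ‖x0‖) :=
                  mul_le_mul_of_nonneg_left ((T ^ k).le_opNorm x0) (norm_nonneg g)
              _ ≤ ‖g‖ * (‖T‖ ^ k * ‖x0‖) := by
                  gcongr
                  exact norm_pow_le_pow_norm_cl T k
          have h3 : (1 / (2 * (‖T‖ + 1))) ^ k * ‖T‖ ^ k ≤ (1 / 2 : ℝ) ^ k := by
            rw [← mul_pow]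
            apply pow_le_pow_left₀ (by positivity)
            rw [div_mul_eq_mul_div, one_mul, div_le_div_iff₀ (by positivity) (by norm_num)]
            nlinarith [norm_nonneg T]
          calc (1 / (2 * (‖T‖ + 1))) ^ k * (g ((T ^ k) x0)).re
              ≤ (1 / (2 * (‖T‖ + 1))) ^ k * (‖g‖ * (‖T‖ ^ k * ‖x0‖)) :=
                mul_le_mul_of_nonneg_left h2 (by positivity)
            _ = ((1 / (2 * (‖T‖ + 1))) ^ k * ‖T‖ ^ k) * (‖g‖ * ‖x0‖) := by ring
            _ ≤ (1 / 2 : ℝ) ^ k * (((g x0).re / r) * ‖x0‖) := by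
                apply mul_le_mul h3 _ (by positivity) (by positivity)
                exact mul_le_mul_of_nonneg_right hgn (norm_nonneg x0)
            _ = (1 / 2 : ℝ) ^ k * (‖x0‖ / r * (g x0).re) := by ring
        calc ∑ k ∈ Finset.range n, (1 / (2 * (‖T‖ + 1))) ^ k * (g ((T ^ k) x0)).re
            ≤ ∑ k ∈ Finset.range n, (1 / 2 : ℝ) ^ k * (‖x0‖ / r * (g x0).re) :=
              Finset.sum_le_sum (fun k _ => h1 k)
          _ = (∑ k ∈ Finset.range n, (1 / 2 : ℝ) ^ k) * (‖x0‖ / r * (g x0).re) := by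
              rw [Finset.sum_mul]
          _ ≤ 2 * (‖x0‖ / r * (g x0).re) := by
              apply mul_le_mul_of_nonneg_right _ (by positivity)
              have h5 := geom_sum_mul_neg (1 / 2 : ℝ) n
              have h6 : (0 : ℝ) ≤ (1 / 2 : ℝ) ^ n := by positivity
              nlinarith
          _ = 2 * (‖x0‖ / r) * (g x0).re := by ring
      set Q : Set ℝ := {q | 0 < q ∧ ∃ M, B T C x0 q M} with hQ
      have hQne : Q.Nonempty := by
        obtain ⟨q0, hq0, hM⟩ := hsmallq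
        exact ⟨q0, hq0, hM⟩
      have hQb : BddAbove Q := by
        refine ⟨q1, ?_⟩
        rintro q ⟨hq0, M, hM⟩
        by_contra hcon
        push Not at hcon
        exact hq1 M (hM.mono hTC hx0 hq10.le hcon.le)
      set qs : ℝ := sSup Q with hqs
      have hqs0 : 0 < qs := by
        obtain ⟨q0, hq0⟩ := hQne
        exact lt_of_lt_of_le hq0.1 (le_csSup hQb hq0)
      have hqsnot : ∀ M, ¬ B T C x0 qs M := by
        intro M hM
        obtain ⟨q', M', hq', hM'⟩ := (hM.weaken hx0 (le_max_left M 1)).open hTC hx0 hqs0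
          (le_max_right M 1)
        have : q' ∈ Q := ⟨lt_trans hqs0 hq', M', hM'⟩
        have := le_csSup hQb this
        linarith
      have hlt : ∀ q, 0 < q → q < qs → ∃ M, B T C x0 q M := by
        intro q hq0 hq
        obtain ⟨q', hq'Q, hqq'⟩ := exists_lt_of_lt_csSup hQne hq
        obtain ⟨M, hM⟩ := hq'Q.2
        exact ⟨M, hM.mono hTC hx0 hq0.le hqq'.le⟩
      -- pick a bad functional
      set R : ℝ := 4 / (r * qs * ε) with hR
      have hR0 : 0 < R := by positivity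
      have hbad := hqsnot R
      unfold B at hbad
      push Not at hbad
      obtain ⟨g, hgP, n, hgn⟩ := hbad
      have hg0 : g ≠ 0 := by
        rintro rfl
        simp at hgn
      obtain ⟨g', hg'P, hg'1, hg'⟩ := hnorm1 g hgP hg0
      have hgx0 : 0 ≤ (g x0).re := hgP _ hx0
      have hg'n : R < ∑ k ∈ Finset.range n, qs ^ k * (g' ((T ^ k) x0)).re := by
        have h1 : ∑ k ∈ Finset.range n, qs ^ k * (g ((T ^ k) x0)).re =
            (∑ k ∈ Finset.range n, qs ^ k * (g' ((T ^ k) x0)).re) * (g x0).re := by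
          rw [Finset.sum_mul]
          apply Finset.sum_congr rfl
          intro k _
          rw [hg' ((T ^ k) x0)]
          ring
        rw [h1] at hgn
        have h2 : 0 < (g x0).re := by
          rcases hgx0.lt_or_eq with h | h
          · exact h
          · rw [← h] at hgn; simp at hgn
        exact lt_of_mul_lt_mul_right hgn h2.le
      -- continuity in q
      have hcont : Continuous (fun q : ℝ =>
          ∑ k ∈ Finset.range n, q ^ k * (g' ((T ^ k) x0)).re) := by fun_prop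
      have hnhds : ∀ᶠ q in 𝓝 qs, R < ∑ k ∈ Finset.range n, q ^ k * (g' ((T ^ k) x0)).re :=
        hcont.continuousAt.eventually (lt_mem_nhds hg'n)
      have hnhds2 : ∀ᶠ q in 𝓝 qs, qs / 2 < q := lt_mem_nhds (by linarith)
      obtain ⟨q, ⟨hq1', hq2'⟩, hq3'⟩ := ((hnhds.and hnhds2).filter_mono
        (nhdsWithin_le_nhds (s := Set.Iio qs))).and self_mem_nhdsWithin |>.exists
      have hq0 : 0 < q := by linarith
      obtain ⟨M, hM⟩ := hlt q hq0 hq3'
      obtain ⟨h, hP, h1, hh⟩ := step (hM.weaken hx0 (le_max_left M 1)) hTC hx0 hr hball hq0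
        (le_max_right M 1) hg'P hg'1 n hR0 hq1'.le
      refine ⟨h, _, hP, h1, fun y => le_trans (hh y) ?_⟩
      apply mul_le_mul_of_nonneg_right _ (norm_nonneg y)
      rw [hR, div_le_iff₀ (by positivity)]
      have : r * q * (4 / (r * qs * ε)) = 4 * q / (qs * ε) := by field_simp
      rw [this, mul_div_assoc']
      rw [le_div_iff₀ (by positivity)]
      nlinarith [mul_pos hqs0 hε]
  choose h lam hP h1 hh using fun n : ℕ => happrox (1 / ((n : ℝ) + 1)) (by positivity)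
  refine compact_eigen T h lam (1 / r) 1 x0 one_pos ?_ ?_ ?_
  · intro n
    have := (hP n).norm_le hr hball
    rwa [h1 n] at this
  · intro n
    rw [← h1 n]
    exact Complex.re_le_norm _
  · intro y
    rw [tendsto_zero_iff_norm_tendsto_zero]
    refine squeeze_zero (fun n => norm_nonneg _) (fun n => hh n y) ?_
    have : Tendsto (fun n : ℕ => 1 / ((n : ℝ) + 1) * ‖y‖) atTop (𝓝 (0 * ‖y‖)) :=
      tendsto_one_div_add_atTop_nhds_zero_nat.mul_const _
    simpa using this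

end Cone

/-- Every bounded operator on a nonzero complex Banach space has an approximate eigenvalue. -/
lemma exists_approx_eigen {V : Type*} [NormedAddCommGroup V] [NormedSpace ℂ V] [CompleteSpace V]
    [Nontrivial V] (L : V →L[ℂ] V) :
    ∃ lam : ℂ, ∀ ε : ℝ, 0 < ε → ∃ a : V, a ≠ 0 ∧ ‖L a - lam • a‖ ≤ ε * ‖a‖ := by
  have hne : (spectrum ℂ L).Nonempty := spectrum.nonempty L
  have hnu : spectrum ℂ L ≠ Set.univ := by
    intro h
    have hb := spectrum.isBounded (𝕜 := ℂ) L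
    rw [h] at hb
    exact NormedSpace.unbounded_univ ℂ ℂ hb
  obtain ⟨lam, hlam⟩ := nonempty_frontier_iff.mpr ⟨hne, hnu⟩
  have hlamσ : lam ∈ spectrum ℂ L := (spectrum.isClosed (𝕜 := ℂ) L).frontier_subset hlam
  refine ⟨lam, fun ε hε => ?_⟩
  have hcl : lam ∈ closure (spectrum ℂ L)ᶜ := by
    rw [frontier_eq_closure_inter_closure] at hlam
    exact hlam.2
  obtain ⟨μ, hμ, hdist⟩ := Metric.mem_closure_iff.mp hcl (ε / 3) (by positivity)
  have hμu : IsUnit ((algebraMap ℂ (V →L[ℂ] V)) μ - L) := by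
    by_contra hcon
    exact hμ (spectrum.mem_iff.mpr hcon)
  obtain ⟨u, hu⟩ := hμu
  set δ : ℝ := ‖lam - μ‖ with hδ
  have hδε : δ < ε / 3 := by rw [hδ, ← dist_eq_norm]; exact hdist
  have hδ0 : 0 < δ := by
    rw [hδ, norm_pos_iff, sub_ne_zero]
    rintro rfl
    exact hμ hlamσ
  have hdiff : ‖((algebraMap ℂ (V →L[ℂ] V)) lam - L) - (u : V →L[ℂ] V)‖ ≤ δ := by
    rw [hu]
    have : (algebraMap ℂ (V →L[ℂ] V)) lam - L - ((algebraMap ℂ (V →L[ℂ] V)) μ - L) =
        (algebraMap ℂ (V →L[ℂ] V)) (lam - μ) := by rw [map_sub]; abel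
    rw [this]
    exact (norm_algebraMap' _ _).le
  have hinv : ‖((u⁻¹ : (V →L[ℂ] V)ˣ) : V →L[ℂ] V)‖⁻¹ ≤ δ := by
    by_contra hcon
    push Not at hcon
    have hunit := (Units.ofNearby u ((algebraMap ℂ (V →L[ℂ] V)) lam - L)
      (lt_of_le_of_lt hdiff hcon)).isUnit
    exact (spectrum.mem_iff.mp hlamσ) hunit
  -- a vector on which u⁻¹ is large
  have hb : ∃ b : V, 1 / (2 * δ) * ‖b‖ < ‖((u⁻¹ : (V →L[ℂ] V)ˣ) : V →L[ℂ] V) b‖ := by
    by_contra hcon
    push Not at hcon
    have h1 : ‖((u⁻¹ : (V →L[ℂ] V)ˣ) : V →L[ℂ] V)‖ ≤ 1 / (2 * δ) :=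
      ContinuousLinearMap.opNorm_le_bound _ (by positivity) hcon
    have h2 : 0 < ‖((u⁻¹ : (V →L[ℂ] V)ˣ) : V →L[ℂ] V)‖ := by
      rw [norm_pos_iff]; exact (u⁻¹).ne_zero
    have h3 : (1 / (2 * δ))⁻¹ ≤ ‖((u⁻¹ : (V →L[ℂ] V)ˣ) : V →L[ℂ] V)‖⁻¹ := inv_anti₀ h2 h1
    rw [one_div, inv_inv] at h3
    linarith
  obtain ⟨b, hb⟩ := hb
  set a : V := ((u⁻¹ : (V →L[ℂ] V)ˣ) : V →L[ℂ] V) b with ha
  have hua : μ • a - L a = b := by
    have h1 : (u : V →L[ℂ] V) (((u⁻¹ : (V →L[ℂ] V)ˣ) : V →L[ℂ] V) b) = b := by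
      have : ((u : V →L[ℂ] V) * ((u⁻¹ : (V →L[ℂ] V)ˣ) : V →L[ℂ] V)) b = b := by
        rw [Units.mul_inv]; rfl
      exact this
    rw [← ha, hu] at h1
    have h2 : ((algebraMap ℂ (V →L[ℂ] V)) μ - L) a = μ • a - L a := by
      rw [Algebra.algebraMap_eq_smul_one]; rfl
    rw [← h2]; exact h1
  have hapos : 0 < ‖a‖ := by
    refine lt_of_le_of_lt ?_ hb
    positivity
  refine ⟨a, norm_pos_iff.mp hapos, ?_⟩
  have hbn : ‖b‖ ≤ 2 * δ * ‖a‖ := by
    have h1 : ‖b‖ = 2 * δ * (1 / (2 * δ) * ‖b‖) := by field_simp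
    rw [h1]
    exact mul_le_mul_of_nonneg_left hb.le (by positivity)
  have h2 : L a - lam • a = -b - (lam - μ) • a := by
    rw [← hua, sub_smul]; abel
  calc ‖L a - lam • a‖ = ‖-b - (lam - μ) • a‖ := by rw [h2]
    _ ≤ ‖-b‖ + ‖(lam - μ) • a‖ := norm_sub_le _ _
    _ = ‖b‖ + δ * ‖a‖ := by rw [norm_neg, norm_smul]
    _ ≤ 2 * δ * ‖a‖ + δ * ‖a‖ := by linarith
    _ = 3 * δ * ‖a‖ := by ring
    _ ≤ ε * ‖a‖ := by
        apply mul_le_mul_of_nonneg_right _ hapos.le
        linarith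

section Bounded

variable (T : X →L[ℂ] X) (x : X)

/-- Bounded sequences of the form `f (T^n x)`. -/
noncomputable def V : Submodule ℂ (BoundedContinuousFunction ℕ ℂ) where
  carrier := {a | ∃ f : X →L[ℂ] ℂ, ∀ n, a n = f ((T ^ n) x)}
  add_mem' := by
    rintro a b ⟨f, hf⟩ ⟨g, hg⟩
    exact ⟨f + g, fun n => by simp [hf n, hg n]⟩
  zero_mem' := ⟨0, fun n => by simp⟩
  smul_mem' := by
    rintro c a ⟨f, hf⟩
    exact ⟨c • f, fun n => by simp [hf n]⟩

lemma mem_V {a : BoundedContinuousFunction ℕ ℂ} :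
    a ∈ V T x ↔ ∃ f : X →L[ℂ] ℂ, ∀ n, a n = f ((T ^ n) x) := Iff.rfl

/-- The shift of a bounded sequence. -/
noncomputable def sh (a : BoundedContinuousFunction ℕ ℂ) : BoundedContinuousFunction ℕ ℂ :=
  a.compContinuous ⟨Nat.succ, continuous_of_discreteTopology⟩

lemma sh_apply (a : BoundedContinuousFunction ℕ ℂ) (n : ℕ) : sh a n = a (n + 1) := rfl

lemma sh_mem {a : BoundedContinuousFunction ℕ ℂ} (ha : a ∈ V T x) : sh a ∈ V T x := by
  obtain ⟨f, hf⟩ := ha
  refine ⟨f.comp T, fun n => ?_⟩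
  rw [sh_apply, hf, pow_succ']
  rfl

/-- The shift as an operator on `V`. -/
noncomputable def L : V T x →L[ℂ] V T x :=
  LinearMap.mkContinuous
    { toFun := fun a => ⟨sh a.1, sh_mem T x a.2⟩
      map_add' := fun a b => by ext n; rfl
      map_smul' := fun c a => by ext n; rfl } 1 (by
    intro a
    rw [one_mul]
    show ‖sh a.1‖ ≤ ‖a.1‖
    rw [BoundedContinuousFunction.norm_le (norm_nonneg _)]
    intro n
    exact a.1.norm_coe_le_norm (n + 1))

lemma L_apply (a : V T x) (n : ℕ) : (L T x a).1 n = a.1 (n + 1) := rfl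

lemma bounded_case [CompleteSpace X] (C : Set X) (x0 : X) (r : ℝ) (hr : 0 < r)
    (hball : ∀ y, ‖y‖ ≤ r → x0 - y ∈ C)
    (hC : ∀ (f : X →L[ℂ] ℂ) (M : ℝ), (∀ n, ‖f ((T ^ n) x)‖ ≤ M) → ∀ c ∈ C, ‖f c‖ ≤ M)
    (f0 : X →L[ℂ] ℂ) (hf0 : f0 ≠ 0) (M0 : ℝ) (hM0 : ∀ n, ‖f0 ((T ^ n) x)‖ ≤ M0) :
    ∃ (c : ℂ) (φ : X →L[ℂ] ℂ), φ.comp T = c • φ ∧ φ ≠ 0 := by
  have hx0 : x0 ∈ C := by
    have := hball 0 (by rw [norm_zero]; exact hr.le)
    simpa using this
  -- the norm of a functional is controlled by its values on the orbit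
  have hnorm : ∀ (f : X →L[ℂ] ℂ) (M : ℝ), (∀ n, ‖f ((T ^ n) x)‖ ≤ M) → ‖f‖ ≤ 2 * M / r := by
    intro f M hM
    apply ContinuousLinearMap.opNorm_bound_of_ball_bound hr
    intro z hz
    rw [mem_closedBall_zero_iff] at hz
    have h1 := hC f M hM _ hx0
    have h2 := hC f M hM _ (hball z hz)
    have h3 : f z = f x0 - f (x0 - z) := by rw [map_sub]; ring
    rw [h3]
    refine le_trans (norm_sub_le _ _) ?_
    linarith
  -- V is closed
  have hVclosed : IsClosed (V T x : Set (BoundedContinuousFunction ℕ ℂ)) := by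
    apply isClosed_of_closure_subset
    intro a ha
    obtain ⟨ak, hak, hlim⟩ := mem_closure_iff_seq_limit.mp ha
    choose fk hfk using hak
    have hcau : CauchySeq fk := by
      have hca : CauchySeq ak := hlim.cauchySeq
      rw [Metric.cauchySeq_iff] at hca ⊢
      intro ε hε
      obtain ⟨N, hN⟩ := hca (ε * r / 4) (by positivity)
      refine ⟨N, fun m hm n hn => ?_⟩
      have h1 := hN m hm n hn
      rw [dist_eq_norm] at h1 ⊢
      have h2 : ‖fk m - fk n‖ ≤ 2 * ‖ak m - ak n‖ / r := by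
        apply hnorm
        intro k
        have := (ak m - ak n).norm_coe_le_norm k
        rw [BoundedContinuousFunction.coe_sub, Pi.sub_apply, hfk, hfk] at this
        exact this
      refine lt_of_le_of_lt h2 ?_
      rw [div_lt_iff₀ hr]
      nlinarith
    obtain ⟨f, hf⟩ := cauchySeq_tendsto_of_complete hcau
    refine ⟨f, fun n => ?_⟩
    have h1 : Tendsto (fun k => ak k n) atTop (𝓝 (a n)) := by
      have := (continuous_eval_const (F := BoundedContinuousFunction ℕ ℂ) n).tendsto a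
      exact this.comp hlim
    have h2 : Tendsto (fun k => fk k ((T ^ n) x)) atTop (𝓝 (f ((T ^ n) x))) := by
      have := (ContinuousLinearMap.apply ℂ ℂ ((T ^ n) x)).continuous.tendsto f
      exact this.comp hf
    have h3 : (fun k => ak k n) = (fun k => fk k ((T ^ n) x)) := by
      funext k; exact hfk k n
    rw [h3] at h1
    exact tendsto_nhds_unique h1 h2
  have : CompleteSpace (V T x) := hVclosed.completeSpace_coe
  -- V is nontrivial
  have : Nontrivial (V T x) := by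
    let a0 : BoundedContinuousFunction ℕ ℂ :=
      BoundedContinuousFunction.ofNormedAddCommGroup (fun n => f0 ((T ^ n) x))
        continuous_of_discreteTopology M0 hM0
    refine ⟨⟨⟨a0, f0, fun n => rfl⟩, 0, ?_⟩⟩
    intro h
    apply hf0
    have h1 : ∀ n, f0 ((T ^ n) x) = 0 := by
      intro n
      have h2 : a0 = 0 := congrArg Subtype.val h
      have h3 : a0 n = 0 := by rw [h2]; rfl
      exact h3
    have h4 : ‖f0‖ ≤ 2 * 0 / r := hnorm f0 0 (fun n => by rw [h1 n, norm_zero])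
    rw [mul_zero, zero_div] at h4
    exact norm_le_zero_iff.mp h4
  obtain ⟨lam, hlam⟩ := exists_approx_eigen (L T x)
  have happrox : ∀ ε : ℝ, 0 < ε → ∃ h : X →L[ℂ] ℂ, ‖h‖ ≤ 2 / r ∧ 1 / 2 ≤ ‖h x‖ ∧
      ∀ y, ‖h (T y) - lam * h y‖ ≤ 2 * ε / r * ‖y‖ := by
    intro ε hε
    obtain ⟨a, ha0, haε⟩ := hlam ε hε
    have hapos : 0 < ‖a‖ := norm_pos_iff.mpr ha0
    obtain ⟨f, hf⟩ := a.2
    -- an index where a is large
    have hn : ∃ n, ‖a‖ / 2 ≤ ‖a.1 n‖ := by
      by_contra hcon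
      push Not at hcon
      have h1 : ‖a.1‖ ≤ ‖a‖ / 2 := by
        rw [BoundedContinuousFunction.norm_le (by positivity)]
        intro n
        exact (hcon n).le
      have h2 : ‖a.1‖ = ‖a‖ := rfl
      rw [h2] at h1
      linarith
    obtain ⟨n, hn⟩ := hn
    have hcoe : ∀ k, ‖a.1 k‖ ≤ ‖a‖ := fun k => a.1.norm_coe_le_norm k
    let h : X →L[ℂ] ℂ := ((‖a‖⁻¹ : ℝ) : ℂ) • f.comp (T ^ n)
    have hh : ∀ k, h ((T ^ k) x) = ((‖a‖⁻¹ : ℝ) : ℂ) * a.1 (n + k) := by
      intro k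
      rw [hf (n + k), pow_add]
      rfl
    have hhn : ∀ k, ‖h ((T ^ k) x)‖ ≤ 1 := by
      intro k
      rw [hh, norm_mul, Complex.norm_real, Real.norm_of_nonneg (inv_nonneg.mpr hapos.le)]
      rw [inv_mul_le_iff₀ hapos, mul_one]
      exact hcoe _
    refine ⟨h, ?_, ?_, ?_⟩
    · have := hnorm h 1 hhn
      rwa [mul_one] at this
    · have h1 := hh 0
      rw [pow_zero, add_zero] at h1
      have h2 : h x = ((‖a‖⁻¹ : ℝ) : ℂ) * a.1 n := h1
      rw [h2, norm_mul, Complex.norm_real, Real.norm_of_nonneg (inv_nonneg.mpr hapos.le)]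
      rw [← div_eq_inv_mul, le_div_iff₀ hapos]
      linarith
    · have h3 : ‖h.comp T - lam • h‖ ≤ 2 * ε / r := by
        apply hnorm
        intro k
        have h4 : (h.comp T - lam • h) ((T ^ k) x) =
            ((‖a‖⁻¹ : ℝ) : ℂ) * (L T x a - lam • a).1 (n + k) := by
          have h5 : (h.comp T) ((T ^ k) x) = h ((T ^ (k + 1)) x) := by
            rw [pow_succ']; rfl
          have h6 : (L T x a - lam • a).1 (n + k) = a.1 (n + (k + 1)) - lam * a.1 (n + k) := rfl
          have h7 : (h.comp T - lam • h) ((T ^ k) x) =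
            (h.comp T) ((T ^ k) x) - lam * h ((T ^ k) x) := rfl
          rw [h7, h5, hh, hh, h6]
          ring
        rw [h4, norm_mul, Complex.norm_real, Real.norm_of_nonneg (inv_nonneg.mpr hapos.le)]
        rw [inv_mul_le_iff₀ hapos]
        have h8 : ‖(L T x a - lam • a).1 (n + k)‖ ≤ ‖L T x a - lam • a‖ :=
          (L T x a - lam • a).1.norm_coe_le_norm _
        calc ‖(L T x a - lam • a).1 (n + k)‖ ≤ ‖L T x a - lam • a‖ := h8
          _ ≤ ε * ‖a‖ := haε
          _ = ‖a‖ * ε := by ring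
      intro y
      have h9 := (h.comp T - lam • h).le_opNorm y
      refine le_trans h9 (mul_le_mul_of_nonneg_right h3 (norm_nonneg y))
  choose h hK hw hh using fun n : ℕ => happrox (1 / ((n : ℝ) + 1)) (by positivity)
  refine compact_eigen T h (fun _ => lam) (2 / r) (1 / 2) x (by norm_num) hK hw ?_
  intro y
  rw [tendsto_zero_iff_norm_tendsto_zero]
  refine squeeze_zero (fun n => norm_nonneg _) (fun n => hh n y) ?_
  have : Tendsto (fun n : ℕ => 2 * (1 / ((n : ℝ) + 1)) / r * ‖y‖) atTop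
      (𝓝 (2 * 0 / r * ‖y‖)) :=
    ((tendsto_one_div_add_atTop_nhds_zero_nat.const_mul 2).div_const r).mul_const _
  simpa using this

end Bounded

/-- For every complex Banach space X and bounded operator T whose adjoint has no eigenvalues, and every x, if the closed convex hull of the orbit of x has nonempty interior then it is all of X. -/
theorem result :
    ∀ (X : Type) [NormedAddCommGroup X] [NormedSpace ℂ X] [CompleteSpace X]
      (T : X →L[ℂ] X),
      (∀ (c : ℂ) (φ : X →L[ℂ] ℂ), φ.comp T = c • φ → φ = 0) →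
      ∀ x : X,
        (interior (closure (convexHull ℝ (Set.range (fun n : ℕ => (T ^ n) x))))).Nonempty →
        closure (convexHull ℝ (Set.range (fun n : ℕ => (T ^ n) x))) = Set.univ := by
  intro X _ _ _ T hT x hint
  by_contra hne
  suffices hsuff : ∃ (c : ℂ) (φ : X →L[ℂ] ℂ), φ.comp T = c • φ ∧ φ ≠ 0 by
    obtain ⟨c, φ, h1, h2⟩ := hsuff
    exact h2 (hT c φ h1)
  set O : Set X := Set.range (fun n : ℕ => (T ^ n) x) with hO
  set C : Set X := closure (convexHull ℝ O) with hC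
  have hCconv : Convex ℝ C := (convex_convexHull ℝ O).closure
  have hCclosed : IsClosed C := isClosed_closure
  have hOC : O ⊆ C := (subset_convexHull ℝ O).trans subset_closure
  -- closed convex sets containing the orbit contain C
  have hmin : ∀ D : Set X, Convex ℝ D → IsClosed D → O ⊆ D → C ⊆ D := by
    intro D hD1 hD2 hD3
    exact closure_minimal (convexHull_min hD3 hD1) hD2
  -- T maps C to itself
  have hTC : ∀ y ∈ C, T y ∈ C := by
    intro y hy
    have h1 : C ⊆ T ⁻¹' C := by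
      apply hmin
      · exact hCconv.linear_preimage (T.restrictScalars ℝ).toLinearMap
      · exact hCclosed.preimage T.continuous
      · rintro _ ⟨n, rfl⟩
        apply hOC
        refine ⟨n + 1, ?_⟩
        simp only [pow_succ']
        rfl
    exact h1 hy
  -- a ball inside C
  have hball : ∀ z ∈ interior C, ∃ r > 0, ∀ y, ‖y‖ ≤ r → z - y ∈ C := by
    intro z hz
    obtain ⟨ε, hε, hsub⟩ := Metric.isOpen_iff.mp isOpen_interior z hz
    refine ⟨ε / 2, by positivity, fun y hy => ?_⟩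
    apply interior_subset
    apply hsub
    rw [Metric.mem_ball, dist_eq_norm, sub_sub_cancel_left, norm_neg]
    linarith
  by_cases h0 : (0 : X) ∈ interior C
  · -- bounded case
    obtain ⟨r, hr, hrb⟩ := hball 0 h0
    -- a functional bounded on C
    obtain ⟨z, hz⟩ : ∃ z, z ∉ C := by
      by_contra hcon
      push Not at hcon
      exact hne (Set.eq_univ_of_forall hcon)
    obtain ⟨f, u, hfu, huz⟩ := RCLike.geometric_hahn_banach_closed_point (𝕜 := ℂ) hCconv
      hCclosed hz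
    have hbd : ∀ n, ‖f ((T ^ n) x)‖ ≤ u * ((‖x‖ + 1) / r) := by
      intro n
      have h1 : ∀ y, ‖y‖ ≤ r → ((f.comp (T ^ n)) y).re ≤ u := by
        intro y hy
        have h2 : y ∈ C := by
          have := hrb (-y) (by rw [norm_neg]; exact hy)
          simpa using this
        have h3 := pow_mem hTC n y h2
        exact (hfu _ h3).le
      have hs : ‖((r / (‖x‖ + 1) : ℝ) : ℂ) • x‖ ≤ r := by
        rw [norm_smul, Complex.norm_real, Real.norm_of_nonneg (by positivity)]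
        rw [div_mul_eq_mul_div, div_le_iff₀ (by positivity)]
        nlinarith [norm_nonneg x]
      have h4 := norm_le_of_re_le (f.comp (T ^ n)) r u h1 _ hs
      rw [map_smul, norm_smul, Complex.norm_real, Real.norm_of_nonneg (by positivity)] at h4
      have h5 : ‖(f.comp (T ^ n)) x‖ = (r / (‖x‖ + 1) * ‖(f.comp (T ^ n)) x‖) *
          ((‖x‖ + 1) / r) := by
        field_simp
      calc ‖f ((T ^ n) x)‖ = ‖(f.comp (T ^ n)) x‖ := rfl
        _ = (r / (‖x‖ + 1) * ‖(f.comp (T ^ n)) x‖) * ((‖x‖ + 1) / r) := h5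
        _ ≤ u * ((‖x‖ + 1) / r) := mul_le_mul_of_nonneg_right h4 (by positivity)
    refine bounded_case T x C 0 r hr hrb ?_ f ?_ _ hbd
    · intro g M hg c hc
      have h1 : C ⊆ g ⁻¹' Metric.closedBall 0 M := by
        apply hmin
        · exact (convex_closedBall (0 : ℂ) M).linear_preimage
            (g.restrictScalars ℝ).toLinearMap
        · exact Metric.isClosed_closedBall.preimage g.continuous
        · rintro _ ⟨n, rfl⟩
          simp only [Set.mem_preimage, mem_closedBall_zero_iff]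
          exact hg n
      have := h1 hc
      simpa using this
    · rintro rfl
      have h1 := hfu 0 (interior_subset h0)
      simp at h1 huz
      linarith
  · -- unbounded case
    obtain ⟨z, hz⟩ := hint
    obtain ⟨r, hr, hrb⟩ := hball z hz
    obtain ⟨f, hf⟩ := RCLike.geometric_hahn_banach_open_point (𝕜 := ℂ) hCconv.interior
      isOpen_interior h0
    have hfP : InP C (-f) := by
      intro c hc
      have hcl : C ⊆ closure (interior C) := by
        rw [hCconv.closure_interior_eq_closure_of_nonempty_interior ⟨z, hz⟩]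
        exact subset_closure
      have h1 : closure (interior C) ⊆ {y : X | 0 ≤ ((-f) y).re} := by
        apply closure_minimal
        · intro y hy
          have := hf y hy
          simp only [map_zero, RCLike.re_eq_complex_re] at this
          show 0 ≤ (-(f y)).re
          rw [Complex.neg_re]
          linarith
        · have hcont : Continuous (fun y : X => ((-f) y).re) :=
            Complex.continuous_re.comp (-f).continuous
          exact isClosed_le continuous_const hcont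
      exact h1 (hcl hc)
    refine krein_rutman hTC hr hrb hfP ?_
    intro h1
    have h2 := hf z hz
    have h3 : f = 0 := neg_eq_zero.mp h1
    rw [h3] at h2
    simp at h2

end Pool.Agent.S06207
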