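import Pool.Statements.S06502
import Pool.Agent.Helper81.FreeL1.F10

set_option autoImplicit false
open Pool Pool.MP_e5522a_an

namespace Pool.Agent.S06502

/-- The negation of the preceding statement: There is a sequence of finitely supported molecules on ℓ₁ that, with the Lipschitz-free norm (sup over 1-Lipschitz f with f(0)=0), is equivalent to the unit vector basis of c₀; that is, c₀ embeds isomorphically into F(ℓ₁). -/
theorem result :
    ¬ (∃ (μ : ℕ → (lp (fun _ : ℕ => ℝ) 1 →₀ ℝ)) (a b : ℝ), 0 < a ∧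
    ∀ t : ℕ →₀ ℝ,
      (∀ f : lp (fun _ : ℕ => ℝ) 1 → ℝ, LipschitzWith 1 f → f 0 = 0 →
        |t.sum (fun n s => s * (μ n).sum (fun x c => c * f x))| ≤ b * (⨆ n, |t n|)) ∧
      (∃ f : lp (fun _ : ℕ => ℝ) 1 → ℝ, LipschitzWith 1 f ∧ f 0 = 0 ∧
        a * (⨆ n, |t n|) ≤ |t.sum (fun n s => s * (μ n).sum (fun x c => c * f x))|)) := by
  rintro ⟨μ, a, b, ha, h⟩
  exact Pool.Agent.Helper81.FreeL1.no_c0 Pool.Agent.Helper81.FreeL1.coordL1 μ a b ha h

end Pool.Agent.S06502
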