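import Pool.Statements.S06971

set_option autoImplicit false
open Pool Pool.MP_0586ce_co

namespace Pool.Agent.S06971


/-- The tree predicate of the frozen statement. -/
def Tree {n : ℕ} (H : Finset (Finset (Fin n))) : Prop :=
  (Finset.univ ∈ H ∧ (∀ i : Fin n, ({i} : Finset (Fin n)) ∈ H) ∧
        (∅ : Finset (Fin n)) ∉ H ∧
        (∀ A ∈ H, ∀ B ∈ H, A ⊆ B ∨ B ⊆ A ∨ Disjoint A B) ∧
        (∀ A ∈ H, 2 ≤ A.card → ∃ B ∈ H, ∃ C ∈ H,
          B.Nonempty ∧ C.Nonempty ∧ Disjoint B C ∧ B ∪ C = A))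

/-- `S` induces a copy of `D` in `H`. -/
def Copy {k n : ℕ} (D : Finset (Finset (Fin k))) (H : Finset (Finset (Fin n)))
    (S : Finset (Fin n)) : Prop :=
  ∃ e : Fin k → Fin n, Function.Injective e ∧ Set.range e = (↑S : Set (Fin n)) ∧
    ∀ A : Finset (Fin k), A ∈ D ↔ (A.Nonempty ∧ ∃ C ∈ H, C ∩ S = A.image e)

def P8 : Finset (Fin 8) := {0, 1, 2, 3, 4, 5}
def Q8 : Finset (Fin 8) := {6, 7}

/-- The tree `join(C6, C2)`. -/
def D8 : Finset (Finset (Fin 8)) :=
  {Finset.univ, {0, 1, 2, 3, 4, 5}, {0, 1, 2, 3, 4}, {0, 1, 2, 3}, {0, 1, 2}, {0, 1}, {6, 7},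
    {0}, {1}, {2}, {3}, {4}, {5}, {6}, {7}}

lemma D8_tree : Tree D8 := by
  refine ⟨?_, ?_, ?_, ?_, ?_⟩
  · unfold D8; decide +kernel
  · unfold D8; decide +kernel
  · unfold D8; decide +kernel
  · unfold D8; decide +kernel
  · have h : ∀ A ∈ D8, 2 ≤ A.card → ∃ B ∈ D8, ∃ C ∈ D8, B ≠ ∅ ∧ C ≠ ∅ ∧ Disjoint B C ∧ B ∪ C = A := by
      unfold D8; decide +kernel
    intro A hA hc
    obtain ⟨B, hB, C, hC, h1, h2, h3, h4⟩ := h A hA hc
    exact ⟨B, hB, C, hC, Finset.nonempty_iff_ne_empty.2 h1, Finset.nonempty_iff_ne_empty.2 h2,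
      h3, h4⟩

lemma D8_compl : ∀ A ∈ D8, ∀ B ∈ D8, Disjoint A B → A ∪ B = Finset.univ →
    (A = P8 ∧ B = Q8) ∨ (A = Q8 ∧ B = P8) := by
  unfold D8 P8 Q8
  decide +kernel

lemma D8_cat : ∀ A ∈ D8, ∀ B ∈ D8, A ⊆ P8 → B ⊆ P8 → 2 ≤ A.card → 2 ≤ B.card →
    ¬ Disjoint A B := by
  unfold D8 P8
  decide +kernel

lemma P8_mem : P8 ∈ D8 := by unfold D8 P8; decide +kernel
lemma Q8_mem : Q8 ∈ D8 := by unfold D8 Q8; decide +kernel
lemma P8_card : P8.card = 6 := by rfl
lemma Q8_card : Q8.card = 2 := by rfl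
lemma PQ8_disj : Disjoint P8 Q8 := by unfold P8 Q8; decide +kernel

/-- `S` induces a caterpillar-like tree: no two disjoint clusters meet `S` in two or more leaves. -/
def Cat {n : ℕ} (H : Finset (Finset (Fin n))) (S : Finset (Fin n)) : Prop :=
  ∀ C ∈ H, ∀ C' ∈ H, 2 ≤ (C ∩ S).card → 2 ≤ (C' ∩ S).card → ¬ Disjoint C C'

section comb

open Classical

variable {n : ℕ} {H : Finset (Finset (Fin n))}

/-- preimage of a cluster -/
noncomputable def pre {n : ℕ} (e : Fin 8 → Fin n) (C : Finset (Fin n)) : Finset (Fin 8) :=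
  Finset.univ.filter (fun i => e i ∈ C)

lemma image_pre {e : Fin 8 → Fin n} {S : Finset (Fin n)}
    (he : Set.range e = (↑S : Set (Fin n))) (C : Finset (Fin n)) :
    (pre e C).image e = C ∩ S := by
  ext x
  simp only [pre, Finset.mem_image, Finset.mem_filter, Finset.mem_univ, true_and,
    Finset.mem_inter]
  constructor
  · rintro ⟨i, hi, rfl⟩
    refine ⟨hi, ?_⟩
    have : e i ∈ Set.range e := ⟨i, rfl⟩
    rw [he] at this
    exact this
  · rintro ⟨h1, h2⟩
    have : x ∈ Set.range e := by rw [he]; exact h2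
    obtain ⟨i, rfl⟩ := this
    exact ⟨i, h1, rfl⟩

lemma card_pre {e : Fin 8 → Fin n} {S : Finset (Fin n)} (hinj : Function.Injective e)
    (he : Set.range e = (↑S : Set (Fin n))) (C : Finset (Fin n)) :
    (pre e C).card = (C ∩ S).card := by
  rw [← image_pre he C, Finset.card_image_of_injective _ hinj]

lemma pre_mem {e : Fin 8 → Fin n} {S : Finset (Fin n)}
    (he : Set.range e = (↑S : Set (Fin n)))
    (hD : ∀ A : Finset (Fin 8), A ∈ D8 ↔ (A.Nonempty ∧ ∃ C ∈ H, C ∩ S = A.image e))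
    {C : Finset (Fin n)} (hC : C ∈ H) (hne : (C ∩ S).Nonempty) : pre e C ∈ D8 := by
  rw [hD]
  refine ⟨?_, C, hC, (image_pre he C).symm⟩
  rw [← image_pre he C] at hne
  exact Finset.image_nonempty.1 hne

lemma cat_of_pre {e : Fin 8 → Fin n} {S : Finset (Fin n)} (hinj : Function.Injective e)
    (he : Set.range e = (↑S : Set (Fin n)))
    (hD : ∀ A : Finset (Fin 8), A ∈ D8 ↔ (A.Nonempty ∧ ∃ C ∈ H, C ∩ S = A.image e))
    (hlam : ∀ A ∈ H, ∀ B ∈ H, A ⊆ B ∨ B ⊆ A ∨ Disjoint A B)
    {B : Finset (Fin n)} (hB : B ∈ H) (hP : pre e B = P8) : Cat H (B ∩ S) := by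
  -- first the case C, C' ⊆ B
  have key : ∀ C ∈ H, ∀ C' ∈ H, C ⊆ B → C' ⊆ B → 2 ≤ (C ∩ (B ∩ S)).card →
      2 ≤ (C' ∩ (B ∩ S)).card → ¬ Disjoint C C' := by
    intro C hC C' hC' hCB hC'B h2 h2' hdis
    have e1 : C ∩ (B ∩ S) = C ∩ S := by
      rw [← Finset.inter_assoc, Finset.inter_eq_left.2 hCB]
    have e2 : C' ∩ (B ∩ S) = C' ∩ S := by
      rw [← Finset.inter_assoc, Finset.inter_eq_left.2 hC'B]
    rw [e1] at h2
    rw [e2] at h2'
    have m1 : pre e C ∈ D8 := pre_mem he hD hC (Finset.card_pos.1 (by omega))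
    have m2 : pre e C' ∈ D8 := pre_mem he hD hC' (Finset.card_pos.1 (by omega))
    have s1 : pre e C ⊆ P8 := by
      rw [← hP]
      intro i hi
      simp only [pre, Finset.mem_filter, Finset.mem_univ, true_and] at hi ⊢
      exact hCB hi
    have s2 : pre e C' ⊆ P8 := by
      rw [← hP]
      intro i hi
      simp only [pre, Finset.mem_filter, Finset.mem_univ, true_and] at hi ⊢
      exact hC'B hi
    refine D8_cat _ m1 _ m2 s1 s2 (by rw [card_pre hinj he]; exact h2)
      (by rw [card_pre hinj he]; exact h2') ?_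
    rw [Finset.disjoint_left]
    intro i hi hi'
    simp only [pre, Finset.mem_filter, Finset.mem_univ, true_and] at hi hi'
    exact (Finset.disjoint_left.1 hdis) hi hi'
  intro C hC C' hC' h2 h2' hdis
  have ne1 : (C ∩ (B ∩ S)).Nonempty := Finset.card_pos.1 (by omega)
  have ne2 : (C' ∩ (B ∩ S)).Nonempty := Finset.card_pos.1 (by omega)
  obtain ⟨x, hx⟩ := ne1
  obtain ⟨y, hy⟩ := ne2
  simp only [Finset.mem_inter] at hx hy
  rcases hlam C hC B hB with h | h | h
  · rcases hlam C' hC' B hB with h' | h' | h'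
    · exact key C hC C' hC' h h' h2 h2' hdis
    · exact (Finset.disjoint_left.1 hdis) hx.1 (h' hx.2.1)
    · exact (Finset.disjoint_left.1 h') hy.1 hy.2.1
  · exact (Finset.disjoint_left.1 hdis) (h hy.2.1) hy.1
  · exact (Finset.disjoint_left.1 h) hx.1 hx.2.1

/-- Structure of a copy meeting both parts of a split. -/
lemma copy_split (hlam : ∀ A ∈ H, ∀ B ∈ H, A ⊆ B ∨ B ⊆ A ∨ Disjoint A B)
    {B₁ B₂ S : Finset (Fin n)} (hB₁ : B₁ ∈ H) (hB₂ : B₂ ∈ H) (hdis : Disjoint B₁ B₂)
    (hS : S ⊆ B₁ ∪ B₂) (hc : Copy D8 H S) (h1 : (B₁ ∩ S).Nonempty) (h2 : (B₂ ∩ S).Nonempty) :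
    ((B₁ ∩ S).card = 6 ∧ Cat H (B₁ ∩ S) ∧ (B₂ ∩ S).card = 2) ∨
    ((B₂ ∩ S).card = 6 ∧ Cat H (B₂ ∩ S) ∧ (B₁ ∩ S).card = 2) := by
  obtain ⟨e, hinj, he, hD⟩ := hc
  have m1 : pre e B₁ ∈ D8 := pre_mem he hD hB₁ h1
  have m2 : pre e B₂ ∈ D8 := pre_mem he hD hB₂ h2
  have hd : Disjoint (pre e B₁) (pre e B₂) := by
    rw [Finset.disjoint_left]
    intro i hi hi'
    simp only [pre, Finset.mem_filter, Finset.mem_univ, true_and] at hi hi'
    exact (Finset.disjoint_left.1 hdis) hi hi'
  have hu : pre e B₁ ∪ pre e B₂ = Finset.univ := by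
    ext i
    simp only [pre, Finset.mem_union, Finset.mem_filter, Finset.mem_univ, true_and, iff_true]
    have : e i ∈ Set.range e := ⟨i, rfl⟩
    rw [he] at this
    have := hS this
    exact Finset.mem_union.1 this
  rcases D8_compl _ m1 _ m2 hd hu with ⟨hP, hQ⟩ | ⟨hQ, hP⟩
  · left
    refine ⟨?_, cat_of_pre hinj he hD hlam hB₁ hP, ?_⟩
    · rw [← card_pre hinj he, hP, P8_card]
    · rw [← card_pre hinj he, hQ, Q8_card]
  · right
    refine ⟨?_, cat_of_pre hinj he hD hlam hB₂ hP, ?_⟩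
    · rw [← card_pre hinj he, hP, P8_card]
    · rw [← card_pre hinj he, hQ, Q8_card]

/-- Removing two leaves from the caterpillar part of a copy destroys the caterpillar property. -/
lemma copy_noncat (hlam : ∀ A ∈ H, ∀ B ∈ H, A ⊆ B ∨ B ⊆ A ∨ Disjoint A B)
    {S : Finset (Fin n)} (hc : Copy D8 H S) :
    ∃ R ⊆ S, R.card = 6 ∧ ∀ T ⊆ R, T.card = 2 → ¬ Cat H (S \ T) := by
  obtain ⟨e, hinj, he, hD⟩ := hc
  obtain ⟨_, C, hC, hCS⟩ := (hD P8).1 P8_mem
  obtain ⟨_, C', hC', hCS'⟩ := (hD Q8).1 Q8_mem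
  have cC : (C ∩ S).card = 6 := by rw [hCS, Finset.card_image_of_injective _ hinj, P8_card]
  have cC' : (C' ∩ S).card = 2 := by rw [hCS', Finset.card_image_of_injective _ hinj, Q8_card]
  have hdisS : Disjoint (C ∩ S) (C' ∩ S) := by
    rw [hCS, hCS', Finset.disjoint_image hinj]
    exact PQ8_disj
  have hdis : Disjoint C C' := by
    rcases hlam C hC C' hC' with h | h | h
    · exfalso
      have hne : (C ∩ S).Nonempty := Finset.card_pos.1 (by omega)
      obtain ⟨x, hx⟩ := hne
      have hx' := Finset.mem_inter.1 hx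
      exact (Finset.disjoint_left.1 hdisS) hx (Finset.mem_inter.2 ⟨h hx'.1, hx'.2⟩)
    · exfalso
      have hne : (C' ∩ S).Nonempty := Finset.card_pos.1 (by omega)
      obtain ⟨x, hx⟩ := hne
      have hx' := Finset.mem_inter.1 hx
      exact (Finset.disjoint_left.1 hdisS) (Finset.mem_inter.2 ⟨h hx'.1, hx'.2⟩) hx
    · exact h
  refine ⟨C ∩ S, Finset.inter_subset_right, cC, ?_⟩
  intro T hT hT2 hcat
  refine hcat C hC C' hC' ?_ ?_ hdis
  · have : (C ∩ S) \ T ⊆ C ∩ (S \ T) := by
      intro x hx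
      simp only [Finset.mem_sdiff, Finset.mem_inter] at hx ⊢
      tauto
    have h1 := Finset.card_le_card this
    rw [Finset.card_sdiff_of_subset hT, cC, hT2] at h1
    omega
  · have : C' ∩ S ⊆ C' ∩ (S \ T) := by
      intro x hx
      have hx' := Finset.mem_inter.1 hx
      refine Finset.mem_inter.2 ⟨hx'.1, Finset.mem_sdiff.2 ⟨hx'.2, fun hxT => ?_⟩⟩
      exact (Finset.disjoint_left.1 hdisS) (hT hxT) hx
    have h1 := Finset.card_le_card this
    omega

/-- number of copies inside `B` -/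
noncomputable def X (H : Finset (Finset (Fin n))) (B : Finset (Fin n)) : ℕ :=
  ((B.powersetCard 8).filter (fun S => Copy D8 H S)).card

/-- number of caterpillar 6-sets inside `B` -/
noncomputable def P (H : Finset (Finset (Fin n))) (B : Finset (Fin n)) : ℕ :=
  ((B.powersetCard 6).filter (fun S => Cat H S)).card

lemma P_le (B : Finset (Fin n)) : P H B ≤ B.card.choose 6 := by
  unfold P
  calc _ ≤ (B.powersetCard 6).card := Finset.card_filter_le _ _
    _ = _ := Finset.card_powersetCard _ _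

lemma copy_card {S : Finset (Fin n)} (hc : Copy D8 H S) : S.card = 8 := by
  obtain ⟨e, hinj, he, _⟩ := hc
  have : S = Finset.univ.image e := by
    apply Finset.coe_injective
    rw [← he]; simp
  rw [this, Finset.card_image_of_injective _ hinj]; simp

lemma X_split (hlam : ∀ A ∈ H, ∀ B ∈ H, A ⊆ B ∨ B ⊆ A ∨ Disjoint A B)
    {B₁ B₂ : Finset (Fin n)} (hB₁ : B₁ ∈ H) (hB₂ : B₂ ∈ H) (hdis : Disjoint B₁ B₂) :
    X H (B₁ ∪ B₂) ≤ X H B₁ + X H B₂ + P H B₁ * B₂.card.choose 2 + P H B₂ * B₁.card.choose 2 := by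
  set F := ((B₁ ∪ B₂).powersetCard 8).filter (fun S => Copy D8 H S) with hF
  set F1 := (B₁.powersetCard 8).filter (fun S => Copy D8 H S) with hF1
  set F2 := (B₂.powersetCard 8).filter (fun S => Copy D8 H S) with hF2
  set F3 := F.filter (fun S => (B₁ ∩ S).card = 6 ∧ Cat H (B₁ ∩ S) ∧ (B₂ ∩ S).card = 2) with hF3
  set F4 := F.filter (fun S => (B₂ ∩ S).card = 6 ∧ Cat H (B₂ ∩ S) ∧ (B₁ ∩ S).card = 2) with hF4
  have hsub : F ⊆ F1 ∪ F2 ∪ F3 ∪ F4 := by
    intro S hS
    have hS' := hS
    rw [hF, Finset.mem_filter, Finset.mem_powersetCard] at hS'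
    obtain ⟨⟨hSB, hS8⟩, hcopy⟩ := hS'
    by_cases h1 : (B₁ ∩ S).Nonempty
    · by_cases h2 : (B₂ ∩ S).Nonempty
      · rcases copy_split hlam hB₁ hB₂ hdis hSB hcopy h1 h2 with h | h
        · have : S ∈ F3 := by rw [hF3, Finset.mem_filter]; exact ⟨hS, h⟩
          simp [this]
        · have : S ∈ F4 := by rw [hF4, Finset.mem_filter]; exact ⟨hS, h⟩
          simp [this]
      · have : S ∈ F1 := by
          rw [hF1, Finset.mem_filter, Finset.mem_powersetCard]
          refine ⟨⟨fun x hx => ?_, hS8⟩, hcopy⟩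
          rcases Finset.mem_union.1 (hSB hx) with h | h
          · exact h
          · exact absurd ⟨x, Finset.mem_inter.2 ⟨h, hx⟩⟩ h2
        simp [this]
    · have : S ∈ F2 := by
        rw [hF2, Finset.mem_filter, Finset.mem_powersetCard]
        refine ⟨⟨fun x hx => ?_, hS8⟩, hcopy⟩
        rcases Finset.mem_union.1 (hSB hx) with h | h
        · exact absurd ⟨x, Finset.mem_inter.2 ⟨h, hx⟩⟩ h1
        · exact h
      simp [this]
  have hinj : ∀ S ∈ F, ∀ S' ∈ F, B₁ ∩ S = B₁ ∩ S' → B₂ ∩ S = B₂ ∩ S' → S = S' := by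
    intro S hS S' hS' e1 e2
    rw [hF, Finset.mem_filter, Finset.mem_powersetCard] at hS hS'
    have r : ∀ T : Finset (Fin n), T ⊆ B₁ ∪ B₂ → T = (B₁ ∩ T) ∪ (B₂ ∩ T) := by
      intro T hT
      rw [← Finset.union_inter_distrib_right]
      exact (Finset.inter_eq_right.2 hT).symm
    rw [r S hS.1.1, r S' hS'.1.1, e1, e2]
  have hc3 : F3.card ≤ P H B₁ * B₂.card.choose 2 := by
    have : F3.card ≤ (((B₁.powersetCard 6).filter (fun S => Cat H S)) ×ˢ
        (B₂.powersetCard 2)).card := by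
      apply Finset.card_le_card_of_injOn (fun S => (B₁ ∩ S, B₂ ∩ S))
      · intro S hS
        have hS := (Finset.mem_filter.1 (Finset.mem_coe.1 hS)).2
        simp only [Finset.coe_product, Set.mem_prod, Finset.mem_coe, Finset.mem_filter,
          Finset.mem_powersetCard]
        exact ⟨⟨⟨Finset.inter_subset_left, hS.1⟩, hS.2.1⟩, Finset.inter_subset_left, hS.2.2⟩
      · intro S hS S' hS' hEq
        have hS := (Finset.mem_filter.1 (Finset.mem_coe.1 hS)).1
        have hS' := (Finset.mem_filter.1 (Finset.mem_coe.1 hS')).1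
        simp only [Prod.mk.injEq] at hEq
        exact hinj S hS S' hS' hEq.1 hEq.2
    rwa [Finset.card_product, Finset.card_powersetCard] at this
  have hc4 : F4.card ≤ P H B₂ * B₁.card.choose 2 := by
    have : F4.card ≤ (((B₂.powersetCard 6).filter (fun S => Cat H S)) ×ˢ
        (B₁.powersetCard 2)).card := by
      apply Finset.card_le_card_of_injOn (fun S => (B₂ ∩ S, B₁ ∩ S))
      · intro S hS
        have hS := (Finset.mem_filter.1 (Finset.mem_coe.1 hS)).2
        simp only [Finset.coe_product, Set.mem_prod, Finset.mem_coe, Finset.mem_filter,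
          Finset.mem_powersetCard]
        exact ⟨⟨⟨Finset.inter_subset_left, hS.1⟩, hS.2.1⟩, Finset.inter_subset_left, hS.2.2⟩
      · intro S hS S' hS' hEq
        have hS := (Finset.mem_filter.1 (Finset.mem_coe.1 hS)).1
        have hS' := (Finset.mem_filter.1 (Finset.mem_coe.1 hS')).1
        simp only [Prod.mk.injEq] at hEq
        exact hinj S hS S' hS' hEq.2 hEq.1
    rwa [Finset.card_product, Finset.card_powersetCard] at this
  calc X H (B₁ ∪ B₂) = F.card := rfl
    _ ≤ (F1 ∪ F2 ∪ F3 ∪ F4).card := Finset.card_le_card hsub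
    _ ≤ F1.card + F2.card + F3.card + F4.card := by
        refine (Finset.card_union_le _ _).trans ?_
        gcongr
        refine (Finset.card_union_le _ _).trans ?_
        gcongr
        exact Finset.card_union_le _ _
    _ ≤ X H B₁ + X H B₂ + P H B₁ * B₂.card.choose 2 + P H B₂ * B₁.card.choose 2 := by
        gcongr
        · exact le_refl _
        · exact le_refl _

lemma X_P (hlam : ∀ A ∈ H, ∀ B ∈ H, A ⊆ B ∨ B ⊆ A ∨ Disjoint A B) (B : Finset (Fin n)) :
    X H B * 15 ≤ (B.card.choose 6 - P H B) * (B.card - 6).choose 2 := by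
  set F := (B.powersetCard 8).filter (fun S => Copy D8 H S) with hF
  set N := (B.powersetCard 6).filter (fun S => ¬ Cat H S) with hN
  have hNcard : N.card = B.card.choose 6 - P H B := by
    have h1 := Finset.card_filter_add_card_filter_not (s := B.powersetCard 6) (fun S => Cat H S)
    rw [Finset.card_powersetCard] at h1
    unfold P
    rw [← h1]
    simp [hN]
  rw [← hNcard]
  refine Finset.card_mul_le_card_mul (fun S S' => S' ⊆ S) ?_ ?_
  · intro S hS
    rw [Finset.mem_filter, Finset.mem_powersetCard] at hS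
    obtain ⟨⟨hSB, hS8⟩, hcopy⟩ := hS
    obtain ⟨R, hRS, hR6, hR⟩ := copy_noncat hlam hcopy
    have h15 : (R.powersetCard 2).card = 15 := by
      rw [Finset.card_powersetCard, hR6]; rfl
    rw [← h15]
    apply Finset.card_le_card_of_injOn (fun T => S \ T)
    · intro T hT
      rw [Finset.mem_coe, Finset.mem_powersetCard] at hT
      simp only [Finset.coe_bipartiteAbove, Set.mem_sep_iff, Finset.mem_coe]
      refine ⟨?_, Finset.sdiff_subset⟩
      rw [hN, Finset.mem_filter, Finset.mem_powersetCard]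
      refine ⟨⟨Finset.sdiff_subset.trans hSB, ?_⟩, hR T hT.1 hT.2⟩
      rw [Finset.card_sdiff_of_subset (hT.1.trans hRS), hS8, hT.2]
    · intro T hT T' hT' hEq
      rw [Finset.mem_coe, Finset.mem_powersetCard] at hT hT'
      simp only at hEq
      have e1 : S \ (S \ T) = T := by
        rw [Finset.sdiff_sdiff_eq_self (hT.1.trans hRS)]
      have e2 : S \ (S \ T') = T' := by
        rw [Finset.sdiff_sdiff_eq_self (hT'.1.trans hRS)]
      rw [← e1, ← e2, hEq]
  · intro S' hS'
    rw [Finset.mem_filter, Finset.mem_powersetCard] at hS'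
    obtain ⟨⟨hSB, hS6⟩, _⟩ := hS'
    have hc : ((B \ S').powersetCard 2).card = (B.card - 6).choose 2 := by
      rw [Finset.card_powersetCard, Finset.card_sdiff_of_subset hSB, hS6]
    rw [← hc]
    apply Finset.card_le_card_of_injOn (fun S => S \ S')
    · intro S hS
      simp only [Finset.coe_bipartiteBelow, Set.mem_sep_iff, Finset.mem_coe] at hS
      obtain ⟨hS, hsub⟩ := hS
      rw [Finset.mem_filter, Finset.mem_powersetCard] at hS
      rw [Finset.mem_coe, Finset.mem_powersetCard]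
      refine ⟨Finset.sdiff_subset_sdiff hS.1.1 (le_refl _), ?_⟩
      rw [Finset.card_sdiff_of_subset hsub, hS.1.2, hS6]
    · intro S hS T hT hEq
      simp only [Finset.coe_bipartiteBelow, Set.mem_sep_iff, Finset.mem_coe] at hS hT
      simp only at hEq
      rw [← Finset.sdiff_union_of_subset hS.2, ← Finset.sdiff_union_of_subset hT.2, hEq]

end comb

/-- the critical value of `αβ` -/
noncomputable def u0 : ℝ := (3 - Real.sqrt 5) / 4

/-- the inducibility -/
noncomputable def L0 : ℝ := (35 * Real.sqrt 5 - 77) / 4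

lemma sqrt5_sq : Real.sqrt 5 * Real.sqrt 5 = 5 := Real.mul_self_sqrt (by norm_num)

lemma sqrt5_lb : (2.236 : ℝ) < Real.sqrt 5 := by
  rw [Real.lt_sqrt (by norm_num)]; norm_num

lemma sqrt5_ub : Real.sqrt 5 < (2.2361 : ℝ) := by
  rw [Real.sqrt_lt' (by norm_num)]; norm_num

lemma u0_eq : 4 * u0 ^ 2 - 6 * u0 + 1 = 0 := by
  unfold u0
  have := sqrt5_sq
  nlinarith [this]

lemma u0_lb : (0.19 : ℝ) < u0 := by unfold u0; linarith [sqrt5_ub]
lemma u0_ub : u0 < (0.191 : ℝ) := by unfold u0; linarith [sqrt5_lb]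

lemma L0_eq : L0 = 56 * u0 ^ 3 * (1 - u0) := by
  have h := u0_eq
  have h1 : L0 = 7 - 35 * u0 := by unfold L0 u0; ring
  rw [h1]
  -- u0^2 = (6 u0 - 1)/4
  have h2 : u0 ^ 2 = (6 * u0 - 1) / 4 := by linarith
  have h3 : u0 ^ 3 = (16 * u0 - 3) / 8 := by
    have : u0 ^ 3 = u0 ^ 2 * u0 := by ring
    rw [this, h2]
    nlinarith [h2]
  rw [h3]
  nlinarith [h2]

lemma L0_lb : (0.315 : ℝ) < L0 := by unfold L0; linarith [sqrt5_lb]
lemma L0_ub : L0 < (0.316 : ℝ) := by unfold L0; linarith [sqrt5_ub]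

lemma case_mid (a b : ℝ) (ha : 0 ≤ a) (hb : 0 ≤ b) :
    28 * (a ^ 6 * b ^ 2 + a ^ 2 * b ^ 6) ≤ L0 * (a + b) ^ 8 := by
  have hq : a * b ≤ (a + b) ^ 2 / 4 := by nlinarith [sq_nonneg (a - b)]
  have hq0 : 0 ≤ a * b := mul_nonneg ha hb
  have hid : L0 * (a + b) ^ 8 - 28 * (a ^ 6 * b ^ 2 + a ^ 2 * b ^ 6) =
      56 * (a * b - u0 * (a + b) ^ 2) ^ 2 * (-(a * b) ^ 2 + 2 * (1 - u0) * (a * b) * (a + b) ^ 2
        + u0 * (1 - u0) * (a + b) ^ 4) := by
    rw [L0_eq]
    linear_combination (-28 * (a * b) ^ 2 * (a + b) ^ 4) * u0_eq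
  have h1 : 0 ≤ -(a * b) ^ 2 + 2 * (1 - u0) * (a * b) * (a + b) ^ 2
        + u0 * (1 - u0) * (a + b) ^ 4 := by
    have hs : 0 ≤ (a + b) ^ 2 := sq_nonneg _
    have h2 : 0 ≤ u0 * (1 - u0) * (a + b) ^ 4 := by
      have := u0_lb; have := u0_ub
      apply mul_nonneg
      · nlinarith
      · positivity
    have h3 : (a * b) ^ 2 ≤ 2 * (1 - u0) * (a * b) * (a + b) ^ 2 := by
      have h4 : a * b ≤ 2 * (1 - u0) * (a + b) ^ 2 := by
        have := u0_ub
        nlinarith
      calc (a * b) ^ 2 = (a * b) * (a * b) := by ring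
        _ ≤ (a * b) * (2 * (1 - u0) * (a + b) ^ 2) := mul_le_mul_of_nonneg_left h4 hq0
        _ = _ := by ring
    linarith
  have h5 : 0 ≤ 56 * (a * b - u0 * (a + b) ^ 2) ^ 2 * (-(a * b) ^ 2 + 2 * (1 - u0) * (a * b) * (a + b) ^ 2
        + u0 * (1 - u0) * (a + b) ^ 4) := by positivity
  linarith

lemma case_side (a b : ℝ) (ha : 0 ≤ a) (hb : 0 ≤ b) (hab : 15 * b ^ 2 ≤ a ^ 2) :
    L0 * (a ^ 8 - 15 * a ^ 6 * b ^ 2) + 28 * (a ^ 6 * b ^ 2 + a ^ 2 * b ^ 6)
      ≤ L0 * (a + b) ^ 8 := by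
  rcases eq_or_lt_of_le ha with ha0 | ha0
  · have hb0 : b = 0 := by
      rw [← ha0] at hab
      nlinarith [sq_nonneg b]
    rw [← ha0, hb0]; norm_num
  · obtain ⟨t, rfl⟩ : ∃ t : ℝ, b = t * a := ⟨b / a, by field_simp⟩
    have ht0 : 0 ≤ t := by
      by_contra h
      push Not at h
      nlinarith
    have ht : 15 * t ^ 2 ≤ 1 := by
      have h2 : 0 < a ^ 2 := by positivity
      have : 15 * t ^ 2 * a ^ 2 ≤ 1 * a ^ 2 := by nlinarith
      exact le_of_mul_le_mul_right this h2
    have hpoly : 28 * (t ^ 2 + t ^ 6) ≤ 0.315 * (8 * t + 43 * t ^ 2 + 56 * t ^ 3 + 70 * t ^ 4) := by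
      have e1 : 0 ≤ t ^ 3 * (1 - 15 * t ^ 2) := mul_nonneg (by positivity) (by linarith)
      have e2 : 0 ≤ (t - 1/4) ^ 2 * (t + 1/2) := by positivity
      -- t^3 ≥ 3/16 t - 1/32
      have e3 : 3/16 * t - 1/32 ≤ t ^ 3 := by nlinarith [e2]
      have e4 : 0 ≤ 2.52 - 14.455 * t + 17.64 * t ^ 2 + 22.05 * t ^ 3 - 28 * t ^ 5 := by
        nlinarith [e1, e3, sq_nonneg (t - 0.3034)]
      nlinarith [mul_nonneg ht0 e4]
    have hexp : (1 + t) ^ 8 - 1 + 15 * t ^ 2 ≥ 8 * t + 43 * t ^ 2 + 56 * t ^ 3 + 70 * t ^ 4 := by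
      have : (1 + t) ^ 8 - 1 + 15 * t ^ 2 = 8 * t + 43 * t ^ 2 + 56 * t ^ 3 + 70 * t ^ 4
        + 56 * t ^ 5 + 28 * t ^ 6 + 8 * t ^ 7 + t ^ 8 := by ring
      rw [this]
      have : 0 ≤ 56 * t ^ 5 + 28 * t ^ 6 + 8 * t ^ 7 + t ^ 8 := by positivity
      linarith
    have hpos : 0 ≤ 8 * t + 43 * t ^ 2 + 56 * t ^ 3 + 70 * t ^ 4 := by positivity
    have hmain : 28 * (t ^ 2 + t ^ 6) ≤ L0 * ((1 + t) ^ 8 - 1 + 15 * t ^ 2) := by
      calc 28 * (t ^ 2 + t ^ 6) ≤ 0.315 * (8 * t + 43 * t ^ 2 + 56 * t ^ 3 + 70 * t ^ 4) := hpoly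
        _ ≤ L0 * (8 * t + 43 * t ^ 2 + 56 * t ^ 3 + 70 * t ^ 4) :=
            mul_le_mul_of_nonneg_right L0_lb.le hpos
        _ ≤ L0 * ((1 + t) ^ 8 - 1 + 15 * t ^ 2) :=
            mul_le_mul_of_nonneg_left hexp (by linarith [L0_lb])
    have ha8 : 0 ≤ a ^ 8 := by positivity
    have := mul_le_mul_of_nonneg_right hmain ha8
    nlinarith [this]

lemma key_ineq (a b x₁ x₂ c₁ c₂ : ℝ) (ha : 0 ≤ a) (hb : 0 ≤ b) (hx₁ : 0 ≤ x₁) (hx₁' : x₁ ≤ L0)
    (hx₂ : 0 ≤ x₂) (hx₂' : x₂ ≤ L0) (hc₁ : c₁ ≤ 1 - 15 / 28 * x₁) (hc₂ : c₂ ≤ 1 - 15 / 28 * x₂) :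
    a ^ 8 * x₁ + b ^ 8 * x₂ + 28 * (a ^ 6 * b ^ 2 * c₁ + a ^ 2 * b ^ 6 * c₂)
      ≤ L0 * (a + b) ^ 8 := by
  have e1 : a ^ 6 * b ^ 2 * c₁ ≤ a ^ 6 * b ^ 2 * (1 - 15 / 28 * x₁) :=
    mul_le_mul_of_nonneg_left hc₁ (by positivity)
  have e2 : a ^ 2 * b ^ 6 * c₂ ≤ a ^ 2 * b ^ 6 * (1 - 15 / 28 * x₂) :=
    mul_le_mul_of_nonneg_left hc₂ (by positivity)
  have e3 : a ^ 8 * x₁ + b ^ 8 * x₂ + 28 * (a ^ 6 * b ^ 2 * c₁ + a ^ 2 * b ^ 6 * c₂) ≤
      x₁ * (a ^ 6 * (a ^ 2 - 15 * b ^ 2)) + x₂ * (b ^ 6 * (b ^ 2 - 15 * a ^ 2))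
        + 28 * (a ^ 6 * b ^ 2 + a ^ 2 * b ^ 6) := by nlinarith [e1, e2]
  refine e3.trans ?_
  by_cases h1 : 15 * b ^ 2 ≤ a ^ 2
  · have k1 : x₁ * (a ^ 6 * (a ^ 2 - 15 * b ^ 2)) ≤ L0 * (a ^ 6 * (a ^ 2 - 15 * b ^ 2)) :=
      mul_le_mul_of_nonneg_right hx₁' (mul_nonneg (by positivity) (by linarith))
    have k2 : x₂ * (b ^ 6 * (b ^ 2 - 15 * a ^ 2)) ≤ 0 := by
      apply mul_nonpos_of_nonneg_of_nonpos hx₂
      apply mul_nonpos_of_nonneg_of_nonpos (by positivity)
      nlinarith [sq_nonneg a, sq_nonneg b]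
    have := case_side a b ha hb h1
    nlinarith [this]
  · push Not at h1
    have k1 : x₁ * (a ^ 6 * (a ^ 2 - 15 * b ^ 2)) ≤ 0 := by
      apply mul_nonpos_of_nonneg_of_nonpos hx₁
      apply mul_nonpos_of_nonneg_of_nonpos (by positivity)
      linarith
    by_cases h2 : 15 * a ^ 2 ≤ b ^ 2
    · have k2 : x₂ * (b ^ 6 * (b ^ 2 - 15 * a ^ 2)) ≤ L0 * (b ^ 6 * (b ^ 2 - 15 * a ^ 2)) :=
        mul_le_mul_of_nonneg_right hx₂' (mul_nonneg (by positivity) (by linarith))
      have := case_side b a hb ha h2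
      have e : L0 * (b + a) ^ 8 = L0 * (a + b) ^ 8 := by ring
      nlinarith [this]
    · push Not at h2
      have k2 : x₂ * (b ^ 6 * (b ^ 2 - 15 * a ^ 2)) ≤ 0 := by
        apply mul_nonpos_of_nonneg_of_nonpos hx₂
        apply mul_nonpos_of_nonneg_of_nonpos (by positivity)
        linarith
      have := case_mid a b ha hb
      linarith

lemma L0_irrational : Irrational L0 := by
  have h : Irrational (Real.sqrt 5) := by
    have := Nat.Prime.irrational_sqrt (p := 5) (by norm_num)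
    simpa using this
  intro ⟨q, hq⟩
  apply h
  refine ⟨(4 * q + 77) / 35, ?_⟩
  unfold L0 at hq
  push_cast
  rw [hq]
  ring


section upper

open Classical

variable {n : ℕ} {H : Finset (Finset (Fin n))}

lemma choose6_le (a : ℕ) : (a.choose 6 : ℝ) ≤ (a : ℝ) ^ 6 / 720 := by
  have := Nat.choose_le_pow_div (α := ℝ) 6 a
  simpa [Nat.factorial] using this

lemma choose2_le (a : ℕ) : (a.choose 2 : ℝ) ≤ (a : ℝ) ^ 2 / 2 := by
  have := Nat.choose_le_pow_div (α := ℝ) 2 a
  simpa [Nat.factorial] using this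

lemma X_le (hH : Tree H) (m : ℕ) : ∀ B ∈ H, B.card = m →
    (40320 : ℝ) * (X H B : ℝ) ≤ L0 * (B.card : ℝ) ^ 8 := by
  obtain ⟨_, _, hemp, hlam, hsplit⟩ := hH
  induction m using Nat.strong_induction_on with
  | _ m ih =>
    intro B hB hBm
    by_cases h2 : 2 ≤ B.card
    · obtain ⟨B₁, hB₁, B₂, hB₂, hn1, hn2, hdis, rfl⟩ := hsplit B hB h2
      have hcard : (B₁ ∪ B₂).card = B₁.card + B₂.card := Finset.card_union_of_disjoint hdis
      have p1 : 0 < B₁.card := Finset.card_pos.2 hn1
      have p2 : 0 < B₂.card := Finset.card_pos.2 hn2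
      have i1 := ih B₁.card (by omega) B₁ hB₁ rfl
      have i2 := ih B₂.card (by omega) B₂ hB₂ rfl
      have hX := X_split hlam hB₁ hB₂ hdis
      have r1 := X_P hlam B₁
      have r2 := X_P hlam B₂
      -- real versions
      have rel : ∀ B : Finset (Fin n), 0 < B.card →
          15 * ((40320 : ℝ) * X H B) ≤ 28 * (B.card : ℝ) ^ 8
            - 28 * 720 * (P H B : ℝ) * (B.card : ℝ) ^ 2 := by
        intro B hBpos
        have h := X_P hlam B
        have hP := P_le (H := H) B
        have h' : (X H B : ℝ) * 15 ≤ ((B.card.choose 6 : ℝ) - P H B) * ((B.card - 6).choose 2 : ℝ) := by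
          have := (Nat.cast_le (α := ℝ)).2 h
          push_cast [Nat.cast_sub hP] at this
          exact this
        have h6 := choose6_le B.card
        have h2' : (((B.card - 6).choose 2 : ℕ) : ℝ) ≤ (B.card : ℝ) ^ 2 / 2 := by
          refine le_trans ?_ (choose2_le B.card)
          exact_mod_cast Nat.choose_le_choose 2 (Nat.sub_le _ _)
        have hd : 0 ≤ ((B.card.choose 6 : ℝ) - P H B) := by
          have := (Nat.cast_le (α := ℝ)).2 hP
          linarith
        have h3 : (X H B : ℝ) * 15 ≤ ((B.card : ℝ) ^ 6 / 720 - P H B) * ((B.card : ℝ) ^ 2 / 2) := by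
          refine h'.trans ?_
          refine mul_le_mul (by linarith) h2' (by positivity) (by linarith)
        nlinarith [h3]
      set a : ℝ := (B₁.card : ℝ) with ha
      set b : ℝ := (B₂.card : ℝ) with hb
      have hapos : 0 < a := by rw [ha]; exact_mod_cast p1
      have hbpos : 0 < b := by rw [hb]; exact_mod_cast p2
      have rel1 := rel B₁ p1
      have rel2 := rel B₂ p2
      rw [← ha] at rel1
      rw [← hb] at rel2
      have key := key_ineq a b (40320 * X H B₁ / a ^ 8) (40320 * X H B₂ / b ^ 8)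
        (720 * P H B₁ / a ^ 6) (720 * P H B₂ / b ^ 6) hapos.le hbpos.le (by positivity)
        (by rw [div_le_iff₀ (by positivity)]; exact i1) (by positivity)
        (by rw [div_le_iff₀ (by positivity)]; exact i2)
        (by
          rw [div_le_iff₀ (by positivity)]
          have : (1 - 15 / 28 * (40320 * (X H B₁ : ℝ) / a ^ 8)) * a ^ 6 =
            (28 * a ^ 8 - 15 * (40320 * X H B₁)) / (28 * a ^ 2) := by
            field_simp
          rw [this, le_div_iff₀ (by positivity)]
          nlinarith [rel1])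
        (by
          rw [div_le_iff₀ (by positivity)]
          have : (1 - 15 / 28 * (40320 * (X H B₂ : ℝ) / b ^ 8)) * b ^ 6 =
            (28 * b ^ 8 - 15 * (40320 * X H B₂)) / (28 * b ^ 2) := by
            field_simp
          rw [this, le_div_iff₀ (by positivity)]
          nlinarith [rel2])
      have e : a ^ 8 * (40320 * X H B₁ / a ^ 8) + b ^ 8 * (40320 * X H B₂ / b ^ 8)
          + 28 * (a ^ 6 * b ^ 2 * (720 * P H B₁ / a ^ 6) + a ^ 2 * b ^ 6 * (720 * P H B₂ / b ^ 6))
          = 40320 * X H B₁ + 40320 * X H B₂ + 20160 * (P H B₁ * b ^ 2) + 20160 * (P H B₂ * a ^ 2) := by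
        field_simp
        ring
      rw [e] at key
      have hXr : (X H (B₁ ∪ B₂) : ℝ) ≤ X H B₁ + X H B₂ + P H B₁ * (B₂.card.choose 2 : ℝ)
          + P H B₂ * (B₁.card.choose 2 : ℝ) := by exact_mod_cast hX
      have c1 : (P H B₁ : ℝ) * (B₂.card.choose 2 : ℝ) ≤ P H B₁ * (b ^ 2 / 2) :=
        mul_le_mul_of_nonneg_left (choose2_le _) (by positivity)
      have c2 : (P H B₂ : ℝ) * (B₁.card.choose 2 : ℝ) ≤ P H B₂ * (a ^ 2 / 2) :=
        mul_le_mul_of_nonneg_left (choose2_le _) (by positivity)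
      rw [hcard]
      push_cast
      rw [← ha, ← hb]
      nlinarith [key, hXr, c1, c2]
    · have hX0 : X H B = 0 := by
        unfold X
        rw [Finset.card_eq_zero, Finset.powersetCard_eq_empty.2 (by omega)]
        rfl
      rw [hX0]
      have := L0_lb
      simp only [Nat.cast_zero, mul_zero]
      positivity

lemma X_univ (S : Finset (Fin n)) :
    Set.ncard {S : Finset (Fin n) | Copy D8 H S} = X H Finset.univ := by
  unfold X
  rw [← Set.ncard_coe_finset]
  congr 1
  ext S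
  simp only [Set.mem_setOf_eq, Finset.coe_filter, Finset.mem_powersetCard, Finset.subset_univ,
    true_and]
  exact ⟨fun h => ⟨copy_card h, h⟩, fun h => h.2⟩

lemma count_le (hH : Tree H) :
    (40320 : ℝ) * (Set.ncard {S : Finset (Fin n) | Copy D8 H S} : ℝ) ≤ L0 * (n : ℝ) ^ 8 := by
  rw [X_univ ∅]
  have := X_le hH n Finset.univ hH.1 (by simp)
  simpa using this

end upper

section lower

open Classical

variable {n : ℕ}

/-- clusters of the join of two caterpillars with leaf sets `{i < m}` and `{m ≤ i}` -/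
def InH (m : ℕ) (A : Finset (Fin n)) : Prop :=
  A = Finset.univ ∨ (∃ i, A = {i}) ∨
  (∃ j : Fin n, j.val < m ∧ A = Finset.univ.filter (fun i => i ≤ j)) ∨
  (∃ j : Fin n, m ≤ j.val ∧ A = Finset.univ.filter (fun i => m ≤ i.val ∧ i ≤ j))

noncomputable def HH (n m : ℕ) : Finset (Finset (Fin n)) := Finset.univ.filter (InH m)

lemma mem_HH {m : ℕ} {A : Finset (Fin n)} : A ∈ HH n m ↔ InH m A := by simp [HH]

lemma tree_HH {m : ℕ} (hm : 1 ≤ m) (hmn : m < n) : Tree (HH n m) := by
  refine ⟨?_, ?_, ?_, ?_, ?_⟩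
  · rw [mem_HH]; exact Or.inl rfl
  · intro i; rw [mem_HH]; exact Or.inr (Or.inl ⟨i, rfl⟩)
  · rw [mem_HH]
    rintro (h | ⟨i, h⟩ | ⟨j, hj, h⟩ | ⟨j, hj, h⟩)
    · have : (⟨0, by omega⟩ : Fin n) ∈ (∅ : Finset (Fin n)) := by rw [h]; simp
      simp at this
    · have : i ∈ (∅ : Finset (Fin n)) := by rw [h]; simp
      simp at this
    · have : j ∈ (∅ : Finset (Fin n)) := by rw [h]; simp
      simp at this
    · have : j ∈ (∅ : Finset (Fin n)) := by rw [h]; simp [hj]
      simp at this
  · -- laminar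
    have hsing : ∀ (i : Fin n) (B : Finset (Fin n)),
        ({i} : Finset (Fin n)) ⊆ B ∨ B ⊆ {i} ∨ Disjoint {i} B := by
      intro i B
      by_cases h : i ∈ B
      · left; simpa using h
      · right; right; simpa using h
    intro A hA B hB
    rw [mem_HH] at hA hB
    rcases hA with rfl | ⟨i, rfl⟩ | ⟨j, hj, rfl⟩ | ⟨j, hj, rfl⟩
    · right; left; exact Finset.subset_univ _
    · exact hsing i B
    · rcases hB with rfl | ⟨i, rfl⟩ | ⟨j', hj', rfl⟩ | ⟨j', hj', rfl⟩
      · left; exact Finset.subset_univ _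
      · rcases hsing i (Finset.univ.filter (fun i => i ≤ j)) with h | h | h
        · exact Or.inr (Or.inl h)
        · exact Or.inl h
        · exact Or.inr (Or.inr h.symm)
      · rcases le_total j j' with h | h
        · left
          intro x hx
          simp only [Finset.mem_filter, Finset.mem_univ, true_and] at hx ⊢
          exact hx.trans h
        · right; left
          intro x hx
          simp only [Finset.mem_filter, Finset.mem_univ, true_and] at hx ⊢
          exact hx.trans h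
      · right; right
        rw [Finset.disjoint_left]
        intro x hx hx'
        simp only [Finset.mem_filter, Finset.mem_univ, true_and] at hx hx'
        have h1 : x.val ≤ j.val := hx
        omega
    · rcases hB with rfl | ⟨i, rfl⟩ | ⟨j', hj', rfl⟩ | ⟨j', hj', rfl⟩
      · left; exact Finset.subset_univ _
      · rcases hsing i (Finset.univ.filter (fun i => m ≤ i.val ∧ i ≤ j)) with h | h | h
        · exact Or.inr (Or.inl h)
        · exact Or.inl h
        · exact Or.inr (Or.inr h.symm)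
      · right; right
        rw [Finset.disjoint_left]
        intro x hx hx'
        simp only [Finset.mem_filter, Finset.mem_univ, true_and] at hx hx'
        have h1 : x.val ≤ j'.val := hx'
        omega
      · rcases le_total j j' with h | h
        · left
          intro x hx
          simp only [Finset.mem_filter, Finset.mem_univ, true_and] at hx ⊢
          exact ⟨hx.1, hx.2.trans h⟩
        · right; left
          intro x hx
          simp only [Finset.mem_filter, Finset.mem_univ, true_and] at hx ⊢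
          exact ⟨hx.1, hx.2.trans h⟩
  · -- splitting
    intro A hA h2
    rw [mem_HH] at hA
    rcases hA with rfl | ⟨i, rfl⟩ | ⟨j, hj, rfl⟩ | ⟨j, hj, rfl⟩
    · refine ⟨Finset.univ.filter (fun i : Fin n => i ≤ ⟨m - 1, by omega⟩), ?_,
        Finset.univ.filter (fun i : Fin n => m ≤ i.val ∧ i ≤ ⟨n - 1, by omega⟩), ?_, ?_, ?_, ?_, ?_⟩
      · rw [mem_HH]
        exact Or.inr (Or.inr (Or.inl ⟨⟨m - 1, by omega⟩, by simp; omega, rfl⟩))
      · rw [mem_HH]
        exact Or.inr (Or.inr (Or.inr ⟨⟨n - 1, by omega⟩, by simp; omega, rfl⟩))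
      · exact ⟨⟨0, by omega⟩, by simp [Fin.le_def]⟩
      · exact ⟨⟨n - 1, by omega⟩, by simp [Fin.le_def]; omega⟩
      · rw [Finset.disjoint_left]
        intro x hx hx'
        simp only [Finset.mem_filter, Finset.mem_univ, true_and, Fin.le_def] at hx hx'
        omega
      · ext x
        have := x.2
        simp only [Finset.mem_union, Finset.mem_filter, Finset.mem_univ, true_and, Fin.le_def,
          iff_true]
        omega
    · simp at h2
    · have hj1 : 1 ≤ j.val := by
        by_contra h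
        have : (Finset.univ.filter (fun i : Fin n => i ≤ j)) ⊆ {j} := by
          intro x hx
          simp only [Finset.mem_filter, Finset.mem_univ, true_and, Fin.le_def,
            Finset.mem_singleton] at hx ⊢
          apply Fin.ext; omega
        have := Finset.card_le_card this
        simp only [Finset.card_singleton] at this
        omega
      refine ⟨Finset.univ.filter (fun i : Fin n => i ≤ ⟨j.val - 1, by omega⟩), ?_, {j}, ?_, ?_, ?_,
        ?_, ?_⟩
      · rw [mem_HH]
        exact Or.inr (Or.inr (Or.inl ⟨⟨j.val - 1, by omega⟩, by simp; omega, rfl⟩))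
      · rw [mem_HH]; exact Or.inr (Or.inl ⟨j, rfl⟩)
      · exact ⟨⟨0, by omega⟩, by simp [Fin.le_def]⟩
      · exact Finset.singleton_nonempty _
      · rw [Finset.disjoint_left]
        intro x hx hx'
        simp only [Finset.mem_filter, Finset.mem_univ, true_and, Fin.le_def,
          Finset.mem_singleton] at hx hx'
        rw [hx'] at hx
        omega
      · ext x
        simp only [Finset.mem_union, Finset.mem_filter, Finset.mem_univ, true_and, Fin.le_def,
          Finset.mem_singleton, Fin.ext_iff]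
        omega
    · have hj1 : m + 1 ≤ j.val := by
        by_contra h
        have : (Finset.univ.filter (fun i : Fin n => m ≤ i.val ∧ i ≤ j)) ⊆ {j} := by
          intro x hx
          simp only [Finset.mem_filter, Finset.mem_univ, true_and, Fin.le_def,
            Finset.mem_singleton] at hx ⊢
          apply Fin.ext; omega
        have := Finset.card_le_card this
        simp only [Finset.card_singleton] at this
        omega
      refine ⟨Finset.univ.filter (fun i : Fin n => m ≤ i.val ∧ i ≤ ⟨j.val - 1, by omega⟩), ?_, {j},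
        ?_, ?_, ?_, ?_, ?_⟩
      · rw [mem_HH]
        exact Or.inr (Or.inr (Or.inr ⟨⟨j.val - 1, by omega⟩, by simp; omega, rfl⟩))
      · rw [mem_HH]; exact Or.inr (Or.inl ⟨j, rfl⟩)
      · exact ⟨⟨m, by omega⟩, by simp [Fin.le_def]; omega⟩
      · exact Finset.singleton_nonempty _
      · rw [Finset.disjoint_left]
        intro x hx hx'
        simp only [Finset.mem_filter, Finset.mem_univ, true_and, Fin.le_def,
          Finset.mem_singleton] at hx hx'
        rw [hx'] at hx
        omega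
      · ext x
        simp only [Finset.mem_union, Finset.mem_filter, Finset.mem_univ, true_and, Fin.le_def,
          Finset.mem_singleton, Fin.ext_iff]
        omega

lemma D8_lower : ∀ A : Finset (Fin 8), A ≠ ∅ → 6 ∉ A → (∀ i ∈ A, ∀ i' : Fin 8, i' ≤ i → i' ∈ A) →
    A ∈ D8 := by
  unfold D8
  decide +kernel

lemma D8_upper : ∀ A : Finset (Fin 8), A ≠ ∅ → A ⊆ Q8 → (7 ∈ A → 6 ∈ A) → A ∈ D8 := by
  unfold D8 Q8
  decide +kernel

lemma D8_cases : ∀ A ∈ D8, A = Finset.univ ∨ (∃ i, A = {i}) ∨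
    (∃ j : Fin 8, j ≤ 5 ∧ A = Finset.univ.filter (fun i => i ≤ j)) ∨ A = Q8 := by
  unfold D8 Q8
  decide +kernel

lemma le5_or (i : Fin 8) : i ≤ 5 ∨ i = 6 ∨ i = 7 := by
  revert i; decide

lemma copy_HH {m : ℕ} (e : Fin 8 → Fin n) (hinj : Function.Injective e)
    (hmono : ∀ i i' : Fin 8, i ≤ i' → i' ≤ 5 → e i ≤ e i') (h67 : e 6 ≤ e 7)
    (hpart : ((∀ i : Fin 8, i ≤ 5 → (e i).val < m) ∧ m ≤ (e 6).val) ∨
      ((∀ i : Fin 8, i ≤ 5 → m ≤ (e i).val) ∧ (e 7).val < m)) :
    Copy D8 (HH n m) (Finset.univ.image e) := by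
  have hrange : Set.range e = (↑(Finset.univ.image e) : Set (Fin n)) := by simp
  refine ⟨e, hinj, hrange, fun A => ?_⟩
  have hpre : ∀ C : Finset (Fin n), C ∩ (Finset.univ.image e) = (pre e C).image e :=
    fun C => (image_pre hrange C).symm
  have h67v : (e 6).val ≤ (e 7).val := h67
  constructor
  · intro hA
    have hne : A.Nonempty := by
      rw [Finset.nonempty_iff_ne_empty]
      rintro rfl
      exact D8_tree.2.2.1 hA
    refine ⟨hne, ?_⟩
    suffices h : ∃ C ∈ HH n m, pre e C = A by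
      obtain ⟨C, hC, hCA⟩ := h
      exact ⟨C, hC, by rw [hpre, hCA]⟩
    rcases D8_cases A hA with rfl | ⟨i, rfl⟩ | ⟨j, hj, rfl⟩ | rfl
    · exact ⟨Finset.univ, by rw [mem_HH]; exact Or.inl rfl, by simp [pre]⟩
    · refine ⟨{e i}, by rw [mem_HH]; exact Or.inr (Or.inl ⟨_, rfl⟩), ?_⟩
      ext x
      simp only [pre, Finset.mem_filter, Finset.mem_univ, true_and, Finset.mem_singleton]
      exact ⟨fun h => hinj h, fun h => by rw [h]⟩
    · rcases hpart with ⟨h1, h2⟩ | ⟨h1, h2⟩
      · refine ⟨Finset.univ.filter (fun i => i ≤ e j), ?_, ?_⟩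
        · rw [mem_HH]; exact Or.inr (Or.inr (Or.inl ⟨e j, h1 j hj, rfl⟩))
        · ext x
          simp only [pre, Finset.mem_filter, Finset.mem_univ, true_and]
          constructor
          · intro h
            by_contra hx
            push Not at hx
            rcases le5_or x with h5 | rfl | rfl
            · have := hmono j x hx.le h5
              exact hx.ne (hinj (le_antisymm this h))
            · have hh : (e 6).val ≤ (e j).val := h
              have := h1 j hj
              omega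
            · have hh : (e 7).val ≤ (e j).val := h
              have := h1 j hj
              omega
          · intro h
            exact hmono x j h hj
      · refine ⟨Finset.univ.filter (fun i => m ≤ i.val ∧ i ≤ e j), ?_, ?_⟩
        · rw [mem_HH]; exact Or.inr (Or.inr (Or.inr ⟨e j, h1 j hj, rfl⟩))
        · ext x
          simp only [pre, Finset.mem_filter, Finset.mem_univ, true_and]
          constructor
          · rintro ⟨h0, h⟩
            by_contra hx
            push Not at hx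
            rcases le5_or x with h5 | rfl | rfl
            · have := hmono j x hx.le h5
              exact hx.ne (hinj (le_antisymm this h))
            · omega
            · omega
          · intro h
            exact ⟨h1 x (h.trans hj), hmono x j h hj⟩
    · rcases hpart with ⟨h1, h2⟩ | ⟨h1, h2⟩
      · refine ⟨Finset.univ.filter (fun i => m ≤ i.val ∧ i ≤ e 7), ?_, ?_⟩
        · rw [mem_HH]; exact Or.inr (Or.inr (Or.inr ⟨e 7, by omega, rfl⟩))
        · ext x
          simp only [pre, Finset.mem_filter, Finset.mem_univ, true_and, Q8, Finset.mem_insert,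
            Finset.mem_singleton]
          constructor
          · rintro ⟨h0, h⟩
            rcases le5_or x with h5 | rfl | rfl
            · have := h1 x h5; omega
            · simp
            · simp
          · rintro (rfl | rfl)
            · exact ⟨h2, h67⟩
            · exact ⟨by omega, le_refl _⟩
      · refine ⟨Finset.univ.filter (fun i => i ≤ e 7), ?_, ?_⟩
        · rw [mem_HH]; exact Or.inr (Or.inr (Or.inl ⟨e 7, h2, rfl⟩))
        · ext x
          simp only [pre, Finset.mem_filter, Finset.mem_univ, true_and, Q8, Finset.mem_insert,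
            Finset.mem_singleton]
          constructor
          · intro h
            rcases le5_or x with h5 | rfl | rfl
            · have := h1 x h5
              have hh : (e x).val ≤ (e 7).val := h
              omega
            · simp
            · simp
          · rintro (rfl | rfl)
            · exact h67
            · exact le_refl _
  · rintro ⟨hne, C, hC, hCA⟩
    have hA : A = pre e C := by
      rw [hpre] at hCA
      exact (Finset.image_injective hinj hCA).symm
    have hne' : A ≠ ∅ := Finset.nonempty_iff_ne_empty.1 hne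
    rw [mem_HH] at hC
    rcases hC with rfl | ⟨x, rfl⟩ | ⟨j, hj, rfl⟩ | ⟨j, hj, rfl⟩
    · have : A = Finset.univ := by rw [hA]; simp [pre]
      rw [this]; exact D8_tree.1
    · obtain ⟨i, hi⟩ := hne
      have hi' := hi
      rw [hA] at hi'
      simp only [pre, Finset.mem_filter, Finset.mem_univ, true_and, Finset.mem_singleton] at hi'
      have : A = {i} := by
        rw [hA]
        ext y
        simp only [pre, Finset.mem_filter, Finset.mem_univ, true_and, Finset.mem_singleton]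
        constructor
        · intro h; exact hinj (h.trans hi'.symm)
        · rintro rfl; exact hi'
      rw [this]; exact D8_tree.2.1 i
    · rcases hpart with ⟨h1, h2⟩ | ⟨h1, h2⟩
      · apply D8_lower A hne'
        · rw [hA]
          simp only [pre, Finset.mem_filter, Finset.mem_univ, true_and, Fin.le_def]
          omega
        · intro i hi i' hii'
          rw [hA] at hi ⊢
          simp only [pre, Finset.mem_filter, Finset.mem_univ, true_and] at hi ⊢
          have h5 : i ≤ 5 := by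
            rcases le5_or i with h5 | rfl | rfl
            · exact h5
            · have hh : (e 6).val ≤ j.val := hi
              omega
            · have hh : (e 7).val ≤ j.val := hi
              omega
          exact (hmono i' i hii' h5).trans hi
      · apply D8_upper A hne'
        · intro i hi
          rw [hA] at hi
          simp only [pre, Finset.mem_filter, Finset.mem_univ, true_and] at hi
          rcases le5_or i with h5 | rfl | rfl
          · have := h1 i h5
            have hh : (e i).val ≤ j.val := hi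
            omega
          · simp [Q8]
          · simp [Q8]
        · intro h7
          rw [hA] at h7 ⊢
          simp only [pre, Finset.mem_filter, Finset.mem_univ, true_and] at h7 ⊢
          exact h67.trans h7
    · rcases hpart with ⟨h1, h2⟩ | ⟨h1, h2⟩
      · apply D8_upper A hne'
        · intro i hi
          rw [hA] at hi
          simp only [pre, Finset.mem_filter, Finset.mem_univ, true_and] at hi
          rcases le5_or i with h5 | rfl | rfl
          · have := h1 i h5
            omega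
          · simp [Q8]
          · simp [Q8]
        · intro h7
          rw [hA] at h7 ⊢
          simp only [pre, Finset.mem_filter, Finset.mem_univ, true_and] at h7 ⊢
          exact ⟨h2, h67.trans h7.2⟩
      · apply D8_lower A hne'
        · rw [hA]
          simp only [pre, Finset.mem_filter, Finset.mem_univ, true_and]
          omega
        · intro i hi i' hii'
          rw [hA] at hi ⊢
          simp only [pre, Finset.mem_filter, Finset.mem_univ, true_and] at hi ⊢
          have h5 : i ≤ 5 := by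
            rcases le5_or i with h5 | rfl | rfl
            · exact h5
            · omega
            · omega
          exact ⟨h1 i' (hii'.trans h5), (hmono i' i hii' h5).trans hi.2⟩

/-- the embedding attached to a 6-set `R` and a 2-set `Q` -/
noncomputable def emb (R Q : Finset (Fin n)) (hR : R.card = 6) (hQ : Q.card = 2) (i : Fin 8) :
    Fin n :=
  if h : i.val < 6 then R.orderEmbOfFin hR ⟨i.val, h⟩
  else Q.orderEmbOfFin hQ ⟨i.val - 6, by omega⟩

lemma copy_union {m : ℕ} (R Q : Finset (Fin n)) (hR : R.card = 6) (hQ : Q.card = 2)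
    (hpart : ((∀ x ∈ R, x.val < m) ∧ (∀ x ∈ Q, m ≤ x.val)) ∨
      ((∀ x ∈ R, m ≤ x.val) ∧ (∀ x ∈ Q, x.val < m))) :
    Copy D8 (HH n m) (R ∪ Q) := by
  have hdis : Disjoint R Q := by
    rw [Finset.disjoint_left]
    intro x hx hx'
    rcases hpart with ⟨h1, h2⟩ | ⟨h1, h2⟩
    · have := h1 x hx; have := h2 x hx'; omega
    · have := h1 x hx; have := h2 x hx'; omega
  have e_lt : ∀ (i : Fin 8) (h : i.val < 6), emb R Q hR hQ i = R.orderEmbOfFin hR ⟨i.val, h⟩ := by
    intro i h; unfold emb; rw [dif_pos h]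
  have e_ge : ∀ (i : Fin 8) (h : ¬ i.val < 6), emb R Q hR hQ i
      = Q.orderEmbOfFin hQ ⟨i.val - 6, by omega⟩ := by
    intro i h; unfold emb; rw [dif_neg h]
  have memR : ∀ (i : Fin 8), i.val < 6 → emb R Q hR hQ i ∈ R := by
    intro i h; rw [e_lt i h]; exact Finset.orderEmbOfFin_mem _ _ _
  have memQ : ∀ (i : Fin 8), ¬ i.val < 6 → emb R Q hR hQ i ∈ Q := by
    intro i h; rw [e_ge i h]; exact Finset.orderEmbOfFin_mem _ _ _
  have hinj : Function.Injective (emb R Q hR hQ) := by
    intro i j hij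
    by_cases hi : i.val < 6
    · by_cases hj : j.val < 6
      · rw [e_lt i hi, e_lt j hj] at hij
        have := (R.orderEmbOfFin hR).injective hij
        simp only [Fin.mk.injEq] at this
        exact Fin.ext this
      · exfalso
        have h1 := memR i hi
        rw [hij] at h1
        exact (Finset.disjoint_left.1 hdis) h1 (memQ j hj)
    · by_cases hj : j.val < 6
      · exfalso
        have h1 := memR j hj
        rw [← hij] at h1
        exact (Finset.disjoint_left.1 hdis) h1 (memQ i hi)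
      · rw [e_ge i hi, e_ge j hj] at hij
        have := (Q.orderEmbOfFin hQ).injective hij
        simp only [Fin.mk.injEq] at this
        apply Fin.ext; omega
  have himg : R ∪ Q = Finset.univ.image (emb R Q hR hQ) := by
    symm
    apply Finset.eq_of_subset_of_card_le
    · intro x hx
      rw [Finset.mem_image] at hx
      obtain ⟨i, _, rfl⟩ := hx
      by_cases hi : i.val < 6
      · exact Finset.mem_union_left _ (memR i hi)
      · exact Finset.mem_union_right _ (memQ i hi)
    · rw [Finset.card_union_of_disjoint hdis, hR, hQ, Finset.card_image_of_injective _ hinj]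
      simp
  rw [himg]
  apply copy_HH _ hinj
  · intro i i' hii' h5
    have h5' : i'.val ≤ 5 := h5
    have hv : i.val ≤ i'.val := hii'
    rw [e_lt i (by omega), e_lt i' (by omega)]
    exact (R.orderEmbOfFin hR).monotone (by simpa using hv)
  · rw [e_ge 6 (by decide), e_ge 7 (by decide)]
    exact (Q.orderEmbOfFin hQ).monotone (by simp [Fin.le_def])
  · rcases hpart with ⟨h1, h2⟩ | ⟨h1, h2⟩
    · left
      refine ⟨fun i hi => h1 _ (memR i ?_), h2 _ (memQ 6 (by decide))⟩
      have : i.val ≤ 5 := hi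
      omega
    · right
      refine ⟨fun i hi => h1 _ (memR i ?_), h2 _ (memQ 7 (by decide))⟩
      have : i.val ≤ 5 := hi
      omega

lemma count_ge {m : ℕ} (hmn : m < n) :
    m.choose 6 * (n - m).choose 2 + m.choose 2 * (n - m).choose 6 ≤
      Set.ncard {S : Finset (Fin n) | Copy D8 (HH n m) S} := by
  set U₁ : Finset (Fin n) := Finset.univ.filter (fun i => i.val < m) with hU₁
  set U₂ : Finset (Fin n) := Finset.univ.filter (fun i => m ≤ i.val) with hU₂
  have c1 : U₁.card = m := by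
    have : U₁ = Finset.univ.filter (fun i : Fin n => i.val < m) := rfl
    rw [this, Fin.card_filter_val_lt]
    omega
  have hdis : Disjoint U₁ U₂ := by
    rw [Finset.disjoint_left]
    intro x hx hx'
    simp only [hU₁, hU₂, Finset.mem_filter, Finset.mem_univ, true_and] at hx hx'
    omega
  have c2 : U₂.card = n - m := by
    have h1 : U₁ ∪ U₂ = Finset.univ := by
      ext x
      simp only [hU₁, hU₂, Finset.mem_union, Finset.mem_filter, Finset.mem_univ, true_and,
        iff_true]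
      omega
    have h2 := Finset.card_union_of_disjoint hdis
    rw [h1, c1] at h2
    simp at h2
    omega
  set G : Finset (Finset (Fin n)) := (Finset.univ.powersetCard 8).filter
    (fun S => Copy D8 (HH n m) S) with hG
  have hncard : Set.ncard {S : Finset (Fin n) | Copy D8 (HH n m) S} = G.card := by
    rw [X_univ ∅]
    rfl
  rw [hncard]
  have hmem : ∀ S ∈ G, Copy D8 (HH n m) S := fun S hS => (Finset.mem_filter.1 hS).2
  have hmem' : ∀ S, Copy D8 (HH n m) S → S ∈ G := by
    intro S hS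
    rw [hG, Finset.mem_filter, Finset.mem_powersetCard]
    exact ⟨⟨Finset.subset_univ _, copy_card hS⟩, hS⟩
  set G1 := G.filter (fun S => (S ∩ U₁).card = 6) with hG1
  set G2 := G.filter (fun S => (S ∩ U₁).card = 2) with hG2
  have hd12 : Disjoint G1 G2 := by
    rw [Finset.disjoint_left]
    intro S h1 h2
    have h1 := (Finset.mem_filter.1 h1).2
    have h2 := (Finset.mem_filter.1 h2).2
    omega
  have hle : G1.card + G2.card ≤ G.card := by
    rw [← Finset.card_union_of_disjoint hd12]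
    apply Finset.card_le_card
    intro S hS
    rcases Finset.mem_union.1 hS with h | h
    · exact (Finset.mem_filter.1 h).1
    · exact (Finset.mem_filter.1 h).1
  have inter1 : ∀ A B : Finset (Fin n), A ⊆ U₁ → B ⊆ U₂ → (A ∪ B) ∩ U₁ = A := by
    intro A B hA hB
    ext x
    simp only [Finset.mem_inter, Finset.mem_union]
    constructor
    · rintro ⟨h | h, h'⟩
      · exact h
      · exact absurd (hB h) (fun h2 => (Finset.disjoint_left.1 hdis) h' h2)
    · intro h; exact ⟨Or.inl h, hA h⟩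
  have inter2 : ∀ A B : Finset (Fin n), A ⊆ U₁ → B ⊆ U₂ → (A ∪ B) ∩ U₂ = B := by
    intro A B hA hB
    ext x
    simp only [Finset.mem_inter, Finset.mem_union]
    constructor
    · rintro ⟨h | h, h'⟩
      · exact absurd h' (fun h2 => (Finset.disjoint_left.1 hdis) (hA h) h2)
      · exact h
    · intro h; exact ⟨Or.inr h, hB h⟩
  have g1 : m.choose 6 * (n - m).choose 2 ≤ G1.card := by
    have : ((U₁.powersetCard 6) ×ˢ (U₂.powersetCard 2)).card ≤ G1.card := by
      apply Finset.card_le_card_of_injOn (fun p => p.1 ∪ p.2)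
      · rintro ⟨A, B⟩ hp
        simp only [Finset.coe_product, Set.mem_prod, Finset.mem_coe,
          Finset.mem_powersetCard] at hp
        obtain ⟨⟨hA, hA6⟩, hB, hB2⟩ := hp
        simp only [Finset.mem_coe]
        rw [hG1, Finset.mem_filter]
        refine ⟨hmem' _ (copy_union A B hA6 hB2 (Or.inl ⟨fun x hx => ?_, fun x hx => ?_⟩)), ?_⟩
        · simpa [hU₁] using hA hx
        · simpa [hU₂] using hB hx
        · rw [inter1 A B hA hB, hA6]
      · rintro ⟨A, B⟩ hp ⟨A', B'⟩ hp' hEq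
        simp only [Finset.coe_product, Set.mem_prod, Finset.mem_coe,
          Finset.mem_powersetCard] at hp hp'
        simp only at hEq
        have e1 := inter1 A B hp.1.1 hp.2.1
        have e2 := inter2 A B hp.1.1 hp.2.1
        rw [hEq, inter1 A' B' hp'.1.1 hp'.2.1] at e1
        rw [hEq, inter2 A' B' hp'.1.1 hp'.2.1] at e2
        rw [e1, e2]
    rwa [Finset.card_product, Finset.card_powersetCard, Finset.card_powersetCard, c1, c2] at this
  have g2 : m.choose 2 * (n - m).choose 6 ≤ G2.card := by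
    have : ((U₁.powersetCard 2) ×ˢ (U₂.powersetCard 6)).card ≤ G2.card := by
      apply Finset.card_le_card_of_injOn (fun p => p.1 ∪ p.2)
      · rintro ⟨A, B⟩ hp
        simp only [Finset.coe_product, Set.mem_prod, Finset.mem_coe,
          Finset.mem_powersetCard] at hp
        obtain ⟨⟨hA, hA2⟩, hB, hB6⟩ := hp
        simp only [Finset.mem_coe]
        rw [hG2, Finset.mem_filter]
        refine ⟨hmem' _ ?_, ?_⟩
        · rw [Finset.union_comm]
          refine copy_union B A hB6 hA2 (Or.inr ⟨fun x hx => ?_, fun x hx => ?_⟩)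
          · simpa [hU₂] using hB hx
          · simpa [hU₁] using hA hx
        · rw [inter1 A B hA hB, hA2]
      · rintro ⟨A, B⟩ hp ⟨A', B'⟩ hp' hEq
        simp only [Finset.coe_product, Set.mem_prod, Finset.mem_coe,
          Finset.mem_powersetCard] at hp hp'
        simp only at hEq
        have e1 := inter1 A B hp.1.1 hp.2.1
        have e2 := inter2 A B hp.1.1 hp.2.1
        rw [hEq, inter1 A' B' hp'.1.1 hp'.2.1] at e1
        rw [hEq, inter2 A' B' hp'.1.1 hp'.2.1] at e2
        rw [e1, e2]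
    rwa [Finset.card_product, Finset.card_powersetCard, Finset.card_powersetCard, c1, c2] at this
  omega

end lower

section limit

open Filter Topology

/-- the optimal proportion -/
noncomputable def al : ℝ := (1 + Real.sqrt (1 - 4 * u0)) / 2

lemma al_mul : al * (1 - al) = u0 := by
  unfold al
  have h : 0 ≤ 1 - 4 * u0 := by linarith [u0_ub]
  have := Real.mul_self_sqrt h
  nlinarith [this]

lemma al_lb : 0 < al := by
  unfold al
  have := Real.sqrt_nonneg (1 - 4 * u0)
  linarith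

lemma al_ub : al < 1 := by
  by_contra h
  push Not at h
  have h1 := al_mul
  have h2 := u0_lb
  nlinarith [al_lb]

lemma al_val : 28 * (al ^ 6 * (1 - al) ^ 2 + al ^ 2 * (1 - al) ^ 6) = L0 := by
  have hid : L0 * (al + (1 - al)) ^ 8 - 28 * (al ^ 6 * (1 - al) ^ 2 + al ^ 2 * (1 - al) ^ 6) =
      56 * (al * (1 - al) - u0 * (al + (1 - al)) ^ 2) ^ 2 *
        (-(al * (1 - al)) ^ 2 + 2 * (1 - u0) * (al * (1 - al)) * (al + (1 - al)) ^ 2
        + u0 * (1 - u0) * (al + (1 - al)) ^ 4) := by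
    rw [L0_eq]
    linear_combination (-28 * (al * (1 - al)) ^ 2 * (al + (1 - al)) ^ 4) * u0_eq
  rw [al_mul] at hid
  have e : al + (1 - al) = 1 := by ring
  rw [e] at hid
  nlinarith [hid]

/-- the split size -/
noncomputable def mm (n : ℕ) : ℕ := ⌊al * (n : ℝ)⌋₊

lemma mm_tendsto : Tendsto (fun n : ℕ => (mm n : ℝ) / (n : ℝ)) atTop (𝓝 al) :=
  (tendsto_nat_floor_mul_div_atTop al_lb.le).comp tendsto_natCast_atTop_atTop

lemma mm_le (n : ℕ) : mm n ≤ n := by
  unfold mm
  have h1 : al * (n : ℝ) ≤ (n : ℝ) := by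
    have : (0 : ℝ) ≤ n := Nat.cast_nonneg n
    nlinarith [al_ub]
  calc ⌊al * (n : ℝ)⌋₊ ≤ ⌊(n : ℝ)⌋₊ := Nat.floor_le_floor h1
    _ = n := Nat.floor_natCast n

lemma mm_lt {n : ℕ} (hn : 0 < n) : mm n < n := by
  unfold mm
  rw [Nat.floor_lt (mul_nonneg al_lb.le (Nat.cast_nonneg n))]
  have : (0 : ℝ) < n := by exact_mod_cast hn
  nlinarith [al_ub]

lemma sub_tendsto {f : ℕ → ℕ} {x : ℝ} (hf : Tendsto (fun n : ℕ => (f n : ℝ) / (n : ℝ)) atTop (𝓝 x))
    (c : ℕ) : Tendsto (fun n : ℕ => ((f n - c : ℕ) : ℝ) / (n : ℝ)) atTop (𝓝 x) := by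
  have hc : Tendsto (fun n : ℕ => (c : ℝ) / (n : ℝ)) atTop (𝓝 0) :=
    tendsto_const_div_atTop_nhds_zero_nat (c : ℝ)
  have h1 : Tendsto (fun n : ℕ => (f n : ℝ) / (n : ℝ) - (c : ℝ) / (n : ℝ)) atTop (𝓝 x) := by
    have := hf.sub hc
    simpa using this
  refine tendsto_of_tendsto_of_tendsto_of_le_of_le h1 hf ?_ ?_
  · intro n
    simp only
    rw [← sub_div]
    apply div_le_div_of_nonneg_right _ (Nat.cast_nonneg n)
    have : (f n : ℝ) ≤ ((f n - c : ℕ) : ℝ) + c := by
      have : f n ≤ (f n - c) + c := by omega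
      exact_mod_cast this
    linarith
  · intro n
    simp only
    apply div_le_div_of_nonneg_right _ (Nat.cast_nonneg n)
    exact_mod_cast Nat.sub_le _ _

lemma id_tendsto : Tendsto (fun n : ℕ => (n : ℝ) / (n : ℝ)) atTop (𝓝 1) := by
  apply tendsto_const_nhds.congr'
  filter_upwards [eventually_gt_atTop 0] with n hn
  have : (n : ℝ) ≠ 0 := by exact_mod_cast hn.ne'
  rw [div_self this]

lemma comp_tendsto : Tendsto (fun n : ℕ => ((n - mm n : ℕ) : ℝ) / (n : ℝ)) atTop (𝓝 (1 - al)) := by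
  have h := id_tendsto.sub mm_tendsto
  refine h.congr (fun n => ?_)
  rw [Nat.cast_sub (mm_le n), sub_div]

/-- the sequence of maximal densities -/
noncomputable def dens (n : ℕ) : ℝ :=
  sSup {x : ℝ | ∃ H : Finset (Finset (Fin n)), Tree H ∧
    x = (Set.ncard {S : Finset (Fin n) | Copy D8 H S} : ℝ) / ((n.choose 8 : ℕ) : ℝ)}

lemma upper_pt {n : ℕ} (hn : 8 ≤ n) {H : Finset (Finset (Fin n))} (hH : Tree H) :
    (Set.ncard {S : Finset (Fin n) | Copy D8 H S} : ℝ) / ((n.choose 8 : ℕ) : ℝ)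
      ≤ L0 * ((n : ℝ) / ((n - 7 : ℕ) : ℝ)) ^ 8 := by
  have h1 := count_le hH
  have hc0 : (0 : ℝ) < ((n.choose 8 : ℕ) : ℝ) := by exact_mod_cast Nat.choose_pos hn
  have h7 : (0 : ℝ) < ((n - 7 : ℕ) : ℝ) := by
    have : 0 < n - 7 := by omega
    exact_mod_cast this
  have h2 : ((n - 7 : ℕ) : ℝ) ^ 8 ≤ 40320 * ((n.choose 8 : ℕ) : ℝ) := by
    have := Nat.pow_le_choose (α := ℝ) 8 n
    have e : n + 1 - 8 = n - 7 := by omega
    rw [e] at this
    simp only [Nat.factorial] at this
    rw [div_le_iff₀ (by positivity)] at this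
    push_cast at this ⊢
    linarith
  rw [div_le_iff₀ hc0, div_pow]
  rw [mul_div_assoc', div_mul_eq_mul_div, le_div_iff₀ (by positivity)]
  have hL : 0 < L0 := by linarith [L0_lb]
  have h3 : (0 : ℝ) ≤ (Set.ncard {S : Finset (Fin n) | Copy D8 H S} : ℝ) := Nat.cast_nonneg _
  calc (Set.ncard {S : Finset (Fin n) | Copy D8 H S} : ℝ) * ((n - 7 : ℕ) : ℝ) ^ 8
      ≤ (Set.ncard {S : Finset (Fin n) | Copy D8 H S} : ℝ) * (40320 * ((n.choose 8 : ℕ) : ℝ)) :=
        mul_le_mul_of_nonneg_left h2 h3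
    _ = (40320 * (Set.ncard {S : Finset (Fin n) | Copy D8 H S} : ℝ)) * ((n.choose 8 : ℕ) : ℝ) := by
        ring
    _ ≤ (L0 * (n : ℝ) ^ 8) * ((n.choose 8 : ℕ) : ℝ) := mul_le_mul_of_nonneg_right h1 hc0.le

/-- the lower bound sequence -/
noncomputable def lowSeq (n : ℕ) : ℝ :=
  28 * ((((mm n - 5 : ℕ) : ℝ) / n) ^ 6 * ((((n - mm n) - 1 : ℕ) : ℝ) / n) ^ 2
    + (((mm n - 1 : ℕ) : ℝ) / n) ^ 2 * ((((n - mm n) - 5 : ℕ) : ℝ) / n) ^ 6)

lemma choose_lb6 (a : ℕ) : ((a - 5 : ℕ) : ℝ) ^ 6 ≤ 720 * (a.choose 6 : ℝ) := by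
  have := Nat.pow_le_choose (α := ℝ) 6 a
  have e : a + 1 - 6 = a - 5 := by omega
  rw [e] at this
  simp only [Nat.factorial] at this
  rw [div_le_iff₀ (by positivity)] at this
  push_cast at this ⊢
  linarith

lemma choose_lb2 (a : ℕ) : ((a - 1 : ℕ) : ℝ) ^ 2 ≤ 2 * (a.choose 2 : ℝ) := by
  have := Nat.pow_le_choose (α := ℝ) 2 a
  have e : a + 1 - 2 = a - 1 := by omega
  rw [e] at this
  simp only [Nat.factorial] at this
  rw [div_le_iff₀ (by positivity)] at this
  push_cast at this ⊢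
  linarith

lemma lower_pt {n : ℕ} (hn : 8 ≤ n) :
    lowSeq n ≤ (Set.ncard {S : Finset (Fin n) | Copy D8 (HH n (mm n)) S} : ℝ)
      / ((n.choose 8 : ℕ) : ℝ) := by
  have h0 := count_ge (n := n) (m := mm n) (mm_lt (by omega))
  have h0' : ((mm n).choose 6 : ℝ) * ((n - mm n).choose 2 : ℝ)
      + ((mm n).choose 2 : ℝ) * ((n - mm n).choose 6 : ℝ)
      ≤ (Set.ncard {S : Finset (Fin n) | Copy D8 (HH n (mm n)) S} : ℝ) := by exact_mod_cast h0
  have hc0 : (0 : ℝ) < ((n.choose 8 : ℕ) : ℝ) := by exact_mod_cast Nat.choose_pos hn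
  have hn0 : (0 : ℝ) < n := by
    have : 0 < n := by omega
    exact_mod_cast this
  have h8 : ((n.choose 8 : ℕ) : ℝ) ≤ (n : ℝ) ^ 8 / 40320 := by
    have := Nat.choose_le_pow_div (α := ℝ) 8 n
    simpa [Nat.factorial] using this
  rw [le_div_iff₀ hc0]
  refine le_trans ?_ h0'
  set a : ℝ := ((mm n - 5 : ℕ) : ℝ)
  set b : ℝ := (((n - mm n) - 1 : ℕ) : ℝ)
  set c : ℝ := ((mm n - 1 : ℕ) : ℝ)
  set d : ℝ := (((n - mm n) - 5 : ℕ) : ℝ)
  have ha : 0 ≤ a := Nat.cast_nonneg _
  have hb : 0 ≤ b := Nat.cast_nonneg _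
  have hc : 0 ≤ c := Nat.cast_nonneg _
  have hd : 0 ≤ d := Nat.cast_nonneg _
  have e1 : lowSeq n = 28 * (a ^ 6 * b ^ 2 + c ^ 2 * d ^ 6) / (n : ℝ) ^ 8 := by
    unfold lowSeq
    field_simp
    rfl
  have hnn : 0 ≤ 28 * (a ^ 6 * b ^ 2 + c ^ 2 * d ^ 6) / (n : ℝ) ^ 8 := by positivity
  have f1 : a ^ 6 * b ^ 2 ≤ (720 * ((mm n).choose 6 : ℝ)) * (2 * ((n - mm n).choose 2 : ℝ)) :=
    mul_le_mul (choose_lb6 _) (choose_lb2 _) (by positivity) (by positivity)
  have f2 : c ^ 2 * d ^ 6 ≤ (2 * ((mm n).choose 2 : ℝ)) * (720 * ((n - mm n).choose 6 : ℝ)) :=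
    mul_le_mul (choose_lb2 _) (choose_lb6 _) (by positivity) (by positivity)
  calc lowSeq n * ((n.choose 8 : ℕ) : ℝ)
      ≤ (28 * (a ^ 6 * b ^ 2 + c ^ 2 * d ^ 6) / (n : ℝ) ^ 8) * ((n : ℝ) ^ 8 / 40320) := by
        rw [e1]; exact mul_le_mul_of_nonneg_left h8 hnn
    _ = (a ^ 6 * b ^ 2 + c ^ 2 * d ^ 6) / 1440 := by
        field_simp
        ring
    _ ≤ _ := by linarith

lemma lowSeq_tendsto : Tendsto lowSeq atTop (𝓝 L0) := by
  have h1 := sub_tendsto mm_tendsto 5
  have h2 := sub_tendsto comp_tendsto 1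
  have h3 := sub_tendsto mm_tendsto 1
  have h4 := sub_tendsto comp_tendsto 5
  have := (((h1.pow 6).mul (h2.pow 2)).add ((h3.pow 2).mul (h4.pow 6))).const_mul 28
  rw [al_val] at this
  exact this

lemma upSeq_tendsto : Tendsto (fun n : ℕ => L0 * ((n : ℝ) / ((n - 7 : ℕ) : ℝ)) ^ 8) atTop (𝓝 L0) := by
  have h1 : Tendsto (fun n : ℕ => (((n - 7 : ℕ) : ℝ) / (n : ℝ))⁻¹) atTop (𝓝 1) := by
    have := (sub_tendsto id_tendsto 7).inv₀ one_ne_zero
    simpa using this
  have h2 : Tendsto (fun n : ℕ => (n : ℝ) / ((n - 7 : ℕ) : ℝ)) atTop (𝓝 1) := by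
    refine h1.congr (fun n => ?_)
    rw [inv_div]
  have h3 := (h2.pow 8).const_mul L0
  simpa using h3

lemma mm_pos_eventually : ∀ᶠ n : ℕ in atTop, 1 ≤ mm n := by
  have h : Tendsto (fun n : ℕ => al * (n : ℝ)) atTop atTop :=
    tendsto_natCast_atTop_atTop.const_mul_atTop al_lb
  filter_upwards [h.eventually_ge_atTop 1] with n hn
  unfold mm
  exact Nat.le_floor (by simpa using hn)

lemma dens_tendsto : Tendsto dens atTop (𝓝 L0) := by
  refine tendsto_of_tendsto_of_tendsto_of_le_of_le' lowSeq_tendsto upSeq_tendsto ?_ ?_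
  · filter_upwards [eventually_ge_atTop 8, mm_pos_eventually] with n hn hm
    have hT := tree_HH hm (mm_lt (n := n) (by omega))
    refine (lower_pt hn).trans ?_
    apply le_csSup
    · refine ⟨L0 * ((n : ℝ) / ((n - 7 : ℕ) : ℝ)) ^ 8, ?_⟩
      rintro x ⟨H, hH, rfl⟩
      exact upper_pt hn hH
    · exact ⟨HH n (mm n), hT, rfl⟩
  · filter_upwards [eventually_ge_atTop 8, mm_pos_eventually] with n hn hm
    have hT := tree_HH hm (mm_lt (n := n) (by omega))
    apply csSup_le
    · exact ⟨_, HH n (mm n), hT, rfl⟩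
    · rintro x ⟨H, hH, rfl⟩
      exact upper_pt hn hH

end limit

/-- There is a rooted binary tree D (encoded as a binary laminar hierarchy on Fin k) and an irrational L such that the max over n-leaf binary trees H of (#k-leaf subsets inducing a copy of D)/C(n,k) tends to L, i.e. D's inducibility is irrational. -/
theorem result :
    ∃ k : ℕ, ∃ D : Finset (Finset (Fin k)),
      (Finset.univ ∈ D ∧ (∀ i : Fin k, ({i} : Finset (Fin k)) ∈ D) ∧
        (∅ : Finset (Fin k)) ∉ D ∧
        (∀ A ∈ D, ∀ B ∈ D, A ⊆ B ∨ B ⊆ A ∨ Disjoint A B) ∧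
        (∀ A ∈ D, 2 ≤ A.card → ∃ B ∈ D, ∃ C ∈ D,
          B.Nonempty ∧ C.Nonempty ∧ Disjoint B C ∧ B ∪ C = A)) ∧
      ∃ L : ℝ, Irrational L ∧
        Filter.Tendsto
          (fun n : ℕ => sSup {x : ℝ | ∃ H : Finset (Finset (Fin n)),
            (Finset.univ ∈ H ∧ (∀ i : Fin n, ({i} : Finset (Fin n)) ∈ H) ∧
              (∅ : Finset (Fin n)) ∉ H ∧
              (∀ A ∈ H, ∀ B ∈ H, A ⊆ B ∨ B ⊆ A ∨ Disjoint A B) ∧
              (∀ A ∈ H, 2 ≤ A.card → ∃ B ∈ H, ∃ C ∈ H,
                B.Nonempty ∧ C.Nonempty ∧ Disjoint B C ∧ B ∪ C = A)) ∧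
            x = (Set.ncard {S : Finset (Fin n) | ∃ e : Fin k → Fin n,
                  Function.Injective e ∧ Set.range e = (↑S : Set (Fin n)) ∧
                  ∀ A : Finset (Fin k),
                    A ∈ D ↔ (A.Nonempty ∧ ∃ C ∈ H, C ∩ S = A.image e)} : ℝ)
                / ((n.choose k : ℕ) : ℝ)})
          Filter.atTop (nhds L) := by
  refine ⟨8, D8, D8_tree, L0, L0_irrational, ?_⟩
  exact dens_tendsto

end Pool.Agent.S06971
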