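import Pool.Statements.S07777
import Pool.Agent.Helper15.KP.Final

set_option autoImplicit false
open Pool Pool.MP_28f232_co

namespace Pool.Agent.S07777

/-- For every d ≥ 3 and any d+4 points in d-space moved so that no pairwise distance grows, with fixed positive radii, the union of the closed balls around the new centers has volume at most that of the union around the old centers. -/
theorem result :
    ∀ d : ℕ, 3 ≤ d →
      ∀ (p q : Fin (d + 4) → EuclideanSpace ℝ (Fin d)) (r : Fin (d + 4) → ℝ),
        (∀ i, 0 < r i) →
        (∀ i j, dist (q i) (q j) ≤ dist (p i) (p j)) →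
        MeasureTheory.volume (⋃ i, Metric.closedBall (q i) (r i)) ≤
          MeasureTheory.volume (⋃ i, Metric.closedBall (p i) (r i)) := by
  intro d hd p q r hr h
  exact Pool.Agent.Helper15.KP.kp d hd p q r hr h

end Pool.Agent.S07777
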