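import Pool.Statements.S07806

set_option autoImplicit false
open Pool Pool.MP_2a6d80_co

namespace Pool.Agent.S07806

/-- The 12 pairs (coefficient vectors) of facet normals of the rhombic dodecahedron are encoded by
the inequalities in this set: it is the rhombic dodecahedron with vertices
(±1,±1,±1), (±2,0,0), (0,±2,0), (0,0,±2). -/
def K : Set (EuclideanSpace ℝ (Fin 3)) :=
  {x | |x 0| + |x 1| ≤ 2 ∧ |x 1| + |x 2| ≤ 2 ∧ |x 0| + |x 2| ≤ 2}

theorem K_convex : Convex ℝ K := by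
  intro x hx y hy a b ha hb hab
  obtain ⟨hx1, hx2, hx3⟩ := hx
  obtain ⟨hy1, hy2, hy3⟩ := hy
  have key : ∀ i : Fin 3, |(a • x + b • y) i| ≤ a * |x i| + b * |y i| := by
    intro i
    have : (a • x + b • y) i = a * x i + b * y i := by simp
    rw [this]
    calc |a * x i + b * y i| ≤ |a * x i| + |b * y i| := abs_add_le _ _
      _ = a * |x i| + b * |y i| := by rw [abs_mul, abs_mul, abs_of_nonneg ha, abs_of_nonneg hb]
  have hsum : ∀ u v : ℝ, u ≤ 2 → v ≤ 2 → a * u + b * v ≤ 2 := by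
    intro u v hu hv
    nlinarith [mul_le_mul_of_nonneg_left hu ha, mul_le_mul_of_nonneg_left hv hb]
  refine ⟨?_, ?_, ?_⟩
  · have := hsum _ _ hx1 hy1
    linarith [key 0, key 1]
  · have := hsum _ _ hx2 hy2
    linarith [key 1, key 2]
  · have := hsum _ _ hx3 hy3
    linarith [key 0, key 2]

theorem K_symm : ∀ x ∈ K, -x ∈ K := by
  intro x hx
  simpa [K] using hx

theorem coord_cont (i : Fin 3) : Continuous (fun x : EuclideanSpace ℝ (Fin 3) => x i) := by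
  fun_prop

theorem K_closed : IsClosed K := by
  have h0 := coord_cont 0
  have h1 := coord_cont 1
  have h2 := coord_cont 2
  apply IsClosed.inter
  · exact isClosed_le (h0.abs.add h1.abs) continuous_const
  apply IsClosed.inter
  · exact isClosed_le (h1.abs.add h2.abs) continuous_const
  · exact isClosed_le (h0.abs.add h2.abs) continuous_const

theorem K_compact : IsCompact K := by
  apply Metric.isCompact_of_isClosed_isBounded K_closed
  apply (Metric.isBounded_closedBall (x := (0 : EuclideanSpace ℝ (Fin 3))) (r := 4)).subset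
  intro x hx
  obtain ⟨h1, h2, h3⟩ := hx
  rw [mem_closedBall_zero_iff, EuclideanSpace.norm_eq, Real.sqrt_le_left (by norm_num)]
  simp only [Fin.sum_univ_three, Real.norm_eq_abs]
  have a0 := abs_nonneg (x 0)
  have a1 := abs_nonneg (x 1)
  have a2 := abs_nonneg (x 2)
  have b0 : |x 0| ≤ 2 := by linarith
  have b1 : |x 1| ≤ 2 := by linarith
  have b2 : |x 2| ≤ 2 := by linarith
  nlinarith

theorem nhds_zero : K ∈ nhds (0 : EuclideanSpace ℝ (Fin 3)) := by
  have h0 := coord_cont 0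
  have h1 := coord_cont 1
  have h2 := coord_cont 2
  have hopen : IsOpen {x : EuclideanSpace ℝ (Fin 3) | |x 0| < 1 ∧ |x 1| < 1 ∧ |x 2| < 1} := by
    apply IsOpen.inter
    · exact isOpen_lt h0.abs continuous_const
    apply IsOpen.inter
    · exact isOpen_lt h1.abs continuous_const
    · exact isOpen_lt h2.abs continuous_const
  refine Filter.mem_of_superset (hopen.mem_nhds (by simp)) ?_
  rintro x ⟨a, b, c⟩
  exact ⟨by linarith, by linarith, by linarith⟩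

/-- Strict inequality for interior points, for a facet inequality `α x₀ + β x₁ + γ x₂ ≤ 2` of `K`. -/
theorem interior_strict (α β γ : ℝ) (hpos : 0 < α * α + β * β + γ * γ)
    (h : ∀ x ∈ K, α * x 0 + β * x 1 + γ * x 2 ≤ 2) (y : EuclideanSpace ℝ (Fin 3))
    (hy : y ∈ interior K) : α * y 0 + β * y 1 + γ * y 2 < 2 := by
  let w : EuclideanSpace ℝ (Fin 3) := !₂[α, β, γ]
  have hc : Continuous (fun s : ℝ => y + s • w) := by fun_prop
  have hmem : ∀ᶠ s in nhds (0 : ℝ), y + s • w ∈ K := by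
    have : (fun s : ℝ => y + s • w) ⁻¹' (interior K) ∈ nhds (0 : ℝ) := by
      apply hc.continuousAt.preimage_mem_nhds
      simpa using isOpen_interior.mem_nhds hy
    filter_upwards [this] with s hs
    exact interior_subset hs
  have hev : ∀ᶠ s in nhdsWithin (0 : ℝ) (Set.Ioi 0), y + s • w ∈ K :=
    hmem.filter_mono nhdsWithin_le_nhds
  obtain ⟨s, hs, hspos⟩ := (hev.and self_mem_nhdsWithin).exists
  have hspos' : 0 < s := hspos
  have h2 := h _ hs
  have e0 : (y + s • w) 0 = y 0 + s * α := by simp [w]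
  have e1 : (y + s • w) 1 = y 1 + s * β := by simp [w]
  have e2 : (y + s • w) 2 = y 2 + s * γ := by simp [w]
  rw [e0, e1, e2] at h2
  nlinarith [mul_pos hspos' hpos]

/-- The gauge of `K` dominates one half of each facet functional. -/
theorem gauge_ge (α β γ : ℝ)
    (h : ∀ x ∈ K, α * x 0 + β * x 1 + γ * x 2 ≤ 2) (p : EuclideanSpace ℝ (Fin 3)) :
    α * p 0 + β * p 1 + γ * p 2 ≤ 2 * gauge K p := by
  apply le_of_forall_gt_imp_ge_of_dense
  intro r hr
  have hlt : gauge K p < r / 2 := by linarith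
  obtain ⟨b, hb0, hbr, hpb⟩ := exists_lt_of_gauge_lt (absorbent_nhds_zero nhds_zero) hlt
  obtain ⟨x, hx, rfl⟩ := hpb
  have h2 := h x hx
  have e0 : (b • x) 0 = b * x 0 := by simp
  have e1 : (b • x) 1 = b * x 1 := by simp
  have e2 : (b • x) 2 = b * x 2 := by simp
  simp only [e0, e1, e2]
  nlinarith [mul_le_mul_of_nonneg_left h2 hb0.le]

/-- If `p` illuminates `q` and the facet inequality is tight at `q`, then `p` violates it. -/
theorem illum_gt (α β γ : ℝ) (hpos : 0 < α * α + β * β + γ * γ)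
    (h : ∀ x ∈ K, α * x 0 + β * x 1 + γ * x 2 ≤ 2) (p q : EuclideanSpace ℝ (Fin 3))
    (hq : α * q 0 + β * q 1 + γ * q 2 = 2)
    (hill : ∃ t : ℝ, 0 < t ∧ q + t • (q - p) ∈ interior K) :
    2 < α * p 0 + β * p 1 + γ * p 2 := by
  obtain ⟨t, ht, hmem⟩ := hill
  have h1 := interior_strict α β γ hpos h _ hmem
  have e0 : (q + t • (q - p)) 0 = q 0 + t * (q 0 - p 0) := by simp
  have e1 : (q + t • (q - p)) 1 = q 1 + t * (q 1 - p 1) := by simp
  have e2 : (q + t • (q - p)) 2 = q 2 + t * (q 2 - p 2) := by simp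
  rw [e0, e1, e2] at h1
  have h3 : t * (2 - (α * p 0 + β * p 1 + γ * p 2)) < 0 := by nlinarith
  nlinarith [ht]

theorem facets : ∀ x ∈ K,
    (1 * x 0 + 1 * x 1 + 0 * x 2 ≤ 2) ∧ (1 * x 0 + (-1) * x 1 + 0 * x 2 ≤ 2) ∧
    ((-1) * x 0 + 1 * x 1 + 0 * x 2 ≤ 2) ∧ ((-1) * x 0 + (-1) * x 1 + 0 * x 2 ≤ 2) ∧
    (0 * x 0 + 1 * x 1 + 1 * x 2 ≤ 2) ∧ (0 * x 0 + 1 * x 1 + (-1) * x 2 ≤ 2) ∧
    (0 * x 0 + (-1) * x 1 + 1 * x 2 ≤ 2) ∧ (0 * x 0 + (-1) * x 1 + (-1) * x 2 ≤ 2) ∧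
    (1 * x 0 + 0 * x 1 + 1 * x 2 ≤ 2) ∧ (1 * x 0 + 0 * x 1 + (-1) * x 2 ≤ 2) ∧
    ((-1) * x 0 + 0 * x 1 + 1 * x 2 ≤ 2) ∧ ((-1) * x 0 + 0 * x 1 + (-1) * x 2 ≤ 2) := by
  rintro x ⟨h1, h2, h3⟩
  have a0 := le_abs_self (x 0)
  have a1 := le_abs_self (x 1)
  have a2 := le_abs_self (x 2)
  have b0 := neg_abs_le (x 0)
  have b1 := neg_abs_le (x 1)
  have b2 := neg_abs_le (x 2)
  refine ⟨?_, ?_, ?_, ?_, ?_, ?_, ?_, ?_, ?_, ?_, ?_, ?_⟩ <;> linarith

/-- Illumination condition for the vertex (1, 1, 1). -/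
def C0 (x y z : ℝ) : Prop := 2 < x + y ∧ 2 < y + z ∧ 2 < x + z

/-- Illumination condition for the vertex (1, 1, -1). -/
def C1 (x y z : ℝ) : Prop := 2 < x + y ∧ 2 < y - z ∧ 2 < x - z

/-- Illumination condition for the vertex (1, -1, 1). -/
def C2 (x y z : ℝ) : Prop := 2 < x - y ∧ 2 < -y + z ∧ 2 < x + z

/-- Illumination condition for the vertex (1, -1, -1). -/
def C3 (x y z : ℝ) : Prop := 2 < x - y ∧ 2 < -y - z ∧ 2 < x - z

/-- Illumination condition for the vertex (-1, 1, 1). -/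
def C4 (x y z : ℝ) : Prop := 2 < -x + y ∧ 2 < y + z ∧ 2 < -x + z

/-- Illumination condition for the vertex (-1, 1, -1). -/
def C5 (x y z : ℝ) : Prop := 2 < -x + y ∧ 2 < y - z ∧ 2 < -x - z

/-- Illumination condition for the vertex (-1, -1, 1). -/
def C6 (x y z : ℝ) : Prop := 2 < -x - y ∧ 2 < -y + z ∧ 2 < -x + z

/-- Illumination condition for the vertex (-1, -1, -1). -/
def C7 (x y z : ℝ) : Prop := 2 < -x - y ∧ 2 < -y - z ∧ 2 < -x - z

/-- Illumination condition for the vertex (2, 0, 0). -/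
def C8 (x y z : ℝ) : Prop := 2 < x + y ∧ 2 < x - y ∧ 2 < x + z ∧ 2 < x - z

/-- Illumination condition for the vertex (-2, 0, 0). -/
def C9 (x y z : ℝ) : Prop := 2 < -x + y ∧ 2 < -x - y ∧ 2 < -x + z ∧ 2 < -x - z

/-- Illumination condition for the vertex (0, 2, 0). -/
def C10 (x y z : ℝ) : Prop := 2 < x + y ∧ 2 < -x + y ∧ 2 < y + z ∧ 2 < y - z

/-- Illumination condition for the vertex (0, -2, 0). -/
def C11 (x y z : ℝ) : Prop := 2 < x - y ∧ 2 < -x - y ∧ 2 < -y + z ∧ 2 < -y - z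

/-- Illumination condition for the vertex (0, 0, 2). -/
def C12 (x y z : ℝ) : Prop := 2 < y + z ∧ 2 < -y + z ∧ 2 < x + z ∧ 2 < -x + z

/-- Illumination condition for the vertex (0, 0, -2). -/
def C13 (x y z : ℝ) : Prop := 2 < y - z ∧ 2 < -y - z ∧ 2 < x - z ∧ 2 < -x - z

open Classical in
/-- Number of illuminated vertices. -/
noncomputable def F (x y z : ℝ) : ℝ :=
  (if C0 x y z then (1 : ℝ) else 0) +
  (if C1 x y z then (1 : ℝ) else 0) +
  (if C2 x y z then (1 : ℝ) else 0) +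
  (if C3 x y z then (1 : ℝ) else 0) +
  (if C4 x y z then (1 : ℝ) else 0) +
  (if C5 x y z then (1 : ℝ) else 0) +
  (if C6 x y z then (1 : ℝ) else 0) +
  (if C7 x y z then (1 : ℝ) else 0) +
  (if C8 x y z then (1 : ℝ) else 0) +
  (if C9 x y z then (1 : ℝ) else 0) +
  (if C10 x y z then (1 : ℝ) else 0) +
  (if C11 x y z then (1 : ℝ) else 0) +
  (if C12 x y z then (1 : ℝ) else 0) +
  (if C13 x y z then (1 : ℝ) else 0)

set_option maxHeartbeats 4000000 in
theorem sum_le (x y z g i0 i1 i2 i3 i4 i5 i6 i7 i8 i9 i10 i11 i12 i13 : ℝ)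
    (h0 : x + y ≤ 2 * g) (h1 : x - y ≤ 2 * g) (h2 : -x + y ≤ 2 * g) (h3 : -x - y ≤ 2 * g) (h4 : y + z ≤ 2 * g) (h5 : y - z ≤ 2 * g) (h6 : -y + z ≤ 2 * g) (h7 : -y - z ≤ 2 * g) (h8 : x + z ≤ 2 * g) (h9 : x - z ≤ 2 * g) (h10 : -x + z ≤ 2 * g) (h11 : -x - z ≤ 2 * g)
    (k0 : (C0 x y z ∧ i0 = 1) ∨ i0 = 0)
    (k1 : (C1 x y z ∧ i1 = 1) ∨ i1 = 0)
    (k2 : (C2 x y z ∧ i2 = 1) ∨ i2 = 0)
    (k3 : (C3 x y z ∧ i3 = 1) ∨ i3 = 0)
    (k4 : (C4 x y z ∧ i4 = 1) ∨ i4 = 0)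
    (k5 : (C5 x y z ∧ i5 = 1) ∨ i5 = 0)
    (k6 : (C6 x y z ∧ i6 = 1) ∨ i6 = 0)
    (k7 : (C7 x y z ∧ i7 = 1) ∨ i7 = 0)
    (k8 : (C8 x y z ∧ i8 = 1) ∨ i8 = 0)
    (k9 : (C9 x y z ∧ i9 = 1) ∨ i9 = 0)
    (k10 : (C10 x y z ∧ i10 = 1) ∨ i10 = 0)
    (k11 : (C11 x y z ∧ i11 = 1) ∨ i11 = 0)
    (k12 : (C12 x y z ∧ i12 = 1) ∨ i12 = 0)
    (k13 : (C13 x y z ∧ i13 = 1) ∨ i13 = 0) :
    i0 + i1 + i2 + i3 + i4 + i5 + i6 + i7 + i8 + i9 + i10 + i11 + i12 + i13 ≤ g := by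
  rcases k0 with ⟨⟨a0, a1, a2⟩, e⟩ | e
  all_goals try (exfalso; linarith)
  all_goals rcases k1 with ⟨⟨a0, a1, a2⟩, e⟩ | e
  all_goals try (exfalso; linarith)
  all_goals rcases k2 with ⟨⟨a0, a1, a2⟩, e⟩ | e
  all_goals try (exfalso; linarith)
  all_goals rcases k3 with ⟨⟨a0, a1, a2⟩, e⟩ | e
  all_goals try (exfalso; linarith)
  all_goals rcases k4 with ⟨⟨a0, a1, a2⟩, e⟩ | e
  all_goals try (exfalso; linarith)
  all_goals rcases k5 with ⟨⟨a0, a1, a2⟩, e⟩ | e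
  all_goals try (exfalso; linarith)
  all_goals rcases k6 with ⟨⟨a0, a1, a2⟩, e⟩ | e
  all_goals try (exfalso; linarith)
  all_goals rcases k7 with ⟨⟨a0, a1, a2⟩, e⟩ | e
  all_goals try (exfalso; linarith)
  all_goals rcases k8 with ⟨⟨a0, a1, a2, a3⟩, e⟩ | e
  all_goals try (exfalso; linarith)
  all_goals rcases k9 with ⟨⟨a0, a1, a2, a3⟩, e⟩ | e
  all_goals try (exfalso; linarith)
  all_goals rcases k10 with ⟨⟨a0, a1, a2, a3⟩, e⟩ | e
  all_goals try (exfalso; linarith)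
  all_goals rcases k11 with ⟨⟨a0, a1, a2, a3⟩, e⟩ | e
  all_goals try (exfalso; linarith)
  all_goals rcases k12 with ⟨⟨a0, a1, a2, a3⟩, e⟩ | e
  all_goals try (exfalso; linarith)
  all_goals rcases k13 with ⟨⟨a0, a1, a2, a3⟩, e⟩ | e
  all_goals try (exfalso; linarith)
  all_goals linarith

open Classical in
theorem F_le (x y z g : ℝ)
    (h0 : x + y ≤ 2 * g) (h1 : x - y ≤ 2 * g) (h2 : -x + y ≤ 2 * g) (h3 : -x - y ≤ 2 * g) (h4 : y + z ≤ 2 * g) (h5 : y - z ≤ 2 * g) (h6 : -y + z ≤ 2 * g) (h7 : -y - z ≤ 2 * g) (h8 : x + z ≤ 2 * g) (h9 : x - z ≤ 2 * g) (h10 : -x + z ≤ 2 * g) (h11 : -x - z ≤ 2 * g) :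
    F x y z ≤ g := by
  have hk : ∀ c : Prop, (c ∧ (if c then (1 : ℝ) else 0) = 1) ∨ (if c then (1 : ℝ) else 0) = 0 := by
    intro c
    by_cases h : c
    · left; exact ⟨h, by simp [h]⟩
    · right; simp [h]
  exact sum_le x y z g _ _ _ _ _ _ _ _ _ _ _ _ _ _ h0 h1 h2 h3 h4 h5 h6 h7 h8 h9 h10 h11
    (hk _) (hk _) (hk _) (hk _) (hk _) (hk _) (hk _) (hk _) (hk _) (hk _) (hk _) (hk _) (hk _) (hk _)

theorem frontier_of_tight (α β γ : ℝ) (hpos : 0 < α * α + β * β + γ * γ)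
    (h : ∀ x ∈ K, α * x 0 + β * x 1 + γ * x 2 ≤ 2) (q : EuclideanSpace ℝ (Fin 3)) (hqK : q ∈ K)
    (hq : α * q 0 + β * q 1 + γ * q 2 = 2) : q ∈ frontier K := by
  rw [frontier, K_closed.closure_eq]
  refine ⟨hqK, fun hint => ?_⟩
  have := interior_strict α β γ hpos h q hint
  linarith

open Classical in
theorem one_le_sum (P : Finset (EuclideanSpace ℝ (Fin 3))) (C : ℝ → ℝ → ℝ → Prop)
    (h : ∃ p ∈ P, C (p 0) (p 1) (p 2)) :
    (1 : ℝ) ≤ ∑ p ∈ P, (if C (p 0) (p 1) (p 2) then (1 : ℝ) else 0) := by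
  obtain ⟨p, hp, hC⟩ := h
  have h1 : (if C (p 0) (p 1) (p 2) then (1 : ℝ) else 0) = 1 := by simp [hC]
  have h2 : (if C (p 0) (p 1) (p 2) then (1 : ℝ) else 0) ≤
      ∑ p ∈ P, (if C (p 0) (p 1) (p 2) then (1 : ℝ) else 0) := by
    apply Finset.single_le_sum (f := fun p : EuclideanSpace ℝ (Fin 3) =>
      (if C (p 0) (p 1) (p 2) then (1 : ℝ) else 0)) _ hp
    intro i _
    dsimp only
    split_ifs <;> norm_num
  linarith

theorem vert0 (P : Finset (EuclideanSpace ℝ (Fin 3)))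
    (hP : ∀ q ∈ frontier K, ∃ p ∈ P, ∃ t : ℝ, 0 < t ∧ q + t • (q - p) ∈ interior K) :
    ∃ p ∈ P, C0 (p 0) (p 1) (p 2) := by
  let q : EuclideanSpace ℝ (Fin 3) := !₂[(1 : ℝ), 1, 1]
  have q0 : q 0 = 1 := by simp [q]
  have q1 : q 1 = 1 := by simp [q]
  have q2 : q 2 = 1 := by simp [q]
  have hqK : q ∈ K := by
    refine ⟨?_, ?_, ?_⟩ <;> simp only [q0, q1, q2] <;> norm_num
  have hfr : q ∈ frontier K := by
    refine frontier_of_tight (1) (1) (0) (by norm_num) ?_ q hqK (by rw [q0, q1, q2]; norm_num)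
    intro x hx
    obtain ⟨u0, u1, u2, u3, u4, u5, u6, u7, u8, u9, u10, u11⟩ := facets x hx
    linarith
  obtain ⟨p, hp, hill⟩ := hP q hfr
  refine ⟨p, hp, ?_⟩
  have t0 := illum_gt (1) (1) (0) (by norm_num) (by
    intro x hx
    obtain ⟨u0, u1, u2, u3, u4, u5, u6, u7, u8, u9, u10, u11⟩ := facets x hx
    linarith) p q (by rw [q0, q1, q2]; norm_num) hill
  have t1 := illum_gt (0) (1) (1) (by norm_num) (by
    intro x hx
    obtain ⟨u0, u1, u2, u3, u4, u5, u6, u7, u8, u9, u10, u11⟩ := facets x hx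
    linarith) p q (by rw [q0, q1, q2]; norm_num) hill
  have t2 := illum_gt (1) (0) (1) (by norm_num) (by
    intro x hx
    obtain ⟨u0, u1, u2, u3, u4, u5, u6, u7, u8, u9, u10, u11⟩ := facets x hx
    linarith) p q (by rw [q0, q1, q2]; norm_num) hill
  refine ⟨?_, ?_, ?_⟩ <;> linarith

theorem vert1 (P : Finset (EuclideanSpace ℝ (Fin 3)))
    (hP : ∀ q ∈ frontier K, ∃ p ∈ P, ∃ t : ℝ, 0 < t ∧ q + t • (q - p) ∈ interior K) :
    ∃ p ∈ P, C1 (p 0) (p 1) (p 2) := by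
  let q : EuclideanSpace ℝ (Fin 3) := !₂[(1 : ℝ), 1, -1]
  have q0 : q 0 = 1 := by simp [q]
  have q1 : q 1 = 1 := by simp [q]
  have q2 : q 2 = -1 := by simp [q]
  have hqK : q ∈ K := by
    refine ⟨?_, ?_, ?_⟩ <;> simp only [q0, q1, q2] <;> norm_num
  have hfr : q ∈ frontier K := by
    refine frontier_of_tight (1) (1) (0) (by norm_num) ?_ q hqK (by rw [q0, q1, q2]; norm_num)
    intro x hx
    obtain ⟨u0, u1, u2, u3, u4, u5, u6, u7, u8, u9, u10, u11⟩ := facets x hx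
    linarith
  obtain ⟨p, hp, hill⟩ := hP q hfr
  refine ⟨p, hp, ?_⟩
  have t0 := illum_gt (1) (1) (0) (by norm_num) (by
    intro x hx
    obtain ⟨u0, u1, u2, u3, u4, u5, u6, u7, u8, u9, u10, u11⟩ := facets x hx
    linarith) p q (by rw [q0, q1, q2]; norm_num) hill
  have t1 := illum_gt (0) (1) (-1) (by norm_num) (by
    intro x hx
    obtain ⟨u0, u1, u2, u3, u4, u5, u6, u7, u8, u9, u10, u11⟩ := facets x hx
    linarith) p q (by rw [q0, q1, q2]; norm_num) hill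
  have t2 := illum_gt (1) (0) (-1) (by norm_num) (by
    intro x hx
    obtain ⟨u0, u1, u2, u3, u4, u5, u6, u7, u8, u9, u10, u11⟩ := facets x hx
    linarith) p q (by rw [q0, q1, q2]; norm_num) hill
  refine ⟨?_, ?_, ?_⟩ <;> linarith

theorem vert2 (P : Finset (EuclideanSpace ℝ (Fin 3)))
    (hP : ∀ q ∈ frontier K, ∃ p ∈ P, ∃ t : ℝ, 0 < t ∧ q + t • (q - p) ∈ interior K) :
    ∃ p ∈ P, C2 (p 0) (p 1) (p 2) := by
  let q : EuclideanSpace ℝ (Fin 3) := !₂[(1 : ℝ), -1, 1]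
  have q0 : q 0 = 1 := by simp [q]
  have q1 : q 1 = -1 := by simp [q]
  have q2 : q 2 = 1 := by simp [q]
  have hqK : q ∈ K := by
    refine ⟨?_, ?_, ?_⟩ <;> simp only [q0, q1, q2] <;> norm_num
  have hfr : q ∈ frontier K := by
    refine frontier_of_tight (1) (-1) (0) (by norm_num) ?_ q hqK (by rw [q0, q1, q2]; norm_num)
    intro x hx
    obtain ⟨u0, u1, u2, u3, u4, u5, u6, u7, u8, u9, u10, u11⟩ := facets x hx
    linarith
  obtain ⟨p, hp, hill⟩ := hP q hfr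
  refine ⟨p, hp, ?_⟩
  have t0 := illum_gt (1) (-1) (0) (by norm_num) (by
    intro x hx
    obtain ⟨u0, u1, u2, u3, u4, u5, u6, u7, u8, u9, u10, u11⟩ := facets x hx
    linarith) p q (by rw [q0, q1, q2]; norm_num) hill
  have t1 := illum_gt (0) (-1) (1) (by norm_num) (by
    intro x hx
    obtain ⟨u0, u1, u2, u3, u4, u5, u6, u7, u8, u9, u10, u11⟩ := facets x hx
    linarith) p q (by rw [q0, q1, q2]; norm_num) hill
  have t2 := illum_gt (1) (0) (1) (by norm_num) (by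
    intro x hx
    obtain ⟨u0, u1, u2, u3, u4, u5, u6, u7, u8, u9, u10, u11⟩ := facets x hx
    linarith) p q (by rw [q0, q1, q2]; norm_num) hill
  refine ⟨?_, ?_, ?_⟩ <;> linarith

theorem vert3 (P : Finset (EuclideanSpace ℝ (Fin 3)))
    (hP : ∀ q ∈ frontier K, ∃ p ∈ P, ∃ t : ℝ, 0 < t ∧ q + t • (q - p) ∈ interior K) :
    ∃ p ∈ P, C3 (p 0) (p 1) (p 2) := by
  let q : EuclideanSpace ℝ (Fin 3) := !₂[(1 : ℝ), -1, -1]
  have q0 : q 0 = 1 := by simp [q]
  have q1 : q 1 = -1 := by simp [q]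
  have q2 : q 2 = -1 := by simp [q]
  have hqK : q ∈ K := by
    refine ⟨?_, ?_, ?_⟩ <;> simp only [q0, q1, q2] <;> norm_num
  have hfr : q ∈ frontier K := by
    refine frontier_of_tight (1) (-1) (0) (by norm_num) ?_ q hqK (by rw [q0, q1, q2]; norm_num)
    intro x hx
    obtain ⟨u0, u1, u2, u3, u4, u5, u6, u7, u8, u9, u10, u11⟩ := facets x hx
    linarith
  obtain ⟨p, hp, hill⟩ := hP q hfr
  refine ⟨p, hp, ?_⟩
  have t0 := illum_gt (1) (-1) (0) (by norm_num) (by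
    intro x hx
    obtain ⟨u0, u1, u2, u3, u4, u5, u6, u7, u8, u9, u10, u11⟩ := facets x hx
    linarith) p q (by rw [q0, q1, q2]; norm_num) hill
  have t1 := illum_gt (0) (-1) (-1) (by norm_num) (by
    intro x hx
    obtain ⟨u0, u1, u2, u3, u4, u5, u6, u7, u8, u9, u10, u11⟩ := facets x hx
    linarith) p q (by rw [q0, q1, q2]; norm_num) hill
  have t2 := illum_gt (1) (0) (-1) (by norm_num) (by
    intro x hx
    obtain ⟨u0, u1, u2, u3, u4, u5, u6, u7, u8, u9, u10, u11⟩ := facets x hx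
    linarith) p q (by rw [q0, q1, q2]; norm_num) hill
  refine ⟨?_, ?_, ?_⟩ <;> linarith

theorem vert4 (P : Finset (EuclideanSpace ℝ (Fin 3)))
    (hP : ∀ q ∈ frontier K, ∃ p ∈ P, ∃ t : ℝ, 0 < t ∧ q + t • (q - p) ∈ interior K) :
    ∃ p ∈ P, C4 (p 0) (p 1) (p 2) := by
  let q : EuclideanSpace ℝ (Fin 3) := !₂[(-1 : ℝ), 1, 1]
  have q0 : q 0 = -1 := by simp [q]
  have q1 : q 1 = 1 := by simp [q]
  have q2 : q 2 = 1 := by simp [q]
  have hqK : q ∈ K := by
    refine ⟨?_, ?_, ?_⟩ <;> simp only [q0, q1, q2] <;> norm_num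
  have hfr : q ∈ frontier K := by
    refine frontier_of_tight (-1) (1) (0) (by norm_num) ?_ q hqK (by rw [q0, q1, q2]; norm_num)
    intro x hx
    obtain ⟨u0, u1, u2, u3, u4, u5, u6, u7, u8, u9, u10, u11⟩ := facets x hx
    linarith
  obtain ⟨p, hp, hill⟩ := hP q hfr
  refine ⟨p, hp, ?_⟩
  have t0 := illum_gt (-1) (1) (0) (by norm_num) (by
    intro x hx
    obtain ⟨u0, u1, u2, u3, u4, u5, u6, u7, u8, u9, u10, u11⟩ := facets x hx
    linarith) p q (by rw [q0, q1, q2]; norm_num) hill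
  have t1 := illum_gt (0) (1) (1) (by norm_num) (by
    intro x hx
    obtain ⟨u0, u1, u2, u3, u4, u5, u6, u7, u8, u9, u10, u11⟩ := facets x hx
    linarith) p q (by rw [q0, q1, q2]; norm_num) hill
  have t2 := illum_gt (-1) (0) (1) (by norm_num) (by
    intro x hx
    obtain ⟨u0, u1, u2, u3, u4, u5, u6, u7, u8, u9, u10, u11⟩ := facets x hx
    linarith) p q (by rw [q0, q1, q2]; norm_num) hill
  refine ⟨?_, ?_, ?_⟩ <;> linarith

theorem vert5 (P : Finset (EuclideanSpace ℝ (Fin 3)))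
    (hP : ∀ q ∈ frontier K, ∃ p ∈ P, ∃ t : ℝ, 0 < t ∧ q + t • (q - p) ∈ interior K) :
    ∃ p ∈ P, C5 (p 0) (p 1) (p 2) := by
  let q : EuclideanSpace ℝ (Fin 3) := !₂[(-1 : ℝ), 1, -1]
  have q0 : q 0 = -1 := by simp [q]
  have q1 : q 1 = 1 := by simp [q]
  have q2 : q 2 = -1 := by simp [q]
  have hqK : q ∈ K := by
    refine ⟨?_, ?_, ?_⟩ <;> simp only [q0, q1, q2] <;> norm_num
  have hfr : q ∈ frontier K := by
    refine frontier_of_tight (-1) (1) (0) (by norm_num) ?_ q hqK (by rw [q0, q1, q2]; norm_num)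
    intro x hx
    obtain ⟨u0, u1, u2, u3, u4, u5, u6, u7, u8, u9, u10, u11⟩ := facets x hx
    linarith
  obtain ⟨p, hp, hill⟩ := hP q hfr
  refine ⟨p, hp, ?_⟩
  have t0 := illum_gt (-1) (1) (0) (by norm_num) (by
    intro x hx
    obtain ⟨u0, u1, u2, u3, u4, u5, u6, u7, u8, u9, u10, u11⟩ := facets x hx
    linarith) p q (by rw [q0, q1, q2]; norm_num) hill
  have t1 := illum_gt (0) (1) (-1) (by norm_num) (by
    intro x hx
    obtain ⟨u0, u1, u2, u3, u4, u5, u6, u7, u8, u9, u10, u11⟩ := facets x hx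
    linarith) p q (by rw [q0, q1, q2]; norm_num) hill
  have t2 := illum_gt (-1) (0) (-1) (by norm_num) (by
    intro x hx
    obtain ⟨u0, u1, u2, u3, u4, u5, u6, u7, u8, u9, u10, u11⟩ := facets x hx
    linarith) p q (by rw [q0, q1, q2]; norm_num) hill
  refine ⟨?_, ?_, ?_⟩ <;> linarith

theorem vert6 (P : Finset (EuclideanSpace ℝ (Fin 3)))
    (hP : ∀ q ∈ frontier K, ∃ p ∈ P, ∃ t : ℝ, 0 < t ∧ q + t • (q - p) ∈ interior K) :
    ∃ p ∈ P, C6 (p 0) (p 1) (p 2) := by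
  let q : EuclideanSpace ℝ (Fin 3) := !₂[(-1 : ℝ), -1, 1]
  have q0 : q 0 = -1 := by simp [q]
  have q1 : q 1 = -1 := by simp [q]
  have q2 : q 2 = 1 := by simp [q]
  have hqK : q ∈ K := by
    refine ⟨?_, ?_, ?_⟩ <;> simp only [q0, q1, q2] <;> norm_num
  have hfr : q ∈ frontier K := by
    refine frontier_of_tight (-1) (-1) (0) (by norm_num) ?_ q hqK (by rw [q0, q1, q2]; norm_num)
    intro x hx
    obtain ⟨u0, u1, u2, u3, u4, u5, u6, u7, u8, u9, u10, u11⟩ := facets x hx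
    linarith
  obtain ⟨p, hp, hill⟩ := hP q hfr
  refine ⟨p, hp, ?_⟩
  have t0 := illum_gt (-1) (-1) (0) (by norm_num) (by
    intro x hx
    obtain ⟨u0, u1, u2, u3, u4, u5, u6, u7, u8, u9, u10, u11⟩ := facets x hx
    linarith) p q (by rw [q0, q1, q2]; norm_num) hill
  have t1 := illum_gt (0) (-1) (1) (by norm_num) (by
    intro x hx
    obtain ⟨u0, u1, u2, u3, u4, u5, u6, u7, u8, u9, u10, u11⟩ := facets x hx
    linarith) p q (by rw [q0, q1, q2]; norm_num) hill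
  have t2 := illum_gt (-1) (0) (1) (by norm_num) (by
    intro x hx
    obtain ⟨u0, u1, u2, u3, u4, u5, u6, u7, u8, u9, u10, u11⟩ := facets x hx
    linarith) p q (by rw [q0, q1, q2]; norm_num) hill
  refine ⟨?_, ?_, ?_⟩ <;> linarith

theorem vert7 (P : Finset (EuclideanSpace ℝ (Fin 3)))
    (hP : ∀ q ∈ frontier K, ∃ p ∈ P, ∃ t : ℝ, 0 < t ∧ q + t • (q - p) ∈ interior K) :
    ∃ p ∈ P, C7 (p 0) (p 1) (p 2) := by
  let q : EuclideanSpace ℝ (Fin 3) := !₂[(-1 : ℝ), -1, -1]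
  have q0 : q 0 = -1 := by simp [q]
  have q1 : q 1 = -1 := by simp [q]
  have q2 : q 2 = -1 := by simp [q]
  have hqK : q ∈ K := by
    refine ⟨?_, ?_, ?_⟩ <;> simp only [q0, q1, q2] <;> norm_num
  have hfr : q ∈ frontier K := by
    refine frontier_of_tight (-1) (-1) (0) (by norm_num) ?_ q hqK (by rw [q0, q1, q2]; norm_num)
    intro x hx
    obtain ⟨u0, u1, u2, u3, u4, u5, u6, u7, u8, u9, u10, u11⟩ := facets x hx
    linarith
  obtain ⟨p, hp, hill⟩ := hP q hfr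
  refine ⟨p, hp, ?_⟩
  have t0 := illum_gt (-1) (-1) (0) (by norm_num) (by
    intro x hx
    obtain ⟨u0, u1, u2, u3, u4, u5, u6, u7, u8, u9, u10, u11⟩ := facets x hx
    linarith) p q (by rw [q0, q1, q2]; norm_num) hill
  have t1 := illum_gt (0) (-1) (-1) (by norm_num) (by
    intro x hx
    obtain ⟨u0, u1, u2, u3, u4, u5, u6, u7, u8, u9, u10, u11⟩ := facets x hx
    linarith) p q (by rw [q0, q1, q2]; norm_num) hill
  have t2 := illum_gt (-1) (0) (-1) (by norm_num) (by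
    intro x hx
    obtain ⟨u0, u1, u2, u3, u4, u5, u6, u7, u8, u9, u10, u11⟩ := facets x hx
    linarith) p q (by rw [q0, q1, q2]; norm_num) hill
  refine ⟨?_, ?_, ?_⟩ <;> linarith

theorem vert8 (P : Finset (EuclideanSpace ℝ (Fin 3)))
    (hP : ∀ q ∈ frontier K, ∃ p ∈ P, ∃ t : ℝ, 0 < t ∧ q + t • (q - p) ∈ interior K) :
    ∃ p ∈ P, C8 (p 0) (p 1) (p 2) := by
  let q : EuclideanSpace ℝ (Fin 3) := !₂[(2 : ℝ), 0, 0]
  have q0 : q 0 = 2 := by simp [q]
  have q1 : q 1 = 0 := by simp [q]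
  have q2 : q 2 = 0 := by simp [q]
  have hqK : q ∈ K := by
    refine ⟨?_, ?_, ?_⟩ <;> simp only [q0, q1, q2] <;> norm_num
  have hfr : q ∈ frontier K := by
    refine frontier_of_tight (1) (1) (0) (by norm_num) ?_ q hqK (by rw [q0, q1, q2]; norm_num)
    intro x hx
    obtain ⟨u0, u1, u2, u3, u4, u5, u6, u7, u8, u9, u10, u11⟩ := facets x hx
    linarith
  obtain ⟨p, hp, hill⟩ := hP q hfr
  refine ⟨p, hp, ?_⟩
  have t0 := illum_gt (1) (1) (0) (by norm_num) (by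
    intro x hx
    obtain ⟨u0, u1, u2, u3, u4, u5, u6, u7, u8, u9, u10, u11⟩ := facets x hx
    linarith) p q (by rw [q0, q1, q2]; norm_num) hill
  have t1 := illum_gt (1) (-1) (0) (by norm_num) (by
    intro x hx
    obtain ⟨u0, u1, u2, u3, u4, u5, u6, u7, u8, u9, u10, u11⟩ := facets x hx
    linarith) p q (by rw [q0, q1, q2]; norm_num) hill
  have t2 := illum_gt (1) (0) (1) (by norm_num) (by
    intro x hx
    obtain ⟨u0, u1, u2, u3, u4, u5, u6, u7, u8, u9, u10, u11⟩ := facets x hx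
    linarith) p q (by rw [q0, q1, q2]; norm_num) hill
  have t3 := illum_gt (1) (0) (-1) (by norm_num) (by
    intro x hx
    obtain ⟨u0, u1, u2, u3, u4, u5, u6, u7, u8, u9, u10, u11⟩ := facets x hx
    linarith) p q (by rw [q0, q1, q2]; norm_num) hill
  refine ⟨?_, ?_, ?_, ?_⟩ <;> linarith

theorem vert9 (P : Finset (EuclideanSpace ℝ (Fin 3)))
    (hP : ∀ q ∈ frontier K, ∃ p ∈ P, ∃ t : ℝ, 0 < t ∧ q + t • (q - p) ∈ interior K) :
    ∃ p ∈ P, C9 (p 0) (p 1) (p 2) := by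
  let q : EuclideanSpace ℝ (Fin 3) := !₂[(-2 : ℝ), 0, 0]
  have q0 : q 0 = -2 := by simp [q]
  have q1 : q 1 = 0 := by simp [q]
  have q2 : q 2 = 0 := by simp [q]
  have hqK : q ∈ K := by
    refine ⟨?_, ?_, ?_⟩ <;> simp only [q0, q1, q2] <;> norm_num
  have hfr : q ∈ frontier K := by
    refine frontier_of_tight (-1) (1) (0) (by norm_num) ?_ q hqK (by rw [q0, q1, q2]; norm_num)
    intro x hx
    obtain ⟨u0, u1, u2, u3, u4, u5, u6, u7, u8, u9, u10, u11⟩ := facets x hx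
    linarith
  obtain ⟨p, hp, hill⟩ := hP q hfr
  refine ⟨p, hp, ?_⟩
  have t0 := illum_gt (-1) (1) (0) (by norm_num) (by
    intro x hx
    obtain ⟨u0, u1, u2, u3, u4, u5, u6, u7, u8, u9, u10, u11⟩ := facets x hx
    linarith) p q (by rw [q0, q1, q2]; norm_num) hill
  have t1 := illum_gt (-1) (-1) (0) (by norm_num) (by
    intro x hx
    obtain ⟨u0, u1, u2, u3, u4, u5, u6, u7, u8, u9, u10, u11⟩ := facets x hx
    linarith) p q (by rw [q0, q1, q2]; norm_num) hill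
  have t2 := illum_gt (-1) (0) (1) (by norm_num) (by
    intro x hx
    obtain ⟨u0, u1, u2, u3, u4, u5, u6, u7, u8, u9, u10, u11⟩ := facets x hx
    linarith) p q (by rw [q0, q1, q2]; norm_num) hill
  have t3 := illum_gt (-1) (0) (-1) (by norm_num) (by
    intro x hx
    obtain ⟨u0, u1, u2, u3, u4, u5, u6, u7, u8, u9, u10, u11⟩ := facets x hx
    linarith) p q (by rw [q0, q1, q2]; norm_num) hill
  refine ⟨?_, ?_, ?_, ?_⟩ <;> linarith

theorem vert10 (P : Finset (EuclideanSpace ℝ (Fin 3)))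
    (hP : ∀ q ∈ frontier K, ∃ p ∈ P, ∃ t : ℝ, 0 < t ∧ q + t • (q - p) ∈ interior K) :
    ∃ p ∈ P, C10 (p 0) (p 1) (p 2) := by
  let q : EuclideanSpace ℝ (Fin 3) := !₂[(0 : ℝ), 2, 0]
  have q0 : q 0 = 0 := by simp [q]
  have q1 : q 1 = 2 := by simp [q]
  have q2 : q 2 = 0 := by simp [q]
  have hqK : q ∈ K := by
    refine ⟨?_, ?_, ?_⟩ <;> simp only [q0, q1, q2] <;> norm_num
  have hfr : q ∈ frontier K := by
    refine frontier_of_tight (1) (1) (0) (by norm_num) ?_ q hqK (by rw [q0, q1, q2]; norm_num)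
    intro x hx
    obtain ⟨u0, u1, u2, u3, u4, u5, u6, u7, u8, u9, u10, u11⟩ := facets x hx
    linarith
  obtain ⟨p, hp, hill⟩ := hP q hfr
  refine ⟨p, hp, ?_⟩
  have t0 := illum_gt (1) (1) (0) (by norm_num) (by
    intro x hx
    obtain ⟨u0, u1, u2, u3, u4, u5, u6, u7, u8, u9, u10, u11⟩ := facets x hx
    linarith) p q (by rw [q0, q1, q2]; norm_num) hill
  have t1 := illum_gt (-1) (1) (0) (by norm_num) (by
    intro x hx
    obtain ⟨u0, u1, u2, u3, u4, u5, u6, u7, u8, u9, u10, u11⟩ := facets x hx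
    linarith) p q (by rw [q0, q1, q2]; norm_num) hill
  have t2 := illum_gt (0) (1) (1) (by norm_num) (by
    intro x hx
    obtain ⟨u0, u1, u2, u3, u4, u5, u6, u7, u8, u9, u10, u11⟩ := facets x hx
    linarith) p q (by rw [q0, q1, q2]; norm_num) hill
  have t3 := illum_gt (0) (1) (-1) (by norm_num) (by
    intro x hx
    obtain ⟨u0, u1, u2, u3, u4, u5, u6, u7, u8, u9, u10, u11⟩ := facets x hx
    linarith) p q (by rw [q0, q1, q2]; norm_num) hill
  refine ⟨?_, ?_, ?_, ?_⟩ <;> linarith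

theorem vert11 (P : Finset (EuclideanSpace ℝ (Fin 3)))
    (hP : ∀ q ∈ frontier K, ∃ p ∈ P, ∃ t : ℝ, 0 < t ∧ q + t • (q - p) ∈ interior K) :
    ∃ p ∈ P, C11 (p 0) (p 1) (p 2) := by
  let q : EuclideanSpace ℝ (Fin 3) := !₂[(0 : ℝ), -2, 0]
  have q0 : q 0 = 0 := by simp [q]
  have q1 : q 1 = -2 := by simp [q]
  have q2 : q 2 = 0 := by simp [q]
  have hqK : q ∈ K := by
    refine ⟨?_, ?_, ?_⟩ <;> simp only [q0, q1, q2] <;> norm_num
  have hfr : q ∈ frontier K := by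
    refine frontier_of_tight (1) (-1) (0) (by norm_num) ?_ q hqK (by rw [q0, q1, q2]; norm_num)
    intro x hx
    obtain ⟨u0, u1, u2, u3, u4, u5, u6, u7, u8, u9, u10, u11⟩ := facets x hx
    linarith
  obtain ⟨p, hp, hill⟩ := hP q hfr
  refine ⟨p, hp, ?_⟩
  have t0 := illum_gt (1) (-1) (0) (by norm_num) (by
    intro x hx
    obtain ⟨u0, u1, u2, u3, u4, u5, u6, u7, u8, u9, u10, u11⟩ := facets x hx
    linarith) p q (by rw [q0, q1, q2]; norm_num) hill
  have t1 := illum_gt (-1) (-1) (0) (by norm_num) (by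
    intro x hx
    obtain ⟨u0, u1, u2, u3, u4, u5, u6, u7, u8, u9, u10, u11⟩ := facets x hx
    linarith) p q (by rw [q0, q1, q2]; norm_num) hill
  have t2 := illum_gt (0) (-1) (1) (by norm_num) (by
    intro x hx
    obtain ⟨u0, u1, u2, u3, u4, u5, u6, u7, u8, u9, u10, u11⟩ := facets x hx
    linarith) p q (by rw [q0, q1, q2]; norm_num) hill
  have t3 := illum_gt (0) (-1) (-1) (by norm_num) (by
    intro x hx
    obtain ⟨u0, u1, u2, u3, u4, u5, u6, u7, u8, u9, u10, u11⟩ := facets x hx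
    linarith) p q (by rw [q0, q1, q2]; norm_num) hill
  refine ⟨?_, ?_, ?_, ?_⟩ <;> linarith

theorem vert12 (P : Finset (EuclideanSpace ℝ (Fin 3)))
    (hP : ∀ q ∈ frontier K, ∃ p ∈ P, ∃ t : ℝ, 0 < t ∧ q + t • (q - p) ∈ interior K) :
    ∃ p ∈ P, C12 (p 0) (p 1) (p 2) := by
  let q : EuclideanSpace ℝ (Fin 3) := !₂[(0 : ℝ), 0, 2]
  have q0 : q 0 = 0 := by simp [q]
  have q1 : q 1 = 0 := by simp [q]
  have q2 : q 2 = 2 := by simp [q]
  have hqK : q ∈ K := by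
    refine ⟨?_, ?_, ?_⟩ <;> simp only [q0, q1, q2] <;> norm_num
  have hfr : q ∈ frontier K := by
    refine frontier_of_tight (0) (1) (1) (by norm_num) ?_ q hqK (by rw [q0, q1, q2]; norm_num)
    intro x hx
    obtain ⟨u0, u1, u2, u3, u4, u5, u6, u7, u8, u9, u10, u11⟩ := facets x hx
    linarith
  obtain ⟨p, hp, hill⟩ := hP q hfr
  refine ⟨p, hp, ?_⟩
  have t0 := illum_gt (0) (1) (1) (by norm_num) (by
    intro x hx
    obtain ⟨u0, u1, u2, u3, u4, u5, u6, u7, u8, u9, u10, u11⟩ := facets x hx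
    linarith) p q (by rw [q0, q1, q2]; norm_num) hill
  have t1 := illum_gt (0) (-1) (1) (by norm_num) (by
    intro x hx
    obtain ⟨u0, u1, u2, u3, u4, u5, u6, u7, u8, u9, u10, u11⟩ := facets x hx
    linarith) p q (by rw [q0, q1, q2]; norm_num) hill
  have t2 := illum_gt (1) (0) (1) (by norm_num) (by
    intro x hx
    obtain ⟨u0, u1, u2, u3, u4, u5, u6, u7, u8, u9, u10, u11⟩ := facets x hx
    linarith) p q (by rw [q0, q1, q2]; norm_num) hill
  have t3 := illum_gt (-1) (0) (1) (by norm_num) (by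
    intro x hx
    obtain ⟨u0, u1, u2, u3, u4, u5, u6, u7, u8, u9, u10, u11⟩ := facets x hx
    linarith) p q (by rw [q0, q1, q2]; norm_num) hill
  refine ⟨?_, ?_, ?_, ?_⟩ <;> linarith

theorem vert13 (P : Finset (EuclideanSpace ℝ (Fin 3)))
    (hP : ∀ q ∈ frontier K, ∃ p ∈ P, ∃ t : ℝ, 0 < t ∧ q + t • (q - p) ∈ interior K) :
    ∃ p ∈ P, C13 (p 0) (p 1) (p 2) := by
  let q : EuclideanSpace ℝ (Fin 3) := !₂[(0 : ℝ), 0, -2]
  have q0 : q 0 = 0 := by simp [q]
  have q1 : q 1 = 0 := by simp [q]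
  have q2 : q 2 = -2 := by simp [q]
  have hqK : q ∈ K := by
    refine ⟨?_, ?_, ?_⟩ <;> simp only [q0, q1, q2] <;> norm_num
  have hfr : q ∈ frontier K := by
    refine frontier_of_tight (0) (1) (-1) (by norm_num) ?_ q hqK (by rw [q0, q1, q2]; norm_num)
    intro x hx
    obtain ⟨u0, u1, u2, u3, u4, u5, u6, u7, u8, u9, u10, u11⟩ := facets x hx
    linarith
  obtain ⟨p, hp, hill⟩ := hP q hfr
  refine ⟨p, hp, ?_⟩
  have t0 := illum_gt (0) (1) (-1) (by norm_num) (by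
    intro x hx
    obtain ⟨u0, u1, u2, u3, u4, u5, u6, u7, u8, u9, u10, u11⟩ := facets x hx
    linarith) p q (by rw [q0, q1, q2]; norm_num) hill
  have t1 := illum_gt (0) (-1) (-1) (by norm_num) (by
    intro x hx
    obtain ⟨u0, u1, u2, u3, u4, u5, u6, u7, u8, u9, u10, u11⟩ := facets x hx
    linarith) p q (by rw [q0, q1, q2]; norm_num) hill
  have t2 := illum_gt (1) (0) (-1) (by norm_num) (by
    intro x hx
    obtain ⟨u0, u1, u2, u3, u4, u5, u6, u7, u8, u9, u10, u11⟩ := facets x hx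
    linarith) p q (by rw [q0, q1, q2]; norm_num) hill
  have t3 := illum_gt (-1) (0) (-1) (by norm_num) (by
    intro x hx
    obtain ⟨u0, u1, u2, u3, u4, u5, u6, u7, u8, u9, u10, u11⟩ := facets x hx
    linarith) p q (by rw [q0, q1, q2]; norm_num) hill
  refine ⟨?_, ?_, ?_, ?_⟩ <;> linarith

/-- The negation of the preceding statement: For every origin-symmetric convex body K in 3-space and every ε>0, some finite set of points outside K illuminates every boundary point of K, with the sum of their K-norms below 12+ε; that is, ill(K) ≤ 12. -/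
theorem result :
    ¬ (∀ K : Set (EuclideanSpace ℝ (Fin 3)),
      Convex ℝ K → IsCompact K → (interior K).Nonempty → (∀ x ∈ K, -x ∈ K) →
      ∀ ε : ℝ, 0 < ε →
        ∃ P : Finset (EuclideanSpace ℝ (Fin 3)),
          (∀ p ∈ P, p ∉ K) ∧
          (∀ q ∈ frontier K, ∃ p ∈ P, ∃ t : ℝ, 0 < t ∧ q + t • (q - p) ∈ interior K) ∧
          ∑ p ∈ P, gauge K p < 12 + ε) := by
  intro H
  obtain ⟨P, -, hill, hsum⟩ := H K K_convex K_compact
    ⟨0, mem_interior_iff_mem_nhds.mpr nhds_zero⟩ K_symm 2 (by norm_num)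
  have hF : ∀ p ∈ P, F (p 0) (p 1) (p 2) ≤ gauge K p := by
    intro p _
    have g0 := gauge_ge (1) (1) (0) (by
      intro x hx
      obtain ⟨u0, u1, u2, u3, u4, u5, u6, u7, u8, u9, u10, u11⟩ := facets x hx
      linarith) p
    have g1 := gauge_ge (1) (-1) (0) (by
      intro x hx
      obtain ⟨u0, u1, u2, u3, u4, u5, u6, u7, u8, u9, u10, u11⟩ := facets x hx
      linarith) p
    have g2 := gauge_ge (-1) (1) (0) (by
      intro x hx
      obtain ⟨u0, u1, u2, u3, u4, u5, u6, u7, u8, u9, u10, u11⟩ := facets x hx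
      linarith) p
    have g3 := gauge_ge (-1) (-1) (0) (by
      intro x hx
      obtain ⟨u0, u1, u2, u3, u4, u5, u6, u7, u8, u9, u10, u11⟩ := facets x hx
      linarith) p
    have g4 := gauge_ge (0) (1) (1) (by
      intro x hx
      obtain ⟨u0, u1, u2, u3, u4, u5, u6, u7, u8, u9, u10, u11⟩ := facets x hx
      linarith) p
    have g5 := gauge_ge (0) (1) (-1) (by
      intro x hx
      obtain ⟨u0, u1, u2, u3, u4, u5, u6, u7, u8, u9, u10, u11⟩ := facets x hx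
      linarith) p
    have g6 := gauge_ge (0) (-1) (1) (by
      intro x hx
      obtain ⟨u0, u1, u2, u3, u4, u5, u6, u7, u8, u9, u10, u11⟩ := facets x hx
      linarith) p
    have g7 := gauge_ge (0) (-1) (-1) (by
      intro x hx
      obtain ⟨u0, u1, u2, u3, u4, u5, u6, u7, u8, u9, u10, u11⟩ := facets x hx
      linarith) p
    have g8 := gauge_ge (1) (0) (1) (by
      intro x hx
      obtain ⟨u0, u1, u2, u3, u4, u5, u6, u7, u8, u9, u10, u11⟩ := facets x hx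
      linarith) p
    have g9 := gauge_ge (1) (0) (-1) (by
      intro x hx
      obtain ⟨u0, u1, u2, u3, u4, u5, u6, u7, u8, u9, u10, u11⟩ := facets x hx
      linarith) p
    have g10 := gauge_ge (-1) (0) (1) (by
      intro x hx
      obtain ⟨u0, u1, u2, u3, u4, u5, u6, u7, u8, u9, u10, u11⟩ := facets x hx
      linarith) p
    have g11 := gauge_ge (-1) (0) (-1) (by
      intro x hx
      obtain ⟨u0, u1, u2, u3, u4, u5, u6, u7, u8, u9, u10, u11⟩ := facets x hx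
      linarith) p
    apply F_le <;> linarith
  have h14 : (14 : ℝ) ≤ ∑ p ∈ P, F (p 0) (p 1) (p 2) := by
    simp only [F, Finset.sum_add_distrib]
    have s0 := one_le_sum P C0 (vert0 P hill)
    have s1 := one_le_sum P C1 (vert1 P hill)
    have s2 := one_le_sum P C2 (vert2 P hill)
    have s3 := one_le_sum P C3 (vert3 P hill)
    have s4 := one_le_sum P C4 (vert4 P hill)
    have s5 := one_le_sum P C5 (vert5 P hill)
    have s6 := one_le_sum P C6 (vert6 P hill)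
    have s7 := one_le_sum P C7 (vert7 P hill)
    have s8 := one_le_sum P C8 (vert8 P hill)
    have s9 := one_le_sum P C9 (vert9 P hill)
    have s10 := one_le_sum P C10 (vert10 P hill)
    have s11 := one_le_sum P C11 (vert11 P hill)
    have s12 := one_le_sum P C12 (vert12 P hill)
    have s13 := one_le_sum P C13 (vert13 P hill)
    linarith
  have := Finset.sum_le_sum hF
  linarith

end Pool.Agent.S07806
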