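import Pool.Statements.S08043
import Pool.Agent.Helper32.PD.DenseQ

set_option autoImplicit false
open Pool Pool.MP_34cda4_co

namespace Pool.Agent.S08043

/-- For every finite bipartite graph H there is C>0 such that for all s≥1, every finite graph with no K_{s,s} subgraph and no induced copy of H in any graph reachable from it by edge pivots has degree sum at most C·s·∣V∣. -/
theorem result :
  ∀ (W : Type) [Fintype W] (H : SimpleGraph W), H.Colorable 2 →
    ∃ C : ℝ, 0 < C ∧ ∀ s : ℕ, 0 < s →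
      ∀ (V : Type) [Fintype V] (G : SimpleGraph V) [DecidableRel G.Adj],
        (¬ ∃ f : completeBipartiteGraph (Fin s) (Fin s) →g G, Function.Injective f) →
        (¬ ∃ G' : SimpleGraph V,
            Relation.ReflTransGen
              (fun (A B : SimpleGraph V) => ∃ u v : V, A.Adj u v ∧
                B = SimpleGraph.fromRel (fun x y => Xor' (A.Adj x y)
                  ((((A.Adj u x ∧ A.Adj v x) ∧ (A.Adj u y ∧ ¬ A.Adj v y ∧ y ≠ v)) ∨
                    ((A.Adj u x ∧ ¬ A.Adj v x ∧ x ≠ v) ∧ (A.Adj u y ∧ A.Adj v y)) ∨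
                    ((A.Adj u x ∧ A.Adj v x) ∧ (A.Adj v y ∧ ¬ A.Adj u y ∧ y ≠ u)) ∨
                    ((A.Adj v x ∧ ¬ A.Adj u x ∧ x ≠ u) ∧ (A.Adj u y ∧ A.Adj v y)) ∨
                    ((A.Adj u x ∧ ¬ A.Adj v x ∧ x ≠ v) ∧ (A.Adj v y ∧ ¬ A.Adj u y ∧ y ≠ u)) ∨
                    ((A.Adj v x ∧ ¬ A.Adj u x ∧ x ≠ u) ∧ (A.Adj u y ∧ ¬ A.Adj v y ∧ y ≠ v))))))
              G G' ∧ Nonempty (H ↪g G')) →
        (∑ x, (G.degree x : ℝ)) ≤ C * (s : ℝ) * (Fintype.card V : ℝ) := by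
  intro W _ H hH
  exact Pool.Agent.Helper35.PM.frozen_of_dense W H hH (Pool.Agent.Helper32.PD.Fin.denseQ H hH)

end Pool.Agent.S08043
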