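import Pool.Statements.S08974
import Pool.Agent.Helper15.ZeroSumUV

set_option autoImplicit false
open Pool Pool.MP_5beb4b_co

namespace Pool.Agent.S08974

open Pool.Agent.Helper15.ZeroSumUV

/-- The index set of the zero-sum set `U`: the `243` points of `F_3^5`. -/
abbrev P := Fin 5 → ZMod 3

/-- The standard affine basis of `F_3^5`. -/
def B : Finset P := insert 0 (Finset.univ.image (fun j : Fin 5 => (Pi.single j 1 : P)))

lemma card_compl : Fintype.card {u : P // u ∉ B} = 237 := by
  rw [Fintype.card_subtype_compl, Fintype.card_coe]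
  have h1 : Fintype.card P = 243 := by simp [ZMod.card]
  have h2 : B.card = 6 := by decide +kernel
  rw [h1, h2]

/-- An enumeration of the points outside the affine basis. -/
noncomputable def enum : Fin 237 ≃ {u : P // u ∉ B} :=
  (Fintype.equivFinOfCardEq card_compl).symm

/-- The orders of the cyclic factors: `3` (`235` times), `6` (twice). -/
def nn (i : Fin 237) : ℕ := if i.val < 235 then 3 else 6

/-- Parity checks modulo 3: `∑ y u * beta u v = 0` says that `y v` is given by the affine
interpolation of the values of `y` on the affine basis. -/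
def beta (u v : P) : ZMod 3 :=
  (if u = v then 1 else 0) - (if u = 0 then 1 - ∑ j, v j else 0)
    - ∑ j, (if u = Pi.single j 1 then v j else 0)

lemma sum_gen {Q J R : Type*} [Fintype Q] [DecidableEq Q] [Fintype J] [CommRing R]
    (y : Q → R) (v0 z0 : Q) (e : J → Q) (a : R) (w : J → R) :
    ∑ u, y u * ((if u = v0 then 1 else 0) - (if u = z0 then a else 0)
      - ∑ j, (if u = e j then w j else 0)) = y v0 - y z0 * a - ∑ j, y (e j) * w j := by
  have h1 : ∑ u, y u * (if u = v0 then (1 : R) else 0) = y v0 := by simp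
  have h2 : ∑ u, y u * (if u = z0 then a else 0) = y z0 * a := by simp
  have h3 : ∑ u, y u * ∑ j, (if u = e j then w j else 0) = ∑ j, y (e j) * w j := by
    simp_rw [Finset.mul_sum]
    rw [Finset.sum_comm]
    simp
  rw [← h1, ← h2, ← h3, ← Finset.sum_sub_distrib, ← Finset.sum_sub_distrib]
  refine Finset.sum_congr rfl fun u _ => ?_
  ring

lemma sum_beta (y : P → ZMod 3) (v : P) :
    ∑ u, y u * beta u v = y v - y 0 * (1 - ∑ j, v j) - ∑ j, y (Pi.single j 1) * v j :=
  sum_gen y v 0 (fun j => Pi.single j 1) (1 - ∑ j, v j) v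

/-- A code for the points, used to choose one point from each pair `u, -u`. -/
noncomputable def code : P ≃ Fin (Fintype.card P) := Fintype.equivFin P

/-- First parity. -/
def al1 (u : P) : ℤ := if u = 0 then 0 else 1

open Classical in
/-- Second parity. -/
noncomputable def al2 (u : P) : ℤ := if u = 0 ∨ code u < code (-u) then 1 else 0

/-- The parities, as a function of the cyclic factor. -/
noncomputable def al (u : P) (i : Fin 237) : ℤ :=
  if i.val = 235 then al1 u else if i.val = 236 then al2 u else 0

/-- Integer representatives of the coordinates of the elements `g u`. -/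
noncomputable def m (u : P) (i : Fin 237) : ℤ := 4 * ((beta u (enum i)).val : ℤ) + 3 * al u i

/-- The elements of the zero-sum set `U`. -/
noncomputable def g (u : P) : (i : Fin 237) → ZMod (nn i) := fun i => ((m u i : ℤ) : ZMod (nn i))

lemma three_dvd (i : Fin 237) : (3 : ℤ) ∣ (nn i : ℤ) := by
  unfold nn
  split_ifs <;> norm_num

lemma rel_dvd {c : P → ℤ} (h : ∑ u, c u • g u = 0) (i : Fin 237) :
    (nn i : ℤ) ∣ ∑ u, c u * m u i := by
  have h1 := congrFun h i
  simp only [Finset.sum_apply, Pi.smul_apply, Pi.zero_apply, g] at h1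
  have h2 : ((∑ u, c u * m u i : ℤ) : ZMod (nn i)) = 0 := by
    rw [← h1]
    push_cast
    simp [zsmul_eq_mul]
  exact (ZMod.intCast_zmod_eq_zero_iff_dvd _ _).1 h2

lemma rel_three {c : P → ℤ} (h : ∑ u, c u • g u = 0) (i : Fin 237) :
    ∑ u, (c u : ZMod 3) * beta u (enum i) = 0 := by
  have h1 : ((3 : ℕ) : ℤ) ∣ ∑ u, c u * m u i := (three_dvd i).trans (rel_dvd h i)
  have h2 := (ZMod.intCast_zmod_eq_zero_iff_dvd _ 3).2 h1
  rw [← h2]
  push_cast
  refine Finset.sum_congr rfl fun u _ => ?_
  congr 1
  rw [m]
  push_cast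
  rw [ZMod.natCast_zmod_val]
  have h3 : (3 : ZMod 3) = 0 := by decide
  have h4 : (4 : ZMod 3) = 1 := by decide
  rw [h3, h4]
  ring

lemma affine {c : P → ℤ} (h : ∑ u, c u • g u = 0) (v : P) :
    (c v : ZMod 3) = (c 0 : ZMod 3) +
      ∑ j, ((c (Pi.single j 1) : ZMod 3) - (c 0 : ZMod 3)) * v j := by
  have key : ∀ v : P, v ∉ B → (c v : ZMod 3) = (c 0 : ZMod 3) +
      ∑ j, ((c (Pi.single j 1) : ZMod 3) - (c 0 : ZMod 3)) * v j := by
    intro v hv
    have h1 := rel_three h (enum.symm ⟨v, hv⟩)
    rw [Equiv.apply_symm_apply] at h1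
    simp only at h1
    rw [sum_beta (fun u => (c u : ZMod 3))] at h1
    simp only [sub_mul, Finset.sum_sub_distrib, ← Finset.mul_sum]
    linear_combination h1
  by_cases hv : v ∈ B
  · rw [B, Finset.mem_insert, Finset.mem_image] at hv
    rcases hv with rfl | ⟨j, _, rfl⟩
    · simp
    · simp [Pi.single_apply]
  · exact key v hv

/-- The fibre of the linear form `z` over `s`. -/
def fib (z : P) (s : ZMod 3) : Finset P := Finset.univ.filter (fun u => ∑ j, z j * u j = s)

lemma fib_card_succ (z w : P) (hw : ∑ j, z j * w j = 1) (s : ZMod 3) :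
    (fib z (s + 1)).card = (fib z s).card := by
  refine Finset.card_bij' (fun u _ => u - w) (fun u _ => u + w) ?_ ?_ ?_ ?_
  · intro u hu
    simp only [fib, Finset.mem_filter, Finset.mem_univ, true_and, Pi.sub_apply, mul_sub,
      Finset.sum_sub_distrib] at hu ⊢
    rw [hu, hw]
    ring
  · intro u hu
    simp only [fib, Finset.mem_filter, Finset.mem_univ, true_and, Pi.add_apply, mul_add,
      Finset.sum_add_distrib] at hu ⊢
    rw [hu, hw]
  · intro u _
    simp
  · intro u _
    simp

lemma fib_card {z : P} (hz : z ≠ 0) (s : ZMod 3) : (fib z s).card = 81 := by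
  obtain ⟨j, hj⟩ : ∃ j, z j ≠ 0 := by
    by_contra hcon
    push Not at hcon
    exact hz (funext hcon)
  have hw : ∑ i, z i * (Pi.single j (z j)⁻¹ : P) i = 1 := by
    rw [Finset.sum_eq_single j]
    · rw [Pi.single_eq_same]
      have : Fact (Nat.Prime 3) := ⟨Nat.prime_three⟩
      exact mul_inv_cancel₀ hj
    · intro i _ hi
      rw [Pi.single_eq_of_ne hi, mul_zero]
    · simp
  have h0 := fib_card_succ z _ hw 0
  have h1 := fib_card_succ z _ hw 1
  have h2 := fib_card_succ z _ hw 2
  have htot : (fib z 0).card + (fib z 1).card + (fib z 2).card = 243 := by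
    have h3 := Finset.card_eq_sum_card_fiberwise (f := fun u : P => ∑ j, z j * u j)
      (s := Finset.univ) (t := Finset.univ) (fun _ _ => by simp)
    rw [Finset.card_univ] at h3
    have h4 : Fintype.card P = 243 := by simp [ZMod.card]
    rw [h4] at h3
    rw [h3]
    have h5 : (Finset.univ : Finset (ZMod 3)) = {0, 1, 2} := by decide
    rw [h5, Finset.sum_insert (by decide), Finset.sum_insert (by decide), Finset.sum_singleton]
    simp only [fib]
    ring
  have e1 : (0 : ZMod 3) + 1 = 1 := by decide
  have e2 : (1 : ZMod 3) + 1 = 2 := by decide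
  rw [e1] at h0
  rw [e2] at h1
  have hs : s = 0 ∨ s = 1 ∨ s = 2 := by
    revert s; decide
  rcases hs with rfl | rfl | rfl <;> omega

/-- The set of points where the affine function `t + z · u` does not vanish. -/
def sup (t : ZMod 3) (z : P) : Finset P := Finset.univ.filter (fun u => t + ∑ j, z j * u j ≠ 0)

lemma sup_card {z : P} (hz : z ≠ 0) (t : ZMod 3) : (sup t z).card = 162 := by
  have h1 : sup t z = (fib z (-t))ᶜ := by
    ext u
    simp only [sup, fib, Finset.mem_filter, Finset.mem_univ, true_and, Finset.mem_compl, ne_eq]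
    rw [not_iff_not]
    constructor
    · intro h
      linear_combination h
    · intro h
      linear_combination h
  rw [h1, Finset.card_compl, fib_card hz]
  have h4 : Fintype.card P = 243 := by simp [ZMod.card]
  rw [h4]

/-- One point of each pair `u, -u`. -/
noncomputable def half (z : P) : Finset P := (sup 0 z).filter (fun u => code u < code (-u))

lemma neg_ne {u : P} (hu : u ≠ 0) : u ≠ -u := by
  intro h
  apply hu
  ext j
  have h1 := congrFun h j
  rw [Pi.neg_apply] at h1
  have : ∀ a : ZMod 3, a = -a → a = 0 := by decide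
  rw [this _ h1]
  rfl

lemma mem_sup_zero_neg {z u : P} : -u ∈ sup 0 z ↔ u ∈ sup 0 z := by
  simp [sup]

lemma half_card {z : P} (hz : z ≠ 0) : (half z).card = 81 := by
  have h1 : (half z).card = ((sup 0 z).filter (fun u => ¬ code u < code (-u))).card := by
    refine Finset.card_bij' (fun u _ => -u) (fun u _ => -u) ?_ ?_ ?_ ?_
    · intro u hu
      simp only [half, Finset.mem_filter] at hu ⊢
      refine ⟨mem_sup_zero_neg.2 hu.1, ?_⟩
      rw [neg_neg]
      exact not_lt.2 hu.2.le
    · intro u hu
      simp only [half, Finset.mem_filter] at hu ⊢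
      refine ⟨mem_sup_zero_neg.2 hu.1, ?_⟩
      rw [neg_neg]
      have hne : u ≠ 0 := by
        rintro rfl
        have := hu.1
        simp [sup] at this
      rcases lt_trichotomy (code u) (code (-u)) with h | h | h
      · exact absurd h hu.2
      · exact absurd (code.injective h) (neg_ne hne)
      · exact h
    · intro u _
      simp
    · intro u _
      simp
  have h2 := Finset.card_filter_add_card_filter_not (s := sup 0 z) (fun u => code u < code (-u))
  rw [sup_card hz] at h2
  have h3 : (half z).card = ((sup 0 z).filter (fun u => code u < code (-u))).card := rfl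
  omega

lemma parity_cast {a : ℤ} (h : a = -1 ∨ a = 0 ∨ a = 1) :
    (a : ZMod 2) = if (a : ZMod 3) = 0 then 0 else 1 := by
  rcases h with rfl | rfl | rfl
  · have h1 : ((-1 : ℤ) : ZMod 2) = 1 := by decide
    have h2 : ((-1 : ℤ) : ZMod 3) ≠ 0 := by decide
    rw [h1, if_neg h2]
  · simp
  · have h2 : ((1 : ℤ) : ZMod 3) ≠ 0 := by decide
    rw [if_neg h2]
    simp

lemma rel_two {c : P → ℤ} (h : ∑ u, c u • g u = 0) (i : Fin 237) (hi : nn i = 6) :
    ∑ u, (c u : ZMod 2) * (al u i : ZMod 2) = 0 := by
  have h0 := rel_dvd h i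
  rw [hi] at h0
  have h1 : ((2 : ℕ) : ℤ) ∣ ∑ u, c u * m u i := (by norm_num : ((2 : ℕ) : ℤ) ∣ ((6 : ℕ) : ℤ)).trans h0
  have h2 := (ZMod.intCast_zmod_eq_zero_iff_dvd _ 2).2 h1
  rw [← h2]
  push_cast
  refine Finset.sum_congr rfl fun u _ => ?_
  congr 1
  rw [m]
  push_cast
  have h3 : (3 : ZMod 2) = 1 := by decide
  have h4 : (4 : ZMod 2) = 0 := by decide
  rw [h3, h4]
  ring

theorem onlyTrivial : OnlyTrivial g := by
  intro c hc h
  set t : ZMod 3 := (c 0 : ZMod 3) with ht
  set z : P := fun j => (c (Pi.single j 1) : ZMod 3) - (c 0 : ZMod 3) with hz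
  have haff : ∀ v : P, (c v : ZMod 3) = t + ∑ j, z j * v j := fun v => affine h v
  have hpar : ∀ u, (c u : ZMod 2) = if u ∈ sup t z then 1 else 0 := by
    intro u
    rw [parity_cast (hc u), haff u]
    by_cases hu : t + ∑ j, z j * u j = 0
    · rw [if_pos hu, if_neg (by simp [sup, hu])]
    · rw [if_neg hu, if_pos (by simp [sup, hu])]
  have hz0 : z = 0 := by
    by_contra hzn
    by_cases ht0 : t = 0
    · -- second parity
      have h1 := rel_two h ⟨236, by norm_num⟩ (by simp [nn])
      have h2 : ∀ u, (c u : ZMod 2) * (al u ⟨236, by norm_num⟩ : ZMod 2) =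
          if u ∈ half z then 1 else 0 := by
        intro u
        rw [hpar u, ht0]
        by_cases hu : u ∈ sup 0 z
        · have hne : u ≠ 0 := by
            rintro rfl
            simp [sup] at hu
          by_cases hcode : code u < code (-u)
          · simp [al, al2, half, hu, hcode]
          · simp [al, al2, half, hu, hcode, hne]
        · simp [half, hu]
      rw [Finset.sum_congr rfl (fun u _ => h2 u)] at h1
      rw [Finset.sum_boole, Finset.filter_mem_eq_inter, Finset.univ_inter, half_card hzn] at h1
      revert h1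
      decide
    · -- first parity
      have h1 := rel_two h ⟨235, by norm_num⟩ (by simp [nn])
      have h2 : ∀ u, (c u : ZMod 2) * (al u ⟨235, by norm_num⟩ : ZMod 2) =
          if u ∈ (sup t z).erase 0 then 1 else 0 := by
        intro u
        rw [hpar u]
        by_cases hu : u ∈ sup t z
        · by_cases hu0 : u = 0
          · simp [al, al1, hu0]
          · simp [al, al1, hu0, hu]
        · simp [hu]
      rw [Finset.sum_congr rfl (fun u _ => h2 u)] at h1
      have h0 : (0 : P) ∈ sup t z := by simp [sup, ht0]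
      rw [Finset.sum_boole, Finset.filter_mem_eq_inter, Finset.univ_inter,
        Finset.card_erase_of_mem h0, sup_card hzn] at h1
      revert h1
      decide
  have hconst : ∀ u, (c u : ZMod 3) = t := by
    intro u
    rw [haff u, hz0]
    simp
  rcases hc 0 with h0 | h0 | h0
  · right; right
    intro u
    have h1 := hconst u
    rw [ht, h0] at h1
    rcases hc u with h2 | h2 | h2
    · exact h2
    · rw [h2] at h1; exact absurd h1 (by decide)
    · rw [h2] at h1; exact absurd h1 (by decide)
  · left
    intro u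
    have h1 := hconst u
    rw [ht, h0] at h1
    rcases hc u with h2 | h2 | h2
    · rw [h2] at h1; exact absurd h1 (by decide)
    · exact h2
    · rw [h2] at h1; exact absurd h1 (by decide)
  · right; left
    intro u
    have h1 := hconst u
    rw [ht, h0] at h1
    rcases hc u with h2 | h2 | h2
    · rw [h2] at h1; exact absurd h1 (by decide)
    · rw [h2] at h1; exact absurd h1 (by decide)
    · exact h2

lemma nn_cases (i : Fin 237) : nn i = 3 ∨ nn i = 6 := by
  unfold nn
  split_ifs <;> simp

lemma sum_al1 : (∑ u : P, (al1 u : ZMod 2)) = 0 := by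
  have h1 : ∀ u : P, (al1 u : ZMod 2) = if u ∈ (Finset.univ : Finset P).erase 0 then 1 else 0 := by
    intro u
    by_cases hu : u = 0 <;> simp [al1, hu]
  rw [Finset.sum_congr rfl (fun u _ => h1 u), Finset.sum_boole, Finset.filter_mem_eq_inter,
    Finset.univ_inter, Finset.card_erase_of_mem (Finset.mem_univ _), Finset.card_univ]
  have h4 : Fintype.card P = 243 := by simp [ZMod.card]
  rw [h4]
  decide

/-- One point of each pair, all points. -/
noncomputable def halfAll : Finset P :=
  ((Finset.univ : Finset P).erase 0).filter (fun u => code u < code (-u))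

lemma halfAll_card : halfAll.card = 121 := by
  have h1 : halfAll.card =
      (((Finset.univ : Finset P).erase 0).filter (fun u => ¬ code u < code (-u))).card := by
    refine Finset.card_bij' (fun u _ => -u) (fun u _ => -u) ?_ ?_ ?_ ?_
    · intro u hu
      simp only [halfAll, Finset.mem_filter, Finset.mem_erase, Finset.mem_univ, and_true] at hu ⊢
      refine ⟨neg_ne_zero.2 hu.1, ?_⟩
      rw [neg_neg]
      exact not_lt.2 hu.2.le
    · intro u hu
      simp only [halfAll, Finset.mem_filter, Finset.mem_erase, Finset.mem_univ, and_true] at hu ⊢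
      refine ⟨neg_ne_zero.2 hu.1, ?_⟩
      rw [neg_neg]
      rcases lt_trichotomy (code u) (code (-u)) with h | h | h
      · exact absurd h hu.2
      · exact absurd (code.injective h) (neg_ne hu.1)
      · exact h
    · intro u _
      simp
    · intro u _
      simp
  have h2 := Finset.card_filter_add_card_filter_not (s := (Finset.univ : Finset P).erase 0)
    (fun u => code u < code (-u))
  rw [Finset.card_erase_of_mem (Finset.mem_univ _), Finset.card_univ] at h2
  have h4 : Fintype.card P = 243 := by simp [ZMod.card]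
  have h3 : halfAll.card =
    (((Finset.univ : Finset P).erase 0).filter (fun u => code u < code (-u))).card := rfl
  omega

lemma sum_al2 : (∑ u : P, (al2 u : ZMod 2)) = 0 := by
  have h1 : ∀ u : P, (al2 u : ZMod 2) = if u ∈ insert 0 halfAll then 1 else 0 := by
    intro u
    by_cases hu : u = 0
    · simp [al2, hu]
    · by_cases hc : code u < code (-u) <;> simp [al2, halfAll, hu, hc]
  rw [Finset.sum_congr rfl (fun u _ => h1 u), Finset.sum_boole, Finset.filter_mem_eq_inter,
    Finset.univ_inter, Finset.card_insert_of_notMem (by simp [halfAll]), halfAll_card]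
  decide

lemma sum_g : ∑ u, g u = 0 := by
  funext i
  rw [Finset.sum_apply, Pi.zero_apply]
  have h3 : ∑ u, beta u (enum i) = 0 := by
    have := sum_beta (fun _ => 1) (enum i : P)
    simp only [one_mul] at this
    rw [this]
    ring
  have hthree : ((3 : ℕ) : ℤ) ∣ ∑ u, m u i := by
    rw [← ZMod.intCast_zmod_eq_zero_iff_dvd]
    rw [← h3]
    push_cast
    refine Finset.sum_congr rfl fun u _ => ?_
    rw [m]
    push_cast
    rw [ZMod.natCast_zmod_val]
    have h3 : (3 : ZMod 3) = 0 := by decide
    have h4 : (4 : ZMod 3) = 1 := by decide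
    rw [h3, h4]
    ring
  have h5 : (nn i : ℤ) ∣ ∑ u, m u i := by
    by_cases hi : i.val < 235
    · have : nn i = 3 := by simp [nn, hi]
      rw [this]
      exact hthree
    · have h6 : nn i = 6 := by simp [nn, hi]
      rw [h6]
      have htwo : ((2 : ℕ) : ℤ) ∣ ∑ u, m u i := by
        rw [← ZMod.intCast_zmod_eq_zero_iff_dvd]
        have e : ((∑ u, m u i : ℤ) : ZMod 2) = ∑ u, (al u i : ZMod 2) := by
          push_cast
          refine Finset.sum_congr rfl fun u _ => ?_
          rw [m]
          push_cast
          have h3 : (3 : ZMod 2) = 1 := by decide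
          have h4 : (4 : ZMod 2) = 0 := by decide
          rw [h3, h4]
          ring
        rw [e]
        have hi2 : i.val = 235 ∨ i.val = 236 := by omega
        rcases hi2 with hi2 | hi2
        · simp only [al, hi2, if_true]
          exact sum_al1
        · simp only [al, hi2]
          exact sum_al2
      have : IsCoprime ((3 : ℕ) : ℤ) ((2 : ℕ) : ℤ) := by
        refine ⟨1, -1, by norm_num⟩
      have h7 := this.mul_dvd hthree htwo
      norm_num at h7 ⊢
      exact h7
  have h8 := (ZMod.intCast_zmod_eq_zero_iff_dvd _ (nn i)).2 h5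
  rw [← h8]
  simp only [g]
  push_cast
  rfl

lemma g_ne_neg (u : P) : g u ≠ - g u := by
  intro h
  have h2 : ∑ v, ((if v = u then (2 : ℤ) else 0)) • g v = 0 := by
    simp only [ite_smul, zero_smul, Finset.sum_ite_eq', Finset.mem_univ, if_true]
    rw [two_smul]
    nth_rewrite 1 [h]
    simp
  have haff := affine h2
  set w : P := Pi.single 0 1 with hw
  have hw0 : w ≠ 0 := by
    intro h0
    have := congrFun h0 0
    rw [hw, Pi.single_eq_same] at this
    exact absurd this (by decide)
  have hw1 : u + w ≠ u := by simpa using hw0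
  have hw2 : u + w + w ≠ u := by
    intro h0
    apply hw0
    have h1 : w + w = 0 := by
      have : u + (w + w) = u := by rw [← add_assoc]; exact h0
      simpa using this
    ext j
    have h3 := congrFun h1 j
    simp only [Pi.add_apply, Pi.zero_apply] at h3
    have : ∀ a : ZMod 3, a + a = 0 → a = 0 := by decide
    rw [this _ h3]
    rfl
  have e0 := haff u
  have e1 := haff (u + w)
  have e2 := haff (u + w + w)
  rw [if_neg hw1] at e1
  rw [if_neg hw2] at e2
  rw [if_pos rfl] at e0
  simp only [Pi.add_apply, mul_add, Finset.sum_add_distrib] at e0 e1 e2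
  have h3 : (3 : ZMod 3) = 0 := by decide
  have key : ∀ a T X Y : ZMod 3, a = T + X → 0 = T + (X + Y) → 0 = T + (X + Y + Y) → a = 0 := by
    intro a T X Y h1 h2 h4
    linear_combination h1 + h2 + h4 + (T + X + Y) * h3
  have h5 : ((2 : ℤ) : ZMod 3) = 0 := by
    rw [Int.cast_zero] at e1 e2
    exact key _ _ _ _ e0 e1 e2
  exact absurd h5 (by decide)

lemma card_P : Fintype.card P = 243 := by simp [ZMod.card]

lemma sup_nn : Finset.univ.sup nn ≤ 6 := by
  apply Finset.sup_le
  intro i _
  rcases nn_cases i with h | h <;> omega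

lemma sum_nn : ∑ i, nn i / 2 = 241 := by
  decide +kernel

/-- The negation of the preceding statement: For every group C_{n_1}⊕…⊕C_{n_r} with 1<n_1∣…∣n_r and order ≥3, the largest gap between consecutive factorization lengths of zero-sum sequences is exactly max(n_r−2, Σ⌊n_i/2⌋−1). -/
theorem result :
    ¬ (∀ (r : ℕ) (n : Fin r → ℕ),
      (∀ i, 1 < n i) → (∀ i j, i ≤ j → n i ∣ n j) → 3 ≤ ∏ i, n i →
      ((∃ A : Multiset ((i : Fin r) → ZMod (n i)), A.sum = 0 ∧
          ∃ k : ℕ,
            (∃ F : Multiset (Multiset ((i : Fin r) → ZMod (n i))),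
                Multiset.card F = k ∧
                (∀ U ∈ F, U ≠ 0 ∧ U.sum = 0 ∧ ∀ V ≤ U, V.sum = 0 → V = 0 ∨ V = U) ∧
                F.sum = A) ∧
            (∃ F : Multiset (Multiset ((i : Fin r) → ZMod (n i))),
                Multiset.card F = k + max (Finset.univ.sup n - 2) ((∑ i, n i / 2) - 1) ∧
                (∀ U ∈ F, U ≠ 0 ∧ U.sum = 0 ∧ ∀ V ≤ U, V.sum = 0 → V = 0 ∨ V = U) ∧
                F.sum = A) ∧
            (∀ m : ℕ, k < m → m < k + max (Finset.univ.sup n - 2) ((∑ i, n i / 2) - 1) →
              ¬ ∃ F : Multiset (Multiset ((i : Fin r) → ZMod (n i))),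
                Multiset.card F = m ∧
                (∀ U ∈ F, U ≠ 0 ∧ U.sum = 0 ∧ ∀ V ≤ U, V.sum = 0 → V = 0 ∨ V = U) ∧
                F.sum = A)) ∧
       (∀ A : Multiset ((i : Fin r) → ZMod (n i)), A.sum = 0 →
          ∀ k l : ℕ, k < l →
            (∃ F : Multiset (Multiset ((i : Fin r) → ZMod (n i))),
                Multiset.card F = k ∧
                (∀ U ∈ F, U ≠ 0 ∧ U.sum = 0 ∧ ∀ V ≤ U, V.sum = 0 → V = 0 ∨ V = U) ∧
                F.sum = A) →
            (∃ F : Multiset (Multiset ((i : Fin r) → ZMod (n i))),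
                Multiset.card F = l ∧
                (∀ U ∈ F, U ≠ 0 ∧ U.sum = 0 ∧ ∀ V ≤ U, V.sum = 0 → V = 0 ∨ V = U) ∧
                F.sum = A) →
            (∀ m : ℕ, k < m → m < l →
              ¬ ∃ F : Multiset (Multiset ((i : Fin r) → ZMod (n i))),
                Multiset.card F = m ∧
                (∀ U ∈ F, U ≠ 0 ∧ U.sum = 0 ∧ ∀ V ≤ U, V.sum = 0 → V = 0 ∨ V = U) ∧
                F.sum = A) →
            l - k ≤ max (Finset.univ.sup n - 2) ((∑ i, n i / 2) - 1)))) := by
  intro H
  have h1 : ∀ i, 1 < nn i := by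
    intro i
    rcases nn_cases i with h | h <;> omega
  have h2 : ∀ i j, i ≤ j → nn i ∣ nn j := by
    intro i j hij
    unfold nn
    have hij' : i.val ≤ j.val := hij
    split_ifs with h3 h4
    · exact dvd_refl _
    · norm_num
    · omega
    · exact dvd_refl _
  have h3 : 3 ≤ ∏ i, nn i := by
    have h0 : nn 0 ≤ ∏ i, nn i :=
      Finset.single_le_prod' (f := nn) (fun i _ => (h1 i).le) (Finset.mem_univ 0)
    have h4 : nn 0 = 3 := by simp [nn]
    omega
  obtain ⟨_, H2⟩ := H 237 nn h1 h2 h3
  have hk : 3 ≤ Fintype.card P := by rw [card_P]; norm_num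
  classical
  have hsum : (Pos g + Neg g).sum = 0 := by
    rw [Multiset.sum_add, (pos_isAtom onlyTrivial hk sum_g).2.1,
      (neg_isAtom onlyTrivial hk sum_g).2.1, add_zero]
  have hgap := H2 (Pos g + Neg g) hsum 2 243 (by norm_num)
    ⟨{Pos g, Neg g}, by simp, by
      intro U hU
      simp only [Multiset.insert_eq_cons, Multiset.mem_cons, Multiset.mem_singleton] at hU
      rcases hU with rfl | rfl
      · exact pos_isAtom onlyTrivial hk sum_g
      · exact neg_isAtom onlyTrivial hk sum_g, by simp⟩
    ⟨Finset.univ.val.map (fun i => ({g i, - g i} : Multiset _)), by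
      rw [Multiset.card_map]
      exact card_P, by
      intro U hU
      rw [Multiset.mem_map] at hU
      obtain ⟨i, _, rfl⟩ := hU
      exact pair_isAtom onlyTrivial hk i, sum_pairs g⟩
    (by
      rintro m hm1 hm2 ⟨F, hF1, hF2, hF3⟩
      have := lengths onlyTrivial g_ne_neg hk F hF2 hF3
      rw [card_P] at this
      omega)
  rw [sum_nn] at hgap
  have := sup_nn
  omega

end Pool.Agent.S08974
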