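import Pool.Statements.S09245
import Pool.Agent.Helper70.SW.V

set_option autoImplicit false
open Pool Pool.MP_66e4ee_co

namespace Pool.Agent.S09245

/-- For every r ≥ 3 and every finite complete r-partite graph H with nonempty parts, and every tree T on n vertices, the number of homomorphisms from the n-vertex path to H is at most the number from T to H. -/
theorem result :
    ∀ r : ℕ, 3 ≤ r → ∀ (W : Type) [Fintype W] (p : W → Fin r), Function.Surjective p →
      ∀ (n : ℕ) (T : SimpleGraph (Fin n)), T.IsTree →
        Nat.card {f : Fin n → W // ∀ a b : Fin n, (SimpleGraph.pathGraph n).Adj a b → p (f a) ≠ p (f b)}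
          ≤ Nat.card {f : Fin n → W // ∀ a b : Fin n, T.Adj a b → p (f a) ≠ p (f b)} := by
  exact Pool.Agent.Helper70.SW.hoffman_london

end Pool.Agent.S09245
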