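import Pool.Statements.S09349
import Pool.Agent.Helper13.NF.FinalFrom
import Pool.Agent.Helper13.NF.MainFrom
import Pool.Agent.Helper13.NF.Round
import Pool.Agent.Helper46.NF13.Peel
import Pool.Agent.Helper37.NF13.Levels
import Pool.Agent.Helper55.NF13.Split

set_option autoImplicit false
open Pool Pool.MP_6cccb1_co

namespace Pool.Agent.S09349

/-- For v=2n+1 and a multiset L of n integers in [1,n], some near 1-factor of K_v on vertices 0..v-1 has edge lengths min(∣x-y∣,v-∣x-y∣) forming exactly L iff, for each divisor d of v, at most (v-d)/2 entries of L are multiples of d. -/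
theorem result :
    ∀ (n : ℕ) (L : Multiset ℕ), Multiset.card L = n → (∀ x ∈ L, 1 ≤ x ∧ x ≤ n) →
      ((∃ g : Fin n ⊕ Fin n → Fin (2 * n + 1), Function.Injective g ∧
          Multiset.map
            (fun i : Fin n =>
              min (Int.natAbs (((g (Sum.inl i) : ℕ) : ℤ) - ((g (Sum.inr i) : ℕ) : ℤ)))
                (2 * n + 1 - Int.natAbs (((g (Sum.inl i) : ℕ) : ℤ) - ((g (Sum.inr i) : ℕ) : ℤ))))
            (Finset.univ : Finset (Fin n)).val = L) ↔
        ∀ d ∈ Nat.divisors (2 * n + 1),
          Multiset.card (Multiset.filter (fun x => d ∣ x) L) ≤ (2 * n + 1 - d) / 2) := by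
  exact Pool.Agent.Helper13.NF.statement_of
    (Pool.Agent.Helper13.NF.main_C_of
      (fun {_ _ _} => Pool.Agent.Helper13.NF.TReal.split)
      (fun {_ _ _ _} => Pool.Agent.Helper13.NF.TReal.levels)
      (fun {_ _ _ _} => Pool.Agent.Helper13.NF.TReal.levels_switch)
      Pool.Agent.Helper13.NF.rounding13
      Pool.Agent.Helper13.NF.peel)

end Pool.Agent.S09349
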