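import Pool.Statements.S09587
-- import your own Pool.Agent.* helpers here
import Pool.Agent.Helper28.SWMain
import Pool.Agent.Helper96.SWTree

set_option autoImplicit false
open Pool Pool.MP_778a07_co

namespace Pool.Agent.S09587

/-- For every k there is a function f such that every finite graph of sim-width at most k (subcubic branch decomposition, crossing induced matchings of size ≤ k) has chromatic number at most f of its clique number. -/
theorem result :
  ∀ k : ℕ, ∃ f : ℕ → ℕ, ∀ (n : ℕ) (G : SimpleGraph (Fin n)),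
    (∃ (m : ℕ) (T : SimpleGraph (Fin m)) (L : Fin n → Fin m),
      T.IsTree ∧ (∀ x, (T.neighborSet x).ncard ≤ 3) ∧ Function.Injective L ∧
      (∀ x, (T.neighborSet x).ncard ≤ 1 ↔ x ∈ Set.range L) ∧
      ∀ u w : Fin m, T.Adj u w → ∀ (t : ℕ) (a b : Fin t → Fin n),
        Function.Injective a → Function.Injective b →
        (∀ i, (T.deleteEdges {s(u, w)}).Reachable u (L (a i))) →
        (∀ i, ¬ (T.deleteEdges {s(u, w)}).Reachable u (L (b i))) →
        (∀ i, G.Adj (a i) (b i)) →
        (∀ i j, i ≠ j → ¬ G.Adj (a i) (a j) ∧ ¬ G.Adj (b i) (b j) ∧ ¬ G.Adj (a i) (b j)) →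
        t ≤ k) →
    G.chromaticNumber ≤ ((f G.cliqueNum : ℕ) : ℕ∞) := by
  intro k
  choose N hN using fun w => Helper28.SW.ramsey_matching k w
  choose B hB using fun w => Helper28.SW.mim_bound (N w) (w + 1)
  refine ⟨B, ?_⟩
  intro n G hdec
  obtain ⟨m, T, L, hT, hdeg, hL, hleaf, hwidth⟩ := hdec
  obtain ⟨F, hF, hFA⟩ := Helper96.SWTree.exists_lam T L hT hdeg hL hleaf
  -- no large clique
  have hclq : ¬ ∃ g : Fin (G.cliqueNum + 1) → Fin n, Helper28.SW.Clq G g := by
    rintro ⟨g, hg⟩
    have hinj : Function.Injective g := by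
      intro i j hij
      by_contra hne
      have := hg i j hne
      rw [hij] at this
      exact G.loopless.irrefl _ this
    have hclique : G.IsClique ((Finset.univ.image g : Finset (Fin n)) : Set (Fin n)) := by
      intro x hx y hy hxy
      simp only [Finset.coe_image, Finset.coe_univ, Set.image_univ, Set.mem_range] at hx hy
      obtain ⟨i, rfl⟩ := hx
      obtain ⟨j, rfl⟩ := hy
      exact hg i j (fun h => hxy (by rw [h]))
    have h1 := SimpleGraph.IsClique.card_le_cliqueNum (tc := hclique)
    rw [Finset.card_image_of_injective _ hinj, Finset.card_univ, Fintype.card_fin] at h1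
    omega
  have hIM : ∀ A ∈ F, ¬ Helper28.SW.IM G Set.univ (A : Set (Fin n)) (N G.cliqueNum + 1) := by
    intro A hA hIM
    rcases hFA A hA with hA' | ⟨u, w, huw, hmem⟩
    · subst hA'
      obtain ⟨a, b, ha, _, _⟩ := hIM
      exact (ha 0).2 (by simp)
    rcases hN G.cliqueNum (Fin n) G (A : Set (Fin n)) (hIM.of_le (Nat.le_succ _)) with
      hg | ⟨a, b, ha, hb, hab, haa, hbb⟩
    · exact hclq hg
    · have hainj : Function.Injective a := by
        intro i j hij
        have h1 : G.Adj (a i) (b i) := (hab i i).mpr rfl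
        rw [hij] at h1
        exact ((hab j i).mp h1).symm
      have hbinj : Function.Injective b := by
        intro i j hij
        have h1 : G.Adj (a i) (b i) := (hab i i).mpr rfl
        rw [hij] at h1
        exact (hab i j).mp h1
      have := hwidth u w huw (k + 1) a b hainj hbinj
        (fun i => by
          by_contra hcon
          exact ha i (by exact_mod_cast (hmem (a i)).mpr hcon))
        (fun i => (hmem (b i)).mp (by exact_mod_cast hb i))
        (fun i => (hab i i).mpr rfl)
        (fun i j hij => ⟨haa i j hij, hbb i j hij, fun h => hij ((hab i j).mp h)⟩)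
      omega
  have hcol := hB G.cliqueNum (Fin n) G F Set.univ hF hIM
    (by rintro ⟨g, hg, _⟩; exact hclq ⟨g, hg⟩)
  obtain ⟨f, hf, hfp⟩ := hcol
  have hcolorable : G.Colorable (B G.cliqueNum) :=
    ⟨SimpleGraph.Coloring.mk (fun v => (⟨f v, hf v (Set.mem_univ v)⟩ : Fin (B G.cliqueNum)))
      (by
        intro v w hvw h
        exact hfp v (Set.mem_univ v) w (Set.mem_univ w) hvw (by simpa using h))⟩
  exact hcolorable.chromaticNumber_le

end Pool.Agent.S09587
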