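import Pool.Statements.S09654
import Pool.Agent.Helper34.PatternFinal

set_option autoImplicit false
open Pool Pool.MP_7ad145_co

namespace Pool.Agent.S09654

/-- The negation: Fix r,k≥2, a linear k-graph F with ex(n,F)=o(n^k), and a pattern of F with t≥3 classes. For large n, no n-vertex k-graph has more r-edge-colourings avoiding F in that pattern than the complete k-graph, with equality only for it. -/
theorem result :
    ¬ (∀ (r k m t : ℕ), 2 ≤ r → 2 ≤ k → 3 ≤ t →
  ∀ (F : Finset (Finset (Fin m))),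
    (∀ e ∈ F, e.card = k) →
    (∀ e ∈ F, ∀ e' ∈ F, e ≠ e' → (e ∩ e').card ≤ 1) →
    (∀ ε : ℝ, 0 < ε → ∃ N : ℕ, ∀ n : ℕ, N ≤ n → ∀ H : Finset (Finset (Fin n)),
       (∀ e ∈ H, e.card = k) →
       (¬ ∃ φ : Fin m → Fin n, Function.Injective φ ∧ ∀ e ∈ F, e.image φ ∈ H) →
       (H.card : ℝ) ≤ ε * (n : ℝ) ^ k) →
    ∀ (p : Finset (Fin m) → Fin t), (∀ i : Fin t, ∃ e ∈ F, p e = i) →
    ∃ n₀ : ℕ, ∀ n : ℕ, n₀ ≤ n →
      ∀ C : Finset (Finset (Fin n)) → ℕ,
        (∀ H : Finset (Finset (Fin n)),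
          C H = Nat.card {c : Finset (Fin n) → Option (Fin r) //
            (∀ e : Finset (Fin n), c e = none ↔ e ∉ H) ∧
            ¬ ∃ φ : Fin m → Fin n, Function.Injective φ ∧
                (∀ e ∈ F, e.image φ ∈ H) ∧
                (∀ e ∈ F, ∀ e' ∈ F,
                  (c (e.image φ) = c (e'.image φ) ↔ p e = p e'))}) →
        ∀ H : Finset (Finset (Fin n)), (∀ e ∈ H, e.card = k) →
          C H ≤ C (Finset.powersetCard k (Finset.univ : Finset (Fin n))) ∧
          (C H = C (Finset.powersetCard k (Finset.univ : Finset (Fin n))) ↔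
            H = Finset.powersetCard k (Finset.univ : Finset (Fin n)))) := by
  intro hall
  obtain ⟨n0, h⟩ := hall 3 2 16 3 (by norm_num) (by norm_num) (by norm_num)
    Pool.Agent.Helper34.Pattern.F0 Pool.Agent.Helper34.Pattern.F0_card
    Pool.Agent.Helper34.Pattern.F0_linear Pool.Agent.Helper34.Pattern.ex_small
    Pool.Agent.Helper34.Pattern.p0 Pool.Agent.Helper34.Pattern.p0_surj
  refine Pool.Agent.Helper34.Pattern.main n0 (fun n hn H hH => ?_)
  exact (h n hn (Pool.Agent.Helper34.Pattern.CC n) (fun H => rfl) H hH).1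

end Pool.Agent.S09654

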