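import Pool.Statements.S10062
import Pool.Agent.Helper38.Dup

set_option autoImplicit false
open Pool Pool.MP_8d5faa_co

namespace Pool.Agent.S10062

/-- The negation of the preceding statement: For every ε>0 and all large odd q, the unitary polarity graph of PG(2,q²) (points adjacent when Σ xᵢ yᵢ^q = 0) has a set of at least (1/2−ε)q⁴ points containing no triangle. -/
theorem result :
    ¬ (∀ ε : ℝ, 0 < ε → ∃ N : ℕ, ∀ (q : ℕ) (F : Type) [Field F] [Fintype F],
      Odd q → N ≤ q → Fintype.card F = q ^ 2 →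
      ∃ S : Finset (Projectivization F (Fin 3 → F)),
        (1 / 2 - ε) * (q : ℝ) ^ 4 ≤ (S.card : ℝ) ∧
        ∀ x ∈ S, ∀ y ∈ S, ∀ z ∈ S, x ≠ y → y ≠ z → x ≠ z →
          ¬ ((∑ i : Fin 3, x.rep i * (y.rep i) ^ q) = 0 ∧
             (∑ i : Fin 3, y.rep i * (z.rep i) ^ q) = 0 ∧
             (∑ i : Fin 3, x.rep i * (z.rep i) ^ q) = 0)) :=
  Pool.Agent.Helper38.Dup.conclusion

end Pool.Agent.S10062
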