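import Pool.Statements.S10285
import Pool.Agent.Helper60.DescReal

set_option autoImplicit false
open Pool Pool.MP_977251_co

namespace Pool.Agent.S10285

/-- For every n ≥ 2 and each sign s = ±1, every complex root of the sum of t^des(π) over permutations of n letters with sign s is real, i.e. both descent polynomials (alternating group and its complement) are real-rooted. -/
theorem result :
    ∀ n : ℕ, 2 ≤ n → ∀ s : ℤˣ, ∀ z : ℂ,
      Polynomial.aeval z
        (∑ π ∈ (Finset.univ : Finset (Equiv.Perm (Fin n))).filter
              (fun π => Equiv.Perm.sign π = s),
          (Polynomial.X : Polynomial ℝ) ^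
            ((Finset.univ : Finset (Fin n × Fin n)).filter
              (fun p => p.2.val = p.1.val + 1 ∧ π p.2 < π p.1)).card) = 0 →
      z.im = 0 := by
  intro n hn s z h
  exact Pool.Agent.Helper60.DescReal.main n hn s z h

end Pool.Agent.S10285
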