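import Pool.Statements.S10815
import Pool.Agent.Helper62.HadFinal

set_option autoImplicit false
open Pool Pool.MP_afadd1_co

namespace Pool.Agent.S10815

/-- For every n ≥ 4 and t ≥ 1 there is an n-dimensional ±1 array of side 2t in which, for every direction, any two distinct parallel (n−1)-dimensional slices have inner product 0 and each slice has squared norm (2t)^(n−1). -/
theorem result :
    ∀ n : ℕ, 4 ≤ n → ∀ t : ℕ, 1 ≤ t →
      ∃ A : (Fin n → Fin (2 * t)) → ℤ,
        (∀ i, A i = 1 ∨ A i = -1) ∧
        ∀ l : Fin n, ∀ x y : Fin (2 * t),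
          (∑ i : Fin n → Fin (2 * t),
              A (Function.update i l x) * A (Function.update i l y)) =
            if x = y then ((2 * t : ℕ) : ℤ) ^ n else 0 := by
  apply Helper62.result_of_fac
  intro p hp hp2
  have : Fact p.Prime := ⟨hp⟩
  refine ⟨ZMod p, inferInstance, inferInstance, ZMod.card p, ?_⟩
  have hodd := hp.eq_two_or_odd.resolve_left hp2
  have h4 : p % 4 = 1 ∨ p % 4 = 3 := by omega
  rcases h4 with h | h
  · exact Helper62.fac_one (p / 4) (by omega)
  · exact Helper62.fac_three ((p + 1) / 4) (by omega)

end Pool.Agent.S10815
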