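import Pool.Statements.S11230
import Pool.Agent.Helper43.K33

set_option autoImplicit false
open Pool Pool.MP_c16527_co

namespace Pool.Agent.S11230

/-- The negation: a graph on 12 vertices in which all induced cycles are odd and which has
`K_{3,3}` as an induced minor. -/
theorem result :
    ¬ (∀ (V : Type) [Fintype V] (G : SimpleGraph V),
      (¬ ∃ (P : Fin 3 → ℕ → V) (l : Fin 3 → ℕ),
          (∀ i, 2 ≤ l i) ∧
          (∀ i j, P i 0 = P j 0 ∧ P i (l i) = P j (l j)) ∧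
          (∀ i s t, s ≤ l i → t ≤ l i → P i s = P i t → s = t) ∧
          (∀ i s t, s ≤ l i → t ≤ l i →
            (G.Adj (P i s) (P i t) ↔ (s + 1 = t ∨ t + 1 = s))) ∧
          (∀ i j s t, i ≠ j → 0 < s → s < l i → 0 < t → t < l j →
            P i s ≠ P j t ∧ ¬ G.Adj (P i s) (P j t))) →
      (¬ ∃ (P : Fin 3 → ℕ → V) (l : Fin 3 → ℕ),
          (∀ i, 1 ≤ l i) ∧
          (∀ i j s t, s ≤ l i → t ≤ l j → P i s = P j t → (i = j ∧ s = t)) ∧
          (∀ i j s t, s ≤ l i → t ≤ l j →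
            (G.Adj (P i s) (P j t) ↔
              ((i = j ∧ (s + 1 = t ∨ t + 1 = s)) ∨
               (i ≠ j ∧ ((s = 0 ∧ t = 0) ∨ (s = l i ∧ t = l j))))))) →
      (¬ ∃ (m : ℕ) (f : Fin m → V) (c : V),
          4 ≤ m ∧ Function.Injective f ∧
          (∀ i j : Fin m, G.Adj (f i) (f j) ↔
            (((i : ℕ) + 1) % m = (j : ℕ) ∨ ((j : ℕ) + 1) % m = (i : ℕ))) ∧
          (∀ i, f i ≠ c) ∧
          3 ≤ Nat.card {i : Fin m // G.Adj c (f i)} ∧
          Even (Nat.card {i : Fin m // G.Adj c (f i)})) →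
      ¬ ∃ B : Fin 3 ⊕ Fin 3 → Set V,
          (∀ x, (G.induce (B x)).Connected) ∧
          (∀ x y, x ≠ y → Disjoint (B x) (B y)) ∧
          (∀ x y, x ≠ y →
            ((∃ u ∈ B x, ∃ v ∈ B y, G.Adj u v) ↔
              (completeBipartiteGraph (Fin 3) (Fin 3)).Adj x y))) := by
  intro h
  exact h (Fin 12) Helper43.K33.GG Helper43.K33.no_theta Helper43.K33.no_prism
    Helper43.K33.no_wheel Helper43.K33.has_minor

end Pool.Agent.S11230
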