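import Pool.Statements.S11646
import Pool.Agent.Helper64.PermProd

set_option autoImplicit false
open Classical
open Pool Pool.MP_d308b2_co

namespace Pool.Agent.S11646

/-- The negation of the preceding statement: There is a function f on naturals such that for all permutations σ, τ, the absolute value of the Möbius function μ(σ,τ) of the pattern-containment poset is at most f of the number of occurrences of σ in τ. -/
theorem result :
    ¬ (∃ f : ℕ → ℕ, ∀ m : (Σ n : ℕ, Equiv.Perm (Fin n)) → (Σ n : ℕ, Equiv.Perm (Fin n)) → ℤ,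
      (∀ x, m x x = 1) →
      (∀ x y, (¬ ∃ e : Fin x.1 → Fin y.1, StrictMono e ∧
          ∀ i j, x.2 i < x.2 j ↔ y.2 (e i) < y.2 (e j)) → m x y = 0) →
      (∀ x y, x ≠ y →
        (∃ e : Fin x.1 → Fin y.1, StrictMono e ∧
          ∀ i j, x.2 i < x.2 j ↔ y.2 (e i) < y.2 (e j)) →
        ∑ k ∈ Finset.range (y.1 + 1), ∑ ρ : Equiv.Perm (Fin k),
          (if (∃ e : Fin x.1 → Fin k, StrictMono e ∧
                ∀ i j, x.2 i < x.2 j ↔ ρ (e i) < ρ (e j)) ∧
              (∃ e : Fin k → Fin y.1, StrictMono e ∧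
                ∀ i j, ρ i < ρ j ↔ y.2 (e i) < y.2 (e j))
            then m x ⟨k, ρ⟩ else 0) = 0) →
      ∀ x y, |m x y| ≤
        ((f {e : Fin x.1 → Fin y.1 | StrictMono e ∧
            ∀ i j, x.2 i < x.2 j ↔ y.2 (e i) < y.2 (e j)}.ncard : ℕ) : ℤ)) := by
  rintro ⟨f, hf⟩
  have h := hf Pool.Agent.Helper64.mob Pool.Agent.Helper64.mob_self
    (fun x y hxy => Pool.Agent.Helper64.mob_of_not_le hxy)
    (fun x y hne hxy => by
      refine Eq.trans ?_ (Pool.Agent.Helper64.mob_sum hne hxy)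
      refine Finset.sum_congr rfl (fun k _ => Finset.sum_congr rfl (fun ρ _ => ?_))
      exact if_congr Iff.rfl rfl rfl)
    (Pool.Agent.Helper64.sg (f 1)) (Pool.Agent.Helper64.tu (f 1))
  rw [Pool.Agent.Helper64.unique_occ, Pool.Agent.Helper64.mob_sg_tu] at h
  have h2 : f 1 < 2 ^ f 1 := Nat.lt_two_pow_self
  have h3 : |(2 : ℤ) ^ f 1| = 2 ^ f 1 := abs_of_nonneg (by positivity)
  rw [h3] at h
  have h4 : ((f 1 : ℕ) : ℤ) < 2 ^ f 1 := by exact_mod_cast h2
  linarith

end Pool.Agent.S11646
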