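import Pool.Statements.S11667
import Pool.Agent.Helper27.SE.Final

set_option autoImplicit false
open Pool Pool.MP_d38fbf_co

namespace Pool.Agent.S11667

/-- For every ε>0 there is C such that every finite set A on the unit sphere in ℝ³ has at most C·∣A∣^(2+ε) quadruples (a,b,c,d) in A⁴ with a+b=c+d. -/
theorem result :
    ∀ ε : ℝ, 0 < ε → ∃ C : ℝ, ∀ A : Finset (EuclideanSpace ℝ (Fin 3)),
      (↑A : Set (EuclideanSpace ℝ (Fin 3))) ⊆ Metric.sphere (0 : EuclideanSpace ℝ (Fin 3)) 1 →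
      (({p : EuclideanSpace ℝ (Fin 3) × EuclideanSpace ℝ (Fin 3) ×
            EuclideanSpace ℝ (Fin 3) × EuclideanSpace ℝ (Fin 3) |
          p.1 ∈ A ∧ p.2.1 ∈ A ∧ p.2.2.1 ∈ A ∧ p.2.2.2 ∈ A ∧
            p.1 + p.2.1 = p.2.2.1 + p.2.2.2}.ncard : ℕ) : ℝ)
        ≤ C * ((A.card : ℝ) ^ (2 + ε)) := by
  classical
  intro ε hε
  obtain ⟨C, hC⟩ := Pool.Agent.Helper27.SE.final ε hε
  refine ⟨C, fun A hA => ?_⟩
  have h1 : ∀ a ∈ A, ‖a‖ = 1 := by
    intro a ha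
    have := hA (Finset.mem_coe.2 ha)
    simpa using this
  refine le_trans (le_of_eq ?_) (hC A h1)
  have h2 : {p : EuclideanSpace ℝ (Fin 3) × EuclideanSpace ℝ (Fin 3) ×
            EuclideanSpace ℝ (Fin 3) × EuclideanSpace ℝ (Fin 3) |
          p.1 ∈ A ∧ p.2.1 ∈ A ∧ p.2.2.1 ∈ A ∧ p.2.2.2 ∈ A ∧
            p.1 + p.2.1 = p.2.2.1 + p.2.2.2} =
      (((A ×ˢ A ×ˢ A ×ˢ A).filter (fun p => p.1 + p.2.1 = p.2.2.1 + p.2.2.2) :
        Finset (EuclideanSpace ℝ (Fin 3) × EuclideanSpace ℝ (Fin 3) ×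
            EuclideanSpace ℝ (Fin 3) × EuclideanSpace ℝ (Fin 3))) : Set _) := by
    ext p
    simp only [Set.mem_ofPred_eq, Finset.coe_filter, Finset.mem_product]
    tauto
  rw [h2, Set.ncard_coe_finset]
  unfold Pool.Agent.Helper27.SE.en
  congr!

end Pool.Agent.S11667
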