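import Pool.Statements.S11871
-- import your own Pool.Agent.* helpers here
import Pool.Agent.Helper65.WindowMain
import Pool.Agent.Helper65.HighRange
import Pool.Agent.Helper65.MidRange

set_option autoImplicit false
open scoped Classical
open Filter Topology
open Pool Pool.MP_dd10ca_co

namespace Pool.Agent.S11871

/-- There is ε>0 such that for every p(n) with log n/n ≤ p(n) ≤ 1, the random graph order on n points has dimension at least ε times its width with probability tending to 1. -/
theorem result :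
    ∃ ε : ℝ, 0 < ε ∧ ∀ p : ℕ → ℝ,
      (∀ n : ℕ, Real.log (n : ℝ) / (n : ℝ) ≤ p n ∧ p n ≤ 1) →
      Tendsto (fun n : ℕ =>
        ∑ E ∈ ((Finset.univ.filter (fun e : Fin n × Fin n => e.1 < e.2)).powerset.filter
            (fun E => ∀ d : ℕ, ∀ A : Finset (Fin n),
              (∀ x ∈ A, ∀ y ∈ A, ¬ Relation.TransGen (fun a b => (a, b) ∈ E) x y) →
              (∃ σ : Fin d → Equiv.Perm (Fin n), ∀ x y : Fin n, x ≠ y →
                (Relation.TransGen (fun a b => (a, b) ∈ E) x y ↔ ∀ k : Fin d, σ k x < σ k y)) →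
              ε * (A.card : ℝ) ≤ (d : ℝ))),
          p n ^ E.card * (1 - p n) ^
            ((Finset.univ.filter (fun e : Fin n × Fin n => e.1 < e.2)).card - E.card))
        atTop (𝓝 1) := by
  obtain ⟨R, hR, hRbig⟩ : ∃ R : ℕ, 1 ≤ R ∧
      3 * (32 * (400 * Real.exp 33) ^ 2 * 4096) ≤ (R : ℝ) := by
    refine ⟨⌈3 * (32 * (400 * Real.exp 33) ^ 2 * 4096)⌉₊ + 1, by omega, ?_⟩
    push_cast
    have := Nat.le_ceil (3 * (32 * (400 * Real.exp 33) ^ 2 * 4096))
    linarith
  have hW : Pool.Agent.Helper65.WindowMain R (1 / 4096) := fun δ hδ =>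
    Pool.Agent.Helper65.window_asym hR hRbig hδ
  obtain ⟨ε1, hε1, hmid⟩ := Pool.Agent.Helper65.mid_range hR hW
  refine ⟨min ε1 (1 / 200), lt_min hε1 (by norm_num), fun p hp => ?_⟩
  have hsum : ∀ n : ℕ, (∑ E ∈ ((Finset.univ.filter (fun e : Fin n × Fin n => e.1 < e.2)).powerset.filter
            (fun E => ∀ d : ℕ, ∀ A : Finset (Fin n),
              (∀ x ∈ A, ∀ y ∈ A, ¬ Relation.TransGen (fun a b => (a, b) ∈ E) x y) →
              (∃ σ : Fin d → Equiv.Perm (Fin n), ∀ x y : Fin n, x ≠ y →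
                (Relation.TransGen (fun a b => (a, b) ∈ E) x y ↔ ∀ k : Fin d, σ k x < σ k y)) →
              min ε1 (1 / 200) * (A.card : ℝ) ≤ (d : ℝ))),
          p n ^ E.card * (1 - p n) ^
            ((Finset.univ.filter (fun e : Fin n × Fin n => e.1 < e.2)).card - E.card)) =
      Pool.Agent.Helper65.Pr (p n) (Finset.univ.filter (fun e : Fin n × Fin n => e.1 < e.2))
        (Pool.Agent.Helper65.Good (min ε1 (1 / 200)) n) := by
    intro n
    exact Pool.Agent.Helper65.sum_eq_Pr (p n) n (Pool.Agent.Helper65.Good (min ε1 (1 / 200)) n)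
  simp_rw [hsum]
  have hp0 : ∀ n : ℕ, 0 ≤ p n := by
    intro n
    refine le_trans (div_nonneg ?_ (Nat.cast_nonneg n)) (hp n).1
    exact Real.log_natCast_nonneg n
  have hmono : ∀ (n : ℕ) (ε' : ℝ), min ε1 (1 / 200) ≤ ε' →
      Pool.Agent.Helper65.Pr (p n) (Finset.univ.filter (fun e : Fin n × Fin n => e.1 < e.2))
        (Pool.Agent.Helper65.Good ε' n) ≤
      Pool.Agent.Helper65.Pr (p n) (Finset.univ.filter (fun e : Fin n × Fin n => e.1 < e.2))
        (Pool.Agent.Helper65.Good (min ε1 (1 / 200)) n) := by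
    intro n ε' hε'
    exact Pool.Agent.Helper65.Pr_mono (hp0 n) (hp n).2
      (fun E _ hE => Pool.Agent.Helper65.Good_mono hε' hE)
  rw [tendsto_order]
  constructor
  · intro a ha
    have hδ : 0 < (1 - a) / 2 := by linarith
    have h2n : ∀ᶠ n : ℕ in atTop, (2 : ℝ) / n < 1 - a := by
      have h1 : Tendsto (fun n : ℕ => (2 : ℝ) / n) atTop (𝓝 0) :=
        tendsto_const_div_atTop_nhds_zero_nat 2
      exact h1.eventually (gt_mem_nhds (by linarith))
    filter_upwards [hmid ((1 - a) / 2) hδ, Pool.Agent.Helper65.high_range, h2n]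
      with n h1 h2 h3
    rcases le_total (p n) ((Real.log (Real.log n)) ^ 4 / Real.log n) with h4 | h4
    · have h5 := h1 (p n) (hp n).1 h4
      have h6 := hmono n ε1 (min_le_left _ _)
      linarith
    · have h5 := h2 (p n) h4 (hp n).2
      have h6 := hmono n (1 / 200) (min_le_right _ _)
      linarith
  · intro b hb
    exact Filter.Eventually.of_forall (fun n =>
      lt_of_le_of_lt (Pool.Agent.Helper65.Pr_le_one (hp0 n) (hp n).2 _) hb)

end Pool.Agent.S11871
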