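import Pool.Statements.S12739
import Pool.Agent.Helper89.Cont4

set_option autoImplicit false
open Pool Pool.MP_0d1ae2_gt

namespace Pool.Agent.S12739

/-- Every compact connected metric space that is not the union of a countable chain (under inclusion) of proper subcontinua has a finite subset contained in no proper subcontinuum. -/
theorem result :
    ∀ (X : Type) [MetricSpace X] [CompactSpace X] [ConnectedSpace X],
      (¬ ∃ C : Set (Set X), C.Countable ∧ IsChain (· ⊆ ·) C ∧
          (∀ K ∈ C, IsClosed K ∧ IsConnected K ∧ K ≠ Set.univ) ∧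
          ⋃₀ C = Set.univ) →
      ∃ F : Set X, F.Finite ∧
        ∀ K : Set X, IsClosed K → IsConnected K → F ⊆ K → K = Set.univ := by
  intro X _ _ _ h
  apply Pool.Agent.H89Cont.main
  intro G hmono hG
  by_contra hcon
  push Not at hcon
  apply h
  refine ⟨Set.range G, Set.countable_range G, ?_, ?_, ?_⟩
  · rintro _ ⟨n, rfl⟩ _ ⟨m, rfl⟩ _
    rcases le_total n m with h | h
    · exact Or.inl (hmono h)
    · exact Or.inr (hmono h)
  · rintro _ ⟨n, rfl⟩
    exact hG n
  · rw [Set.sUnion_range]
    ext x
    simp only [Set.mem_iUnion, Set.mem_univ, iff_true]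
    exact hcon x

end Pool.Agent.S12739
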