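import Pool.Statements.S12750
import Pool.Agent.Helper43.CpCond

set_option autoImplicit false
open TopologicalSpace
open Pool Pool.MP_0eb590_gt

namespace Pool.Agent.S12750

/-- The negation of the preceding statement: For every Tychonoff space X: if C_p(X) (continuous reals on X, pointwise topology) admits a continuous bijection onto a Tychonoff space with a countable π-base, then X is separable. -/
theorem result :
    ¬ (∀ (X : Type) [TopologicalSpace X] [T35Space X],
      (∃ (Y : Type) (τ : TopologicalSpace Y), T35Space Y ∧
        ∃ g : C(X, ℝ) → Y, Function.Bijective g ∧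
          @Continuous C(X, ℝ) Y
            (TopologicalSpace.induced (fun f : C(X, ℝ) => (⇑f : X → ℝ)) Pi.topologicalSpace)
            τ g ∧
          ∃ B : Set (Set Y), B.Countable ∧
            (∀ P ∈ B, IsOpen P ∧ P.Nonempty) ∧
            ∀ U : Set Y, IsOpen U → U.Nonempty → ∃ P ∈ B, P ⊆ U) →
      SeparableSpace X) := by
  intro hmain
  letI τX : TopologicalSpace (Option ℝ) := ⊥
  haveI : DiscreteTopology (Option ℝ) := ⟨rfl⟩
  have hsep : SeparableSpace (Option ℝ) := by
    apply hmain (Option ℝ)
    obtain ⟨Y, τ, hT, e, he, hec, B, hB1, hB2, hB3⟩ :=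
      Pool.Agent.Helper43.CpCond.exists_condensation
    refine ⟨Y, τ, hT, fun f : C(Option ℝ, ℝ) => e f, ?_, ?_, B, hB1, hB2, hB3⟩
    · constructor
      · intro f f' h
        exact DFunLike.coe_injective (he.1 h)
      · intro y
        obtain ⟨f, hf⟩ := he.2 y
        exact ⟨⟨f, continuous_of_discreteTopology⟩, hf⟩
    · exact @Continuous.comp C(Option ℝ, ℝ) (Option ℝ → ℝ) Y
        (TopologicalSpace.induced (fun f : C(Option ℝ, ℝ) => (⇑f : Option ℝ → ℝ))
          Pi.topologicalSpace) Pi.topologicalSpace τ
        (fun f : C(Option ℝ, ℝ) => (⇑f : Option ℝ → ℝ)) e hec continuous_induced_dom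
  obtain ⟨s, hs, hd⟩ := hsep.exists_countable_dense
  have hs' : s = Set.univ := by
    rw [← hd.closure_eq]
    exact (isClosed_discrete s).closure_eq.symm
  rw [hs', Set.countable_univ_iff] at hs
  haveI := hs
  have : Countable ℝ := (Option.some_injective ℝ).countable
  exact Cardinal.not_countable_real (Set.countable_univ_iff.2 this)

end Pool.Agent.S12750
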