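import Pool.Statements.S13100
import Pool.Agent.Helper83.MC2
import Pool.Agent.Helper83.MC5

set_option autoImplicit false
open Pool Pool.MP_45c792_gt

namespace Pool.Agent.S13100

open Pool.Agent.Helper83.MC

theorem exists_om : ∃ (Ω : Type) (_ : LinearOrder Ω), Om Ω ∧ Nonempty Ω := by
  let κ : Cardinal.{0} := Cardinal.aleph 1
  have hcard : Cardinal.mk κ.ord.ToType = κ := Cardinal.mk_ord_toType κ
  have hunc : Uncountable κ.ord.ToType := by
    rw [← Cardinal.aleph0_lt_mk_iff, hcard]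
    exact Cardinal.aleph0_lt_aleph_one
  have hIio : ∀ a : κ.ord.ToType, (Set.Iio a).Countable := by
    intro a
    have h1 : Cardinal.mk (Set.Iio a) < κ := by simpa using Cardinal.mk_Iio_lt a
    rw [← Cardinal.le_aleph0_iff_set_countable]
    have h2 : κ = Order.succ Cardinal.aleph0 := by
      simp only [κ]; rw [Cardinal.succ_aleph0]
    exact Order.lt_succ_iff.1 (h1.trans_eq h2)
  refine ⟨κ.ord.ToType, inferInstance, ⟨inferInstance, hIio, ?_⟩, ?_⟩
  · intro s hs
    by_contra hcon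
    push Not at hcon
    have h2 : (Set.univ : Set κ.ord.ToType) ⊆ ⋃ a ∈ s, Set.Iic a := by
      intro b _
      obtain ⟨a, ha, hab⟩ := hcon b
      exact Set.mem_biUnion ha hab
    have h3 : (⋃ a ∈ s, Set.Iic a).Countable := by
      refine hs.biUnion fun a _ => ?_
      rw [← Set.Iio_insert]; exact (hIio a).insert a
    exact Set.not_countable_univ (h3.mono h2)
  · exact (inferInstance : Nonempty κ.ord.ToType)

/-- The negation of the preceding statement: For every topological space: if every directed open cover has a cushioned refinement, then every open cover has a point-finite open refinement, i.e. the space is metacompact. -/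
theorem result :
    ¬ (∀ (X : Type) [TopologicalSpace X],
    (∀ C : Set (Set X), (∀ U ∈ C, IsOpen U) → ⋃₀ C = Set.univ → DirectedOn (· ⊆ ·) C →
      ∃ R : Set (Set X), ⋃₀ R = Set.univ ∧
        ∃ f : Set X → Set X, (∀ V ∈ R, f V ∈ C) ∧
          ∀ W ⊆ R, closure (⋃₀ W) ⊆ ⋃₀ (f '' W)) →
    ∀ C : Set (Set X), (∀ U ∈ C, IsOpen U) → ⋃₀ C = Set.univ →
      ∃ R : Set (Set X), (∀ V ∈ R, IsOpen V) ∧ ⋃₀ R = Set.univ ∧
        (∀ V ∈ R, ∃ U ∈ C, V ⊆ U) ∧ ∀ x : X, {V ∈ R | x ∈ V}.Finite) := by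
  intro H
  obtain ⟨Ω, hlin, hOm, hne⟩ := exists_om
  obtain ⟨a⟩ := hne
  obtain ⟨x₀, hx₀⟩ := exists_point a
  obtain ⟨R, h1, h2, h3, h4⟩ := H (X Ω) (fun D h1 h2 h3 => cushioned D h1 h2 h3 ⟨x₀⟩)
    (Set.range Gcov) (by rintro _ ⟨a, rfl⟩; exact isOpen_Gcov a)
    (Set.eq_univ_of_forall fun x => ⟨Gcov (x.1 0), ⟨x.1 0, rfl⟩, le_rfl⟩)
  have : Nonempty Ω := ⟨a⟩
  refine not_metacompact R h1 h2 ?_ h4
  intro V hV
  obtain ⟨U, ⟨b, rfl⟩, hU⟩ := h3 V hV
  exact ⟨b, hU⟩

end Pool.Agent.S13100
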