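import Pool.Statements.S13177
import Pool.Agent.Helper26.DD.TowA
import Pool.Agent.Helper26.DD.FinII
import Pool.Agent.Helper85.DT.Letters

set_option autoImplicit false
open Pool Pool.MP_542c23_gt

namespace Pool.Agent.S13177

/-- Every dendron X (a Hausdorff continuum in which any two points are separated by a third) admits a hereditarily indecomposable Hausdorff continuum Y and an injective Vietoris-continuous map from X into the subcontinua of Y, i.e. an embedding of X into C(Y). -/
theorem result :
    ∀ (X : Type) [TopologicalSpace X] [CompactSpace X] [ConnectedSpace X] [T2Space X],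
      (∀ x y : X, x ≠ y → ∃ z : X, z ≠ x ∧ z ≠ y ∧
        ∃ U V : Set X, IsOpen U ∧ IsOpen V ∧ Disjoint U V ∧ U ∪ V = {z}ᶜ ∧ x ∈ U ∧ y ∈ V) →
      ∃ (Y : Type) (_ : TopologicalSpace Y), CompactSpace Y ∧ ConnectedSpace Y ∧ T2Space Y ∧
        (∀ A B : Set Y, IsClosed A → IsConnected A → IsClosed B → IsConnected B →
          (A ∩ B).Nonempty → A ⊆ B ∨ B ⊆ A) ∧
        ∃ f : X → Set Y,
          (∀ x, IsClosed (f x) ∧ IsConnected (f x)) ∧
          Function.Injective f ∧
          (∀ U : Set Y, IsOpen U →
            IsOpen {x : X | f x ⊆ U} ∧ IsOpen {x : X | (f x ∩ U).Nonempty}) := by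
  intro X _ _ _ _ hX
  obtain ⟨I, r, h1, h2, h3, h4, h5, h6⟩ := Pool.Agent.Helper85.DT.letters X hX
  classical
  let L : Pool.Agent.H26DD.Letters X I :=
    { r := r
      cont := h1
      nonneg := fun i x => (h2 i x).1
      le_one := fun i x => (h2 i x).2
      lam := h3
      top := h5
      bot := h6 }
  exact Pool.Agent.H26DD.partII (Pool.Agent.H26DI.towOf L) h4

end Pool.Agent.S13177
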