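import Pool.Statements.S13299
import Pool.Agent.Helper53.AM.G39

set_option autoImplicit false
open Pool Pool.MP_66ebcc_gt

namespace Pool.Agent.S13299

/-- For every n≥3 there are 2√2−2<t1<t2 such that among slabs ∣<a,x>∣≤t of [-1,1]^n with a a unit vector, the direction (1,1,0..0) minimizes volume for 2√2−2<t<t1, (1,1,1,0..0) for t1<t<t2, and (1,..,1) for t>t2. -/
theorem result :
  ∀ n : ℕ, 3 ≤ n →
    ∀ V : (Fin n → ℝ) → ℝ → ENNReal,
      (∀ (a : Fin n → ℝ) (t : ℝ), V a t =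
        MeasureTheory.volume {x : Fin n → ℝ | (∀ i, |x i| ≤ 1) ∧ |∑ i, a i * x i| ≤ t}) →
      ∀ D : ℕ → Fin n → ℝ,
        (∀ (k : ℕ) (i : Fin n), D k i = if (i : ℕ) < k then 1 / Real.sqrt (k : ℝ) else 0) →
        ∃ t₁ t₂ : ℝ, 2 * Real.sqrt 2 - 2 < t₁ ∧ t₁ < t₂ ∧
          ∀ t : ℝ, ∀ a : Fin n → ℝ, ∑ i, a i ^ 2 = 1 →
            ((2 * Real.sqrt 2 - 2 < t ∧ t < t₁) → V (D 2) t ≤ V a t) ∧
            ((t₁ < t ∧ t < t₂) → V (D 3) t ≤ V a t) ∧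
            (t₂ < t → V (D n) t ≤ V a t) := by
  intro n hn V hV D hD
  obtain ⟨t₁, t₂, h1, h2, h⟩ := Pool.Agent.M18.Helper89.SP.answer n hn
  refine ⟨t₁, t₂, h1, h2, fun t a ha => ?_⟩
  obtain ⟨g1, g2, g3⟩ := h t a ha
  have e2 : D 2 = fun i : Fin n => if (i : ℕ) < 2 then 1 / Real.sqrt 2 else 0 := by
    funext i; rw [hD]; norm_num
  have e3 : D 3 = fun i : Fin n => if (i : ℕ) < 3 then 1 / Real.sqrt 3 else 0 := by
    funext i; rw [hD]; norm_num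
  have en : D n = fun _ : Fin n => 1 / Real.sqrt (n : ℝ) := by
    funext i; rw [hD, if_pos i.2]
  refine ⟨fun ht => ?_, fun ht => ?_, fun ht => ?_⟩
  · rw [hV, hV, e2]; exact g1 ht
  · rw [hV, hV, e3]; exact g2 ht
  · rw [hV, hV, en]; exact g3 ht

end Pool.Agent.S13299
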