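import Pool.Statements.S13411
import Pool.Agent.Helper35.Jam.Flex

set_option autoImplicit false
open Pool Pool.MP_79ad04_gt

namespace Pool.Agent.S13411

open Pool.Agent.Helper35.Jam

/-- an enumeration of the index set of the code -/
noncomputable def en : Fin 18 ≃ Ix :=
  Fintype.equivOfCardEq (by simp [Ix])

theorem dist_sq_unit (x y : E9) (hx : ‖x‖ = 1) (hy : ‖y‖ = 1) :
    dist x y ^ 2 = 2 - 2 * inner ℝ x y := by
  rw [dist_eq_norm, norm_sub_sq_real, hx, hy]
  ring

theorem d_pos : 0 < Real.sqrt (2 - 2 * c) := Real.sqrt_pos.mpr (by linarith [c_lt])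

theorem le_dist_iff (x y : E9) (hx : ‖x‖ = 1) (hy : ‖y‖ = 1) :
    Real.sqrt (2 - 2 * c) ≤ dist x y ↔ inner ℝ x y ≤ c := by
  rw [Real.sqrt_le_left dist_nonneg, dist_sq_unit x y hx hy]
  constructor <;> intro h <;> linarith

theorem dist_eq_iff (x y : E9) (hx : ‖x‖ = 1) (hy : ‖y‖ = 1) :
    dist x y = Real.sqrt (2 - 2 * c) ↔ inner ℝ x y = c := by
  have h2 : (0 : ℝ) ≤ 2 - 2 * c := by linarith [c_lt]
  constructor
  · intro h
    have h3 := dist_sq_unit x y hx hy
    rw [h, Real.sq_sqrt h2] at h3
    linarith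
  · intro h
    have h3 := dist_sq_unit x y hx hy
    rw [h] at h3
    rw [← h3, Real.sqrt_sq dist_nonneg]

/-- There is a spanning code of distinct unit vectors with minimal distance d that is jammed but not infinitesimally jammed. Jammed: every nearby code with minimal distance ≥ d is a rotation of it. Not infinitesimally jammed: some tangent motion not shrinking contact distances to first order is not an i -/
theorem result :
    ∃ (n N : ℕ) (x : Fin N → EuclideanSpace ℝ (Fin n)) (d : ℝ),
      Function.Injective x ∧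
      (∀ i, ‖x i‖ = 1) ∧
      0 < d ∧
      (∀ i j, i ≠ j → d ≤ dist (x i) (x j)) ∧
      (∃ i j, i ≠ j ∧ dist (x i) (x j) = d) ∧
      Submodule.span ℝ (Set.range x) = ⊤ ∧
      (∃ ε : ℝ, 0 < ε ∧
        ∀ y : Fin N → EuclideanSpace ℝ (Fin n),
          (∀ i, ‖y i‖ = 1) →
          (∀ i, dist (y i) (x i) < ε) →
          (∀ i j, i ≠ j → d ≤ dist (y i) (y j)) →
          ∃ g : EuclideanSpace ℝ (Fin n) ≃ₗᵢ[ℝ] EuclideanSpace ℝ (Fin n),
            ∀ i, y i = g (x i)) ∧
      ¬ (∀ v : Fin N → EuclideanSpace ℝ (Fin n),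
          (∀ i, inner ℝ (x i) (v i) = 0) →
          (∀ i j, i ≠ j → dist (x i) (x j) = d →
            0 ≤ inner ℝ (x i - x j) (v i - v j)) →
          ∃ A : EuclideanSpace ℝ (Fin n) →ₗ[ℝ] EuclideanSpace ℝ (Fin n),
            (∀ u w, inner ℝ (A u) w = - inner ℝ u (A w)) ∧
            ∀ i, v i = A (x i)) := by
  have hmin : ∀ i j : Fin 18, i ≠ j →
      Real.sqrt (2 - 2 * c) ≤ dist (X0 (en i)) (X0 (en j)) := by
    intro i j hij
    rw [le_dist_iff _ _ (X0_unit _) (X0_unit _)]
    exact X0_le _ _ fun h => hij (en.injective h)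
  refine ⟨9, 18, fun i => X0 (en i), Real.sqrt (2 - 2 * c), ?_, fun i => X0_unit _, d_pos, hmin,
    ?_, ?_, ?_, ?_⟩
  · intro i j hij
    by_contra hne
    have h1 := hmin i j hne
    have h2 : X0 (en i) = X0 (en j) := hij
    rw [h2, dist_self] at h1
    linarith [d_pos]
  · refine ⟨en.symm (Sum.inr (Sum.inr 0)), en.symm (Sum.inr (Sum.inr 1)), ?_, ?_⟩
    · intro h
      have := en.symm.injective h
      simp at this
    · rw [dist_eq_iff _ _ (X0_unit _) (X0_unit _), en.apply_symm_apply, en.apply_symm_apply]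
      exact X0_contact
  · have : Set.range (fun i => X0 (en i)) = Set.range X0 := en.surjective.range_comp X0
    rw [this]
    exact X0_span
  · obtain ⟨ε, hε, hj⟩ := X0_jammed
    refine ⟨ε, hε, fun y hy1 hy2 hy3 => ?_⟩
    obtain ⟨G, hG⟩ := hj (fun s => y (en.symm s)) (fun s => hy1 _) (fun s => by
      have := hy2 (en.symm s)
      simp only [en.apply_symm_apply] at this
      exact this) (fun s t hst => by
      have h1 : en.symm s ≠ en.symm t := fun h => hst (en.symm.injective h)
      exact (le_dist_iff _ _ (hy1 _) (hy1 _)).mp (hy3 _ _ h1))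
    refine ⟨G, fun i => ?_⟩
    have := hG (en i)
    simp only [en.symm_apply_apply] at this
    exact this
  · intro hinf
    obtain ⟨A, hA1, hA2⟩ := hinf (fun i => fl (en i)) (fun i => fl_unit _) (fun i j hij hd => by
      rw [dist_eq_iff _ _ (X0_unit _) (X0_unit _)] at hd
      have h1 := dG_contact (en i) (en j) (fun h => hij (en.injective h)) hd
      unfold dG at h1
      have h2 := fl_unit (en i)
      have h3 := fl_unit (en j)
      rw [inner_sub_left, inner_sub_right, inner_sub_right, h2, h3]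
      have h4 : inner ℝ (X0 (en j)) (fl (en i)) = inner ℝ (fl (en i)) (X0 (en j)) :=
        real_inner_comm _ _
      rw [h4]
      linarith)
    apply dG_ne
    have e1 := hA2 (en.symm (Sum.inl 0))
    have e2 := hA2 (en.symm (Sum.inr (Sum.inr 0)))
    simp only [en.apply_symm_apply] at e1 e2
    unfold dG
    rw [e1, e2]
    have := hA1 (X0 (Sum.inl 0)) (X0 (Sum.inr (Sum.inr 0)))
    linarith

end Pool.Agent.S13411
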