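import Pool.Statements.S13834
import Pool.Agent.Helper68.BBQuot

set_option autoImplicit false
open Pool Pool.MP_bb3fde_gt

namespace Pool.Agent.S13834

/-- The negation of the preceding statement: For all Hausdorff spaces X, Y and every continuous closed surjection f from Y onto a space Z: if X × Y is paracompact, then X × Z is paracompact. -/
theorem result :
    ¬ (∀ (X Y Z : Type) [TopologicalSpace X] [TopologicalSpace Y] [TopologicalSpace Z]
      [T2Space X] [T2Space Y] (f : Y → Z),
      Continuous f → IsClosedMap f → Function.Surjective f →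
      ParacompactSpace (X × Y) → ParacompactSpace (X × Z)) := by
  intro h
  obtain ⟨P, R, B, hPR, hPB, hRB, hEP, hER, hsm, hBc⟩ := Pool.Agent.Helper68.BB.exists_sets
  have D : Pool.Agent.Helper68.BB.Data P R B := ⟨hPR, hPB, hRB, hEP, hER, hsm, hBc⟩
  have hXL := D.paracompact
  have hXY : ParacompactSpace (Pool.Agent.Helper68.BB.MT (P ∪ B) B ×
      Pool.Agent.Helper68.BB.YY R B) := by
    have h1 : ParacompactSpace ((Pool.Agent.Helper68.BB.MT (P ∪ B) B ×
      Pool.Agent.Helper68.BB.MT (R ∪ B) B) × OnePoint ℕ) := by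
      have hc : CompactSpace (OnePoint ℕ) := OnePoint.instCompactSpace
      have h2 := @instParacompactSpaceProdOfCompactSpace (OnePoint ℕ)
        (Pool.Agent.Helper68.BB.MT (P ∪ B) B × Pool.Agent.Helper68.BB.MT (R ∪ B) B) _ _ hc hXL
      exact (Homeomorph.paracompactSpace_iff (Homeomorph.prodComm _ _)).1 h2
    exact (Homeomorph.paracompactSpace_iff (Homeomorph.prodAssoc _ _ _)).1 h1
  exact D.not_paracompact (h (Pool.Agent.Helper68.BB.MT (P ∪ B) B)
    (Pool.Agent.Helper68.BB.YY R B) (Pool.Agent.Helper68.BB.ZZ R B)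
    (Pool.Agent.Helper68.BB.ff R B) Pool.Agent.Helper68.BB.continuous_ff D.isClosedMap_ff
    Pool.Agent.Helper68.BB.surjective_ff hXY)

end Pool.Agent.S13834
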