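import Pool.Statements.S14944
import Pool.Agent.Helper94.KC.Final

set_option autoImplicit false
open Pool Pool.MP_7c40ec_lc

namespace Pool.Agent.S14944

/-- The negation of the preceding statement: For any optimal plain machine, optimal prefix-free machine and optimal conditional plain machine, some constant c bounds, for every binary string x, the plain complexity of C(x) given the pair x and K(x). -/
theorem result :
    ¬ (∀ (W : List Bool →. List Bool) (V : List Bool →. List Bool)
    (U : List Bool → (List Bool × ℕ →. ℕ)),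
    Partrec W →
    (∀ M : List Bool →. List Bool, Partrec M →
      ∃ c : ℕ, ∀ (p : List Bool) (z : List Bool), z ∈ M p →
        ∃ q : List Bool, q.length ≤ p.length + c ∧ z ∈ W q) →
    Partrec V →
    (∀ p q : List Bool, (V p).Dom → (V q).Dom → p <+: q → p = q) →
    (∀ M : List Bool →. List Bool, Partrec M →
      (∀ p q : List Bool, (M p).Dom → (M q).Dom → p <+: q → p = q) →
      ∃ c : ℕ, ∀ (p : List Bool) (z : List Bool), z ∈ M p →
        ∃ q : List Bool, q.length ≤ p.length + c ∧ z ∈ V q) →
    Partrec₂ U →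
    (∀ M : List Bool → (List Bool × ℕ →. ℕ), Partrec₂ M →
      ∃ c : ℕ, ∀ (p : List Bool) (y : List Bool × ℕ) (z : ℕ), z ∈ M p y →
        ∃ q : List Bool, q.length ≤ p.length + c ∧ z ∈ U q y) →
    ∃ c : ℕ, ∀ x : List Bool,
      sInf {n : ℕ | ∃ p : List Bool, p.length = n ∧
        sInf {m : ℕ | ∃ q : List Bool, q.length = m ∧ x ∈ W q} ∈
          U p (x, sInf {m : ℕ | ∃ q : List Bool, q.length = m ∧ x ∈ V q})} ≤ c) := by
  intro h
  obtain ⟨c, hc⟩ := h Helper94.KC.Wu Helper94.KC.Vu Helper94.KC.Uu
    Helper94.KC.partrec_Wu Helper94.KC.Wu_optimal Helper94.KC.partrec_Vu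
    Helper94.KC.Vu_prefixFree Helper94.KC.Vu_optimal Helper94.KC.partrec_Uu
    Helper94.KC.Uu_optimal
  obtain ⟨x, hx⟩ := Helper94.KC.unbounded Helper94.KC.Wu Helper94.KC.Vu Helper94.KC.Uu
    Helper94.KC.partrec_Wu Helper94.KC.Wu_optimal Helper94.KC.partrec_Vu
    Helper94.KC.Vu_prefixFree Helper94.KC.Vu_optimal Helper94.KC.partrec_Uu
    Helper94.KC.Uu_optimal c
  exact absurd (hc x) (not_le.2 hx)

end Pool.Agent.S14944
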