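import Pool.Statements.S15098
import Pool.Agent.Helper95.UrqCount
import Pool.Agent.Helper95.UrqUpper

set_option autoImplicit false
open Pool Pool.MP_99441d_lc Pool.Agent.Helper95.Urq

namespace Pool.Agent.S15098

/-- The negation of the preceding statement: For every finite simple graph G and vertex labelling of odd total parity, any Resolution refutation of the Tseitin formula of size m can be replaced by a regular one (no edge resolved twice on any path) of size at most m. -/
theorem result :
    ¬ (∀ (V : Type) [Fintype V] [DecidableEq V] (G : SimpleGraph V) [DecidableRel G.Adj]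
      (l : V → ZMod 2),
      ∑ v, l v = 1 →
      ∀ (m : ℕ) (C : Fin m → Finset (Sym2 V × Bool)) (a : Fin m → Bool)
        (p q : Fin m → Fin m) (x : Fin m → Sym2 V),
        (∀ i : Fin m,
          (a i = true → ∃ v : V, ∃ S ⊆ G.incidenceFinset v, (S.card : ZMod 2) ≠ l v ∧
              C i = S.image (fun e => (e, false)) ∪
                (G.incidenceFinset v \ S).image (fun e => (e, true))) ∧
          (a i = false → p i < i ∧ q i < i ∧ (x i, true) ∈ C (p i) ∧
              (x i, false) ∈ C (q i) ∧
              C i = (C (p i)).erase (x i, true) ∪ (C (q i)).erase (x i, false))) →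
        (∃ i : Fin m, C i = ∅) →
        ∃ (n : ℕ) (D : Fin n → Finset (Sym2 V × Bool)) (b : Fin n → Bool)
          (p' q' : Fin n → Fin n) (y : Fin n → Sym2 V),
          n ≤ m ∧
          (∀ i : Fin n,
            (b i = true → ∃ v : V, ∃ S ⊆ G.incidenceFinset v, (S.card : ZMod 2) ≠ l v ∧
                D i = S.image (fun e => (e, false)) ∪
                  (G.incidenceFinset v \ S).image (fun e => (e, true))) ∧
            (b i = false → p' i < i ∧ q' i < i ∧ (y i, true) ∈ D (p' i) ∧
                (y i, false) ∈ D (q' i) ∧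
                D i = (D (p' i)).erase (y i, true) ∪ (D (q' i)).erase (y i, false))) ∧
          (∃ i : Fin n, D i = ∅) ∧
          ∀ i j : Fin n, b i = false → b j = false →
            Relation.TransGen (fun u w : Fin n => b w = false ∧ (u = p' w ∨ u = q' w)) j i →
            y j ≠ y i) := by
  intro H
  obtain ⟨L, hL, hlen, hnil⟩ := refutation (m := 6) (by norm_num)
  obtain ⟨C, hC, hC2⟩ := hL.toSeq
  have hpos : 0 < L.length := List.length_pos_of_mem hnil
  have hch : ∀ i : Fin L.length, ∃ t : Fin L.length × Fin L.length × Sym2 (Vx 6),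
      ¬ AX 6 (C i) → t.1 < i ∧ t.2.1 < i ∧ (t.2.2, true) ∈ C t.1 ∧ (t.2.2, false) ∈ C t.2.1 ∧
        C i = (C t.1).erase (t.2.2, true) ∪ (C t.2.1).erase (t.2.2, false) := by
    intro i
    rcases hC i with h | ⟨p, q, e, h⟩
    · exact ⟨(i, i, ed 0 0 0), fun hn => absurd h hn⟩
    · exact ⟨(p, q, e), fun _ => h⟩
  choose t ht using hch
  have hbool : ∀ i : Fin L.length, ∃ c : Bool, (c = true → AX 6 (C i)) ∧
      (c = false → ¬ AX 6 (C i)) := by
    intro i
    by_cases h : AX 6 (C i)
    · exact ⟨true, fun _ => h, fun h2 => absurd h2 (by simp)⟩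
    · exact ⟨false, fun h2 => absurd h2 (by simp), fun _ => h⟩
  choose a ha using hbool
  obtain ⟨n, D, b, p', q', y, hn, hD, ⟨r, hr⟩, hreg⟩ := H (Vx 6) (Gr 6) (lab 6) (lab_odd 6)
    L.length C a (fun i => (t i).1) (fun i => (t i).2.1)
    (fun i => (t i).2.2) (fun i => ⟨(ha i).1, fun h => ht i ((ha i).2 h)⟩) (hC2 ∅ hnil)
  have hlow := regular_lower (m := 6) (R := ⟨n, D, b, p', q', y, fun i => (hD i).2, r, hr, hreg⟩)
    (fun i => (hD i).1) (by norm_num)
  have h1 : 2 ^ (3 * 6 - 1) - 1 ≤ n := hlow
  have h2 : n ≤ cw 6 + (cn 6 + (cn 6 + (cn 6 + (2 ^ 6 - 1)))) := hn.trans hlen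
  norm_num [cw, cn] at h1 h2
  omega

end Pool.Agent.S15098
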