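import Pool.Statements.S15777
import Pool.Agent.Helper90.SchrodOp
import Pool.Agent.Helper90.Hull
import Pool.Agent.Helper90.EvenPot

set_option autoImplicit false
open MeasureTheory
open Pool Pool.MP_ad681e_mp

namespace Pool.Agent.S15777

/-- Some limit-periodic potential V on ℤ and some W in its hull give Schrödinger operators whose maximal spectral measures differ in whether a pure point, singular continuous, or absolutely continuous component is present. -/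
theorem result :
    ∃ V W : ℤ → ℝ,
      (∀ ε : ℝ, 0 < ε → ∃ P : ℤ → ℝ,
          (∃ p : ℤ, 0 < p ∧ ∀ n : ℤ, P (n + p) = P n) ∧ ∀ n : ℤ, |V n - P n| < ε) ∧
      (∀ ε : ℝ, 0 < ε → ∃ k : ℤ, ∀ n : ℤ, |W n - V (n + k)| < ε) ∧
      ∃ μ ν : Measure ℝ, IsFiniteMeasure μ ∧ IsFiniteMeasure ν ∧
        (∀ k : ℕ, Integrable (fun x : ℝ => x ^ k) μ ∧
          ∫ x, x ^ k ∂μ =
            ((fun ψ : ℤ → ℝ => fun n : ℤ => ψ (n + 1) + ψ (n - 1) + V n * ψ n)^[k]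
                (fun m : ℤ => if m = 0 then (1 : ℝ) else 0)) 0 +
            ((fun ψ : ℤ → ℝ => fun n : ℤ => ψ (n + 1) + ψ (n - 1) + V n * ψ n)^[k]
                (fun m : ℤ => if m = 1 then (1 : ℝ) else 0)) 1) ∧
        (∀ k : ℕ, Integrable (fun x : ℝ => x ^ k) ν ∧
          ∫ x, x ^ k ∂ν =
            ((fun ψ : ℤ → ℝ => fun n : ℤ => ψ (n + 1) + ψ (n - 1) + W n * ψ n)^[k]
                (fun m : ℤ => if m = 0 then (1 : ℝ) else 0)) 0 +
            ((fun ψ : ℤ → ℝ => fun n : ℤ => ψ (n + 1) + ψ (n - 1) + W n * ψ n)^[k]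
                (fun m : ℤ => if m = 1 then (1 : ℝ) else 0)) 1) ∧
        (¬ ((∃ x : ℝ, μ {x} ≠ 0) ↔ (∃ x : ℝ, ν {x} ≠ 0)) ∨
         ¬ ((∃ S : Set ℝ, MeasurableSet S ∧ volume S = 0 ∧ (∀ x ∈ S, μ {x} = 0) ∧ μ S ≠ 0) ↔
            (∃ S : Set ℝ, MeasurableSet S ∧ volume S = 0 ∧ (∀ x ∈ S, ν {x} = 0) ∧ ν S ≠ 0)) ∨
         ¬ ((¬ μ.MutuallySingular volume) ↔ (¬ ν.MutuallySingular volume))) := by
  obtain ⟨W, hWB, hWhull, hWno⟩ := Helper90.Hull.exists_hull Helper90.EvenPot.V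
    (2 * Real.exp 2) Helper90.EvenPot.V_bound Helper90.EvenPot.V_almostPeriodic
    Helper90.EvenPot.V_even
  obtain ⟨μ, hμf, hμm, hμa, -⟩ := Helper90.Schrod.exists_measure Helper90.EvenPot.V
    (2 * Real.exp 2) Helper90.EvenPot.V_bound
  obtain ⟨ν, hνf, hνm, -, hνe⟩ := Helper90.Schrod.exists_measure W (2 * Real.exp 2) hWB
  refine ⟨Helper90.EvenPot.V, W, Helper90.EvenPot.V_limitPeriodic, hWhull, μ, ν, hμf, hνf,
    hμm, hνm, Or.inl ?_⟩
  intro hiff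
  have h1 : ∃ x : ℝ, μ {x} ≠ 0 := by
    refine ⟨0, hμa 0 Helper90.EvenPot.psi Helper90.EvenPot.psi_summable
      Helper90.EvenPot.psi_eq ?_⟩
    exact (Real.exp_pos _).ne'
  obtain ⟨E, hE⟩ := hiff.mp h1
  obtain ⟨u, hu, heq, hne⟩ := hνe E hE
  exact hne (hWno E u hu heq)

end Pool.Agent.S15777
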