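import Pool.Statements.S16171

set_option autoImplicit false
open Filter Topology
open Pool Pool.MP_184037_nt

namespace Pool.Agent.S16171

/-- Truncated abundancy index: the sum of `1/d` over the divisors `d ≤ y` of `n`. -/
noncomputable def low (y n : ℕ) : ℝ :=
  ∑ d ∈ (Finset.Icc 1 y).filter (fun d => d ∣ n), (1 : ℝ) / (d : ℝ)

/-- The tail of the abundancy index: the sum of `1/d` over the divisors `d > y` of `n`. -/
noncomputable def tail (y n : ℕ) : ℝ :=
  ∑ d ∈ n.divisors.filter (fun d => y < d), (1 : ℝ) / (d : ℝ)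

lemma low_nonneg (y n : ℕ) : 0 ≤ low y n :=
  Finset.sum_nonneg (fun d _ => by positivity)

lemma tail_nonneg (y n : ℕ) : 0 ≤ tail y n :=
  Finset.sum_nonneg (fun d _ => by positivity)

/-- The truncated index is periodic modulo `y !`. -/
lemma low_mod (y n : ℕ) : low y n = low y (n % y.factorial) := by
  unfold low
  have h : (Finset.Icc 1 y).filter (fun d => d ∣ n)
      = (Finset.Icc 1 y).filter (fun d => d ∣ n % y.factorial) := by
    apply Finset.filter_congr
    intro d hd
    rw [Finset.mem_Icc] at hd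
    have hdv : d ∣ y.factorial := Nat.dvd_factorial (by omega) hd.2
    rw [Nat.dvd_mod_iff hdv]
  rw [h]

/-- `σ(n) / n` splits into the truncated index and the tail. -/
lemma sigma_eq (y n : ℕ) (hn : 1 ≤ n) :
    ((ArithmeticFunction.sigma 1 n : ℕ) : ℝ) = n * (low y n + tail y n) := by
  rw [ArithmeticFunction.sigma_one_apply]
  have h1 : (∑ d ∈ n.divisors, d) = ∑ d ∈ n.divisors, n / d :=
    (Nat.sum_div_divisors n (fun d => d)).symm
  rw [h1]
  push_cast
  have h2 : ∀ d ∈ n.divisors, ((n / d : ℕ) : ℝ) = n * (1 / (d : ℝ)) := by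
    intro d hd
    have hdn : d ∣ n := Nat.dvd_of_mem_divisors hd
    have hd0 : (d : ℝ) ≠ 0 := by
      have : d ≠ 0 := by
        rintro rfl
        have := Nat.pos_of_mem_divisors hd
        omega
      exact_mod_cast this
    rw [Nat.cast_div hdn hd0]
    ring
  rw [Finset.sum_congr rfl h2, ← Finset.mul_sum]
  congr 1
  unfold low tail
  rw [← Finset.sum_filter_not_add_sum_filter n.divisors (fun d => y < d)]
  congr 1
  apply Finset.sum_congr _ (fun _ _ => rfl)
  ext d
  simp only [Finset.mem_filter, Nat.mem_divisors, Finset.mem_Icc, not_lt]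
  constructor
  · rintro ⟨⟨h1, h2⟩, h3⟩
    exact ⟨⟨Nat.pos_of_dvd_of_pos h1 hn, h3⟩, h1⟩
  · rintro ⟨⟨h1, h2⟩, h3⟩
    exact ⟨⟨h3, by omega⟩, h2⟩

/-- The tail is small on average. -/
lemma sum_tail_le (y x : ℕ) (hy : 1 ≤ y) :
    ∑ n ∈ Finset.Ioc 0 x, tail y n ≤ (x : ℝ) / y := by
  have h1 : ∀ n ∈ Finset.Ioc 0 x, tail y n
      = ∑ d ∈ Finset.Ioc y x, if d ∣ n then (1 : ℝ) / d else 0 := by
    intro n hn
    rw [Finset.mem_Ioc] at hn
    unfold tail
    rw [← Finset.sum_filter]
    apply Finset.sum_congr _ (fun _ _ => rfl)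
    ext d
    simp only [Finset.mem_filter, Nat.mem_divisors, Finset.mem_Ioc]
    constructor
    · rintro ⟨⟨h1, h2⟩, h3⟩
      exact ⟨⟨h3, le_trans (Nat.le_of_dvd hn.1 h1) hn.2⟩, h1⟩
    · rintro ⟨⟨h1, h2⟩, h3⟩
      exact ⟨⟨h3, by omega⟩, h1⟩
  rw [Finset.sum_congr rfl h1, Finset.sum_comm]
  have h2 : ∀ d ∈ Finset.Ioc y x,
      (∑ n ∈ Finset.Ioc 0 x, if d ∣ n then (1 : ℝ) / d else 0) ≤ x * ((d : ℝ) ^ 2)⁻¹ := by
    intro d hd
    rw [Finset.mem_Ioc] at hd
    rw [← Finset.sum_filter, Finset.sum_const, Nat.Ioc_filter_dvd_card_eq_div, nsmul_eq_mul]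
    have hd0 : (0 : ℝ) < d := by
      have : 0 < d := by omega
      exact_mod_cast this
    have h3 : ((x / d : ℕ) : ℝ) ≤ (x : ℝ) / d := Nat.cast_div_le
    calc ((x / d : ℕ) : ℝ) * (1 / (d : ℝ)) ≤ (x : ℝ) / d * (1 / (d : ℝ)) := by
          apply mul_le_mul_of_nonneg_right h3; positivity
      _ = x * ((d : ℝ) ^ 2)⁻¹ := by field_simp
  refine (Finset.sum_le_sum h2).trans ?_
  rw [← Finset.mul_sum]
  rcases le_total y x with hyx | hyx
  · have h4 : ∑ i ∈ Finset.Ioc y x, ((i : ℝ) ^ 2)⁻¹ ≤ (y : ℝ)⁻¹ - (x : ℝ)⁻¹ :=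
      sum_Ioc_inv_sq_le_sub (by omega) hyx
    have h5 : (0 : ℝ) ≤ (x : ℝ)⁻¹ := by positivity
    calc (x : ℝ) * ∑ i ∈ Finset.Ioc y x, ((i : ℝ) ^ 2)⁻¹ ≤ x * (y : ℝ)⁻¹ := by
          apply mul_le_mul_of_nonneg_left _ (by positivity); linarith
      _ = x / y := by rw [div_eq_mul_inv]
  · rw [Finset.Ioc_eq_empty (by omega)]
    simp only [Finset.sum_empty, mul_zero]
    positivity

/-- Integers in a residue class and in an open interval. -/
lemma card_ap_le (x L r : ℕ) (hL : 1 ≤ L) (u v : ℝ) (huv : u ≤ v) :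
    (((Finset.range x).filter (fun n => n % L = r ∧ u < (n : ℝ) ∧ (n : ℝ) < v)).card : ℝ)
      ≤ (v - u) / L + 2 := by
  have hL0 : (0 : ℝ) < L := by exact_mod_cast hL
  have hsub : ((Finset.range x).filter (fun n => n % L = r ∧ u < (n : ℝ) ∧ (n : ℝ) < v)).card
      ≤ (Finset.Ioc ⌊u / L - 1⌋ ⌊v / L⌋).card := by
    apply Finset.card_le_card_of_injOn (fun n : ℕ => ((n / L : ℕ) : ℤ))
    · intro n hn
      simp only [Finset.coe_filter, Finset.mem_range, Set.mem_ofPred_eq] at hn
      obtain ⟨_, _, h3, h4⟩ := hn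
      simp only [Finset.coe_Ioc, Set.mem_Ioc]
      have hle : ((n / L : ℕ) : ℝ) ≤ (n : ℝ) / L := Nat.cast_div_le
      have hlt : (n : ℝ) / L - 1 < ((n / L : ℕ) : ℝ) := by
        have h5 : n < L * (n / L + 1) := Nat.lt_mul_div_succ n hL
        have h6 : (n : ℝ) < L * (((n / L : ℕ) : ℝ) + 1) := by exact_mod_cast h5
        rw [sub_lt_iff_lt_add, div_lt_iff₀ hL0]
        linarith
      constructor
      · rw [Int.floor_lt, Int.cast_natCast]
        have : u / L < (n : ℝ) / L := div_lt_div_of_pos_right h3 hL0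
        linarith
      · rw [Int.le_floor, Int.cast_natCast]
        have : (n : ℝ) / L < v / L := div_lt_div_of_pos_right h4 hL0
        linarith
    · intro a ha b hb hab
      simp only [Finset.coe_filter, Finset.mem_range, Set.mem_ofPred_eq] at ha hb
      have h1 : a / L = b / L := Int.natCast_inj.mp hab
      have h2 := Nat.div_add_mod a L
      have h3 := Nat.div_add_mod b L
      rw [← h2, ← h3, h1, ha.2.1, hb.2.1]
  have h1 : (((Finset.range x).filter
      (fun n => n % L = r ∧ u < (n : ℝ) ∧ (n : ℝ) < v)).card : ℝ)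
      ≤ ((Finset.Ioc ⌊u / L - 1⌋ ⌊v / L⌋).card : ℝ) := by exact_mod_cast hsub
  refine h1.trans ?_
  rw [Int.card_Ioc]
  have hnn : (0 : ℝ) ≤ (v - u) / L + 2 := by
    have : 0 ≤ (v - u) / L := div_nonneg (by linarith) hL0.le
    linarith
  have h2 : (((⌊v / L⌋ - ⌊u / L - 1⌋).toNat : ℤ) : ℝ) ≤ (v - u) / L + 2 := by
    rw [Int.toNat_eq_max]
    push_cast
    apply max_le _ hnn
    have h3 : (⌊v / L⌋ : ℝ) ≤ v / L := Int.floor_le _
    have h4 : u / L - 1 < (⌊u / L - 1⌋ : ℝ) + 1 := Int.lt_floor_add_one _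
    have h5 : (v - u) / L = v / L - u / L := sub_div _ _ _
    linarith
  exact_mod_cast h2

/-- The key estimate: for fixed `ε`, the number of `n` with `n + σ(n)` in `(x, x + ε x)`
is at most `4 ε x` once `x` is large. -/
lemma key (ε : ℝ) (hε : 0 < ε) (hε1 : ε ≤ 1) :
    ∃ X : ℕ, ∀ x : ℕ, X ≤ x → ∃ T : Finset ℕ,
      (∀ n : ℕ, (x : ℝ) < (n : ℝ) + ((ArithmeticFunction.sigma 1 n : ℕ) : ℝ) →
        (n : ℝ) + ((ArithmeticFunction.sigma 1 n : ℕ) : ℝ) < (x : ℝ) + ε * x → n ∈ T) ∧
      (T.card : ℝ) ≤ 4 * (ε * x) := by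
  obtain ⟨y, hy⟩ := exists_nat_ge (1 / ε ^ 2)
  have hy1 : 1 ≤ y := by
    by_contra h
    have : y = 0 := by omega
    subst this
    have : 0 < 1 / ε ^ 2 := by positivity
    simp only [Nat.cast_zero] at hy
    linarith
  set L := y.factorial with hLdef
  have hL : 1 ≤ L := Nat.factorial_pos y
  have hL0 : (0 : ℝ) < L := by exact_mod_cast hL
  obtain ⟨X, hX⟩ := exists_nat_ge (2 * L / ε)
  refine ⟨X, fun x hx => ?_⟩
  have hxX : 2 * L / ε ≤ (x : ℝ) := hX.trans (by exact_mod_cast hx)
  have hx2 : 2 * (L : ℝ) ≤ ε * x := by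
    rw [div_le_iff₀ hε] at hxX
    linarith
  have hx0 : (0 : ℝ) ≤ x := Nat.cast_nonneg x
  let u : ℕ → ℝ := fun r => (x - ε * x) / (1 + low y r)
  let v : ℕ → ℝ := fun r => (x + ε * x) / (1 + low y r)
  let E : Finset ℕ := (Finset.Ioc 0 x).filter (fun n => ε ≤ tail y n)
  let A : ℕ → Finset ℕ := fun r =>
    (Finset.range x).filter (fun n => n % L = r ∧ u r < (n : ℝ) ∧ (n : ℝ) < v r)
  refine ⟨E ∪ (Finset.range L).biUnion A, ?_, ?_⟩
  · intro n h1 h2
    have hn1 : 1 ≤ n := by
      by_contra h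
      have : n = 0 := by omega
      subst this
      simp only [Nat.cast_zero, ArithmeticFunction.map_zero, zero_add] at h1
      linarith
    have hn0 : (0 : ℝ) < n := by exact_mod_cast hn1
    have hσ := sigma_eq y n hn1
    have hσn : (n : ℝ) ≤ ((ArithmeticFunction.sigma 1 n : ℕ) : ℝ) := by
      rw [ArithmeticFunction.sigma_one_apply]
      have : n ≤ ∑ d ∈ n.divisors, d :=
        Finset.single_le_sum (f := fun d => d) (fun _ _ => Nat.zero_le _)
          (Nat.mem_divisors_self n (by omega))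
      exact_mod_cast this
    have hnx : n < x := by
      have : (n : ℝ) < x := by nlinarith
      exact_mod_cast this
    by_cases hE : ε ≤ tail y n
    · apply Finset.mem_union_left
      simp only [E, Finset.mem_filter, Finset.mem_Ioc]
      exact ⟨⟨hn1, hnx.le⟩, hE⟩
    · apply Finset.mem_union_right
      rw [Finset.mem_biUnion]
      refine ⟨n % L, Finset.mem_range.mpr (Nat.mod_lt _ hL), ?_⟩
      simp only [A, Finset.mem_filter, Finset.mem_range]
      have hlow : low y (n % L) = low y n := (low_mod y n).symm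
      have hpos : (0 : ℝ) < 1 + low y n := by
        have := low_nonneg y n
        linarith
      have htn := tail_nonneg y n
      push Not at hE
      refine ⟨hnx, trivial, ?_, ?_⟩
      · simp only [u]
        rw [hlow, div_lt_iff₀ hpos]
        have h3 : (n : ℝ) * tail y n ≤ x * ε := by
          apply mul_le_mul _ hE.le htn hx0
          exact_mod_cast hnx.le
        rw [hσ] at h1
        nlinarith
      · simp only [v]
        rw [hlow, lt_div_iff₀ hpos]
        rw [hσ] at h2
        have h3 : 0 ≤ (n : ℝ) * tail y n := by positivity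
        nlinarith
  · have hEcard : (E.card : ℝ) ≤ ε * x := by
      have h1 : (E.card : ℝ) * ε ≤ ∑ n ∈ E, tail y n := by
        have := Finset.card_nsmul_le_sum E (fun n => tail y n) ε (fun n hn => by
          simp only [E, Finset.mem_filter] at hn
          exact hn.2)
        rwa [nsmul_eq_mul] at this
      have h2 : ∑ n ∈ E, tail y n ≤ ∑ n ∈ Finset.Ioc 0 x, tail y n :=
        Finset.sum_le_sum_of_subset_of_nonneg (Finset.filter_subset _ _)
          (fun n _ _ => tail_nonneg y n)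
      have h3 := sum_tail_le y x hy1
      have hy0 : (0 : ℝ) < y := by exact_mod_cast hy1
      have h4 : (x : ℝ) / y ≤ ε ^ 2 * x := by
        rw [div_le_iff₀ hy0]
        have h5 : 1 ≤ ε ^ 2 * y := by
          rw [div_le_iff₀ (by positivity)] at hy
          linarith
        nlinarith
      have h6 : (E.card : ℝ) * ε ≤ (ε * x) * ε := by nlinarith
      exact le_of_mul_le_mul_right h6 hε
    have hA : ∀ r ∈ Finset.range L, ((A r).card : ℝ) ≤ 2 * ε * x / L + 2 := by
      intro r _
      have hpos : (1 : ℝ) ≤ 1 + low y r := by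
        have := low_nonneg y r
        linarith
      have huv : u r ≤ v r := by
        simp only [u, v]
        apply div_le_div_of_nonneg_right _ (by linarith)
        nlinarith
      refine (card_ap_le x L r hL (u r) (v r) huv).trans ?_
      have h1 : v r - u r ≤ 2 * ε * x := by
        simp only [u, v]
        rw [← sub_div]
        have h2 : (x + ε * x - (x - ε * x)) = 2 * ε * x := by ring
        rw [h2]
        apply div_le_self (by positivity) hpos
      have h3 : (v r - u r) / L ≤ 2 * ε * x / L := div_le_div_of_nonneg_right h1 hL0.le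
      linarith
    have hU : (((Finset.range L).biUnion A).card : ℝ) ≤ 2 * ε * x + 2 * L := by
      have h1 : ((Finset.range L).biUnion A).card ≤ ∑ r ∈ Finset.range L, (A r).card :=
        Finset.card_biUnion_le
      have h2 : (((Finset.range L).biUnion A).card : ℝ)
          ≤ ∑ r ∈ Finset.range L, ((A r).card : ℝ) := by exact_mod_cast h1
      refine h2.trans ((Finset.sum_le_sum hA).trans ?_)
      rw [Finset.sum_const, Finset.card_range, nsmul_eq_mul]
      have h3 : (L : ℝ) * (2 * ε * x / L + 2) = 2 * ε * x + 2 * L := by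
        field_simp
      rw [h3]
    have hT : ((E ∪ (Finset.range L).biUnion A).card : ℝ)
        ≤ (E.card : ℝ) + (((Finset.range L).biUnion A).card : ℝ) := by
      exact_mod_cast Finset.card_union_le _ _
    linarith

/-- It is not true that for every F tending to infinity with F(n)/σ(n) → 0 off a density-zero set, every constant C is beaten by #{n : x < n+σ(n) < x+F(x)} / F(x) for infinitely many x. -/
theorem result :
    ¬ ∀ F : ℕ → ℝ, Tendsto F atTop atTop →
      (∀ ε : ℝ, 0 < ε →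
        Tendsto (fun N : ℕ =>
          (((Finset.range N).filter
            (fun n => ε ≤ |F n / ((ArithmeticFunction.sigma 1 n : ℕ) : ℝ)|)).card : ℝ) / (N : ℝ))
          atTop (𝓝 0)) →
      ∀ C : ℝ, ∀ N : ℕ, ∃ x : ℕ, N < x ∧
        C * F x < (Nat.card {n : ℕ //
          (x : ℝ) < (n : ℝ) + ((ArithmeticFunction.sigma 1 n : ℕ) : ℝ) ∧
          (n : ℝ) + ((ArithmeticFunction.sigma 1 n : ℕ) : ℝ) < (x : ℝ) + F x} : ℝ) := by
  intro hall
  have hkey : ∀ k : ℕ, ∃ X : ℕ, ∀ x : ℕ, X ≤ x → ∃ T : Finset ℕ,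
      (∀ n : ℕ, (x : ℝ) < (n : ℝ) + ((ArithmeticFunction.sigma 1 n : ℕ) : ℝ) →
        (n : ℝ) + ((ArithmeticFunction.sigma 1 n : ℕ) : ℝ)
          < (x : ℝ) + (1 / ((k : ℝ) + 1)) * x → n ∈ T) ∧
      (T.card : ℝ) ≤ 4 * ((1 / ((k : ℝ) + 1)) * x) := by
    intro k
    apply key
    · positivity
    · rw [div_le_one (by positivity)]
      have : (0 : ℝ) ≤ k := Nat.cast_nonneg k
      linarith
  choose X hX using hkey
  -- the level function
  let κ : ℕ → ℕ := fun x => Nat.findGreatest (fun k => X k + (k + 1) ^ 2 ≤ x) x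
  let F : ℕ → ℝ := fun x => (1 / ((κ x : ℝ) + 1)) * x
  have hκspec : ∀ x : ℕ, X 0 + 1 ≤ x → X (κ x) + (κ x + 1) ^ 2 ≤ x := by
    intro x hx
    have := Nat.findGreatest_spec (P := fun k => X k + (k + 1) ^ 2 ≤ x) (m := 0) (n := x)
      (Nat.zero_le _) (by simpa using hx)
    exact this
  have hκtop : ∀ K : ℕ, ∀ x : ℕ, X K + (K + 1) ^ 2 ≤ x → K ≤ κ x := by
    intro K x hx
    apply Nat.le_findGreatest (P := fun k => X k + (k + 1) ^ 2 ≤ x) _ hx
    nlinarith
  have hF1 : Tendsto F atTop atTop := by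
    rw [tendsto_atTop]
    intro b
    obtain ⟨K, hK⟩ := exists_nat_ge b
    filter_upwards [eventually_ge_atTop (X K + (K + 1) ^ 2), eventually_ge_atTop (X 0 + 1)]
      with x hx hx0
    have h1 := hκspec x hx0
    have h2 := hκtop K x hx
    have h3 : ((κ x : ℝ) + 1) ^ 2 ≤ x := by
      have : (κ x + 1) ^ 2 ≤ x := by omega
      exact_mod_cast this
    have h4 : (K : ℝ) ≤ κ x := by exact_mod_cast h2
    have hpos : (0 : ℝ) < (κ x : ℝ) + 1 := by positivity
    have h5 : (κ x : ℝ) + 1 ≤ F x := by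
      simp only [F]
      rw [one_div, ← div_eq_inv_mul, le_div_iff₀ hpos]
      nlinarith
    linarith
  have hF2 : ∀ ε : ℝ, 0 < ε →
        Tendsto (fun N : ℕ =>
          (((Finset.range N).filter
            (fun n => ε ≤ |F n / ((ArithmeticFunction.sigma 1 n : ℕ) : ℝ)|)).card : ℝ) / (N : ℝ))
          atTop (𝓝 0) := by
    intro ε hε
    obtain ⟨K, hK⟩ := exists_nat_gt (1 / ε)
    set N0 := X K + (K + 1) ^ 2 with hN0
    have hbd : ∀ N : ℕ, (((Finset.range N).filter
            (fun n => ε ≤ |F n / ((ArithmeticFunction.sigma 1 n : ℕ) : ℝ)|)).card : ℝ)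
            ≤ N0 := by
      intro N
      have hsub : (Finset.range N).filter
            (fun n => ε ≤ |F n / ((ArithmeticFunction.sigma 1 n : ℕ) : ℝ)|)
            ⊆ Finset.range N0 := by
        intro n hn
        simp only [Finset.mem_filter, Finset.mem_range] at hn ⊢
        by_contra hge
        push Not at hge
        have h1 := hκtop K n hge
        have hn1 : 1 ≤ n := by nlinarith
        have hn0 : (0 : ℝ) < n := by exact_mod_cast hn1
        have hσn : (n : ℝ) ≤ ((ArithmeticFunction.sigma 1 n : ℕ) : ℝ) := by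
          rw [ArithmeticFunction.sigma_one_apply]
          have : n ≤ ∑ d ∈ n.divisors, d :=
            Finset.single_le_sum (f := fun d => d) (fun _ _ => Nat.zero_le _)
              (Nat.mem_divisors_self n (by omega))
          exact_mod_cast this
        have hσ0 : (0 : ℝ) < ((ArithmeticFunction.sigma 1 n : ℕ) : ℝ) := lt_of_lt_of_le hn0 hσn
        have h2 : |F n / ((ArithmeticFunction.sigma 1 n : ℕ) : ℝ)| < ε := by
          have hFn : 0 ≤ F n := by simp only [F]; positivity
          rw [abs_of_nonneg (div_nonneg hFn hσ0.le), div_lt_iff₀ hσ0]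
          have hKκ : (K : ℝ) ≤ κ n := by exact_mod_cast h1
          have h3 : 1 / ((κ n : ℝ) + 1) < ε := by
            rw [div_lt_iff₀ (by positivity)]
            rw [div_lt_iff₀ hε] at hK
            nlinarith
          calc F n = (1 / ((κ n : ℝ) + 1)) * n := rfl
            _ < ε * n := by apply mul_lt_mul_of_pos_right h3 hn0
            _ ≤ ε * ((ArithmeticFunction.sigma 1 n : ℕ) : ℝ) := by
                apply mul_le_mul_of_nonneg_left hσn hε.le
        linarith [hn.2]
      have := Finset.card_le_card hsub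
      rw [Finset.card_range] at this
      exact_mod_cast this
    have hlim : Tendsto (fun N : ℕ => (N0 : ℝ) / (N : ℝ)) atTop (𝓝 0) :=
      tendsto_const_div_atTop_nhds_zero_nat _
    refine squeeze_zero (fun N => by positivity) (fun N => ?_) hlim
    exact div_le_div_of_nonneg_right (hbd N) (Nat.cast_nonneg N)
  obtain ⟨x, hx, hlt⟩ := hall F hF1 hF2 4 (X 0 + 1)
  have h1 := hκspec x hx.le
  obtain ⟨T, hT1, hT2⟩ := hX (κ x) x (by omega)
  have hcard : (Nat.card {n : ℕ //
          (x : ℝ) < (n : ℝ) + ((ArithmeticFunction.sigma 1 n : ℕ) : ℝ) ∧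
          (n : ℝ) + ((ArithmeticFunction.sigma 1 n : ℕ) : ℝ) < (x : ℝ) + F x}) ≤ T.card := by
    have hsub : {n : ℕ |
          (x : ℝ) < (n : ℝ) + ((ArithmeticFunction.sigma 1 n : ℕ) : ℝ) ∧
          (n : ℝ) + ((ArithmeticFunction.sigma 1 n : ℕ) : ℝ) < (x : ℝ) + F x} ⊆ (T : Set ℕ) := by
      intro n hn
      exact hT1 n hn.1 hn.2
    have h2 := Set.ncard_le_ncard hsub T.finite_toSet
    rw [Set.ncard_coe_finset] at h2
    exact h2
  have hcard' : (Nat.card {n : ℕ //
          (x : ℝ) < (n : ℝ) + ((ArithmeticFunction.sigma 1 n : ℕ) : ℝ) ∧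
          (n : ℝ) + ((ArithmeticFunction.sigma 1 n : ℕ) : ℝ) < (x : ℝ) + F x} : ℝ)
          ≤ (T.card : ℝ) := by exact_mod_cast hcard
  have hFx : F x = (1 / ((κ x : ℝ) + 1)) * x := rfl
  rw [← hFx] at hT2
  linarith

end Pool.Agent.S16171
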