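import Pool.Statements.S16881
import Pool.Agent.Helper13.JO.Final
import Pool.Agent.Helper18.JO.Dens2
import Pool.Agent.Helper64.JO.PrimeBound
import Pool.Agent.Helper35.JO.Ideals
import Pool.Agent.Helper14.JO.Selberg
import Pool.Agent.Helper7.JO.Odd
-- import your own Pool.Agent.* helpers here

set_option autoImplicit false
open Pool Pool.MP_4d96c9_nt

namespace Pool.Agent.S16881

/-- For every monic integer quadratic whose iterates are all irreducible over ℚ and whose critical point has infinite orbit, and every integer α, the primes dividing some nonzero f^n(α), n≥1, have natural density 0 among primes. -/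
theorem result :
    ∀ f : Polynomial ℤ, f.Monic → f.natDegree = 2 →
      (∀ n : ℕ, 1 ≤ n →
        Irreducible (Polynomial.map (Int.castRingHom ℚ) ((f.comp)^[n] Polynomial.X))) →
      (∀ γ : ℚ,
        (Polynomial.derivative (Polynomial.map (Int.castRingHom ℚ) f)).eval γ = 0 →
        (Set.range (fun n : ℕ =>
          (fun x : ℚ => (Polynomial.map (Int.castRingHom ℚ) f).eval x)^[n] γ)).Infinite) →
      ∀ α : ℤ,
        Filter.Tendsto
          (fun N : ℕ =>
            (({p : ℕ | p ≤ N ∧ p.Prime ∧
                ∃ n : ℕ, 1 ≤ n ∧ (fun x : ℤ => f.eval x)^[n] α ≠ 0 ∧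
                  (p : ℤ) ∣ (fun x : ℤ => f.eval x)^[n] α}.ncard : ℝ) /
              (Nat.primeCounting N : ℝ)))
          Filter.atTop (nhds 0) := by
  intro f hm hd hirr hw α
  exact Pool.Agent.Helper13.JO.main
    (Pool.Agent.Helper18.JO.dens (Pool.Agent.Helper64.JO.prime_bound
      Pool.Agent.Helper35.JO.ideal_count Pool.Agent.Helper14.JO.selberg))
    Pool.Agent.Helper7.JO.oddPrimes f hm hd hirr hw α

end Pool.Agent.S16881
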