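import Pool.Statements.S17468
import Pool.Agent.Helper53.KO.G32

set_option autoImplicit false
open Filter Topology
open Pool Pool.MP_768c9c_nt

namespace Pool.Agent.S17468

/-- The negation of the preceding statement: For every completely multiplicative f on positive integers with complex values whose series sum f(n) converges to 0, there is c>0 with ∣sum over n≤N of f(n)∣ ≥ c/√N for infinitely many N. -/
theorem result :
    ¬ (∀ f : ℕ → ℂ,
      f 1 = 1 →
      (∀ m n : ℕ, 0 < m → 0 < n → f (m * n) = f m * f n) →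
      Tendsto (fun N : ℕ => ∑ n ∈ Finset.range N, f (n + 1)) atTop (𝓝 0) →
      ∃ c : ℝ, 0 < c ∧ ∀ M : ℕ, ∃ N : ℕ, M ≤ N ∧ 0 < N ∧
        c / Real.sqrt (N : ℝ) ≤ ‖∑ n ∈ Finset.Icc 1 N, f n‖) := by
  exact Pool.Agent.M20.Helper16.KS.target_final

end Pool.Agent.S17468
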