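import Pool.Statements.S17839
import Pool.Agent.Helper47.KG.Graph
import Pool.Agent.Helper6.KG6
import Pool.Agent.Helper32.KG1

set_option autoImplicit false
open MeasureTheory Filter
open Pool Pool.MP_97775c_nt

namespace Pool.Agent.S17839

/-- For every affine subspace of R^n of dimension at least 1 and every nonnegative non-increasing psi with sum of psi(q)^n divergent, almost every point x of the subspace has all coordinates of qx within psi(q) of integers for infinitely many q. -/
theorem result :
    ∀ (n d : ℕ), 1 ≤ d →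
      ∀ (a : Fin n → ℝ) (A : (Fin d → ℝ) →ₗ[ℝ] (Fin n → ℝ)),
        Function.Injective A →
        ∀ ψ : ℕ → ℝ, (∀ q, 0 ≤ ψ q) → Antitone ψ →
          ¬ Summable (fun q : ℕ => ψ q ^ n) →
          ∀ᵐ t ∂(volume : Measure (Fin d → ℝ)),
            ∃ᶠ q : ℕ in atTop, ∀ i : Fin n,
              |(q : ℝ) * (a i + A t i) - (round ((q : ℝ) * (a i + A t i)) : ℝ)| < ψ q := by
  apply Pool.Agent.Helper6.KG.result_of_graph
  intro d hd κ _ M c ψ h0 hψ hdiv
  have hK : 0 < ‖LinearMap.toContinuousLinearMap M‖ + 1 := by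
    have := norm_nonneg (LinearMap.toContinuousLinearMap M)
    linarith
  obtain ⟨k, m, Q, hk, hm, -, hQ, hψQ, hS⟩ := Pool.Agent.Helper32.KG.selection d
    (Fintype.card κ) hd ψ h0 hψ hdiv (‖LinearMap.toContinuousLinearMap M‖ + 1) hK
  exact Pool.Agent.Helper47.KG.graph_core d hd κ M c ψ hψ _ le_rfl k m Q hk hm hQ hψQ hS

end Pool.Agent.S17839
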