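import Pool.Statements.S19117
import Pool.Agent.Helper73.ERW.Main

set_option autoImplicit false
open Pool Pool.MP_055eb9_pr

namespace Pool.Agent.S19117

open MeasureTheory Pool.Agent.Helper73.ERW

/-- The unit vectors. -/
def vec (d : ℕ) (e : Fin d × Bool) : Fin d → ℤ := Pi.single e.1 (if e.2 then (1 : ℤ) else -1)

lemma vec_injective (d : ℕ) : Function.Injective (vec d) := by
  rintro ⟨i, b⟩ ⟨j, c⟩ h
  unfold vec at h
  simp only at h
  have h1 := congrFun h i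
  rw [Pi.single_eq_same] at h1
  have hij : i = j := by
    by_contra hne
    rw [Pi.single_eq_of_ne hne] at h1
    cases b <;> simp at h1
  subst hij
  rw [Pi.single_eq_same] at h1
  cases b <;> cases c <;> simp_all

lemma vec_closure (d : ℕ) : AddSubmonoid.closure (Set.range (vec d)) = ⊤ := by
  rw [eq_top_iff]
  intro v _
  have hv : v = ∑ i, Pi.single i (v i) := (Finset.univ_sum_single v).symm
  rw [hv]
  apply sum_mem
  intro i _
  have hnat : ∀ (b : Bool) (k : ℕ), (Pi.single i ((if b then (1 : ℤ) else -1) * k) : Fin d → ℤ) ∈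
      AddSubmonoid.closure (Set.range (vec d)) := by
    intro b k
    have : (Pi.single i ((if b then (1 : ℤ) else -1) * k) : Fin d → ℤ) = k • vec d (i, b) := by
      unfold vec
      simp only
      rw [← Pi.single_smul, nsmul_eq_mul, mul_comm]
    rw [this]
    have hmem : vec d (i, b) ∈ AddSubmonoid.closure (Set.range (vec d)) :=
      AddSubmonoid.subset_closure (Set.mem_range_self (i, b))
    exact AddSubmonoid.nsmul_mem _ hmem k
  rcases Int.eq_nat_or_neg (v i) with ⟨k, hk | hk⟩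
  · have := hnat true k
    simpa [hk] using this
  · have := hnat false k
    simpa [hk] using this

lemma cnt_eq {d : ℕ} (p : ℕ → (Fin d → ℤ)) (n : ℕ) :
    (Finset.univ.filter (fun m : Fin (n + 1) => (m : ℕ) < n ∧ p m = p (Fin.last n))).card =
      cnt p n := by
  unfold cnt
  apply Finset.card_bij (fun (m : Fin (n + 1)) _ => (m : ℕ))
  · intro m hm
    rw [Finset.mem_filter] at hm
    rw [Finset.mem_filter, Finset.mem_range]
    exact ⟨hm.2.1, hm.2.2⟩
  · intro a _ b _ h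
    exact Fin.ext h
  · intro b hb
    rw [Finset.mem_filter, Finset.mem_range] at hb
    exact ⟨⟨b, by omega⟩, by
      rw [Finset.mem_filter]
      exact ⟨Finset.mem_univ _, hb.1, hb.2⟩, rfl⟩

/-- For d≥2, any excited random walk on Z^d from 0 in an i.i.d. uniformly elliptic cookie environment either a.s. visits every site infinitely often, or a.s. visits every site only finitely often. -/
theorem result :
  ∀ (d : ℕ), 2 ≤ d →
  ∀ (Ω : Type) [MeasurableSpace Ω] (μ : MeasureTheory.Measure Ω) [MeasureTheory.IsProbabilityMeasure μ]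
    (ω : Ω → (Fin d → ℤ) → (Fin d × Bool) → ℕ → ℝ) (X : ℕ → Ω → (Fin d → ℤ)),
    Measurable ω → (∀ n, Measurable (X n)) →
    ProbabilityTheory.iIndepFun (fun (z : Fin d → ℤ) (a : Ω) => ω a z) μ →
    (∀ z : Fin d → ℤ, ProbabilityTheory.IdentDistrib (fun a => ω a z) (fun a => ω a 0) μ μ) →
    (∃ κ : ℝ, 0 < κ ∧ ∀ᵐ a ∂μ, ∀ (z : Fin d → ℤ) (e : Fin d × Bool) (k : ℕ), κ ≤ ω a z e k) →
    (∀ᵐ a ∂μ, ∀ (z : Fin d → ℤ) (k : ℕ), ∑ e : Fin d × Bool, ω a z e k = 1) →
    (∀ᵐ a ∂μ, X 0 a = 0) →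
    (∀ (n : ℕ) (x : Fin (n + 1) → (Fin d → ℤ)) (e : Fin d × Bool)
        (A : Set ((Fin d → ℤ) → (Fin d × Bool) → ℕ → ℝ)), MeasurableSet A →
      μ.real {a | ω a ∈ A ∧ (∀ m : Fin (n + 1), X (m : ℕ) a = x m) ∧
          X (n + 1) a = x (Fin.last n) + Pi.single e.1 (if e.2 then (1 : ℤ) else -1)} =
      ∫ a in {a | ω a ∈ A ∧ ∀ m : Fin (n + 1), X (m : ℕ) a = x m},
        ω a (x (Fin.last n)) e
          ((Finset.univ.filter (fun m : Fin (n + 1) => (m : ℕ) < n ∧ x m = x (Fin.last n))).card) ∂μ) →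
    (∀ᵐ a ∂μ, ∀ z : Fin d → ℤ, ∃ᶠ n in Filter.atTop, X n a = z) ∨
    (∀ᵐ a ∂μ, ∀ z : Fin d → ℤ, ∀ᶠ n in Filter.atTop, X n a ≠ z) := by
  intro d hd Ω _ μ _ ω X hω hX hind hid hell hsum h0 hstep
  obtain ⟨κ, hκ, hell⟩ := hell
  have : Nonempty (Fin d) := ⟨⟨0, by omega⟩⟩
  have : Infinite (Fin d → ℤ) := inferInstance
  apply erw_zero_one (vec d) (vec_injective d) (vec_closure d) hω hX hind hid hκ hell hsum h0
  intro n p e A hA
  have h1 := hstep n (fun m => p m) e A hA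
  rw [cnt_eq p n] at h1
  have h2 : {a | ω a ∈ A ∧ (∀ m ≤ n, X m a = p m) ∧ X (n + 1) a = p n + vec d e} =
      {a | ω a ∈ A ∧ (∀ m : Fin (n + 1), X (m : ℕ) a = (fun m : Fin (n + 1) => p m) m) ∧
        X (n + 1) a = (fun m : Fin (n + 1) => p m) (Fin.last n) +
          Pi.single e.1 (if e.2 then (1 : ℤ) else -1)} := by
    ext a
    constructor
    · rintro ⟨h1, h2, h3⟩
      exact ⟨h1, fun m => h2 m (Nat.lt_succ_iff.mp m.2), h3⟩
    · rintro ⟨h1, h2, h3⟩
      exact ⟨h1, fun m hm => h2 ⟨m, Nat.lt_succ_iff.mpr hm⟩, h3⟩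
  have h3 : {a | ω a ∈ A ∧ ∀ m ≤ n, X m a = p m} =
      {a | ω a ∈ A ∧ ∀ m : Fin (n + 1), X (m : ℕ) a = (fun m : Fin (n + 1) => p m) m} := by
    ext a
    constructor
    · rintro ⟨h1, h2⟩
      exact ⟨h1, fun m => h2 m (Nat.lt_succ_iff.mp m.2)⟩
    · rintro ⟨h1, h2⟩
      exact ⟨h1, fun m hm => h2 ⟨m, Nat.lt_succ_iff.mpr hm⟩⟩
  rw [h2, h3]
  exact h1

end Pool.Agent.S19117
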