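import Pool.Statements.S19170
import Pool.Agent.Helper68.KurFinal

set_option autoImplicit false
open Classical
open Pool Pool.MP_1448dd_pr

namespace Pool.Agent.S19170

/-- The negation of the preceding statement: Among labeled 3-regular graphs on 2m vertices, the fraction whose energy ½Σ_{i~j}(1−cos(θi−θj)) has only local minima with all θi equal mod 2π tends to 1 as m→∞. -/
theorem result :
    ¬ (Filter.Tendsto (fun m : ℕ =>
      (((Finset.univ : Finset (SimpleGraph (Fin (2 * m)))).filter (fun G =>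
          (∀ v : Fin (2 * m), (Finset.univ.filter (fun w => G.Adj v w)).card = 3) ∧
          ∀ θ : Fin (2 * m) → ℝ,
            IsLocalMin (fun φ : Fin (2 * m) → ℝ =>
              (1 / 2 : ℝ) * ∑ i, ∑ j, (if G.Adj i j then 1 - Real.cos (φ i - φ j) else 0)) θ →
            ∀ i j : Fin (2 * m), ∃ k : ℤ, θ i - θ j = 2 * Real.pi * (k : ℝ))).card : ℝ) /
      (((Finset.univ : Finset (SimpleGraph (Fin (2 * m)))).filter (fun G =>
          ∀ v : Fin (2 * m), (Finset.univ.filter (fun w => G.Adj v w)).card = 3)).card : ℝ))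
      Filter.atTop (nhds 1)) := by
  intro htend
  obtain ⟨γ, hγ, hfreq⟩ := Pool.Agent.Helper68.Kur.frequently_nonsync
  have h1 := (tendsto_order.1 htend).1 (1 - γ) (by linarith)
  rw [Filter.eventually_atTop] at h1
  obtain ⟨M, hM⟩ := h1
  obtain ⟨m, ⟨hpos, hle⟩, hm⟩ := (hfreq.and_eventually (Filter.eventually_ge_atTop M)).exists
  have h2 := hM (m + 2) (by omega)
  have he : 2 * (m + 2) = 2 * m + 4 := by ring
  rw [he] at h2
  set N4 := Pool.Agent.Helper68.Kur.Cub (Fin (2 * m + 4)) with hN4
  have e1 : ((Finset.univ : Finset (SimpleGraph (Fin (2 * m + 4)))).filter (fun G =>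
          ∀ v : Fin (2 * m + 4), (Finset.univ.filter (fun w => G.Adj v w)).card = 3)) = N4 := by
    ext G
    simp only [hN4, Pool.Agent.Helper68.Kur.Cub, Finset.mem_filter, Finset.mem_univ, true_and]
  have e2 : ((Finset.univ : Finset (SimpleGraph (Fin (2 * m + 4)))).filter (fun G =>
          (∀ v : Fin (2 * m + 4), (Finset.univ.filter (fun w => G.Adj v w)).card = 3) ∧
          ∀ θ : Fin (2 * m + 4) → ℝ,
            IsLocalMin (fun φ : Fin (2 * m + 4) → ℝ =>
              (1 / 2 : ℝ) * ∑ i, ∑ j, (if G.Adj i j then 1 - Real.cos (φ i - φ j) else 0)) θ →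
            ∀ i j : Fin (2 * m + 4), ∃ k : ℤ, θ i - θ j = 2 * Real.pi * (k : ℝ))) =
      N4.filter (fun G => ¬ Pool.Agent.Helper68.Kur.NonSync G) := by
    ext G
    simp only [hN4, Pool.Agent.Helper68.Kur.Cub, Finset.mem_filter, Finset.mem_univ, true_and,
      Pool.Agent.Helper68.Kur.NonSync, not_exists, not_and, not_forall, ne_eq, not_not]
  rw [e1, e2] at h2
  have h3 : (N4.filter (fun G => Pool.Agent.Helper68.Kur.NonSync G)).card +
      (N4.filter (fun G => ¬ Pool.Agent.Helper68.Kur.NonSync G)).card = N4.card :=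
    Finset.card_filter_add_card_filter_not _
  have h3' : ((N4.filter (fun G => Pool.Agent.Helper68.Kur.NonSync G)).card : ℝ) +
      ((N4.filter (fun G => ¬ Pool.Agent.Helper68.Kur.NonSync G)).card : ℝ) = (N4.card : ℝ) := by
    exact_mod_cast h3
  have hpos' : (0 : ℝ) < (N4.card : ℝ) := by exact_mod_cast hpos
  rw [lt_div_iff₀ hpos'] at h2
  linarith

end Pool.Agent.S19170
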