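-- Davidson's conjecture on the critical value of standard p-functions (frozen statement S19579).
import Pool.Statements.S19579
import Pool.Agent.Helper70.Br4

set_option autoImplicit false
open MeasureTheory
open Pool Pool.MP_b4adac_pr

namespace Pool.Agent.S19579

/-- Over standard p-functions (Kingman's canonical Laplace form, continuous on [0,∞)), the infimum of those M in (0,1] for which p(1)=M forces a uniform positive lower bound on p over [0,1] equals 1/e. -/
theorem result :
    IsGLB {M : ℝ | M ∈ Set.Ioc (0:ℝ) 1 ∧ ∃ δ : ℝ, 0 < δ ∧ ∀ p : ℝ → ℝ,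
      (ContinuousOn p (Set.Ici 0) ∧ ∃ μ : Measure ℝ, μ (Set.Iic 0) = 0 ∧
        Integrable (fun x : ℝ => 1 - Real.exp (-x)) μ ∧ ∃ a : ℝ, 0 ≤ a ∧
        ∀ s : ℝ, 0 < s →
          (∫ t in Set.Ioi (0:ℝ), Real.exp (-(s * t)) * p t) *
            (s + a + ∫ x, (1 - Real.exp (-(s * x))) ∂μ) = 1) →
      p 1 = M → ∀ t ∈ Set.Icc (0:ℝ) 1, δ ≤ p t} (Real.exp (-1)) := by
  have he1 : Real.exp (-1) < 1 := by
    rw [← Real.exp_zero]
    exact Real.exp_lt_exp.2 (by norm_num)
  constructor
  · rintro M ⟨⟨hM0, hM1⟩, δ, hδ, h⟩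
    by_contra hcon
    push Not at hcon
    obtain ⟨p, hp, hp1, hp2⟩ := Pool.Agent.Helper70.example_half hM0 hcon hδ
    have := h p hp hp1 (1 / 2) ⟨by norm_num, by norm_num⟩
    linarith
  · intro b hb
    by_contra hcon
    push Not at hcon
    -- a value of `M` strictly between
    obtain ⟨M, hM1, hM2⟩ := exists_between (lt_min hcon he1)
    obtain ⟨M0, hM01, hM02⟩ := exists_between hM1
    obtain ⟨δ, hδ, hδ'⟩ := Pool.Agent.Helper70.upper_half hM01
    have hmem : b ≤ M := by
      refine hb ⟨⟨(Real.exp_pos _).trans hM1, (hM2.trans_le (min_le_right _ _)).le⟩, δ, hδ, ?_⟩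
      intro p hp hp1 t ht
      by_contra hlt
      push Not at hlt
      have := hδ' p hp ⟨t, ht, hlt⟩
      linarith
    have := hM2.trans_le (min_le_left _ _)
    linarith

end Pool.Agent.S19579
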